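import Mathlib

/-! # Limits along an idempotent ultrafilter and the types used for exact two-sums

Helper file for `MP_6f9266_lc` (Hindman's theorem for exact sums). -/

open Filter

namespace Run7.h474.HTW

attribute [local instance] Ultrafilter.add Ultrafilter.addSemigroup

/-- `p` is an idempotent ultrafilter on `ℕ` containing all the ideals `2 ^ N ℕ` and the set of
nonzero numbers. -/
structure Idem (p : Ultrafilter ℕ) : Prop where
  idem : ∀ P : ℕ → Prop, (∀ᶠ n in (p : Filter ℕ), P n) ↔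
      ∀ᶠ n in (p : Filter ℕ), ∀ᶠ m in (p : Filter ℕ), P (n + m)
  ne_zero : ∀ᶠ n in (p : Filter ℕ), n ≠ 0
  dvd : ∀ N, ∀ᶠ n in (p : Filter ℕ), 2 ^ N ∣ n

theorem exists_const {α : Type*} (U : Ultrafilter α) {β : Type*} [Finite β] (F : α → β) :
    ∃ i, ∀ᶠ x in (U : Filter α), F x = i := by
  obtain ⟨i, hi⟩ := Ultrafilter.eq_pure_of_finite (U.map F)
  refine ⟨i, ?_⟩
  have : {i} ∈ (U.map F) := by rw [hi]; exact Set.mem_singleton i
  exact this

theorem exists_idem : ∃ p : Ultrafilter ℕ, Idem p := by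
  obtain ⟨p, hp, hpp⟩ := exists_idempotent_in_compact_add_subsemigroup
    (M := Ultrafilter ℕ) Ultrafilter.continuous_add_left {U | {n : ℕ | n ≠ 0} ∈ U}
    ⟨pure 1, by simp⟩ (ultrafilter_isClosed_basic _).isCompact (by
      intro U hU V hV
      change ∀ᶠ m in ((U + V : Ultrafilter ℕ) : Filter ℕ), m ≠ 0
      rw [Ultrafilter.eventually_add]
      have hU' : ∀ᶠ m in (U : Filter ℕ), m ≠ 0 := hU
      have hV' : ∀ᶠ m in (V : Filter ℕ), m ≠ 0 := hV
      filter_upwards [hU'] with a ha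
      filter_upwards [hV'] with b hb
      omega)
  have hid : ∀ P : ℕ → Prop, (∀ᶠ n in (p : Filter ℕ), P n) ↔
      ∀ᶠ n in (p : Filter ℕ), ∀ᶠ m in (p : Filter ℕ), P (n + m) := by
    intro P
    rw [← Ultrafilter.eventually_add, hpp]
  refine ⟨p, hid, hp, fun N => ?_⟩
  obtain ⟨c, hc⟩ := exists_const p (fun n : ℕ => (Fin.ofNat (2 ^ N) n : Fin (2 ^ N)))
  have hc' : ∀ᶠ n in (p : Filter ℕ), n % 2 ^ N = c.val := by
    filter_upwards [hc] with n hn
    rw [← hn]; rfl
  have h2 := (hid _).1 hc'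
  have h3 : ∀ᶠ n in (p : Filter ℕ), ∀ᶠ m in (p : Filter ℕ), (c.val + c.val) % 2 ^ N = c.val := by
    filter_upwards [h2, hc'] with n hn hn'
    filter_upwards [hn, hc'] with m hm hm'
    rw [Nat.add_mod, hn', hm'] at hm
    exact hm
  have h4 : (c.val + c.val) % 2 ^ N = c.val := by
    obtain ⟨n, hn⟩ := h3.exists
    obtain ⟨m, hm⟩ := hn.exists
    exact hm
  have h5 : c.val = 0 := by
    have hlt := c.isLt
    by_cases h : c.val + c.val < 2 ^ N
    · rw [Nat.mod_eq_of_lt h] at h4; omega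
    · have h6 : (c.val + c.val) % 2 ^ N = c.val + c.val - 2 ^ N := by
        rw [Nat.mod_eq_sub_mod (by omega), Nat.mod_eq_of_lt (by omega)]
      omega
  filter_upwards [hc'] with n hn
  exact Nat.dvd_of_mod_eq_zero (by rw [hn, h5])

section Types

variable {K : ℕ} (p : Ultrafilter ℕ)

/-- the value taken by `F` along the ultrafilter -/
noncomputable def ulim (F : ℕ → Fin K) : Fin K := (exists_const p F).choose

theorem ulim_spec (F : ℕ → Fin K) : ∀ᶠ x in (p : Filter ℕ), F x = ulim p F :=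
  (exists_const p F).choose_spec

theorem ulim_eq {F : ℕ → Fin K} {i : Fin K} :
    ulim p F = i ↔ ∀ᶠ x in (p : Filter ℕ), F x = i := by
  constructor
  · intro h
    have := ulim_spec p F
    rwa [h] at this
  · intro h
    obtain ⟨x, hx, hx'⟩ := (h.and (ulim_spec p F)).exists
    rw [← hx', hx]

/-- the colour of `s + 4 g` for `g → p`, in the colouring `φ σ` -/
noncomputable def view (φ : ℕ → ℕ → Fin K) (σ s : ℕ) : Fin K :=
  ulim p (fun g => φ σ (s + 4 * g))

/-- the type of a word of coefficients -/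
noncomputable def T (φ : ℕ → ℕ → Fin K) : List ℕ → ℕ → ℕ → Fin K
  | [], σ, s => ulim p (fun η => view p φ (σ + η) s)
  | c :: w, σ, s => ulim p (fun η => ulim p (fun g => T φ w (σ + η) (s + c * g)))

variable {p} (hp : Idem p) {φ : ℕ → ℕ → Fin K} {i : Fin K}


include hp

theorem T_idem {w : List ℕ} {σ s : ℕ} (h : T p φ w σ s = i) :
    ∀ᶠ η in (p : Filter ℕ), T p φ w (σ + η) s = i := by
  cases w with
  | nil =>
    rw [T, ulim_eq, hp.idem] at h
    filter_upwards [h] with η hη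
    rw [T, ulim_eq]
    filter_upwards [hη] with η' hη'
    rw [add_assoc]; exact hη'
  | cons c w =>
    rw [T, ulim_eq, hp.idem] at h
    filter_upwards [h] with η hη
    rw [T, ulim_eq]
    filter_upwards [hη] with η' hη'
    rw [add_assoc]; exact hη'

omit hp in
theorem T_cons {c : ℕ} {w : List ℕ} {σ s : ℕ} (h : T p φ (c :: w) σ s = i) :
    ∀ᶠ η in (p : Filter ℕ), ∀ᶠ g in (p : Filter ℕ), T p φ w (σ + η) (s + c * g) = i := by
  rw [T, ulim_eq] at h
  filter_upwards [h] with η hη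
  rwa [ulim_eq] at hη

/-- the three words can be realized by numbers `A`, `A'` -/
def Reach (p : Ultrafilter ℕ) (φ : ℕ → ℕ → Fin K) (i : Fin K) (w0 w1 w2 : List ℕ) : Prop :=
  ∃ σ A A' : ℕ, T p φ w0 σ (2 * A) = i ∧ T p φ w1 σ (A + A') = i ∧ T p φ w2 σ (2 * A') = i

omit hp in
theorem Reach.const2 {w0 w1 w2 : List ℕ}
    (h : Reach p φ i (2 :: w0) (2 :: w1) (2 :: w2)) : Reach p φ i w0 w1 w2 := by
  obtain ⟨σ, A, A', h0, h1, h2⟩ := h
  obtain ⟨η, ⟨e0, e1⟩, e2⟩ := (((T_cons h0).and (T_cons h1)).and (T_cons h2)).exists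
  obtain ⟨g, ⟨f0, f1⟩, f2⟩ := ((e0.and e1).and e2).exists
  refine ⟨σ + η, A + g, A' + g, ?_, ?_, ?_⟩
  · rw [mul_add]; exact f0
  · rw [show A + g + (A' + g) = A + A' + 2 * g by ring]; exact f1
  · rw [mul_add]; exact f2

omit hp in
theorem Reach.const4 {w0 w1 w2 : List ℕ}
    (h : Reach p φ i (4 :: w0) (4 :: w1) (4 :: w2)) : Reach p φ i w0 w1 w2 := by
  obtain ⟨σ, A, A', h0, h1, h2⟩ := h
  obtain ⟨η, ⟨e0, e1⟩, e2⟩ := (((T_cons h0).and (T_cons h1)).and (T_cons h2)).exists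
  obtain ⟨g, ⟨f0, f1⟩, f2⟩ := ((e0.and e1).and e2).exists
  refine ⟨σ + η, A + 2 * g, A' + 2 * g, ?_, ?_, ?_⟩
  · rw [show 2 * (A + 2 * g) = 2 * A + 4 * g by ring]; exact f0
  · rw [show A + 2 * g + (A' + 2 * g) = A + A' + 4 * g by ring]; exact f1
  · rw [show 2 * (A' + 2 * g) = 2 * A' + 4 * g by ring]; exact f2

theorem Reach.left {w0 w1 w2 : List ℕ}
    (h : Reach p φ i (4 :: w0) (2 :: w1) w2) : Reach p φ i w0 w1 w2 := by
  obtain ⟨σ, A, A', h0, h1, h2⟩ := h
  obtain ⟨η, ⟨e0, e1⟩, e2⟩ := (((T_cons h0).and (T_cons h1)).and (T_idem hp h2)).exists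
  obtain ⟨g, f0, f1⟩ := (e0.and e1).exists
  refine ⟨σ + η, A + 2 * g, A', ?_, ?_, e2⟩
  · rw [show 2 * (A + 2 * g) = 2 * A + 4 * g by ring]; exact f0
  · rw [show A + 2 * g + A' = A + A' + 2 * g by ring]; exact f1

theorem Reach.right {w0 w1 w2 : List ℕ}
    (h : Reach p φ i w0 (2 :: w1) (4 :: w2)) : Reach p φ i w0 w1 w2 := by
  obtain ⟨σ, A, A', h0, h1, h2⟩ := h
  obtain ⟨η, ⟨e0, e1⟩, e2⟩ := (((T_idem hp h0).and (T_cons h1)).and (T_cons h2)).exists
  obtain ⟨g, f1, f2⟩ := (e1.and e2).exists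
  refine ⟨σ + η, A, A' + 2 * g, e0, ?_, ?_⟩
  · rw [show A + (A' + 2 * g) = A + A' + 2 * g by ring]; exact f1
  · rw [show 2 * (A' + 2 * g) = 2 * A' + 4 * g by ring]; exact f2

theorem Reach.merge {w0 w1 w2 : List ℕ}
    (h : Reach p φ i (4 :: w0) (2 :: w1) (4 :: w2)) : Reach p φ i w0 w1 w2 := by
  obtain ⟨σ, A, A', h0, h1, h2⟩ := h
  obtain ⟨η, ⟨e0, e1⟩, e2⟩ := (((T_cons h0).and (T_cons h1)).and (T_cons h2)).exists
  rw [hp.idem] at e1
  obtain ⟨g, f0, f1⟩ := (e0.and e1).exists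
  obtain ⟨g', f1', f2⟩ := (f1.and e2).exists
  refine ⟨σ + η, A + 2 * g, A' + 2 * g', ?_, ?_, ?_⟩
  · rw [show 2 * (A + 2 * g) = 2 * A + 4 * g by ring]; exact f0
  · rw [show A + 2 * g + (A' + 2 * g') = A + A' + 2 * (g + g') by ring]; exact f1'
  · rw [show 2 * (A' + 2 * g') = 2 * A' + 4 * g' by ring]; exact f2

omit hp in
theorem Reach.prefix2 (n : ℕ) {w0 w1 w2 : List ℕ}
    (h : Reach p φ i (List.replicate n 2 ++ w0) (List.replicate n 2 ++ w1)
      (List.replicate n 2 ++ w2)) : Reach p φ i w0 w1 w2 := by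
  induction n with
  | zero => simpa using h
  | succ n ih =>
    apply ih
    simp only [List.replicate_succ, List.cons_append] at h
    exact h.const2

omit hp in
theorem Reach.prefix4 (n : ℕ) {w0 w1 w2 : List ℕ}
    (h : Reach p φ i (List.replicate n 4 ++ w0) (List.replicate n 4 ++ w1)
      (List.replicate n 4 ++ w2)) : Reach p φ i w0 w1 w2 := by
  induction n with
  | zero => simpa using h
  | succ n ih =>
    apply ih
    simp only [List.replicate_succ, List.cons_append] at h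
    exact h.const4

theorem Reach.pairs (n : ℕ) {w0 w1 w2 : List ℕ}
    (h : Reach p φ i (List.replicate n 4 ++ w0) (List.replicate (2 * n) 2 ++ w1)
      (List.replicate n 4 ++ w2)) : Reach p φ i w0 w1 w2 := by
  induction n with
  | zero => simpa using h
  | succ n ih =>
    apply ih
    rw [show 2 * (n + 1) = 2 * n + 1 + 1 by ring] at h
    simp only [List.replicate_succ, List.cons_append] at h
    exact (h.left hp).right hp

/-- the words used in the pigeonhole argument -/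
def word (K l : ℕ) : List ℕ := List.replicate (2 * l) 2 ++ List.replicate (K + 1 - l) 4

theorem reach_of_eq {a b : ℕ} (hab : a < b) (hb : b ≤ K)
    (ha' : T p φ (word K a) 0 0 = i) (hb' : T p φ (word K b) 0 0 = i) :
    Reach p φ i [] [4] [] := by
  obtain ⟨D, rfl⟩ : ∃ D, b = a + D + 1 := ⟨b - a - 1, by omega⟩
  obtain ⟨d, hd⟩ : ∃ d, K + 1 - (a + D + 1) = d + 1 := ⟨K + 1 - (a + D + 1) - 1, by omega⟩
  have h0 : Reach p φ i (word K a) (word K (a + D + 1)) (word K a) :=
    ⟨0, 0, 0, by simpa using ha', by simpa using hb', by simpa using ha'⟩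
  have ea : word K a = List.replicate (2 * a) 2 ++
      (4 :: 4 :: (List.replicate D 4 ++ (List.replicate d 4 ++ []))) := by
    unfold word
    congr 1
    rw [List.append_nil, show K + 1 - a = D + d + 1 + 1 by omega, List.replicate_succ,
      List.replicate_succ, List.replicate_add]
  have eb : word K (a + D + 1) = List.replicate (2 * a) 2 ++
      (2 :: 2 :: (List.replicate (2 * D) 2 ++ (List.replicate d 4 ++ [4]))) := by
    unfold word
    rw [hd, show 2 * (a + D + 1) = 2 * a + (2 * D + 1 + 1) by ring, List.replicate_add,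
      List.append_assoc, List.replicate_succ, List.replicate_succ, List.replicate_succ']
    rfl
  rw [ea, eb] at h0
  exact ((((h0.prefix2 _).merge hp).merge hp).pairs hp D).prefix4 d

/-- **Core lemma.** -/
theorem core (φ : ℕ → ℕ → Fin K) : ∃ (i : Fin K) (σ A A' : ℕ),
    (∀ᶠ g in (p : Filter ℕ), φ σ (2 * A + 4 * g) = i) ∧
    (∀ᶠ g in (p : Filter ℕ), ∀ᶠ η in (p : Filter ℕ), ∀ᶠ g' in (p : Filter ℕ),
      φ (σ + η) (A + A' + 4 * g + 4 * g') = i) ∧
    (∀ᶠ η in (p : Filter ℕ), ∀ᶠ g' in (p : Filter ℕ), φ (σ + η) (2 * A' + 4 * g') = i) := by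
  obtain ⟨a, b, hab, hcol⟩ : ∃ a b : Fin (K + 1), a ≠ b ∧
      T p φ (word K a) 0 0 = T p φ (word K b) 0 0 := by
    by_contra hcon
    push Not at hcon
    have hinj : Function.Injective (fun a : Fin (K + 1) => T p φ (word K a) 0 0) := by
      intro a b h
      by_contra hne
      exact hcon a b hne h
    have := Fintype.card_le_of_injective _ hinj
    simp at this
  have hreach : Reach p φ (T p φ (word K a) 0 0) [] [4] [] := by
    rcases lt_or_gt_of_ne hab with h | h
    · exact reach_of_eq hp (Fin.lt_def.1 h) (by omega) rfl hcol.symm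
    · exact reach_of_eq hp (Fin.lt_def.1 h) (by omega) hcol.symm rfl
  obtain ⟨σ, A, A', h0, h1, h2⟩ := hreach
  have h0' : ∀ᶠ η in (p : Filter ℕ), view p φ (σ + η) (2 * A) = T p φ (word K a) 0 0 := by
    rwa [T, ulim_eq] at h0
  obtain ⟨η, ⟨e0, e1⟩, e2⟩ := ((h0'.and (T_cons h1)).and (T_idem hp h2)).exists
  refine ⟨_, σ + η, A, A', (ulim_eq p).1 e0, ?_, ?_⟩
  · filter_upwards [e1] with g hg
    rw [T, ulim_eq] at hg
    filter_upwards [hg] with η' hη'
    exact (ulim_eq p).1 hη'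
  · rw [T, ulim_eq] at e2
    filter_upwards [e2] with η' hη'
    exact (ulim_eq p).1 hη'

end Types

end Run7.h474.HTW
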