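import Mathlib
import Pool.Agent.Run7.h474.HTW

/-! # No continuous reduction to Hindman's theorem for sums of exactly two elements

Helper file for `MP_6f9266_lc`. -/

set_option autoImplicit false

open Filter Topology

namespace Run7.h474.HTW

/-! ### Continuous functionals have moduli -/

theorem modulus_fst {A B : Type} [TopologicalSpace A] [TopologicalSpace B] [DiscreteTopology B]
    {D : Set (ℕ → ℕ → A)} {Φ : (ℕ → ℕ → A) → ℕ → B} (hΦ : ContinuousOn Φ D)
    {f : ℕ → ℕ → A} (hf : f ∈ D) (s : ℕ) :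
    ∃ M, ∀ f' ∈ D, (∀ a < M, ∀ b < M, f' a b = f a b) → Φ f' s = Φ f s := by
  by_contra hcon
  push Not at hcon
  choose F hF1 hF2 hF3 using hcon
  have h0 : Tendsto F atTop (𝓝 f) := by
    refine tendsto_pi_nhds.2 fun a => tendsto_pi_nhds.2 fun y => ?_
    refine tendsto_const_nhds.congr' ?_
    refine (eventually_gt_atTop (max a y)).mono fun M hM => ?_
    exact (hF2 M a ((le_max_left a y).trans_lt hM) y ((le_max_right a y).trans_lt hM)).symm
  have h1 : Tendsto F atTop (𝓝[D] f) :=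
    tendsto_nhdsWithin_iff.2 ⟨h0, Eventually.of_forall hF1⟩
  have h2 : Tendsto (fun M => Φ (F M) s) atTop (𝓝 (Φ f s)) :=
    tendsto_pi_nhds.1 ((hΦ f hf).tendsto.comp h1) s
  rw [nhds_discrete, tendsto_pure] at h2
  obtain ⟨M, hM⟩ := h2.exists
  exact hF3 M hM

theorem modulus_snd {A : Type} [TopologicalSpace A]
    {D : Set ((ℕ → ℕ → A) × (ℕ → Bool))} {Ψ : (ℕ → ℕ → A) × (ℕ → Bool) → ℕ → Bool}
    (hΨ : ContinuousOn Ψ D) {f : ℕ → ℕ → A} {X : ℕ → Bool} (hf : (f, X) ∈ D) (s : ℕ) :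
    ∃ M, ∀ f' X', (f', X') ∈ D → (∀ a < M, ∀ b < M, f' a b = f a b) →
      (∀ n < M, X' n = X n) → Ψ (f', X') s = Ψ (f, X) s := by
  by_contra hcon
  push Not at hcon
  choose F Y hF1 hF2 hF3 hF4 using hcon
  have h0 : Tendsto F atTop (𝓝 f) := by
    refine tendsto_pi_nhds.2 fun a => tendsto_pi_nhds.2 fun y => ?_
    refine tendsto_const_nhds.congr' ?_
    refine (eventually_gt_atTop (max a y)).mono fun M hM => ?_
    exact (hF2 M a ((le_max_left a y).trans_lt hM) y ((le_max_right a y).trans_lt hM)).symm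
  have hY : Tendsto Y atTop (𝓝 X) := by
    refine tendsto_pi_nhds.2 fun n => tendsto_const_nhds.congr' ?_
    exact (eventually_gt_atTop n).mono fun M hM => (hF3 M n hM).symm
  have h1 : Tendsto (fun M => (F M, Y M)) atTop (𝓝[D] (f, X)) :=
    tendsto_nhdsWithin_iff.2 ⟨h0.prodMk_nhds hY, Eventually.of_forall hF1⟩
  have h2 : Tendsto (fun M => Ψ (F M, Y M) s) atTop (𝓝 (Ψ (f, X) s)) :=
    tendsto_pi_nhds.1 ((hΨ (f, X) hf).tendsto.comp h1) s
  rw [nhds_discrete, tendsto_pure] at h2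
  obtain ⟨M, hM⟩ := h2.exists
  exact hF4 M hM

/-! ### The colourings given by finite sets -/

/-- almost all pairs have colour `0` -/
def AlmostZero {j : ℕ} (f : ℕ → ℕ → Fin j) : Prop :=
  ∃ N, ∀ a b, N ≤ a → a < b → (f a b : ℕ) = 0

/-- homogeneous sets -/
def RTSol {j : ℕ} (f : ℕ → ℕ → Fin j) (H : ℕ → Bool) : Prop :=
  {n | H n = true}.Infinite ∧ ∃ v, ∀ a b, a < b → H a = true → H b = true → f a b = v

/-- solutions for sums of exactly two elements -/
def HTSol {k : ℕ} (c : ℕ → Fin k) (X : ℕ → Bool) : Prop :=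
  {n | X n = true}.Infinite ∧ ∃ v, ∀ x y, x < y → X x = true → X y = true → c (x + y) = v

open Classical in
/-- the colouring given by the set of the binary digits of `σ` -/
noncomputable def col {j : ℕ} (hj : 2 ≤ j) (σ : ℕ) : ℕ → ℕ → Fin j := fun a b =>
  if ∃ x, a < x ∧ x ≤ b ∧ σ.testBit x = true then ⟨1, by omega⟩ else ⟨0, by omega⟩

theorem col_one {j : ℕ} (hj : 2 ≤ j) {σ a b x : ℕ} (h1 : a < x) (h2 : x ≤ b)
    (h3 : σ.testBit x = true) : (col hj σ a b : ℕ) = 1 := by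
  unfold col
  rw [if_pos ⟨x, h1, h2, h3⟩]

theorem col_az {j : ℕ} (hj : 2 ≤ j) (σ : ℕ) : AlmostZero (col hj σ) := by
  refine ⟨σ, fun a b h1 h2 => ?_⟩
  unfold col
  rw [if_neg]
  rintro ⟨x, hx1, hx2, hx3⟩
  have h4 : σ < 2 ^ x := (lt_of_le_of_lt h1 hx1).trans Nat.lt_two_pow_self
  rw [Nat.testBit_lt_two_pow h4] at hx3
  exact Bool.noConfusion hx3

theorem col_congr {j : ℕ} (hj : 2 ≤ j) {σ τ M : ℕ}
    (h : ∀ x < M, σ.testBit x = τ.testBit x) (a b : ℕ) (hb : b < M) :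
    col hj σ a b = col hj τ a b := by
  unfold col
  congr 1
  apply propext
  constructor
  · rintro ⟨x, h1, h2, h3⟩
    exact ⟨x, h1, h2, by rw [← h x (by omega)]; exact h3⟩
  · rintro ⟨x, h1, h2, h3⟩
    exact ⟨x, h1, h2, by rw [h x (by omega)]; exact h3⟩

theorem testBit_low {σ η N : ℕ} (hN : σ < 2 ^ N) (hd : 2 ^ N ∣ η) {x : ℕ} (hx : x < N) :
    (σ + η).testBit x = σ.testBit x := by
  obtain ⟨t, rfl⟩ := hd
  rw [add_comm, Nat.testBit_two_pow_mul_add t hN, if_pos hx]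

theorem exists_testBit_high {σ η N : ℕ} (hN : σ < 2 ^ N) (hd : 2 ^ N ∣ η) (h0 : η ≠ 0) :
    ∃ x, N ≤ x ∧ (σ + η).testBit x = true := by
  obtain ⟨t, rfl⟩ := hd
  have ht : t ≠ 0 := by rintro rfl; simp at h0
  obtain ⟨i, hi⟩ := Nat.exists_testBit_of_ne_zero ht
  refine ⟨N + i, by omega, ?_⟩
  rw [add_comm, Nat.testBit_two_pow_mul_add t hN, if_neg (by omega)]
  rwa [Nat.add_sub_cancel_left]

theorem bound_of_sol {j : ℕ} (hj : 2 ≤ j) {σ : ℕ} {H : ℕ → Bool} (h : RTSol (col hj σ) H)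
    {b x : ℕ} (hb : H b = true) (hx : b < x) : σ.testBit x = false := by
  obtain ⟨hinf, v, hv⟩ := h
  obtain ⟨N, hN⟩ := col_az hj σ
  obtain ⟨a1, ha1, hNa1⟩ := hinf.exists_gt N
  obtain ⟨a2, ha2, ha12⟩ := hinf.exists_gt a1
  have hv0 : (v : ℕ) = 0 := by
    rw [← hv a1 a2 ha12 ha1 ha2]
    exact hN a1 a2 hNa1.le ha12
  obtain ⟨a3, ha3, hxa3⟩ := hinf.exists_gt x
  by_contra hne
  rw [Bool.not_eq_false] at hne
  have h1 := col_one hj hx hxa3.le hne
  rw [hv b a3 (hx.trans hxa3) hb ha3, hv0] at h1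
  exact absurd h1 (by norm_num)

/-! ### Building sequences -/

theorem Idem.gt {p : Ultrafilter ℕ} (hp : Idem p) (N : ℕ) : ∀ᶠ n in (p : Filter ℕ), N < n := by
  filter_upwards [hp.dvd N, hp.ne_zero] with n hn hn'
  exact lt_of_lt_of_le Nat.lt_two_pow_self (Nat.le_of_dvd (Nat.pos_of_ne_zero hn') hn)

theorem exists_build {p : Ultrafilter ℕ} (hp : Idem p) {K : ℕ} {c : ℕ → Fin K} {s : ℕ}
    {i : Fin K} (h : ∀ᶠ g in (p : Filter ℕ), c (s + 4 * g) = i) {P : ℕ → Prop}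
    (hP : ∀ᶠ g in (p : Filter ℕ), P g) :
    ∃ G : ℕ → ℕ, StrictMono G ∧ (∀ l, P (G l)) ∧
      ∀ l m, l < m → c (s + 4 * (G l + G m)) = i := by
  rw [hp.idem] at h
  obtain ⟨G, hG1, hG2⟩ := exists_seq_of_forall_finset_exists
    (fun g => P g ∧ ∀ᶠ g' in (p : Filter ℕ), c (s + 4 * (g + g')) = i)
    (fun g g' => g < g' ∧ c (s + 4 * (g + g')) = i) (by
      intro S hS
      have h1 : ∀ᶠ g' in (p : Filter ℕ), ∀ g ∈ S, g < g' ∧ c (s + 4 * (g + g')) = i := by
        rw [Filter.eventually_all_finset]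
        intro g hg
        exact (hp.gt g).and (hS g hg).2
      obtain ⟨g', ⟨h2, h3⟩, h4⟩ := ((hP.and h).and h1).exists
      exact ⟨g', ⟨h2, h3⟩, h4⟩)
  exact ⟨G, strictMono_nat_of_lt_succ fun n => (hG2 n (n + 1) n.lt_succ_self).1,
    fun l => (hG1 l).1, fun l m hlm => (hG2 l m hlm).2⟩

/-! ### The main argument -/

theorem no_red {j k : ℕ} (hj : 2 ≤ j) {Φ : (ℕ → ℕ → Fin j) → ℕ → Fin k}
    {Ψ : (ℕ → ℕ → Fin j) × (ℕ → Bool) → ℕ → Bool}
    (hΦ : ContinuousOn Φ {f | AlmostZero f})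
    (hΨ : ContinuousOn Ψ {z | AlmostZero z.1 ∧ HTSol (Φ z.1) z.2})
    (h : ∀ f X, AlmostZero f → HTSol (Φ f) X → RTSol f (Ψ (f, X))) : False := by
  classical
  obtain ⟨p, hp⟩ := exists_idem
  obtain ⟨i, σ, A, A', h1, h2, h3⟩ := core hp (fun σ s => Φ (col hj σ) s)
  -- the first solution
  obtain ⟨G, hG1, hG2, hG3⟩ := exists_build hp h1 h2
  have hGle : ∀ l, l ≤ G l := fun l => hG1.id_le l
  have hXsol : HTSol (Φ (col hj σ)) (fun n => decide (∃ l, n = A + 4 * G l)) := by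
    refine ⟨?_, i, ?_⟩
    · refine Set.infinite_of_injective_forall_mem (f := fun l => A + 4 * G l) ?_ ?_
      · intro a b hab
        have hab' : A + 4 * G a = A + 4 * G b := hab
        exact hG1.injective (by omega)
      · intro l
        exact decide_eq_true ⟨l, rfl⟩
    · intro x y hxy hx hy
      obtain ⟨l, rfl⟩ := of_decide_eq_true hx
      obtain ⟨m, rfl⟩ := of_decide_eq_true hy
      have hlm : l < m := hG1.lt_iff_lt.1 (by omega)
      rw [← hG3 l m hlm]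
      congr 1
      ring
  have hsol := h _ _ (col_az hj σ) hXsol
  obtain ⟨b, hb, -⟩ := hsol.1.exists_gt 0
  -- the modulus of the second functional
  obtain ⟨M, hM⟩ := modulus_snd hΨ (f := col hj σ)
    (X := fun n => decide (∃ l, n = A + 4 * G l)) ⟨col_az hj σ, hXsol⟩ b
  -- the moduli of the first functional at the sums of the first `M` elements
  have hmod : ∀ s, ∃ M', ∀ f' ∈ {f : ℕ → ℕ → Fin j | AlmostZero f},
      (∀ a < M', ∀ b < M', f' a b = col hj σ a b) → Φ f' s = Φ (col hj σ) s :=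
    fun s => modulus_fst hΦ (col_az hj σ) s
  choose μ hμ using hmod
  obtain ⟨M', hM'⟩ : ∃ M', ∀ l < M, ∀ m < M, μ (2 * A + 4 * (G l + G m)) ≤ M' := by
    refine ⟨(Finset.range M ×ˢ Finset.range M).sup
      (fun q => μ (2 * A + 4 * (G q.1 + G q.2))), fun l hl m hm => ?_⟩
    exact Finset.le_sup (f := fun q : ℕ × ℕ => μ (2 * A + 4 * (G q.1 + G q.2)))
      (b := (l, m)) (Finset.mem_product.2 ⟨Finset.mem_range.2 hl, Finset.mem_range.2 hm⟩)
  obtain ⟨N, hNM, hNM', hNb, hNσ⟩ : ∃ N, M ≤ N ∧ M' ≤ N ∧ b < N ∧ σ < N :=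
    ⟨M + M' + b + σ + 1, by omega, by omega, by omega, by omega⟩
  have hσN : σ < 2 ^ N := hNσ.trans Nat.lt_two_pow_self
  -- the new element
  have hcross : ∀ᶠ η in (p : Filter ℕ), ∀ l ∈ Finset.range M, ∀ᶠ g' in (p : Filter ℕ),
      Φ (col hj (σ + η)) (A + A' + 4 * G l + 4 * g') = i := by
    rw [Filter.eventually_all_finset]
    intro l _
    exact hG2 l
  obtain ⟨η, ⟨hη1, hη2⟩, hη3, hη4⟩ := (((hp.dvd N).and hp.ne_zero).and (hcross.and h3)).exists
  have hagree : ∀ M'' ≤ N, ∀ a < M'', ∀ b < M'', col hj (σ + η) a b = col hj σ a b := by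
    intro M'' hM'' a _ b hb
    exact col_congr hj (M := N) (fun x hx => testBit_low hσN hη1 hx) a b (by omega)
  -- the second part of the new solution
  have h5 : ∀ᶠ g in (p : Filter ℕ), M ≤ g ∧ ∀ l ∈ Finset.range M,
      Φ (col hj (σ + η)) (A + A' + 4 * G l + 4 * g) = i := by
    refine ((hp.gt M).mono fun _ h => h.le).and ?_
    rw [Filter.eventually_all_finset]
    exact hη3
  obtain ⟨G', hG1', hG2', hG3'⟩ := exists_build hp hη4 h5
  have hX'sol : HTSol (Φ (col hj (σ + η)))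
      (fun n => decide ((∃ l < M, n = A + 4 * G l) ∨ ∃ l, n = A' + 4 * G' l)) := by
    refine ⟨?_, i, ?_⟩
    · refine Set.infinite_of_injective_forall_mem (f := fun l => A' + 4 * G' l) ?_ ?_
      · intro a b hab
        have hab' : A' + 4 * G' a = A' + 4 * G' b := hab
        exact hG1'.injective (by omega)
      · intro l
        exact decide_eq_true (Or.inr ⟨l, rfl⟩)
    · have hc1 : ∀ l m, l < M → Φ (col hj (σ + η)) ((A + 4 * G l) + (A' + 4 * G' m)) = i := by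
        intro l m hl
        rw [← (hG2' m).2 l (Finset.mem_range.2 hl)]
        congr 1
        ring
      have hc2 : ∀ l m, l < m → m < M →
          Φ (col hj (σ + η)) ((A + 4 * G l) + (A + 4 * G m)) = i := by
        intro l m hlm hm
        have e : (A + 4 * G l) + (A + 4 * G m) = 2 * A + 4 * (G l + G m) := by ring
        rw [e, ← hG3 l m hlm]
        exact hμ _ _ (col_az hj _)
          (hagree _ ((hM' l (hlm.trans hm) m hm).trans hNM'))
      have hc3 : ∀ l m, l < m →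
          Φ (col hj (σ + η)) ((A' + 4 * G' l) + (A' + 4 * G' m)) = i := by
        intro l m hlm
        rw [← hG3' l m hlm]
        congr 1
        ring
      intro x y hxy hx hy
      rcases of_decide_eq_true hx with ⟨l, hl, rfl⟩ | ⟨l, rfl⟩
      · rcases of_decide_eq_true hy with ⟨m, hm, rfl⟩ | ⟨m, rfl⟩
        · exact hc2 l m (hG1.lt_iff_lt.1 (by omega)) hm
        · exact hc1 l m hl
      · rcases of_decide_eq_true hy with ⟨m, hm, rfl⟩ | ⟨m, rfl⟩
        · rw [add_comm (A' + 4 * G' l)]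
          exact hc1 m l hm
        · exact hc3 l m (hG1'.lt_iff_lt.1 (by omega))
  have hsol' := h _ _ (col_az hj (σ + η)) hX'sol
  have hΨb : Ψ (col hj (σ + η),
      fun n => decide ((∃ l < M, n = A + 4 * G l) ∨ ∃ l, n = A' + 4 * G' l)) b = true := by
    refine (hM (col hj (σ + η)) _ ⟨col_az hj _, hX'sol⟩ (hagree M hNM) ?_).trans hb
    intro n hn
    refine decide_eq_decide.2 ⟨?_, ?_⟩
    · rintro (⟨l, -, rfl⟩ | ⟨l, rfl⟩)
      · exact ⟨l, rfl⟩
      · have := (hG2' l).1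
        omega
    · rintro ⟨l, rfl⟩
      have := hGle l
      exact Or.inl ⟨l, by omega, rfl⟩
  obtain ⟨x, hx1, hx2⟩ := exists_testBit_high hσN hη1 hη2
  have := bound_of_sol hj hsol' hΨb (hNb.trans_le hx1)
  rw [this] at hx2
  exact Bool.noConfusion hx2

end Run7.h474.HTW
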