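import Mathlib
import Pool.Agent.Run7.h474.HTW2

/-! # No continuous reduction to Hindman's theorem for sums of exactly two elements, when the
number of colours may depend on the instance

Helper file for `MP_6f9266_lc`. -/

set_option autoImplicit false

open Filter Topology

namespace Run7.h474.HTW

/-- solutions for sums of exactly two elements, for colourings with values in `ℕ` -/
def HTSolN (c : ℕ → ℕ) (X : ℕ → Bool) : Prop :=
  {n | X n = true}.Infinite ∧ ∃ v, ∀ x y, x < y → X x = true → X y = true → c (x + y) = v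

theorem testBit_two_pow_mul_low {σ M x : ℕ} (hx : x < M) : (2 ^ M * σ).testBit x = false := by
  rw [Nat.testBit_two_pow_mul]
  simp only [Bool.and_eq_false_imp, decide_eq_true_eq]
  intro h
  omega

theorem no_redN {j : ℕ} (hj : 2 ≤ j) {Φ : (ℕ → ℕ → Fin j) → ℕ × (ℕ → ℕ)}
    {Ψ : (ℕ → ℕ → Fin j) × (ℕ → Bool) → ℕ → Bool}
    (hΦ : ContinuousOn Φ {f | AlmostZero f})
    (hk : ∀ f, AlmostZero f → ∀ s, (Φ f).2 s < (Φ f).1)
    (hΨ : ContinuousOn Ψ {z | AlmostZero z.1 ∧ HTSolN (Φ z.1).2 z.2})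
    (h : ∀ f X, AlmostZero f → HTSolN (Φ f).2 X → RTSol f (Ψ (f, X))) : False := by
  classical
  obtain ⟨p, hp⟩ := exists_idem
  have hΦ1 : ContinuousOn (fun f => fun _ : ℕ => (Φ f).1) {f : ℕ → ℕ → Fin j | AlmostZero f} :=
    continuousOn_pi.2 fun _ => (continuous_fst.comp_continuousOn hΦ)
  have hΦ2 : ContinuousOn (fun f => (Φ f).2) {f : ℕ → ℕ → Fin j | AlmostZero f} :=
    continuous_snd.comp_continuousOn hΦ
  -- the number of colours is constant near the zero colouring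
  obtain ⟨M₀, hM₀⟩ := modulus_fst hΦ1 (col_az hj 0) 0
  set k := (Φ (col hj 0)).1 with hkdef
  set F : ℕ → ℕ → ℕ → Fin j := fun σ => col hj (2 ^ M₀ * σ) with hF
  have hFaz : ∀ σ, AlmostZero (F σ) := fun σ => col_az hj _
  have hFk : ∀ σ, (Φ (F σ)).1 = k := by
    intro σ
    refine hM₀ (F σ) (hFaz σ) ?_
    intro a _ b hb
    refine col_congr hj (M := M₀) (fun x hx => ?_) a b hb
    rw [testBit_two_pow_mul_low hx, Nat.zero_testBit]
  set φ : ℕ → ℕ → Fin k := fun σ s => ⟨(Φ (F σ)).2 s, by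
    rw [← hFk σ]; exact hk _ (hFaz σ) s⟩ with hφ
  have hφv : ∀ {σ s : ℕ} {i : Fin k}, φ σ s = i → (Φ (F σ)).2 s = i.val := by
    intro σ s i hi
    rw [← hi]
  obtain ⟨i, σ, A, A', h1, h2, h3⟩ := core hp φ
  -- the first solution
  obtain ⟨G, hG1, hG2, hG3⟩ := exists_build hp h1 h2
  have hGle : ∀ l, l ≤ G l := fun l => hG1.id_le l
  have hXsol : HTSolN (Φ (F σ)).2 (fun n => decide (∃ l, n = A + 4 * G l)) := by
    refine ⟨?_, i.val, ?_⟩
    · refine Set.infinite_of_injective_forall_mem (f := fun l => A + 4 * G l) ?_ ?_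
      · intro a b hab
        have hab' : A + 4 * G a = A + 4 * G b := hab
        exact hG1.injective (by omega)
      · intro l
        exact decide_eq_true ⟨l, rfl⟩
    · intro x y hxy hx hy
      obtain ⟨l, rfl⟩ := of_decide_eq_true hx
      obtain ⟨m, rfl⟩ := of_decide_eq_true hy
      have hlm : l < m := hG1.lt_iff_lt.1 (by omega)
      rw [← hφv (hG3 l m hlm)]
      exact congrArg (Φ (F σ)).2 (by ring)
  have hsol := h _ _ (hFaz σ) hXsol
  obtain ⟨b, hb, -⟩ := hsol.1.exists_gt 0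
  -- the modulus of the second functional
  obtain ⟨M, hM⟩ := modulus_snd hΨ (f := F σ)
    (X := fun n => decide (∃ l, n = A + 4 * G l)) ⟨hFaz σ, hXsol⟩ b
  -- the moduli of the first functional at the sums of the first `M` elements
  have hmod : ∀ s, ∃ M', ∀ f' ∈ {f : ℕ → ℕ → Fin j | AlmostZero f},
      (∀ a < M', ∀ b < M', f' a b = F σ a b) → (Φ f').2 s = (Φ (F σ)).2 s :=
    fun s => modulus_fst hΦ2 (hFaz σ) s
  choose μ hμ using hmod
  obtain ⟨M', hM'⟩ : ∃ M', ∀ l < M, ∀ m < M, μ (2 * A + 4 * (G l + G m)) ≤ M' := by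
    refine ⟨(Finset.range M ×ˢ Finset.range M).sup
      (fun q => μ (2 * A + 4 * (G q.1 + G q.2))), fun l hl m hm => ?_⟩
    exact Finset.le_sup (f := fun q : ℕ × ℕ => μ (2 * A + 4 * (G q.1 + G q.2)))
      (b := (l, m)) (Finset.mem_product.2 ⟨Finset.mem_range.2 hl, Finset.mem_range.2 hm⟩)
  obtain ⟨N, hNM, hNM', hNb, hNσ⟩ : ∃ N, M ≤ N ∧ M' ≤ N ∧ b < N ∧ 2 ^ M₀ * σ < N :=
    ⟨M + M' + b + 2 ^ M₀ * σ + 1, by omega, by omega, by omega, by omega⟩
  have hσN : 2 ^ M₀ * σ < 2 ^ N := hNσ.trans Nat.lt_two_pow_self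
  -- the new element
  have hcross : ∀ᶠ η in (p : Filter ℕ), ∀ l ∈ Finset.range M, ∀ᶠ g' in (p : Filter ℕ),
      φ (σ + η) (A + A' + 4 * G l + 4 * g') = i := by
    rw [Filter.eventually_all_finset]
    intro l _
    exact hG2 l
  obtain ⟨η, ⟨hη1, hη2⟩, hη3, hη4⟩ := (((hp.dvd N).and hp.ne_zero).and (hcross.and h3)).exists
  have hη1' : 2 ^ N ∣ 2 ^ M₀ * η := hη1.mul_left _
  have hη2' : 2 ^ M₀ * η ≠ 0 := mul_ne_zero (by positivity) hη2
  have hFadd : F (σ + η) = col hj (2 ^ M₀ * σ + 2 ^ M₀ * η) := by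
    rw [hF]
    simp only [mul_add]
  have hagree : ∀ M'' ≤ N, ∀ a < M'', ∀ b < M'', F (σ + η) a b = F σ a b := by
    intro M'' hM'' a _ b hb
    rw [hFadd]
    exact col_congr hj (M := N) (fun x hx => testBit_low hσN hη1' hx) a b (by omega)
  -- the second part of the new solution
  have h5 : ∀ᶠ g in (p : Filter ℕ), M ≤ g ∧ ∀ l ∈ Finset.range M,
      φ (σ + η) (A + A' + 4 * G l + 4 * g) = i := by
    refine ((hp.gt M).mono fun _ h => h.le).and ?_
    rw [Filter.eventually_all_finset]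
    exact hη3
  obtain ⟨G', hG1', hG2', hG3'⟩ := exists_build hp hη4 h5
  have hX'sol : HTSolN (Φ (F (σ + η))).2
      (fun n => decide ((∃ l < M, n = A + 4 * G l) ∨ ∃ l, n = A' + 4 * G' l)) := by
    refine ⟨?_, i.val, ?_⟩
    · refine Set.infinite_of_injective_forall_mem (f := fun l => A' + 4 * G' l) ?_ ?_
      · intro a b hab
        have hab' : A' + 4 * G' a = A' + 4 * G' b := hab
        exact hG1'.injective (by omega)
      · intro l
        exact decide_eq_true (Or.inr ⟨l, rfl⟩)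
    · have hc1 : ∀ l m, l < M →
          (Φ (F (σ + η))).2 ((A + 4 * G l) + (A' + 4 * G' m)) = i.val := by
        intro l m hl
        rw [← hφv ((hG2' m).2 l (Finset.mem_range.2 hl))]
        exact congrArg (Φ (F (σ + η))).2 (by ring)
      have hc2 : ∀ l m, l < m → m < M →
          (Φ (F (σ + η))).2 ((A + 4 * G l) + (A + 4 * G m)) = i.val := by
        intro l m hlm hm
        have e : (A + 4 * G l) + (A + 4 * G m) = 2 * A + 4 * (G l + G m) := by ring
        rw [e, ← hφv (hG3 l m hlm)]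
        exact hμ _ _ (hFaz _) (hagree _ ((hM' l (hlm.trans hm) m hm).trans hNM'))
      have hc3 : ∀ l m, l < m →
          (Φ (F (σ + η))).2 ((A' + 4 * G' l) + (A' + 4 * G' m)) = i.val := by
        intro l m hlm
        rw [← hφv (hG3' l m hlm)]
        exact congrArg (Φ (F (σ + η))).2 (by ring)
      intro x y hxy hx hy
      rcases of_decide_eq_true hx with ⟨l, hl, rfl⟩ | ⟨l, rfl⟩
      · rcases of_decide_eq_true hy with ⟨m, hm, rfl⟩ | ⟨m, rfl⟩
        · exact hc2 l m (hG1.lt_iff_lt.1 (by omega)) hm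
        · exact hc1 l m hl
      · rcases of_decide_eq_true hy with ⟨m, hm, rfl⟩ | ⟨m, rfl⟩
        · rw [add_comm (A' + 4 * G' l)]
          exact hc1 m l hm
        · exact hc3 l m (hG1'.lt_iff_lt.1 (by omega))
  have hsol' := h _ _ (hFaz (σ + η)) hX'sol
  have hΨb : Ψ (F (σ + η),
      fun n => decide ((∃ l < M, n = A + 4 * G l) ∨ ∃ l, n = A' + 4 * G' l)) b = true := by
    refine (hM (F (σ + η)) _ ⟨hFaz _, hX'sol⟩ (hagree M hNM) ?_).trans hb
    intro n hn
    refine decide_eq_decide.2 ⟨?_, ?_⟩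
    · rintro (⟨l, -, rfl⟩ | ⟨l, rfl⟩)
      · exact ⟨l, rfl⟩
      · have := (hG2' l).1
        omega
    · rintro ⟨l, rfl⟩
      have := hGle l
      exact Or.inl ⟨l, by omega, rfl⟩
  obtain ⟨x, hx1, hx2⟩ := exists_testBit_high hσN hη1' hη2'
  rw [hFadd] at hsol' hΨb
  have := bound_of_sol hj hsol' hΨb (hNb.trans_le hx1)
  rw [this] at hx2
  exact Bool.noConfusion hx2

end Run7.h474.HTW
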