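import Mathlib
import Pool.Agent.Run7.h474.HTW2

/-! # Ramsey's theorem for differences is not continuously reducible to Hindman's theorem for sums of
exactly two elements and any number of colours

Helper file for `MP_98861b_lc`. The colouring `dd` and the lemma `core` are those of the starting file
`Pool.Agent.Results.MP_98861b_lc.NotWeihrauchReducible`. -/

set_option autoImplicit false

open Filter Topology

namespace Run7.h474.HTW.Subt

/-! ### The instance for an eventually constant sequence -/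

/-- `m` has the colour `1` if `q` is constant on the interval from the 2-adic valuation of `m` to
`m` -/
noncomputable def dd (q : ℕ → ℕ) (m : ℕ) : Fin 2 :=
  @ite _ (∀ k, padicValNat 2 m ≤ k → k ≤ m → q k = q (padicValNat 2 m)) (Classical.dec _) 1 0

theorem dd_pos {f : ℕ → ℕ} {m : ℕ}
    (h : ∀ k, padicValNat 2 m ≤ k → k ≤ m → f k = f (padicValNat 2 m)) : dd f m = 1 := by
  unfold dd; rw [if_pos h]

theorem dd_one {f : ℕ → ℕ} {m : ℕ} (h : dd f m = 1) :
    ∀ k, padicValNat 2 m ≤ k → k ≤ m → f k = f (padicValNat 2 m) := by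
  by_contra hcon
  unfold dd at h
  rw [if_neg hcon] at h
  exact absurd h (by decide)

theorem val_le (m : ℕ) : padicValNat 2 m ≤ m := by
  rcases Nat.eq_zero_or_pos m with rfl | hm
  · simp
  have h1 : 2 ^ padicValNat 2 m ∣ m := pow_padicValNat_dvd
  have h2 := Nat.le_of_dvd hm h1
  have h3 : padicValNat 2 m < 2 ^ padicValNat 2 m := Nat.lt_two_pow_self
  omega

/-- the combinatorial lemma -/
theorem core (f : ℕ → ℕ) (c N : ℕ) (hN : ∀ k, N ≤ k → f k = c) (L : Set ℕ) (hL : L.Infinite)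
    (i : Fin 2) (h : ∀ a b, a < b → a ∈ L → b ∈ L → dd f (b - a) = i) (a b : ℕ) (hab : a < b)
    (ha : a ∈ L) (hb : b ∈ L) : f (padicValNat 2 (b - a)) = c := by
  -- the colour is `1`
  have hi : i = 1 := by
    obtain ⟨x, hx, y, hy, hxy, hmod⟩ := hL.exists_ne_map_eq_of_mapsTo
      (f := fun n => n % 2 ^ N) (t := {k | k < 2 ^ N})
      (fun n _ => Nat.mod_lt n (by positivity)) (Set.finite_lt_nat _)
    have key : ∀ x y : ℕ, x ∈ L → y ∈ L → x < y → x % 2 ^ N = y % 2 ^ N → i = 1 := by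
      intro x y hx hy hxy hmod
      rw [← h x y hxy hx hy]
      have hdvd : 2 ^ N ∣ y - x := (Nat.modEq_iff_dvd' hxy.le).1 hmod
      have hv : N ≤ padicValNat 2 (y - x) := (padicValNat_dvd_iff_le (by omega)).1 hdvd
      exact dd_pos fun k hk _ => by rw [hN k (by omega), hN _ hv]
    rcases lt_or_gt_of_ne hxy with hlt | hlt
    · exact key x y hx hy hlt hmod
    · exact key y x hy hx hlt hmod.symm
  obtain ⟨x, hx, hxb⟩ := hL.exists_gt (N + b)
  have key : ∀ e, e ∈ L → e ≤ b → ∀ k, padicValNat 2 (x - e) ≤ k → f k = c := by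
    intro e he heb k hk
    have h1 := dd_one (hi ▸ h e x (by omega) he hx)
    have h2 : f (padicValNat 2 (x - e)) = c := by
      rw [← h1 (x - e) (val_le _) le_rfl]
      exact hN _ (by omega)
    by_cases hkx : k ≤ x - e
    · rw [h1 k hk hkx, h2]
    · exact hN k (by omega)
  have hmin : padicValNat 2 (x - a) ≤ padicValNat 2 (b - a) ∨
      padicValNat 2 (x - b) ≤ padicValNat 2 (b - a) := by
    rcases le_total (padicValNat 2 (x - a)) (padicValNat 2 (x - b)) with hle | hle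
    · left
      rw [← padicValNat_dvd_iff_le (by omega : b - a ≠ 0)]
      have h1 : 2 ^ padicValNat 2 (x - a) ∣ x - a := pow_padicValNat_dvd
      have h2 : 2 ^ padicValNat 2 (x - a) ∣ x - b :=
        (padicValNat_dvd_iff_le (by omega : x - b ≠ 0)).2 hle
      have h3 : b - a = (x - a) - (x - b) := by omega
      rw [h3]
      exact Nat.dvd_sub h1 h2
    · right
      rw [← padicValNat_dvd_iff_le (by omega : b - a ≠ 0)]
      have h1 : 2 ^ padicValNat 2 (x - b) ∣ x - b := pow_padicValNat_dvd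
      have h2 : 2 ^ padicValNat 2 (x - b) ∣ x - a :=
        (padicValNat_dvd_iff_le (by omega : x - a ≠ 0)).2 hle
      have h3 : b - a = (x - a) - (x - b) := by omega
      rw [h3]
      exact Nat.dvd_sub h2 h1
  rcases hmin with h1 | h1
  · exact key a ha hab.le _ h1
  · exact key b hb le_rfl _ h1

/-! ### The sequence for an almost zero colouring -/

/-- the greatest `a ≤ s` with a nonzero colour at some pair `a < b` below `s` -/
noncomputable def lastRow {j : ℕ} (f : ℕ → ℕ → Fin j) (s : ℕ) : ℕ :=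
  @Nat.findGreatest (fun a => ∃ b, b < s ∧ a < b ∧ (f a b : ℕ) ≠ 0) (Classical.decPred _) s

theorem lastRow_congr {j : ℕ} {f f' : ℕ → ℕ → Fin j} {s : ℕ}
    (h : ∀ a < s, ∀ b < s, f' a b = f a b) : lastRow f' s = lastRow f s := by
  have e : (fun a => ∃ b, b < s ∧ a < b ∧ (f' a b : ℕ) ≠ 0) =
      (fun a => ∃ b, b < s ∧ a < b ∧ (f a b : ℕ) ≠ 0) := by
    funext a
    apply propext
    constructor
    · rintro ⟨b, h1, h2, h3⟩
      exact ⟨b, h1, h2, by rw [← h a (by omega) b h1]; exact h3⟩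
    · rintro ⟨b, h1, h2, h3⟩
      exact ⟨b, h1, h2, by rw [h a (by omega) b h1]; exact h3⟩
  exact congrArg (fun P : ℕ → Prop => @Nat.findGreatest P (Classical.decPred P) s) e

theorem lastRow_le {j : ℕ} {f : ℕ → ℕ → Fin j} {N : ℕ}
    (h : ∀ a b, N ≤ a → a < b → (f a b : ℕ) = 0) (s : ℕ) : lastRow f s ≤ N := by
  classical
  by_contra hcon
  push Not at hcon
  have h0 : lastRow f s ≠ 0 := by omega
  obtain ⟨b, -, h1, h2⟩ := @Nat.findGreatest_of_ne_zero (lastRow f s)
    (fun a => ∃ b, b < s ∧ a < b ∧ (f a b : ℕ) ≠ 0) (Classical.decPred _) s rfl h0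
  exact h2 (h _ _ hcon.le h1)

theorem le_lastRow {j : ℕ} {f : ℕ → ℕ → Fin j} {a b s : ℕ} (h1 : b < s) (h2 : a < b)
    (h3 : (f a b : ℕ) ≠ 0) : a ≤ lastRow f s :=
  @Nat.le_findGreatest a (fun a => ∃ b, b < s ∧ a < b ∧ (f a b : ℕ) ≠ 0) (Classical.decPred _) s
    (by omega) ⟨b, h1, h2, h3⟩

theorem lastRow_mono {j : ℕ} (f : ℕ → ℕ → Fin j) {s t : ℕ} (h : s ≤ t) :
    lastRow f s ≤ lastRow f t := by
  rcases Nat.eq_zero_or_pos (lastRow f s) with h0 | h0
  · omega
  obtain ⟨b, h1, h2, h3⟩ := @Nat.findGreatest_of_ne_zero (lastRow f s)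
    (fun a => ∃ b, b < s ∧ a < b ∧ (f a b : ℕ) ≠ 0) (Classical.decPred _) s rfl h0.ne'
  exact le_lastRow (h1.trans_le h) h2 h3

theorem lastRow_lim {j : ℕ} {f : ℕ → ℕ → Fin j} (hf : AlmostZero f) :
    ∃ c N, (∀ s, N ≤ s → lastRow f s = c) ∧ ∀ a b, c < a → a < b → (f a b : ℕ) = 0 := by
  obtain ⟨N, hN⟩ := hf
  have key : ∀ d, (∃ s, N ≤ lastRow f s + d) → ∃ s₀, ∀ s, lastRow f s ≤ lastRow f s₀ := by
    intro d
    induction d with
    | zero =>
      rintro ⟨s, hs⟩
      exact ⟨s, fun t => (lastRow_le hN t).trans (by omega)⟩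
    | succ d ih =>
      rintro ⟨s, hs⟩
      by_cases h : ∀ t, lastRow f t ≤ lastRow f s
      · exact ⟨s, h⟩
      · push Not at h
        obtain ⟨t, ht⟩ := h
        exact ih ⟨t, by omega⟩
  obtain ⟨s₀, hs₀⟩ := key N ⟨0, by omega⟩
  refine ⟨lastRow f s₀, s₀, fun s hs => le_antisymm (hs₀ s) (lastRow_mono f hs), ?_⟩
  intro a b ha hab
  by_contra hne
  have := le_lastRow (s := b + 1) (by omega) hab hne
  have := hs₀ (b + 1)
  omega

/-! ### The first two elements of an infinite set -/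

/-- the least element -/
noncomputable def fA (H : ℕ → Bool) : ℕ := sInf {n | H n = true}

/-- the second element -/
noncomputable def fB (H : ℕ → Bool) : ℕ := sInf {n | fA H < n ∧ H n = true}

theorem fA_spec {H : ℕ → Bool} (h : {n | H n = true}.Infinite) : H (fA H) = true :=
  Nat.sInf_mem h.nonempty

theorem fB_spec {H : ℕ → Bool} (h : {n | H n = true}.Infinite) :
    fA H < fB H ∧ H (fB H) = true := by
  obtain ⟨x, hx, hx'⟩ := h.exists_gt (fA H)
  exact Nat.sInf_mem (s := {n | fA H < n ∧ H n = true}) ⟨x, hx', hx⟩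

theorem fA_congr {H H' : ℕ → Bool} (h : {n | H n = true}.Infinite)
    (h' : {n | H' n = true}.Infinite) (hw : ∀ k ≤ fA H, H' k = H k) : fA H' = fA H := by
  apply le_antisymm
  · apply Nat.sInf_le
    show H' (fA H) = true
    rw [hw _ le_rfl]
    exact fA_spec h
  · by_contra hlt
    push Not at hlt
    have h1 := fA_spec h'
    rw [hw _ hlt.le] at h1
    have := Nat.sInf_le (s := {n | H n = true}) h1
    unfold fA at *
    omega

theorem fB_congr {H H' : ℕ → Bool} (h : {n | H n = true}.Infinite)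
    (h' : {n | H' n = true}.Infinite) (hw : ∀ k ≤ fB H, H' k = H k) : fB H' = fB H := by
  have hB := fB_spec h
  have hB' := fB_spec h'
  have hA := fA_congr h h' fun k hk => hw k (hk.trans hB.1.le)
  apply le_antisymm
  · apply Nat.sInf_le
    refine ⟨?_, ?_⟩
    · rw [hA]; exact hB.1
    · rw [hw _ le_rfl]; exact hB.2
  · by_contra hlt
    push Not at hlt
    rw [hw _ hlt.le] at hB'
    have : fB H ≤ fB H' := Nat.sInf_le (s := {n | fA H < n ∧ H n = true}) ⟨hA ▸ hB'.1, hB'.2⟩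
    omega

/-! ### Continuity from moduli -/

theorem cyl {A : Type} [TopologicalSpace A] [DiscreteTopology A]
    (z : (ℕ → ℕ → A) × (ℕ → Bool)) (M : ℕ) :
    ∀ᶠ z' in 𝓝 z, (∀ a < M, ∀ b < M, z'.1 a b = z.1 a b) ∧ ∀ n < M, z'.2 n = z.2 n := by
  have h1 : ∀ a b, ∀ᶠ z' in 𝓝 z, z'.1 a b = z.1 a b := by
    intro a b
    have hc : Continuous (fun z' : (ℕ → ℕ → A) × (ℕ → Bool) => z'.1 a b) := by fun_prop
    exact hc.continuousAt.tendsto
      (mem_nhds_discrete.2 rfl : ({z.1 a b} : Set A) ∈ 𝓝 (z.1 a b))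
  have h2 : ∀ n, ∀ᶠ z' in 𝓝 z, z'.2 n = z.2 n := by
    intro n
    have hc : Continuous (fun z' : (ℕ → ℕ → A) × (ℕ → Bool) => z'.2 n) := by fun_prop
    exact hc.continuousAt.tendsto
      (mem_nhds_discrete.2 rfl : ({z.2 n} : Set Bool) ∈ 𝓝 (z.2 n))
  have h3 : ∀ᶠ z' in 𝓝 z, ∀ a ∈ Finset.range M, ∀ b ∈ Finset.range M, z'.1 a b = z.1 a b := by
    rw [Filter.eventually_all_finset]
    intro a _
    rw [Filter.eventually_all_finset]
    intro b _
    exact h1 a b
  have h4 : ∀ᶠ z' in 𝓝 z, ∀ n ∈ Finset.range M, z'.2 n = z.2 n := by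
    rw [Filter.eventually_all_finset]
    intro n _
    exact h2 n
  filter_upwards [h3, h4] with z' h5 h6
  exact ⟨fun a ha b hb => h5 a (Finset.mem_range.2 ha) b (Finset.mem_range.2 hb),
    fun n hn => h6 n (Finset.mem_range.2 hn)⟩

theorem cont_of_modulus {A B : Type} [TopologicalSpace A] [DiscreteTopology A]
    [TopologicalSpace B] {D : Set ((ℕ → ℕ → A) × (ℕ → Bool))}
    {T : (ℕ → ℕ → A) × (ℕ → Bool) → ℕ → B}
    (h : ∀ z ∈ D, ∀ s, ∃ M, ∀ z' ∈ D, (∀ a < M, ∀ b < M, z'.1 a b = z.1 a b) →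
      (∀ n < M, z'.2 n = z.2 n) → T z' s = T z s) : ContinuousOn T D := by
  refine continuousOn_pi.2 fun s z hz => ?_
  obtain ⟨M, hM⟩ := h z hz s
  refine Filter.Tendsto.congr' ?_ tendsto_const_nhds
  filter_upwards [self_mem_nhdsWithin, mem_nhdsWithin_of_mem_nhds (cyl z M)] with z' h1 h2
  exact (hM z' h1 h2.1 h2.2).symm

theorem cont_inst {j : ℕ} :
    Continuous (fun f : ℕ → ℕ → Fin j => dd (lastRow f)) := by
  have h1 : ContinuousOn (fun z : (ℕ → ℕ → Fin j) × (ℕ → Bool) => dd (lastRow z.1))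
      Set.univ := by
    apply cont_of_modulus
    intro z _ m
    refine ⟨m, fun z' _ h _ => ?_⟩
    have e : ∀ k ≤ m, lastRow z'.1 k = lastRow z.1 k := fun k hk =>
      lastRow_congr fun a ha b hb => h a (by omega) b (by omega)
    have hiff : (∀ k, padicValNat 2 m ≤ k → k ≤ m →
          lastRow z'.1 k = lastRow z'.1 (padicValNat 2 m)) ↔
        (∀ k, padicValNat 2 m ≤ k → k ≤ m → lastRow z.1 k = lastRow z.1 (padicValNat 2 m)) := by
      constructor
      · intro h1 k hk hk'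
        rw [← e k hk', ← e _ (val_le m)]
        exact h1 k hk hk'
      · intro h1 k hk hk'
        rw [e k hk', e _ (val_le m)]
        exact h1 k hk hk'
    show dd (lastRow z'.1) m = dd (lastRow z.1) m
    unfold dd
    by_cases h1 : ∀ k, padicValNat 2 m ≤ k → k ≤ m →
        lastRow z.1 k = lastRow z.1 (padicValNat 2 m)
    · rw [if_pos h1, if_pos (hiff.2 h1)]
    · rw [if_neg h1, if_neg (fun h2 => h1 (hiff.1 h2))]
  have h2 := continuousOn_univ.1 h1
  exact h2.comp (Continuous.prodMk continuous_id (continuous_const (y := fun _ : ℕ => false)))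

/-- the homogeneous set computed from a set of differences of colour `1` -/
noncomputable def out {j : ℕ} (z : (ℕ → ℕ → Fin j) × (ℕ → Bool)) (n : ℕ) : Bool :=
  decide (lastRow z.1 (padicValNat 2 (fB z.2 - fA z.2)) < n)

theorem cont_out {j : ℕ} : ContinuousOn (out (j := j)) {z | {n | z.2 n = true}.Infinite} := by
  apply cont_of_modulus
  intro z hz n
  refine ⟨fB z.2 + padicValNat 2 (fB z.2 - fA z.2) + 1, fun z' hz' h1 h2 => ?_⟩
  have hB := fB_spec hz
  have e1 : fB z'.2 = fB z.2 := fB_congr hz hz' fun k hk => h2 k (by omega)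
  have e2 : fA z'.2 = fA z.2 := fA_congr hz hz' fun k hk => h2 k (by omega)
  unfold out
  rw [e1, e2, lastRow_congr (f := z.1) fun a ha b hb => h1 a (by omega) b (by omega)]

/-! ### The theorem -/

/-- solutions for differences -/
def DiffSol (x : ℕ → Fin 2) (H : ℕ → Bool) : Prop :=
  {n | H n = true}.Infinite ∧ ∃ i, ∀ a b, a < b → H a = true → H b = true → x (b - a) = i

theorem no_subt {k : ℕ} {Φ : (ℕ → Fin 2) → ℕ → Fin k} {Ψ : (ℕ → Fin 2) × (ℕ → Bool) → ℕ → Bool}
    (hΦ : Continuous Φ) (hΨ : ContinuousOn Ψ {z | HTSol (Φ z.1) z.2})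
    (h : ∀ x X, HTSol (Φ x) X → DiffSol x (Ψ (x, X))) : False := by
  refine no_red (j := 2) (k := k) le_rfl (Φ := fun f => Φ (dd (lastRow f)))
    (Ψ := fun z => out (z.1, Ψ (dd (lastRow z.1), z.2))) ?_ ?_ ?_
  · exact (hΦ.comp cont_inst).continuousOn
  · have h1 : ContinuousOn (fun z : (ℕ → ℕ → Fin 2) × (ℕ → Bool) =>
        ((dd (lastRow z.1), z.2) : (ℕ → Fin 2) × (ℕ → Bool)))
        {z | AlmostZero z.1 ∧ HTSol (Φ (dd (lastRow z.1))) z.2} :=
      (Continuous.prodMk (cont_inst.comp continuous_fst) continuous_snd).continuousOn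
    have h2 : ContinuousOn (fun z : (ℕ → ℕ → Fin 2) × (ℕ → Bool) =>
        Ψ (dd (lastRow z.1), z.2))
        {z | AlmostZero z.1 ∧ HTSol (Φ (dd (lastRow z.1))) z.2} :=
      hΨ.comp h1 fun z hz => hz.2
    exact cont_out.comp (continuousOn_fst.prodMk h2) fun z hz => (h _ _ hz.2).1
  · intro f X hf hX
    obtain ⟨h1, i, h2⟩ := h _ _ hX
    obtain ⟨c, N, h3, h4⟩ := lastRow_lim hf
    have hB := fB_spec h1
    have h5 := core (lastRow f) c N h3 {n | Ψ (dd (lastRow f), X) n = true} h1 i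
      (fun a b hab ha hb => h2 a b hab ha hb) _ _ hB.1 (fA_spec h1) hB.2
    have h6 : ∀ n, out (f, Ψ (dd (lastRow f), X)) n = true ↔ c < n := by
      intro n
      unfold out
      rw [decide_eq_true_iff]
      show lastRow f _ < n ↔ c < n
      rw [h5]
    refine ⟨?_, 0, ?_⟩
    · refine (Set.Ioi_infinite c).mono fun n hn => ?_
      exact (h6 n).2 hn
    · intro a b hab ha _
      exact Fin.ext (h4 a b ((h6 a).1 ha) hab)

end Run7.h474.HTW.Subt
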