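import Pool.Agent.Run7.h474.Dom

set_option autoImplicit false

namespace Run7.h474

open Set Cardinal

/-- the two sides of a set -/
def E {I : Type} (e : I → Set ℕ) (ξ : I) (b : Bool) : Set ℕ := {n | (n ∈ e ξ) ↔ b = true}

theorem E_true {I : Type} (e : I → Set ℕ) (ξ : I) : E e ξ true = e ξ := by
  ext n; simp [E]

theorem E_false {I : Type} (e : I → Set ℕ) (ξ : I) : E e ξ false = (e ξ)ᶜ := by
  ext n; simp [E]

theorem E_disjoint {I : Type} (e : I → Set ℕ) (ξ : I) {b c : Bool} (h : b ≠ c) :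
    E e ξ b ∩ E e ξ c = ∅ := by
  ext n
  cases b <;> cases c <;> simp [E] at h ⊢

theorem eq_of_E_mem {I : Type} {e : I → Set ℕ} {ξ : I} {b c : Bool} {U : Ultrafilter ℕ}
    (h : E e ξ b ∈ U) (h' : E e ξ c ∈ U) : b = c := by
  by_contra hne
  have := Filter.inter_mem h h'
  rw [E_disjoint e ξ hne] at this
  exact U.neBot.ne (Filter.empty_mem_iff_bot.1 this)

theorem compl_compl_E {I : Type} (e : I → Set ℕ) (ξ : I) (b : Bool) : (E e ξ b)ᶜ = E e ξ (!b) := by
  ext n
  cases b <;> simp [E]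

section Assembly

variable {I J L : Type} (e : I → Set ℕ) (K : J → Set Ca) (F : J → Ca → Set ℕ)
  (σ : J → Ca → I → Bool) (Z : J → Set I) (C : ℕ → Set ℕ)

/-- the positions of `j` and `j'` are compatible somewhere -/
def Rl (j j' : J) : Prop :=
  ∃ x ∈ K j, ∃ x' ∈ K j', ∀ ξ ∈ Z j, ξ ∈ Z j' → σ j x ξ = σ j' x' ξ

theorem Rl_symm {j j' : J} (h : Rl K σ Z j j') : Rl K σ Z j' j := by
  obtain ⟨x, hx, x', hx', h⟩ := h
  exact ⟨x', hx', x, hx, fun ξ h1 h2 => (h ξ h2 h1).symm⟩

variable [LinearOrder L] (key : J → L)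

def Hand (j : J) (prev : ∀ j', key j' < key j → Option (Set ℕ)) : Prop :=
  ∃ j' h a, prev j' h = some a ∧ ¬ {x | x ∈ K j ∧ (a ∩ F j x).Infinite}.Countable

structure Good (j : J) (prev : ∀ j', key j' < key j → Option (Set ℕ)) (a : Set ℕ) : Prop where
  pos : ∃ K' ⊆ K j, CU K' ∧ ∀ x ∈ K', (a ∩ F j x).Infinite
  ad : ∀ j' h a', Rl K σ Z j' j → prev j' h = some a' → (a ∩ a').Finite
  adC : ∀ n, (a ∩ C n).Finite
  lim : ∀ U : Ultrafilter ℕ, a ∈ U → (U : Filter ℕ) ≤ Filter.cofinite →
    ∃ x ∈ K j, ∀ ξ ∈ Z j, E e ξ (σ j x ξ) ∈ U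

open Classical in
theorem assembly [WellFoundedLT L] (hN : ∀ j, Nm (K j) (F j))
    (hσ : ∀ j, ∀ ξ ∈ Z j, UC (fun x => σ j x ξ) (K j))
    (hF : ∀ j, ∀ ξ ∈ Z j, ∀ x ∈ K j, (F j x \ E e ξ (σ j x ξ)).Finite)
    (hC : ∀ j n, ∀ x ∈ K j, (F j x ∩ C n).Finite)
    (hrel : ∀ j j', j ≠ j' → Rl K σ Z j j' → key j ≠ key j')
    (hDom : ∀ j, Dmn ({j' // key j' < key j ∧ Rl K σ Z j' j} ⊕ (Z j ⊕ ℕ)))
    (hcard : ∀ j, #{j' // key j' < key j ∧ Rl K σ Z j' j} < 𝔠) :
    ∃ (D : Set J) (a : J → Set ℕ), (∀ j ∈ D, (a j).Infinite) ∧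
      (∀ j ∈ D, ∀ j' ∈ D, j ≠ j' → (a j ∩ a j').Finite) ∧
      (∀ j ∈ D, ∀ n, (a j ∩ C n).Finite) ∧
      ∀ j, ∃ j' ∈ D, ¬ {x | x ∈ K j ∧ (a j' ∩ F j x).Infinite}.Countable := by
  let wf : WellFounded (fun j' j : J => key j' < key j) := InvImage.wf key wellFounded_lt
  let step : ∀ j, (∀ j', key j' < key j → Option (Set ℕ)) → Option (Set ℕ) := fun j prev =>
    if h : ¬ Hand K F key j prev ∧ ∃ a, Good e K F σ Z C key j prev a then some h.2.choose
    else none
  let A : J → Option (Set ℕ) := wf.fix step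
  have hA : ∀ j, A j = step j (fun j' _ => A j') := fun j => wf.fix_eq step j
  -- the main construction
  have hgood : ∀ j, ¬ Hand K F key j (fun j' _ => A j') →
      ∃ a, Good e K F σ Z C key j (fun j' _ => A j') a := by
    intro j hj
    let T := {j' // key j' < key j ∧ Rl K σ Z j' j}
    obtain ⟨K', hK', cK', hdis⟩ := (hN j).cu.avoid' (hcard j)
      (fun t : T => {x | ∃ a', A t.1 = some a' ∧ (a' ∩ F j x).Infinite}) (by
        intro t
        by_contra hc
        apply hj
        rcases hAt : A t.1 with _ | a'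
        · exfalso
          apply hc
          convert countable_empty
          ext x
          simp [hAt]
        · refine ⟨t.1, t.2.1, a', hAt, fun hcc => hc (hcc.mono ?_)⟩
          rintro x ⟨hx, a'', h1, h2⟩
          rw [hAt, Option.some_inj] at h1
          subst h1
          exact ⟨hx, h2⟩)
    obtain ⟨a, K'', h1, h2, h3, h4⟩ := DOM (hDom j) ((hN j).mono hK' cK')
      (fun c => match c with
        | Sum.inl t => fun _ => ((A t.1).getD ∅)ᶜ
        | Sum.inr (Sum.inl ξ) => fun x => E e ξ.1 (σ j x ξ.1)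
        | Sum.inr (Sum.inr n) => fun _ => (C n)ᶜ)
      (by
        rintro (t | ξ | n)
        · exact UC_const _ _
        · exact ((hσ j ξ.1 ξ.2).mono hK').comp (fun b => E e ξ.1 b)
        · exact UC_const _ _)
      (by
        rintro (t | ξ | n) x hx
        · simp only [Set.sdiff_compl]
          rcases hAt : A t.1 with _ | a'
          · simp
          · by_contra hc
            refine Set.disjoint_left.1 (hdis t) hx ⟨a', hAt, ?_⟩
            rw [inter_comm]
            simpa [hAt] using hc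
        · exact hF j ξ.1 ξ.2 x (hK' hx)
        · simp only [Set.sdiff_compl]
          exact hC j n x (hK' hx))
    refine ⟨a, ⟨K'', h1.trans hK', h2, h3⟩, ?_, ?_, ?_⟩
    · intro j' hj' a' hR hAj
      by_contra hc
      obtain ⟨U, hU1, hU2⟩ := exists_free_ultrafilter hc
      obtain ⟨x, hx, hx2⟩ := h4 U (Filter.mem_of_superset hU1 inter_subset_left) hU2
      have h5 := hx2 (Sum.inl ⟨j', hj', hR⟩)
      simp only at h5
      have hAj' : A j' = some a' := hAj
      rw [hAj', Option.getD_some] at h5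
      have h6 : a' ∈ U := Filter.mem_of_superset hU1 inter_subset_right
      exact Ultrafilter.compl_mem_iff_notMem.1 h5 h6
    · intro n
      by_contra hc
      obtain ⟨U, hU1, hU2⟩ := exists_free_ultrafilter hc
      obtain ⟨x, hx, hx2⟩ := h4 U (Filter.mem_of_superset hU1 inter_subset_left) hU2
      have h5 := hx2 (Sum.inr (Sum.inr n))
      have h6 : C n ∈ U := Filter.mem_of_superset hU1 inter_subset_right
      exact Ultrafilter.compl_mem_iff_notMem.1 h5 h6
    · intro U hU1 hU2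
      obtain ⟨x, hx, hx2⟩ := h4 U hU1 hU2
      exact ⟨x, hK' (h1 hx), fun ξ hξ => hx2 (Sum.inr (Sum.inl ⟨ξ, hξ⟩))⟩
  -- specification
  have hspec : ∀ j a, A j = some a → Good e K F σ Z C key j (fun j' _ => A j') a := by
    intro j a hja
    rw [hA] at hja
    simp only [step] at hja
    split_ifs at hja with h
    rw [Option.some_inj] at hja
    rw [← hja]
    exact h.2.choose_spec
  refine ⟨{j | (A j).isSome}, fun j => (A j).getD ∅, ?_, ?_, ?_, ?_⟩
  · intro j hj
    obtain ⟨a, ha⟩ := Option.isSome_iff_exists.1 hj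
    obtain ⟨K', -, h2, h3⟩ := (hspec j a ha).pos
    obtain ⟨x, hx⟩ := h2.nonempty
    simp only [ha, Option.getD_some]
    exact (h3 x hx).mono inter_subset_left
  · intro j hj j' hj' hne
    obtain ⟨a, ha⟩ := Option.isSome_iff_exists.1 hj
    obtain ⟨a', ha'⟩ := Option.isSome_iff_exists.1 hj'
    simp only [ha, ha', Option.getD_some]
    by_contra hc
    obtain ⟨U, hU1, hU2⟩ := exists_free_ultrafilter hc
    obtain ⟨x, hx, hx2⟩ := (hspec j a ha).lim U (Filter.mem_of_superset hU1 inter_subset_left) hU2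
    obtain ⟨x', hx', hx2'⟩ := (hspec j' a' ha').lim U
      (Filter.mem_of_superset hU1 inter_subset_right) hU2
    have hR : Rl K σ Z j j' := ⟨x, hx, x', hx', fun ξ h1 h2 => eq_of_E_mem (hx2 ξ h1) (hx2' ξ h2)⟩
    rcases lt_or_gt_of_ne (hrel j j' hne hR) with h1 | h1
    · have := (hspec j' a' ha').ad j h1 a hR ha
      rw [inter_comm] at this
      exact hc this
    · exact hc ((hspec j a ha).ad j' h1 a' (Rl_symm K σ Z hR) ha')
  · intro j hj n
    obtain ⟨a, ha⟩ := Option.isSome_iff_exists.1 hj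
    simp only [ha, Option.getD_some]
    exact (hspec j a ha).adC n
  · intro j
    by_cases hj : Hand K F key j (fun j' _ => A j')
    · obtain ⟨j', hk, a, h1, h2⟩ := hj
      refine ⟨j', ?_, ?_⟩
      · simp only [mem_ofPred_eq]
        have : A j' = some a := h1
        rw [this]; rfl
      · have : A j' = some a := h1
        simp only [this, Option.getD_some]
        exact h2
    · obtain ⟨a1, h1⟩ : ∃ a, A j = some a := by
        rw [hA]
        simp only [step]
        rw [dif_pos ⟨hj, hgood j hj⟩]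
        exact ⟨_, rfl⟩
      refine ⟨j, ?_, ?_⟩
      · simp only [mem_ofPred_eq]
        rw [h1]; rfl
      · obtain ⟨K', h2, h3, h4⟩ := (hspec j _ h1).pos
        simp only [h1, Option.getD_some]
        intro hcc
        have hsub : K' ⊆ {x | x ∈ K j ∧ (a1 ∩ F j x).Infinite} :=
          fun x hx => ⟨h2 hx, h4 x hx⟩
        exact h3.2 (hcc.mono hsub)

end Assembly

end Run7.h474
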