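import Pool.Agent.Run7.h474.Simon

set_option autoImplicit false

namespace Run7.h474

open Set Cardinal

/-- `a` meets the name `F` on uncountably many branches -/
def Hit (K : Set Ca) (F : Ca → Set ℕ) (a : Set ℕ) : Prop :=
  ¬ {x | x ∈ K ∧ (a ∩ F x).Infinite}.Countable

theorem Hit.mono {K K' : Set Ca} {F F' : Ca → Set ℕ} {a : Set ℕ} (hK : K' ⊆ K)
    (hF : ∀ x ∈ K', F' x ⊆ F x) (h : Hit K' F' a) : Hit K F a := by
  intro hc
  refine h (hc.mono ?_)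
  rintro x ⟨hx, hx'⟩
  exact ⟨hK hx, hx'.mono (inter_subset_inter_right _ (hF x hx))⟩

theorem mk_codes_le : #({K : Set Ca // IsClosed K} × (ℕ → {K : Set Ca // IsClosed K})) ≤ 𝔠 := by
  rw [Cardinal.mk_prod, Cardinal.lift_id, Cardinal.lift_id, Cardinal.mk_arrow, Cardinal.lift_id,
    Cardinal.lift_id, Cardinal.mk_nat]
  refine (mul_le_mul' mk_closed_le (Cardinal.power_le_power_right mk_closed_le)).trans ?_
  rw [Cardinal.continuum_power_aleph0, Cardinal.continuum_mul_self]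

/-- enumeration of all names -/
theorem names_enum : ∃ (KK : CI → Set Ca) (FF : CI → Ca → Set ℕ), (∀ α, Nm (KK α) (FF α)) ∧
    ∀ K F, Nm K F → ∃ α, KK α = K ∧ ∀ x ∈ K, FF α x = F x := by
  let J := {p : {K : Set Ca // IsClosed K} × (ℕ → {K : Set Ca // IsClosed K}) //
    Nm p.1.1 (fun x => {n | x ∈ (p.2 n).1})}
  have hcode : ∀ K F, Nm K F → ∃ p : J, p.1.1.1 = K ∧ ∀ x ∈ K, {n | x ∈ (p.1.2 n).1} = F x := by
    intro K F hN
    have h1 : ∀ x ∈ K, {n | x ∈ {x | x ∈ K ∧ n ∈ F x}} = F x := by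
      intro x hx
      ext n
      simp [hx]
    refine ⟨⟨(⟨K, hN.cu.1⟩, fun n => ⟨{x | x ∈ K ∧ n ∈ F x}, (hN.uc n).isClosed hN.cu.1⟩), ?_⟩,
      rfl, h1⟩
    refine ⟨hN.cu, fun x hx => ?_, fun n => ?_⟩
    · change {n | x ∈ {x | x ∈ K ∧ n ∈ F x}}.Infinite
      rw [h1 x hx]
      exact hN.inf x hx
    · refine (hN.uc n).congr fun x hx => ?_
      simp only [mem_ofPred_eq, hx, true_and]
  have hJ : #J ≤ 𝔠 := (Cardinal.mk_subtype_le _).trans mk_codes_le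
  have hne : Nonempty J := by
    obtain ⟨p, -⟩ := hcode univ (fun _ => univ) ⟨CU_univ, fun _ _ => infinite_univ,
      fun n => UC_const _ _⟩
    exact ⟨p⟩
  obtain ⟨f, hf⟩ := exists_surj_CI hJ
  refine ⟨fun α => (f α).1.1.1, fun α x => {n | x ∈ ((f α).1.2 n).1}, fun α => (f α).2, ?_⟩
  intro K F hN
  obtain ⟨p, hp1, hp2⟩ := hcode K F hN
  obtain ⟨α, hα⟩ := hf p
  refine ⟨α, by simp only [hα]; exact hp1, fun x hx => by simp only [hα]; exact hp2 x hx⟩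

theorem UC_of_closed {R : Set Ca} {P : Ca → Prop} (h1 : IsClosed {u | u ∈ R ∧ P u})
    (h2 : IsClosed {u | u ∈ R ∧ ¬ P u}) : UC P R := by
  obtain ⟨m, hm⟩ := exists_sep h1 h2 (by
    rw [Set.disjoint_left]
    rintro x ⟨-, hx⟩ ⟨-, hx'⟩
    exact hx' hx)
  refine ⟨m, fun x hx y hy hxy => ?_⟩
  by_contra hne
  by_cases hPx : P x
  · by_cases hPy : P y
    · exact hne (by simp [hPx, hPy])
    · exact hm x ⟨hx, hPx⟩ y ⟨hy, hPy⟩ hxy
  · by_cases hPy : P y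
    · exact hm y ⟨hy, hPy⟩ x ⟨hx, hPx⟩ hxy.symm
    · exact hne (by simp [hPx, hPy])

section

variable {I : Type} [LinearOrder I] [WellFoundedLT I] {e : I → Set ℕ}

theorem Base.uc1 {K : Set Ca} {ε : I} {y : Ca → I → Bool} (h : Base K ε y) {ξ : I} (hξ : ξ < ε) :
    UC (fun x => y x ξ) K := by
  obtain ⟨N, hN⟩ := h.uc ξ hξ
  exact ⟨N, fun x hx x' hx' hxx => hN x hx x' hx' hxx ξ le_rfl⟩

theorem Base.mono {K K' : Set Ca} {ε : I} {y : Ca → I → Bool} (h : Base K ε y) (hK : K' ⊆ K)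
    (cK : CU K') : Base K' ε y := by
  refine ⟨cK, fun x hx x' hx' => h.inj x (hK hx) x' (hK hx'), fun ε' hε => ?_⟩
  obtain ⟨N, hN⟩ := h.uc ε' hε
  exact ⟨N, fun x hx x' hx' => hN x (hK hx) x' (hK hx')⟩

/-- the correspondence between two positions -/
def Cor (ε : I) (KA KB : Set Ca) (yA yB : Ca → I → Bool) : Set (Ca × Ca) :=
  {p | p.1 ∈ KA ∧ p.2 ∈ KB ∧ ∀ ξ < ε, yA p.1 ξ = yB p.2 ξ}

theorem isClosed_Cor {ε : I} {KA KB : Set Ca} {yA yB : Ca → I → Bool} (hA : Base KA ε yA)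
    (hB : Base KB ε yB) : IsClosed (Cor ε KA KB yA yB) := by
  have : Cor ε KA KB yA yB = (KA ×ˢ KB) ∩ ⋂ ξ : Iio ε,
      ({x | x ∈ KA ∧ yA x ξ = true} ×ˢ {u | u ∈ KB ∧ yB u ξ = true}) ∪
      ({x | x ∈ KA ∧ yA x ξ = false} ×ˢ {u | u ∈ KB ∧ yB u ξ = false}) := by
    ext ⟨x, u⟩
    simp only [Cor, mem_ofPred_eq, mem_inter_iff, mem_prod, mem_iInter, mem_union, Subtype.forall,
      mem_Iio]
    constructor
    · rintro ⟨h1, h2, h3⟩
      refine ⟨⟨h1, h2⟩, fun ξ hξ => ?_⟩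
      have := h3 ξ hξ
      cases h4 : yA x ξ
      · rw [h4] at this
        exact Or.inr ⟨⟨h1, rfl⟩, h2, this.symm⟩
      · rw [h4] at this
        exact Or.inl ⟨⟨h1, rfl⟩, h2, this.symm⟩
    · rintro ⟨⟨h1, h2⟩, h3⟩
      refine ⟨h1, h2, fun ξ hξ => ?_⟩
      rcases h3 ξ hξ with ⟨⟨-, a⟩, -, b⟩ | ⟨⟨-, a⟩, -, b⟩
      · rw [a, b]
      · rw [a, b]
  rw [this]
  refine (hA.cu.1.prod hB.cu.1).inter (isClosed_iInter fun ξ => ?_)
  have a1 : ∀ b, IsClosed {x | x ∈ KA ∧ yA x ξ = b} := fun b =>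
    ((hA.uc1 ξ.2).comp (fun c => c = b)).isClosed hA.cu.1
  have a2 : ∀ b, IsClosed {x | x ∈ KB ∧ yB x ξ = b} := fun b =>
    ((hB.uc1 ξ.2).comp (fun c => c = b)).isClosed hB.cu.1
  exact ((a1 _).prod (a2 _)).union ((a1 _).prod (a2 _))

theorem isClosed_image_Cor {ε : I} {KA KB : Set Ca} {yA yB : Ca → I → Bool} (hA : Base KA ε yA)
    (hB : Base KB ε yB) {A : Set Ca} (hcl : IsClosed A) :
    IsClosed {u | ∃ x ∈ A, (x, u) ∈ Cor ε KA KB yA yB} := by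
  have h1 : IsCompact (Cor ε KA KB yA yB ∩ (A ×ˢ Set.univ)) :=
    ((isClosed_Cor hA hB).inter (hcl.prod isClosed_univ)).isCompact
  have h2 : {u | ∃ x ∈ A, (x, u) ∈ Cor ε KA KB yA yB} =
      Prod.snd '' (Cor ε KA KB yA yB ∩ (A ×ˢ Set.univ)) := by
    ext u
    constructor
    · rintro ⟨x, hx, hxu⟩
      exact ⟨(x, u), ⟨hxu, hx, mem_univ _⟩, rfl⟩
    · rintro ⟨⟨x, u'⟩, ⟨h3, h4, -⟩, rfl⟩
      exact ⟨x, h4, h3⟩
  rw [h2]
  exact (h1.image continuous_snd).isClosed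

open Classical in
/-- transfer of a name along the correspondence -/
theorem transfer {ε : I} {KA KB : Set Ca} {yA yB : Ca → I → Bool} (hA : Base KA ε yA)
    (hB : Base KB ε yB) {F : Ca → Set ℕ} (hN : Nm KA F)
    (hF : ∀ x ∈ KA, ∀ ξ < ε, (F x \ E e ξ (yA x ξ)).Finite)
    (hu : ¬ {u | u ∈ KB ∧ ∃ x ∈ KA, ∀ ξ < ε, yA x ξ = yB u ξ}.Countable) :
    ∃ (K' : Set Ca) (F' : Ca → Set ℕ), K' ⊆ KB ∧ Nm K' F' ∧
      (∀ u ∈ K', ∀ ξ < ε, (F' u \ E e ξ (yB u ξ)).Finite) ∧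
      ∀ a, Hit K' F' a → Hit KA F a := by
  let R : Set Ca := {u | u ∈ KB ∧ ∃ x ∈ KA, ∀ ξ < ε, yA x ξ = yB u ξ}
  have hRx : ∀ u, ∃ x, u ∈ R → x ∈ KA ∧ ∀ ξ < ε, yA x ξ = yB u ξ := by
    intro u
    by_cases h : u ∈ R
    · obtain ⟨x, h1, h2⟩ := h.2
      exact ⟨x, fun _ => ⟨h1, h2⟩⟩
    · exact ⟨u, fun h' => absurd h' h⟩
  choose X hX using hRx
  have huniq : ∀ u ∈ R, ∀ x ∈ KA, (∀ ξ < ε, yA x ξ = yB u ξ) → x = X u := by
    intro u hu x hx hxu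
    by_contra hne
    obtain ⟨ξ, hξ, hξ'⟩ := hA.inj x hx (X u) (hX u hu).1 hne
    exact hξ' ((hxu ξ hξ).trans ((hX u hu).2 ξ hξ).symm)
  have hRcl : IsClosed R := by
    have := isClosed_image_Cor hA hB isClosed_univ
    convert this using 1
    ext u
    constructor
    · rintro ⟨h1, x, h2, h3⟩
      exact ⟨x, mem_univ _, h2, h1, h3⟩
    · rintro ⟨x, -, h2, h1, h3⟩
      exact ⟨h1, x, h2, h3⟩
  have hPcl : ∀ P : Ca → Prop, IsClosed {x | x ∈ KA ∧ P x} → IsClosed {u | u ∈ R ∧ P (X u)} := by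
    intro P hP
    have := isClosed_image_Cor hA hB hP
    convert this using 1
    ext u
    constructor
    · rintro ⟨h1, h2⟩
      exact ⟨X u, ⟨(hX u h1).1, h2⟩, (hX u h1).1, h1.1, (hX u h1).2⟩
    · rintro ⟨x, ⟨h1, h2⟩, -, h3, h4⟩
      have hR : u ∈ R := ⟨h3, x, h1, h4⟩
      refine ⟨hR, ?_⟩
      rw [← huniq u hR x h1 h4]
      exact h2
  refine ⟨R, fun u => F (X u), fun u hu => hu.1, ⟨⟨hRcl, hu⟩, fun u hu => hN.inf _ (hX u hu).1,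
    fun n => ?_⟩, ?_, ?_⟩
  · refine UC_of_closed (hPcl (fun x => n ∈ F x) ((hN.uc n).isClosed hN.cu.1))
      (hPcl (fun x => ¬ n ∈ F x) ?_)
    exact ((hN.uc n).comp (fun p => ¬ p)).isClosed hN.cu.1
  · intro u hu ξ hξ
    rw [← (hX u hu).2 ξ hξ]
    exact hF _ (hX u hu).1 ξ hξ
  · intro a ha hc
    apply ha
    have hinj : InjOn X {u | u ∈ R ∧ (a ∩ F (X u)).Infinite} := by
      rintro u ⟨hu, -⟩ v ⟨hv, -⟩ huv
      by_contra hne
      obtain ⟨ξ, hξ, hξ'⟩ := hB.inj u hu.1 v hv.1 hne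
      apply hξ'
      rw [← (hX u hu).2 ξ hξ, ← (hX v hv).2 ξ hξ, huv]
    refine countable_of_injective_of_countable_image hinj (hc.mono ?_)
    rintro _ ⟨u, ⟨hu, hu'⟩, rfl⟩
    exact ⟨(hX u hu).1, hu'⟩

/-- the family of bases, and the transferred names -/
theorem exists_bases (hI : #I < 𝔠) (hspl : Spl e) :
    ∃ (KK : CI → Set Ca) (FF : CI → Ca → Set ℕ) (KB : CI → Set Ca) (εB : CI → I)
      (yB : CI → Ca → I → Bool) (b : CI → CI) (KT : CI → Set Ca) (FT : CI → Ca → Set ℕ),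
      (∀ K F, Nm K F → ∃ α, KK α = K ∧ ∀ x ∈ K, FF α x = F x) ∧
      (∀ α, Base (KB (b α)) (εB (b α)) (yB (b α))) ∧
      (∀ α α', b α ≠ b α' → εB (b α) = εB (b α') → ∀ x ∈ KB (b α), ∀ x' ∈ KB (b α'),
        ∃ ξ < εB (b α), yB (b α) x ξ ≠ yB (b α') x' ξ) ∧
      (∀ α, KT α ⊆ KB (b α)) ∧ (∀ α, Nm (KT α) (FT α)) ∧
      (∀ α, ∀ u ∈ KT α, ∀ ξ < εB (b α), (FT α u \ E e ξ (yB (b α) u ξ)).Finite) ∧
      ∀ α a, Hit (KT α) (FT α) a → Hit (KK α) (FF α) a := by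
  classical
  obtain ⟨KK, FF, hKF, hall⟩ := names_enum
  choose KN FN ε y h1 h2 h3 h4 h5 using fun α => normal_form hI hspl (hKF α)
  let tr : CI → Ca → I × (I → Bool) := fun α x => (ε α, fun ξ => if ξ < ε α then y α x ξ else false)
  have htr : ∀ α α' x x', tr α x = tr α' x' → ε α = ε α' ∧ ∀ ξ < ε α, y α x ξ = y α' x' ξ := by
    intro α α' x x' h
    simp only [tr, Prod.mk.injEq] at h
    refine ⟨h.1, fun ξ hξ => ?_⟩
    have := congrFun h.2 ξ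
    rwa [if_pos hξ, if_pos (h.1 ▸ hξ)] at this
  have hinj : ∀ α, InjOn (tr α) (KN α) := by
    intro α x hx x' hx' h
    by_contra hne
    obtain ⟨ξ, hξ, hξ'⟩ := (h4 α).inj x hx x' hx' hne
    exact hξ' ((htr α α x x' h).2 ξ hξ)
  obtain ⟨D, B, d1, d2, d3⟩ := disj_family (fun α => tr α '' KN α)
    (fun α => {B | ∃ K' ⊆ KN α, CU K' ∧ B = tr α '' K'}) (by
      rintro α B ⟨K', hK', cK', rfl⟩
      refine ⟨image_mono hK', fun hc => cK'.2 ?_⟩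
      exact countable_of_injective_of_countable_image ((hinj α).mono hK') hc) (by
      intro α ι S hι hS
      obtain ⟨K', hK', cK', hd⟩ := (h4 α).cu.avoid' hι (fun i => tr α ⁻¹' S i) (by
        intro i
        refine countable_of_injective_of_countable_image
          ((hinj α).mono inter_subset_left) ((hS i).mono ?_)
        rintro _ ⟨x, ⟨hx, hx'⟩, rfl⟩
        exact ⟨⟨x, hx, rfl⟩, hx'⟩)
      refine ⟨_, ⟨K', hK', cK', rfl⟩, fun i => ?_⟩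
      rw [Set.disjoint_left]
      rintro _ ⟨x, hx, rfl⟩ hx'
      exact Set.disjoint_left.1 (hd i) hx hx')
  have hKBex : ∀ β, ∃ K', β ∈ D → K' ⊆ KN β ∧ CU K' ∧ B β = tr β '' K' := by
    intro β
    by_cases h : β ∈ D
    · obtain ⟨K', hK', cK', hB⟩ := d1 β h
      exact ⟨K', fun _ => ⟨hK', cK', hB⟩⟩
    · exact ⟨∅, fun h' => absurd h' h⟩
  choose KB hKB using hKBex
  choose b hbD hb using d3
  have key : ∀ α, ε α = ε (b α) ∧
      ¬ {u | u ∈ KB (b α) ∧ ∃ x ∈ KN α, ∀ ξ < ε α, y α x ξ = y (b α) u ξ}.Countable := by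
    intro α
    have hne : (tr α '' KN α ∩ B (b α)).Nonempty := by
      by_contra hc
      rw [not_nonempty_iff_eq_empty] at hc
      exact hb α (hc ▸ countable_empty)
    obtain ⟨p, ⟨x, hx, hxp⟩, hp⟩ := hne
    rw [(hKB _ (hbD α)).2.2] at hp
    obtain ⟨u, hu, hup⟩ := hp
    refine ⟨(htr α (b α) x u (hxp.trans hup.symm)).1, fun hc => hb α ?_⟩
    refine (hc.image (tr (b α))).mono ?_
    rintro p ⟨⟨x, hx, hxp⟩, hp⟩
    rw [(hKB _ (hbD α)).2.2] at hp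
    obtain ⟨u, hu, hup⟩ := hp
    exact ⟨u, ⟨hu, x, hx, (htr α (b α) x u (hxp.trans hup.symm)).2⟩, hup⟩
  have hbase : ∀ α, Base (KB (b α)) (ε (b α)) (y (b α)) := fun α =>
    (h4 (b α)).mono (hKB _ (hbD α)).1 (hKB _ (hbD α)).2.1
  have htrans : ∀ α, ∃ (K' : Set Ca) (F' : Ca → Set ℕ), K' ⊆ KB (b α) ∧ Nm K' F' ∧
      (∀ u ∈ K', ∀ ξ < ε (b α), (F' u \ E e ξ (y (b α) u ξ)).Finite) ∧
      ∀ a, Hit K' F' a → Hit (KN α) (FN α) a := by
    intro α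
    have hA : Base (KN α) (ε (b α)) (y α) := by
      rw [← (key α).1]; exact h4 α
    exact transfer hA (hbase α) (h2 α) (by rw [← (key α).1]; exact h5 α)
      (by rw [← (key α).1]; exact (key α).2)
  choose KT FT t1 t2 t3 t4 using htrans
  refine ⟨KK, FF, KB, ε, y, b, KT, FT, hall, hbase, ?_, t1, t2, t3, ?_⟩
  · intro α α' hne hε x hx x' hx'
    have hd := d2 (b α) (hbD α) (b α') (hbD α') hne
    rw [(hKB _ (hbD α)).2.2, (hKB _ (hbD α')).2.2, Set.disjoint_left] at hd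
    by_contra hc
    push Not at hc
    refine hd ⟨x, hx, rfl⟩ ⟨x', hx', ?_⟩
    simp only [tr, Prod.mk.injEq]
    refine ⟨hε.symm, ?_⟩
    funext ξ
    by_cases hξ : ξ < ε (b α)
    · rw [if_pos hξ, if_pos (hε ▸ hξ), hc ξ hξ]
    · rw [if_neg hξ, if_neg (hε ▸ hξ)]
  · intro α a ha
    exact (t4 α a ha).mono (h1 α) (h3 α)

end

end Run7.h474
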