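import Mathlib

set_option autoImplicit false

namespace Run7.h474

open Set Cardinal

instance polishCa : PolishSpace (ℕ → Bool) where

/-- the Cantor space -/
abbrev Ca := ℕ → Bool

/-- closed uncountable subsets of the Cantor space -/
def CU (K : Set Ca) : Prop := IsClosed K ∧ ¬ K.Countable

/-- agreement below `m` -/
def agr (m : ℕ) (x y : Ca) : Prop := ∀ i < m, x i = y i

theorem agr.symm {m : ℕ} {x y : Ca} (h : agr m x y) : agr m y x := fun i hi => (h i hi).symm

theorem agr.trans {m : ℕ} {x y z : Ca} (h : agr m x y) (h' : agr m y z) : agr m x z :=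
  fun i hi => (h i hi).trans (h' i hi)

theorem agr.refl (m : ℕ) (x : Ca) : agr m x x := fun _ _ => rfl

theorem agr.mono {m n : ℕ} {x y : Ca} (h : agr n x y) (hmn : m ≤ n) : agr m x y :=
  fun i hi => h i (lt_of_lt_of_le hi hmn)

theorem isClopen_agr (m : ℕ) (x : Ca) : IsClopen {y | agr m x y} := by
  have : {y | agr m x y} = ⋂ i ∈ Finset.range m, {y : Ca | y i = x i} := by
    ext y
    simp only [agr, mem_ofPred_eq, mem_iInter, Finset.mem_range]
    exact ⟨fun h i hi => (h i hi).symm, fun h i hi => (h i hi).symm⟩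
  rw [this]
  refine isClopen_biInter_finset fun i _ => ?_
  exact (isClopen_discrete ({x i} : Set Bool)).preimage (continuous_apply i)

theorem isOpen_agr (m : ℕ) (x : Ca) : IsOpen {y | agr m x y} := (isClopen_agr m x).2

theorem isClosed_agr (m : ℕ) (x : Ca) : IsClosed {y | agr m x y} := (isClopen_agr m x).1

theorem eq_of_agr {x y : Ca} (h : ∀ m, agr m x y) : x = y :=
  funext fun i => h (i + 1) i (Nat.lt_succ_self i)

theorem CU.isCompact {K : Set Ca} (h : CU K) : IsCompact K := h.1.isCompact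

theorem CU.nonempty {K : Set Ca} (h : CU K) : K.Nonempty := by
  by_contra hc
  rw [not_nonempty_iff_eq_empty] at hc
  exact h.2 (hc ▸ countable_empty)

theorem mk_Ca : #Ca = 𝔠 := by simp [Ca]

theorem not_countable_Ca : ¬ (univ : Set Ca).Countable := by
  intro hc
  have h3 : #Ca ≤ ℵ₀ := Cardinal.mk_le_aleph0_iff.2 (countable_univ_iff.1 hc)
  rw [mk_Ca] at h3
  exact absurd h3 (not_le.2 aleph0_lt_continuum)

theorem not_countable_range {f : Ca → Ca} (hf : Function.Injective f) : ¬ (range f).Countable := by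
  intro hc
  apply not_countable_Ca
  rw [← image_univ] at hc
  exact countable_of_injective_of_countable_image hf.injOn hc

theorem exists_inj_of_measurable {A : Set Ca} (hA : MeasurableSet A) (h : ¬ A.Countable) :
    ∃ f : Ca → Ca, range f ⊆ A ∧ @Continuous Ca Ca Pi.topologicalSpace Pi.topologicalSpace f ∧
      Function.Injective f := by
  obtain ⟨t', ht'le, ht'polish, hcl, -⟩ := hA.isClopenable
  obtain ⟨f, hf1, hf2, hf3⟩ :=
    @IsClosed.exists_nat_bool_injection_of_not_countable Ca t' ht'polish A hcl h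
  refine ⟨f, hf1, ?_, hf3⟩
  exact continuous_le_rng ht'le hf2

/-- an uncountable Borel set contains a closed uncountable set -/
theorem exists_CU_of_measurable {A : Set Ca} (hA : MeasurableSet A) (h : ¬ A.Countable) :
    ∃ K ⊆ A, CU K := by
  obtain ⟨f, hf1, hf2, hf3⟩ := exists_inj_of_measurable hA h
  exact ⟨range f, hf1, (isCompact_range hf2).isClosed, not_countable_range hf3⟩

theorem CU_univ : CU univ := ⟨isClosed_univ, not_countable_Ca⟩

/-- pairing -/
def pr (c x : Ca) : Ca := fun n => if n % 2 = 0 then c (n / 2) else x (n / 2)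

theorem pr_inj {c x c' x' : Ca} (h : pr c x = pr c' x') : c = c' ∧ x = x' := by
  constructor
  · funext n
    have := congrFun h (2 * n)
    simpa [pr] using this
  · funext n
    have := congrFun h (2 * n + 1)
    have h2 : (2 * n + 1) / 2 = n := by omega
    simpa [pr, h2] using this

theorem continuous_pr (c : Ca) : Continuous (pr c) := by
  refine continuous_pi fun n => ?_
  unfold pr
  by_cases h : n % 2 = 0
  · simp only [h, if_true]
    exact continuous_const
  · simp only [h, if_false]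
    exact continuous_apply _

theorem CU.exists_inj {K : Set Ca} (h : CU K) :
    ∃ f : Ca → Ca, range f ⊆ K ∧ Continuous f ∧ Function.Injective f :=
  IsClosed.exists_nat_bool_injection_of_not_countable h.1 h.2

theorem CU_image {K : Set Ca} (h : CU K) {f : Ca → Ca} (hf : Continuous f)
    (hi : InjOn f K) : CU (f '' K) := by
  refine ⟨(h.isCompact.image hf).isClosed, fun hc => h.2 ?_⟩
  exact countable_of_injective_of_countable_image hi hc

theorem CU.mk {K : Set Ca} (h : CU K) : #K = 𝔠 := by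
  apply le_antisymm
  · calc #K ≤ #Ca := Cardinal.mk_set_le K
      _ = 𝔠 := mk_Ca
  · obtain ⟨f, hf1, -, hf3⟩ := h.exists_inj
    rw [← mk_Ca]
    exact Cardinal.mk_le_of_injective (f := fun x => (⟨f x, hf1 ⟨x, rfl⟩⟩ : K))
      (fun x y hxy => hf3 (congrArg Subtype.val hxy))

theorem mk_iUnion_countable_lt {ι X : Type} (hι : #ι < 𝔠) (S : ι → Set X)
    (hS : ∀ i, (S i).Countable) : #(⋃ i, S i : Set X) < 𝔠 := by
  refine lt_of_le_of_lt (Cardinal.mk_iUnion_le_sum_mk) ?_
  refine lt_of_le_of_lt (Cardinal.sum_le_sum _ (fun _ => ℵ₀) fun i => ?_) ?_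
  · exact Cardinal.le_aleph0_iff_set_countable.2 (hS i)
  · rw [Cardinal.sum_const]
    simp only [Cardinal.lift_id]
    exact Cardinal.mul_lt_of_lt aleph0_le_continuum hι aleph0_lt_continuum

/-- avoiding a set of size less than the continuum -/
theorem CU.avoid_small {K : Set Ca} (h : CU K) {S : Set Ca} (hS : #S < 𝔠) :
    ∃ K' ⊆ K, CU K' ∧ Disjoint K' S := by
  obtain ⟨f, hf1, hf2, hf3⟩ := h.exists_inj
  have hslice : ∀ c : Ca, CU (f '' (pr c '' univ)) := fun c =>
    CU_image (CU_image CU_univ (continuous_pr c) (fun x _ y _ hxy => (pr_inj hxy).2)) hf2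
      hf3.injOn
  by_contra hcon
  push Not at hcon
  have : ∀ c : Ca, ∃ s : S, (s : Ca) ∈ f '' (pr c '' univ) := by
    intro c
    have h1 := hcon (f '' (pr c '' univ)) (by
      rintro _ ⟨y, -, rfl⟩; exact hf1 ⟨y, rfl⟩) (hslice c)
    rw [Set.not_disjoint_iff] at h1
    obtain ⟨s, h2, h3⟩ := h1
    exact ⟨⟨s, h3⟩, h2⟩
  choose g hg using this
  have ginj : Function.Injective g := by
    intro c c' hcc
    have h1 := hg c
    have h2 := hg c'
    rw [hcc] at h1
    obtain ⟨_, ⟨x, -, rfl⟩, hx⟩ := h1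
    obtain ⟨_, ⟨x', -, rfl⟩, hx'⟩ := h2
    exact (pr_inj (hf3 (hx.trans hx'.symm))).1
  have := Cardinal.mk_le_of_injective ginj
  rw [mk_Ca] at this
  exact absurd this (not_le.2 hS)

/-- avoiding fewer than continuum many countable sets -/
theorem CU.avoid {K : Set Ca} (h : CU K) {ι : Type} (hι : #ι < 𝔠) (S : ι → Set Ca)
    (hS : ∀ i, (S i).Countable) : ∃ K' ⊆ K, CU K' ∧ ∀ i, Disjoint K' (S i) := by
  obtain ⟨K', h1, h2, h3⟩ := h.avoid_small (mk_iUnion_countable_lt hι S hS)
  exact ⟨K', h1, h2, fun i => h3.mono_right (subset_iUnion S i)⟩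

/-- avoiding, for sets which are countable within `K` -/
theorem CU.avoid' {K : Set Ca} (h : CU K) {ι : Type} (hι : #ι < 𝔠) (S : ι → Set Ca)
    (hS : ∀ i, (K ∩ S i).Countable) : ∃ K' ⊆ K, CU K' ∧ ∀ i, Disjoint K' (S i) := by
  obtain ⟨K', h1, h2, h3⟩ := h.avoid hι (fun i => K ∩ S i) hS
  refine ⟨K', h1, h2, fun i => ?_⟩
  rw [Set.disjoint_left]
  intro x hx hxS
  exact Set.disjoint_left.1 (h3 i) hx ⟨h1 hx, hxS⟩

/-- one of fewer than continuum many sets covering `K` is uncountable on `K` -/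
theorem CU.exists_uncountable {K : Set Ca} (h : CU K) {ι : Type} (hι : #ι < 𝔠) (S : ι → Set Ca)
    (hS : ∀ x ∈ K, ∃ i, x ∈ S i) : ∃ i, ¬ (K ∩ S i).Countable := by
  by_contra hcon
  push Not at hcon
  obtain ⟨K', h1, h2, h3⟩ := h.avoid' hι S hcon
  obtain ⟨x, hx⟩ := h2.nonempty
  obtain ⟨i, hi⟩ := hS x (h1 hx)
  exact Set.disjoint_left.1 (h3 i) hx hi

/-- condensation points -/
def Cond (K : Set Ca) (x : Ca) : Prop := ∀ m, ¬ (K ∩ {y | agr m x y}).Countable

open Classical in
theorem countable_not_cond (K : Set Ca) : (K ∩ {x | ¬ Cond K x}).Countable := by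
  have : K ∩ {x | ¬ Cond K x} ⊆ ⋃ p : Σ m : ℕ, (Fin m → Bool),
      (if (K ∩ {y | (fun i : Fin p.1 => y i) = p.2}).Countable then
        (K ∩ {y | (fun i : Fin p.1 => y i) = p.2}) else ∅) := by
    rintro x ⟨hx, hx'⟩
    simp only [mem_ofPred_eq, Cond, not_forall, not_not] at hx'
    obtain ⟨m, hm⟩ := hx'
    have heq : {y | agr m x y} = {y : Ca | (fun i : Fin m => y i) = fun i : Fin m => x i} := by
      ext y
      simp only [agr, mem_ofPred_eq]
      constructor
      · intro h
        funext i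
        exact (h i i.2).symm
      · intro h i hi
        exact (congrFun h ⟨i, hi⟩).symm
    rw [mem_iUnion]
    refine ⟨⟨m, fun i => x i⟩, ?_⟩
    simp only
    rw [← heq, if_pos hm]
    exact ⟨hx, agr.refl m x⟩
  refine Set.Countable.mono this (countable_iUnion fun p => ?_)
  split_ifs with h
  · exact h
  · exact countable_empty

theorem exists_cond {K : Set Ca} (h : ¬ K.Countable) {S : Set Ca} (hS : S.Countable) :
    ∃ x ∈ K, x ∉ S ∧ Cond K x := by
  by_contra hcon
  push Not at hcon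
  apply h
  refine Set.Countable.mono (s₂ := S ∪ (K ∩ {x | ¬ Cond K x})) ?_ (hS.union (countable_not_cond K))
  intro x hx
  by_cases hxS : x ∈ S
  · exact Or.inl hxS
  · exact Or.inr ⟨hx, hcon x hx hxS⟩

theorem CU.inter_agr {K : Set Ca} (h : CU K) {x : Ca} (hx : Cond K x) (m : ℕ) :
    CU (K ∩ {y | agr m x y}) := ⟨h.1.inter (isClosed_agr m x), hx m⟩

/-- shrink to small diameter -/
theorem CU.small {K : Set Ca} (h : CU K) (m : ℕ) :
    ∃ K' ⊆ K, CU K' ∧ ∀ x ∈ K', ∀ y ∈ K', agr m x y := by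
  obtain ⟨x, -, -, hc⟩ := exists_cond h.2 countable_empty
  refine ⟨_, inter_subset_left, h.inter_agr hc m, ?_⟩
  rintro y ⟨-, hy⟩ z ⟨-, hz⟩
  exact hy.symm.trans hz

theorem exists_diff {x y : Ca} (h : x ≠ y) : ∃ m, agr m x y ∧ x m ≠ y m := by
  have : ∃ i, x i ≠ y i := Function.ne_iff.1 h
  classical
  refine ⟨Nat.find this, fun i hi => ?_, Nat.find_spec this⟩
  have := Nat.find_min this hi
  simpa using this

/-- split into two disjoint pieces -/
theorem CU.split {K : Set Ca} (h : CU K) :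
    ∃ K0 K1 : Set Ca, K0 ⊆ K ∧ K1 ⊆ K ∧ CU K0 ∧ CU K1 ∧ Disjoint K0 K1 := by
  obtain ⟨x, hx, -, hcx⟩ := exists_cond h.2 countable_empty
  obtain ⟨y, hy, hxy, hcy⟩ := exists_cond h.2 (countable_singleton x)
  obtain ⟨m, -, h2⟩ := exists_diff (fun e => hxy e.symm)
  refine ⟨_, _, inter_subset_left, inter_subset_left, h.inter_agr hcx (m + 1),
    h.inter_agr hcy (m + 1), ?_⟩
  rw [Set.disjoint_left]
  rintro z ⟨-, hz⟩ ⟨-, hz'⟩
  exact h2 ((hz m (Nat.lt_succ_self m)).trans (hz' m (Nat.lt_succ_self m)).symm)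

/-- separation of disjoint closed sets -/
theorem exists_sep {A B : Set Ca} (hA : IsClosed A) (hB : IsClosed B) (h : Disjoint A B) :
    ∃ m, ∀ x ∈ A, ∀ y ∈ B, ¬ agr m x y := by
  by_contra hcon
  push Not at hcon
  have hcl : ∀ m, IsClosed {p : Ca × Ca | p.1 ∈ A ∧ p.2 ∈ B ∧ agr m p.1 p.2} := by
    intro m
    refine (hA.preimage continuous_fst).inter ((hB.preimage continuous_snd).inter ?_)
    have : {p : Ca × Ca | agr m p.1 p.2} = ⋂ i ∈ Finset.range m, {p : Ca × Ca | p.1 i = p.2 i} := by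
      ext p
      simp [agr]
    change IsClosed {p : Ca × Ca | agr m p.1 p.2}
    rw [this]
    refine isClosed_biInter fun i _ => ?_
    exact isClosed_eq ((continuous_apply i).comp continuous_fst)
      ((continuous_apply i).comp continuous_snd)
  have := IsCompact.nonempty_iInter_of_sequence_nonempty_isCompact_isClosed
    (fun m => {p : Ca × Ca | p.1 ∈ A ∧ p.2 ∈ B ∧ agr m p.1 p.2})
    (fun m p hp => ⟨hp.1, hp.2.1, hp.2.2.mono (Nat.le_succ m)⟩)
    (fun m => by
      obtain ⟨x, hx, y, hy, hxy⟩ := hcon m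
      exact ⟨(x, y), hx, hy, hxy⟩)
    ((hcl 0).isCompact) hcl
  obtain ⟨⟨x, y⟩, hp⟩ := this
  rw [mem_iInter] at hp
  have hxy : x = y := eq_of_agr fun m => (hp m).2.2
  subst hxy
  exact Set.disjoint_left.1 h (hp 0).1 (hp 0).2.1

end Run7.h474
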