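import Pool.Agent.Run7.h474.Ext3

set_option autoImplicit false

namespace Run7.h474

open Set Cardinal

/-- refined positions -/
structure Pos (I : Type) where
  Q : Set Ca
  G : Ca → Set ℕ
  ζ : I
  σ : Ca → I → Bool

section

variable {I : Type} [LinearOrder I] [WellFoundedLT I] {e : I → Set ℕ}

/-- the requirements on the refined position of a name -/
structure Fine (e : I → Set ℕ) (K1 : Set Ca) (F : Ca → Set ℕ) (ε : I) (y : Ca → I → Bool)
    (p : Pos I) : Prop where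
  sub : p.Q ⊆ K1
  nm : Nm p.Q p.G
  le : ∀ x ∈ p.Q, p.G x ⊆ F x
  eps : ε ≤ p.ζ
  uc : ∀ ξ < p.ζ, UC (fun x => p.σ x ξ) p.Q
  dec : ∀ ξ < p.ζ, ∀ x ∈ p.Q, (p.G x \ E e ξ (p.σ x ξ)).Finite
  ext : ∀ x ∈ p.Q, ∀ ξ < ε, p.σ x ξ = y x ξ

open Classical in
/-- the theorem when the perfect set ideal is `bb`-additive -/
theorem case_big (hadd : ∀ c < bb, SAdd c) (hbc : bb < 𝔠) (hI : #I < 𝔠)
    (hseg : ∀ ξ : I, #(Iio ξ) < bb) (hspl : Spl e) {W : BI → Set (Set Ca)} (hW : GoodSys W) :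
    ∃ A, SInd A := by
  obtain ⟨ξ0, -⟩ := hspl univ infinite_univ
  haveI : Nonempty I := ⟨ξ0⟩
  obtain ⟨KK, FF, KB, εB, yB, b, KT, FT, hall, hbase, hdis, hKT, hNT, hdec, hhit⟩ :=
    exists_bases (e := e) hI hspl
  have hK1 : ∀ α, ∃ K1 ⊆ KT α, CU K1 ∧ ((∀ n, ¬ Hit (KT α) (FT α) (Cn n)) →
      ∀ x ∈ K1, ∀ n, (FT α x ∩ Cn n).Finite) := by
    intro α
    by_cases h : ∀ n, ¬ Hit (KT α) (FT α) (Cn n)
    · obtain ⟨K1, h1, h2, h3⟩ := (hNT α).avoidC h
      exact ⟨K1, h1, h2, fun _ => h3⟩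
    · exact ⟨KT α, Subset.rfl, (hNT α).cu, fun h' => absurd h' h⟩
  choose K1 h1a h1b h1c using hK1
  obtain ⟨f, hfinj, hf⟩ := inj_choice
    (fun α => {p : BI × Set Ca | p.2 ∈ W p.1 ∧ ¬ (K1 α ∩ p.2).Countable})
    (fun α => hW.rich (K1 α) (h1b α))
  let J : Type := {α : CI // ∀ n, ¬ Hit (KT α) (FT α) (Cn n)}
  let key : J → I ×ₗ BI := fun j => toLex (εB (b j.1), (f j.1).1)
  have hsame : ∀ j j' : J, εB (b j.1) = εB (b j'.1) → ∀ x ∈ KB (b j.1), ∀ x' ∈ KB (b j'.1),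
      (∀ ξ < εB (b j.1), yB (b j.1) x ξ = yB (b j'.1) x' ξ) → b j.1 = b j'.1 ∧ x = x' := by
    intro j j' hε x hx x' hx' h
    have hb : b j.1 = b j'.1 := by
      by_contra hne
      obtain ⟨ξ, hξ, hξ'⟩ := hdis j.1 j'.1 hne hε x hx x' hx'
      exact hξ' (h ξ hξ)
    refine ⟨hb, ?_⟩
    by_contra hne
    obtain ⟨ξ, hξ, hξ'⟩ := (hbase j.1).inj x hx x' (hb ▸ hx') hne
    have h2 := h ξ hξ
    rw [← hb] at h2
    exact hξ' h2
  have hlev : ∀ j j' : J, ∀ x, x ∈ (f j.1).2 → x ∈ (f j'.1).2 → (f j.1).1 = (f j'.1).1 →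
      j = j' := by
    intro j j' x hx hx' hl
    have h1 : (f j.1).2 = (f j'.1).2 := by
      by_contra hne
      refine Set.disjoint_left.1 (hW.disj _ _ (hf j.1).1 _ ?_ hne) hx hx'
      rw [hl]; exact (hf j'.1).1
    exact Subtype.ext (hfinj (Prod.ext hl h1))
  -- the recursion
  let wf : WellFounded (fun j' j : J => key j' < key j) := InvImage.wf key wellFounded_lt
  let Good : ∀ j : J, (∀ j', key j' < key j → Pos I) → Pos I → Prop := fun j prev p =>
    Fine e (K1 j.1 ∩ (f j.1).2) (FT j.1) (εB (b j.1)) (yB (b j.1)) p ∧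
    (∀ j' (h : key j' < key j), b j'.1 = b j.1 → (f j'.1).1 < (f j.1).1 → ∀ x ∈ p.Q,
      x ∈ (prev j' h).Q → ¬ (p.ζ ≤ (prev j' h).ζ ∧ ∀ ξ < p.ζ, p.σ x ξ = (prev j' h).σ x ξ)) ∧
    (∀ j' (h : key j' < key j), εB (b j'.1) < εB (b j.1) → ∀ x ∈ p.Q, ∀ x' ∈ (prev j' h).Q,
      ¬ (εB (b j.1) ≤ (prev j' h).ζ ∧ ∀ ξ < εB (b j.1), (prev j' h).σ x' ξ = yB (b j.1) x ξ))
  let step : ∀ j : J, (∀ j', key j' < key j → Pos I) → Pos I := fun j prev =>
    if h : ∃ p, Good j prev p then h.choose else ⟨∅, fun _ => ∅, ξ0, fun _ _ => true⟩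
  let P : J → Pos I := wf.fix step
  have hP : ∀ j, P j = step j (fun j' _ => P j') := fun j => wf.fix_eq step j
  have hgood : ∀ j, Good j (fun j' _ => P j') (P j) := by
    intro j
    induction j using wf.induction with
    | _ j ih =>
      have hex : ∃ p, Good j (fun j' _ => P j') p := by
        have cK2 : CU (K1 j.1 ∩ (f j.1).2) :=
          ⟨(h1b j.1).1.inter (hW.cu _ _ (hf j.1).1).1, (hf j.1).2⟩
        have hK2B : K1 j.1 ∩ (f j.1).2 ⊆ KB (b j.1) :=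
          inter_subset_left.trans ((h1a j.1).trans (hKT j.1))
        let Bad : Set Ca := {u | u ∈ KB (b j.1) ∧ ∃ j', key j' < key j ∧
          εB (b j'.1) < εB (b j.1) ∧ ∃ u' ∈ (P j').Q, εB (b j.1) ≤ (P j').ζ ∧
            ∀ ξ < εB (b j.1), (P j').σ u' ξ = yB (b j.1) u ξ}
        have hBad : #Bad < 𝔠 := by
          have hch : ∀ t : Bad, ∃ q : VV (KB (b j.1)) (εB (b j.1)) (yB (b j.1)) × BI,
              ∃ j', key j' < key j ∧ εB (b j'.1) < εB (b j.1) ∧ ∃ u' ∈ (P j').Q,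
                εB (b j.1) ≤ (P j').ζ ∧
                (∀ ξ < εB (b j.1), (P j').σ u' ξ = yB (b j.1) t.1 ξ) ∧
                q.1.1 = (εB (b j'.1), trn (εB (b j'.1)) (yB (b j.1) t.1)) ∧
                q.2 = (f j'.1).1 := by
            rintro ⟨u, hu, j', h1, h2, u', h3, h4, h5⟩
            exact ⟨(⟨(εB (b j'.1), trn (εB (b j'.1)) (yB (b j.1) u)), h2, u, hu, rfl⟩,
              (f j'.1).1), j', h1, h2, u', h3, h4, h5, rfl, rfl⟩
          choose q jj a1 a2 uu a3 a4 a5 a6 a7 using hch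
          have hqinj : Function.Injective q := by
            intro t t' htt
            have e1 : (εB (b (jj t).1), trn (εB (b (jj t).1)) (yB (b j.1) t.1)) =
                (εB (b (jj t').1), trn (εB (b (jj t').1)) (yB (b j.1) t'.1)) := by
              rw [← a6 t, ← a6 t', htt]
            rw [Prod.mk.injEq] at e1
            obtain ⟨e1, e2⟩ := e1
            rw [← e1] at e2
            have e3 := trn_eq_iff.1 e2
            have e4 : (f (jj t).1).1 = (f (jj t').1).1 := by rw [← a7 t, ← a7 t', htt]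
            have g1 := (ih (jj t) (a1 t)).1
            have g2 := (ih (jj t') (a1 t')).1
            have m1 : uu t ∈ KB (b (jj t).1) := hKT _ (h1a _ (g1.sub (a3 t)).1)
            have m2 : uu t' ∈ KB (b (jj t').1) := hKT _ (h1a _ (g2.sub (a3 t')).1)
            obtain ⟨hb, hu⟩ := hsame (jj t) (jj t') e1 (uu t) m1 (uu t') m2 (by
              intro ξ hξ
              rw [← g1.ext (uu t) (a3 t) ξ hξ, a5 t ξ (hξ.trans (a2 t)), e3 ξ hξ,
                ← g2.ext (uu t') (a3 t') ξ (e1 ▸ hξ), a5 t' ξ (hξ.trans (a2 t))])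
            have hjj : jj t = jj t' := hlev _ _ (uu t) (g1.sub (a3 t)).2
              (by rw [hu]; exact (g2.sub (a3 t')).2) e4
            by_contra hne
            obtain ⟨ξ, hξ, hξ'⟩ := (hbase j.1).inj t.1 t.2.1 t'.1 t'.2.1
              (fun h => hne (Subtype.ext h))
            apply hξ'
            rw [← a5 t ξ hξ, ← a5 t' ξ hξ, hu, hjj]
          refine lt_of_le_of_lt (Cardinal.mk_le_of_injective hqinj) ?_
          rw [Cardinal.mk_prod, Cardinal.lift_id, Cardinal.lift_id, mk_BI]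
          exact Cardinal.mul_lt_of_lt aleph0_le_continuum
            (lt_of_lt_of_le (mk_VV_lt (hbase j.1) (hseg _)) bb_le) hbc
        obtain ⟨K3, hK3, cK3, hd3⟩ := cK2.avoid_small hBad
        let O : Type := {j' : J // b j'.1 = b j.1 ∧ (f j'.1).1 < (f j.1).1 ∧
          ((f j.1).2 ∩ (f j'.1).2).Nonempty}
        have hOk : ∀ o : O, key o.1 < key j := by
          rintro ⟨j', h1, h2, h3⟩
          refine Prod.Lex.toLex_lt_toLex.2 (Or.inr ⟨?_, h2⟩)
          simp only [h1]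
        have hO : #O < bb := by
          refine lt_of_le_of_lt ?_ (hW.mk_met_lt (hf j.1).1 (mk_Iio_BI _))
          refine Cardinal.mk_le_of_injective (f := fun o : O => ⟨f o.1.1, o.2.2.1, (hf _).1,
            o.2.2.2⟩) ?_
          intro o o' h
          exact Subtype.ext (Subtype.ext (hfinj (congrArg Subtype.val h)))
        obtain ⟨K', G, ζ, σ, r1, r2, r3, r4, r5, r6, r7, r8⟩ := ext_lemma hadd hbc hI hseg hspl
          ((hNT j.1).mono (hK3.trans (inter_subset_left.trans (h1a j.1))) cK3)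
          (ε := εB (b j.1)) (y := yB (b j.1))
          (fun x hx ξ hξ => hdec j.1 x (h1a j.1 (hK3 hx).1) ξ hξ) hO (fun o => (P o.1).Q)
          (fun o => (ih o.1 (hOk o)).1.nm.cu.1) (fun o => (P o.1).ζ) (fun o => (P o.1).σ)
          (fun o => (ih o.1 (hOk o)).1.uc)
        refine ⟨⟨K', G, ζ, σ⟩, ⟨r1.trans hK3, r2, r3, r4, r5, r6, r7⟩, ?_, ?_⟩
        · intro j' hj' hb hl x hx hx'
          have hne : ((f j.1).2 ∩ (f j'.1).2).Nonempty :=
            ⟨x, (hK3 (r1 hx)).2, ((ih j' hj').1.sub hx').2⟩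
          exact r8 ⟨j', hb, hl, hne⟩ x hx hx'
        · rintro j' hj' hε x hx x' hx' ⟨h1, h2⟩
          refine Set.disjoint_left.1 hd3 (r1 hx) ⟨hK2B (hK3 (r1 hx)), j', hj', hε, x', hx', h1, h2⟩
      rw [hP]
      simp only [step]
      rw [dif_pos hex]
      exact hex.choose_spec
  have hFine := fun j => (hgood j).1
  have hc := fun j => (hgood j).2.1
  have hd := fun j => (hgood j).2.2
  let Q : J → Set Ca := fun j => (P j).Q
  let Z : J → Set I := fun j => Iio (P j).ζ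
  let σ : J → Ca → I → Bool := fun j => (P j).σ
  have hQB : ∀ j : J, Q j ⊆ KB (b j.1) := fun j x hx =>
    hKT j.1 (h1a j.1 ((hFine j).sub hx).1)
  -- related elements at the same base level
  have hrel1 : ∀ j j' : J, εB (b j.1) = εB (b j'.1) → ∀ x ∈ Q j, ∀ x' ∈ Q j',
      (∀ ξ ∈ Z j, ξ ∈ Z j' → σ j x ξ = σ j' x' ξ) → b j.1 = b j'.1 ∧ x = x' := by
    intro j j' hε x hx x' hx' h
    refine hsame j j' hε x (hQB j hx) x' (hQB j' hx') fun ξ hξ => ?_
    rw [← (hFine j).ext x hx ξ hξ, ← (hFine j').ext x' hx' ξ (hε ▸ hξ)]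
    exact h ξ (lt_of_lt_of_le hξ (hFine j).eps) (lt_of_lt_of_le hξ (hε ▸ (hFine j').eps))
  have hcount : ∀ j, #{j' // key j' < key j ∧ Rl Q σ Z j' j} < bb := by
    intro j
    have hsplit : ∀ t : {j' // key j' < key j ∧ Rl Q σ Z j' j},
        ∃ p : {p : BI × Set Ca | p.1 < (f j.1).1 ∧ p.2 ∈ W p.1 ∧ ((f j.1).2 ∩ p.2).Nonempty} ⊕
          (VV (KB (b j.1)) (εB (b j.1)) (yB (b j.1)) ×
            VV (KB (b j.1)) (εB (b j.1)) (yB (b j.1))),
        (∀ q, p = Sum.inl q → q.1 = f t.1.1) ∧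
        (∀ q, p = Sum.inr q → ∃ x ∈ KB (b j.1), ∃ x' ∈ Q t.1,
          εB (b t.1.1) < εB (b j.1) ∧ (P t.1).ζ < εB (b j.1) ∧
          q.1.1 = (εB (b t.1.1), trn (εB (b t.1.1)) (yB (b j.1) x)) ∧
          q.2.1 = ((P t.1).ζ, trn (P t.1).ζ (yB (b j.1) x)) ∧
          ∀ ξ < (P t.1).ζ, (P t.1).σ x' ξ = yB (b j.1) x ξ) := by
      rintro ⟨j', hlt, x', hx', x, hx, hxx⟩
      rcases (Prod.Lex.toLex_lt_toLex.1 hlt) with h | ⟨h, h'⟩
      · simp only at h
        have hζ : (P j').ζ < εB (b j.1) := by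
          by_contra hcc
          rw [not_lt] at hcc
          refine hd j j' hlt h x hx x' hx' ⟨hcc, fun ξ hξ => ?_⟩
          rw [← (hFine j).ext x hx ξ hξ]
          exact hxx ξ (lt_of_lt_of_le hξ hcc) (lt_of_lt_of_le hξ (hFine j).eps)
        have heq : ∀ ξ < (P j').ζ, (P j').σ x' ξ = yB (b j.1) x ξ := by
          intro ξ hξ
          rw [← (hFine j).ext x hx ξ (hξ.trans hζ)]
          exact hxx ξ hξ (lt_of_lt_of_le (hξ.trans hζ) (hFine j).eps)
        refine ⟨Sum.inr (⟨(εB (b j'.1), trn (εB (b j'.1)) (yB (b j.1) x)), h, x, hQB j hx, rfl⟩,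
          ⟨((P j').ζ, trn (P j').ζ (yB (b j.1) x)), hζ, x, hQB j hx, rfl⟩), by simp, ?_⟩
        intro q hq
        rw [Sum.inr.injEq] at hq
        subst hq
        exact ⟨x, hQB j hx, x', hx', h, hζ, rfl, rfl, heq⟩
      · simp only at h h'
        obtain ⟨hb, hxe⟩ := hrel1 j' j h x' hx' x hx hxx
        refine ⟨Sum.inl ⟨f j'.1, h', (hf j'.1).1, x, ((hFine j).sub hx).2,
          hxe ▸ ((hFine j').sub hx').2⟩, ?_, by simp⟩
        intro q hq
        rw [Sum.inl.injEq] at hq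
        subst hq
        rfl
    choose p hp1 hp2 using hsplit
    have hVV := mk_VV_lt (hbase j.1) (hseg (εB (b j.1)))
    refine lt_of_le_of_lt (Cardinal.mk_le_of_injective (f := p) ?_) (mk_sum_lt
      (hW.mk_met_lt (hf j.1).1 (mk_Iio_BI _)) (mk_prod_lt hVV hVV))
    intro t t' htt
    rcases hpt : p t with q | q
    · have e1 := hp1 t q hpt
      have e2 := hp1 t' q (htt ▸ hpt)
      exact Subtype.ext (Subtype.ext (hfinj (e1.symm.trans e2)))
    · obtain ⟨x1, -, x1', hx1', l1, m1, e1, e2, e3⟩ := hp2 t q hpt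
      obtain ⟨x2, -, x2', hx2', l2, m2, e1', e2', e3'⟩ := hp2 t' q (htt ▸ hpt)
      have a1 := e1.symm.trans e1'
      have a2 := e2.symm.trans e2'
      rw [Prod.mk.injEq] at a1 a2
      obtain ⟨a1, a3⟩ := a1
      obtain ⟨a2, a4⟩ := a2
      rw [← a1] at a3
      rw [← a2] at a4
      have b3 := trn_eq_iff.1 a3
      have b4 := trn_eq_iff.1 a4
      have hσeq : ∀ ξ < (P t.1).ζ, (P t.1).σ x1' ξ = (P t'.1).σ x2' ξ := by
        intro ξ hξ
        rw [e3 ξ hξ, b4 ξ hξ, e3' ξ (a2 ▸ hξ)]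
      obtain ⟨hb, hxe⟩ := hsame t.1 t'.1 a1 x1' (hQB _ hx1') x2' (hQB _ hx2') (by
        intro ξ hξ
        rw [← (hFine t.1).ext x1' hx1' ξ hξ, ← (hFine t'.1).ext x2' hx2' ξ (a1 ▸ hξ)]
        exact hσeq ξ (lt_of_lt_of_le hξ (hFine t.1).eps))
      subst hxe
      rcases lt_trichotomy (f t.1.1).1 (f t'.1.1).1 with hl | hl | hl
      · exfalso
        refine hc t'.1 t.1 ?_ hb hl x1' hx2' hx1' ⟨a2.symm.le, fun ξ hξ => ?_⟩
        · refine Prod.Lex.toLex_lt_toLex.2 (Or.inr ⟨?_, hl⟩)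
          exact a1
        · exact (hσeq ξ (a2 ▸ hξ)).symm
      · exact Subtype.ext (hlev t.1 t'.1 x1' ((hFine t.1).sub hx1').2 ((hFine t'.1).sub hx2').2 hl)
      · exfalso
        refine hc t.1 t'.1 ?_ hb.symm hl x1' hx1' hx2' ⟨a2.le, fun ξ hξ => ?_⟩
        · refine Prod.Lex.toLex_lt_toLex.2 (Or.inr ⟨?_, hl⟩)
          exact a1.symm
        · exact hσeq ξ hξ
  obtain ⟨D, a, g1, g2, g3, g4⟩ := assembly e Q (fun j => (P j).G) σ Z Cn key
    (fun j => (hFine j).nm)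
    (fun j ξ hξ => (hFine j).uc ξ hξ)
    (fun j ξ hξ x hx => (hFine j).dec ξ hξ x hx)
    (fun j n x hx => (h1c j.1 j.2 x ((hFine j).sub hx).1 n).subset
      (inter_subset_inter_left _ ((hFine j).le x hx)))
    (by
      rintro j j' hne ⟨x, hx, x', hx', hxx⟩ hk
      have hk' := congrArg ofLex hk
      simp only [key, ofLex_toLex, Prod.mk.injEq] at hk'
      obtain ⟨hε, hl⟩ := hk'
      obtain ⟨-, hxe⟩ := hrel1 j j' hε x hx x' hx' hxx
      subst hxe
      exact hne (hlev j j' x ((hFine j).sub hx).2 ((hFine j').sub hx').2 hl))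
    (fun j => Dmn_of_lt (mk_sum_lt (hcount j) (mk_sum_lt (hseg _)
      (by rw [mk_nat]; exact aleph0_lt_bb))))
    (fun j => lt_of_lt_of_le (hcount j) bb_le)
  refine SInd_of_family g1 g2 g3 ?_
  intro K F hN
  obtain ⟨α, hα, hα'⟩ := hall K F hN
  subst hα
  by_cases h : ∀ n, ¬ Hit (KT α) (FT α) (Cn n)
  · obtain ⟨j', hj', hh⟩ := g4 ⟨α, h⟩
    refine Or.inr ⟨j', hj', ?_⟩
    have h5 : Q ⟨α, h⟩ ⊆ KT α := fun x hx => h1a α ((hFine ⟨α, h⟩).sub hx).1
    have h6 : Hit (KT α) (FT α) (a j') := Hit.mono h5 (hFine ⟨α, h⟩).le hh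
    exact (hhit α _ h6).congr hα'
  · push Not at h
    obtain ⟨n, hn⟩ := h
    exact Or.inl ⟨n, (hhit α _ hn).congr hα'⟩

end

end Run7.h474
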