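import Pool.Agent.Run7.h474.Normal

set_option autoImplicit false

namespace Run7.h474

open Set Cardinal

/-- the bounding number -/
noncomputable def bb : Cardinal.{0} :=
  sInf {c | ∃ F : Set (ℕ → ℕ), #F = c ∧
    ∀ g : ℕ → ℕ, ∃ f ∈ F, ¬ ∀ᶠ n in Filter.atTop, f n ≤ g n}

/-- the splitting number -/
noncomputable def ss : Cardinal.{0} :=
  sInf {c | ∃ S : Set (Set ℕ), #S = c ∧
    ∀ X : Set ℕ, X.Infinite → ∃ A ∈ S, (X ∩ A).Infinite ∧ (X \ A).Infinite}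

theorem bb_mem : ∃ F : Set (ℕ → ℕ), #F = bb ∧
    ∀ g : ℕ → ℕ, ∃ f ∈ F, ¬ ∀ᶠ n in Filter.atTop, f n ≤ g n := by
  have h : {c | ∃ F : Set (ℕ → ℕ), #F = c ∧
    ∀ g : ℕ → ℕ, ∃ f ∈ F, ¬ ∀ᶠ n in Filter.atTop, f n ≤ g n}.Nonempty := by
    refine ⟨_, univ, rfl, fun g => ⟨fun n => g n + 1, mem_univ _, fun hc => ?_⟩⟩
    obtain ⟨m, hm⟩ := Filter.eventually_atTop.1 hc
    have h1 := hm m le_rfl
    simp only at h1
    omega
  exact csInf_mem h

theorem bb_le : bb ≤ 𝔠 := by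
  obtain ⟨F, hF, -⟩ := bb_mem
  rw [← hF]
  refine (Cardinal.mk_set_le F).trans ?_
  simp

theorem Dmn_of_lt {ι : Type} (h : #ι < bb) : Dmn ι := by
  intro g
  by_contra hc
  push Not at hc
  refine absurd (csInf_le' ⟨range g, rfl, fun h => ?_⟩ : bb ≤ #(range g))
    (not_le.2 (lt_of_le_of_lt Cardinal.mk_range_le h))
  obtain ⟨i, hi⟩ := hc h
  refine ⟨g i, ⟨i, rfl⟩, ?_⟩
  rw [Filter.eventually_atTop]
  push Not
  exact hi

theorem Dmn_nat : Dmn ℕ := by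
  intro g
  refine ⟨fun n => (Finset.range (n + 1)).sup (fun i => g i n), fun i => ⟨i, fun n hn => ?_⟩⟩
  exact Finset.le_sup (f := fun i => g i n) (Finset.mem_range.2 (by omega))

theorem Dmn_of_surj {ι κ : Type} (h : Dmn ι) (f : ι → κ) (hf : Function.Surjective f) :
    Dmn κ := by
  intro g
  obtain ⟨H, hH⟩ := h (fun i => g (f i))
  refine ⟨H, fun k => ?_⟩
  obtain ⟨i, rfl⟩ := hf k
  exact hH i

theorem not_Dmn_of_le {ι : Type} (h : bb ≤ #ι) : ¬ Dmn ι := by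
  intro hD
  obtain ⟨F, hF, hu⟩ := bb_mem
  rw [← hF] at h
  obtain ⟨f0, hf0, -⟩ := hu 0
  have : Nonempty F := ⟨⟨f0, hf0⟩⟩
  obtain ⟨φ⟩ := (Cardinal.le_def _ _).1 h
  have hs : Function.Surjective (Function.invFun φ) := Function.invFun_surjective φ.injective
  obtain ⟨H, hH⟩ := Dmn_of_surj hD _ hs (fun f => f.1)
  obtain ⟨f, hf, hf2⟩ := hu H
  apply hf2
  obtain ⟨m, hm⟩ := hH ⟨f, hf⟩
  exact Filter.eventually_atTop.2 ⟨m, hm⟩

theorem aleph0_lt_bb : ℵ₀ < bb := by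
  by_contra hc
  rw [not_lt, ← Cardinal.mk_nat] at hc
  exact not_Dmn_of_le hc Dmn_nat

/-- the index type of length `bb` -/
abbrev BI : Type := bb.ord.ToType

theorem mk_BI : #BI = bb := Cardinal.mk_ord_toType bb

theorem mk_Iio_lt_ord {c : Cardinal.{0}} (i : c.ord.ToType) : #(Iio i) < c := by
  simpa using Cardinal.mk_Iio_lt i

theorem mk_Iio_BI (ν : BI) : #(Iio ν) < bb := mk_Iio_lt_ord ν

theorem exists_mono_ge (h : ℕ → ℕ) : ∃ h' : ℕ → ℕ, Monotone h' ∧ ∀ n, h n ≤ h' n := by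
  refine ⟨fun n => (Finset.range (n + 1)).sup h, ?_, fun n => ?_⟩
  · intro m n hmn
    exact Finset.sup_mono (Finset.range_mono (by omega))
  · exact Finset.le_sup (Finset.mem_range.2 (Nat.lt_succ_self n))

open Classical in
/-- a well-ordered unbounded family of monotone functions -/
theorem exists_scale : ∃ g : BI → ℕ → ℕ, (∀ ν, Monotone (g ν)) ∧
    (∀ ν ν', ν < ν' → ∃ m, ∀ n ≥ m, g ν n ≤ g ν' n) ∧
    ∀ h : ℕ → ℕ, ∃ ν, ∀ m, ∃ n ≥ m, h n < g ν n := by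
  obtain ⟨F, hF, hu⟩ := bb_mem
  have hφ : Nonempty (BI ≃ F) := by
    rw [← Cardinal.eq, mk_BI, hF]
  obtain ⟨φ⟩ := hφ
  have key : ∀ (ν : BI) (prev : ∀ ν', ν' < ν → ℕ → ℕ), ∃ h : ℕ → ℕ, Monotone h ∧
      (∀ ν' (hν : ν' < ν), ∃ m, ∀ n ≥ m, prev ν' hν n ≤ h n) ∧
      ∃ m, ∀ n ≥ m, (φ ν).1 n ≤ h n := by
    intro ν prev
    have hlt : #(Option (Iio ν)) < bb := by
      rw [Cardinal.mk_option]
      exact Cardinal.add_lt_of_lt aleph0_lt_bb.le (mk_Iio_BI ν)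
        (lt_trans Cardinal.one_lt_aleph0 aleph0_lt_bb)
    obtain ⟨h, hh⟩ := Dmn_of_lt hlt (fun o => match o with
      | none => (φ ν).1
      | some ν' => prev ν'.1 ν'.2)
    obtain ⟨h', h1, h2⟩ := exists_mono_ge h
    refine ⟨h', h1, fun ν' hν => ?_, ?_⟩
    · obtain ⟨m, hm⟩ := hh (some ⟨ν', hν⟩)
      exact ⟨m, fun n hn => (hm n hn).trans (h2 n)⟩
    · obtain ⟨m, hm⟩ := hh none
      exact ⟨m, fun n hn => (hm n hn).trans (h2 n)⟩
  choose st st1 st2 st3 using key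
  let wf : WellFounded (fun a b : BI => a < b) := wellFounded_lt
  let g : BI → ℕ → ℕ := wf.fix st
  have hg : ∀ ν, g ν = st ν (fun ν' _ => g ν') := fun ν => wf.fix_eq st ν
  refine ⟨g, fun ν => ?_, fun ν ν' hν => ?_, fun h => ?_⟩
  · rw [hg]; exact st1 _ _
  · rw [hg ν']; exact st2 ν' (fun ν _ => g ν) ν hν
  · obtain ⟨f, hf, hf2⟩ := hu h
    refine ⟨φ.symm ⟨f, hf⟩, ?_⟩
    by_contra hc
    push Not at hc
    obtain ⟨m, hm⟩ := hc
    apply hf2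
    obtain ⟨m', hm'⟩ := st3 (φ.symm ⟨f, hf⟩) (fun ν' _ => g ν')
    rw [← hg, Equiv.apply_symm_apply] at hm'
    refine Filter.eventually_atTop.2 ⟨max m m', fun n hn => ?_⟩
    exact (hm' n (le_trans (le_max_right _ _) hn)).trans (hm n (le_trans (le_max_left _ _) hn))

theorem BI_bdd {ι : Type} (hι : #ι < bb) (ν : ι → BI) : ∃ μ, ∀ i, ν i < μ := by
  by_contra hc
  push Not at hc
  obtain ⟨g, -, h2, h3⟩ := exists_scale
  obtain ⟨H, hH⟩ := Dmn_of_lt hι (fun i => g (ν i))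
  obtain ⟨μ, hμ⟩ := h3 H
  obtain ⟨i, hi⟩ := hc μ
  obtain ⟨m, hm⟩ := hH i
  have h4 : ∃ m', ∀ n ≥ m', g μ n ≤ g (ν i) n := by
    rcases lt_or_eq_of_le hi with h | h
    · exact h2 _ _ h
    · exact ⟨0, fun n _ => by rw [h]⟩
  obtain ⟨m', hm'⟩ := h4
  obtain ⟨n, hn, hn'⟩ := hμ (max m m')
  have := (hm' n (le_trans (le_max_right _ _) hn)).trans (hm n (le_trans (le_max_left _ _) hn))
  omega

theorem regular_of_bdd {c : Cardinal.{0}} (hc : ℵ₀ ≤ c)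
    (h : ∀ (ι : Type) (_ : #ι < c) (ν : ι → c.ord.ToType), ∃ μ, ∀ i, ν i < μ) : c.IsRegular := by
  refine ⟨hc, ?_⟩
  rw [← Ordinal.cof_toType, Order.le_cof_iff]
  intro s hs
  by_contra hlt
  rw [not_le] at hlt
  obtain ⟨μ, hμ⟩ := h s hlt (fun i => i.1)
  obtain ⟨x, hx, hx'⟩ := hs μ
  exact absurd (hμ ⟨x, hx⟩) (not_lt.2 hx')

theorem bb_regular : bb.IsRegular := regular_of_bdd aleph0_lt_bb.le fun _ hι ν => BI_bdd hι ν

theorem exists_splitting : ∃ e : ss.ord.ToType → Set ℕ, Spl e := by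
  have hne : {c | ∃ S : Set (Set ℕ), #S = c ∧
      ∀ X : Set ℕ, X.Infinite → ∃ A ∈ S, (X ∩ A).Infinite ∧ (X \ A).Infinite}.Nonempty := by
    refine ⟨_, univ, rfl, fun X hX => ?_⟩
    have hm : StrictMono (Nat.nth (· ∈ X)) := Nat.nth_strictMono hX
    have hmem : ∀ n, Nat.nth (· ∈ X) n ∈ X := fun n => Nat.nth_mem_of_infinite hX n
    refine ⟨Nat.nth (· ∈ X) '' {n | Even n}, mem_univ _, ?_, ?_⟩
    · have : (Nat.nth (· ∈ X) '' {n | Even n}).Infinite :=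
        Set.Infinite.image hm.injective.injOn (Set.infinite_of_forall_exists_gt fun n =>
          ⟨2 * n + 2, ⟨n + 1, by omega⟩, by omega⟩)
      refine this.mono ?_
      rintro _ ⟨n, hn, rfl⟩
      exact ⟨hmem n, n, hn, rfl⟩
    · have : (Nat.nth (· ∈ X) '' {n | ¬ Even n}).Infinite :=
        Set.Infinite.image hm.injective.injOn (Set.infinite_of_forall_exists_gt fun n =>
          ⟨2 * n + 1, by simp only [mem_ofPred_eq]; intro h; obtain ⟨k, hk⟩ := h; omega, by omega⟩)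
      refine this.mono ?_
      rintro _ ⟨n, hn, rfl⟩
      refine ⟨hmem n, ?_⟩
      rintro ⟨m, hm1, hm2⟩
      have := hm.injective hm2
      subst this
      exact hn hm1
  obtain ⟨S, hS, hspl⟩ := csInf_mem hne
  have hφ : Nonempty (ss.ord.ToType ≃ S) := by
    rw [← Cardinal.eq, Cardinal.mk_ord_toType, hS]; rfl
  obtain ⟨φ⟩ := hφ
  refine ⟨fun i => (φ i).1, fun X hX => ?_⟩
  obtain ⟨A, hA, h⟩ := hspl X hX
  refine ⟨φ.symm ⟨A, hA⟩, ?_⟩
  simp only [Equiv.apply_symm_apply]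
  exact h

end Run7.h474
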