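import Pool.Agent.Run7.h474.Fusion

set_option autoImplicit false

namespace Run7.h474

open Set Cardinal

/-- names for infinite sets of natural numbers, read continuously on `K` -/
structure Nm (K : Set Ca) (F : Ca → Set ℕ) : Prop where
  cu : CU K
  inf : ∀ x ∈ K, (F x).Infinite
  uc : ∀ n, UC (fun x => n ∈ F x) K

theorem Nm.mono {K K' : Set Ca} {F : Ca → Set ℕ} (h : Nm K F) (hK : K' ⊆ K) (hc : CU K') :
    Nm K' F := ⟨hc, fun x hx => h.inf x (hK hx), fun n => (h.uc n).mono hK⟩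

/-- every family of functions indexed by `ι` is eventually bounded by a single function -/
def Dmn (ι : Type) : Prop := ∀ g : ι → ℕ → ℕ, ∃ h : ℕ → ℕ, ∀ i, ∃ m, ∀ n ≥ m, g i n ≤ h n

theorem exists_dense_cond {K : Set Ca} (hK : CU K) :
    ∃ d : ℕ → Ca, (∀ n, d n ∈ K ∧ Cond K (d n)) ∧
      ∀ x ∈ K, Cond K x → ∀ m N, ∃ n ≥ N, agr m x (d n) := by
  let S : Set Ca := {x | x ∈ K ∧ Cond K x}
  obtain ⟨x0, hx0, -, hx0'⟩ := exists_cond hK.2 countable_empty
  haveI : Nonempty S := ⟨⟨x0, hx0, hx0'⟩⟩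
  obtain ⟨u, hu⟩ := TopologicalSpace.exists_dense_seq S
  refine ⟨fun n => (u n.unpair.1 : Ca), fun n => (u n.unpair.1).2, ?_⟩
  intro x hx hxc m N
  have hopen : IsOpen (((↑) : S → Ca) ⁻¹' {y | agr m x y}) :=
    (isOpen_agr m x).preimage continuous_subtype_val
  obtain ⟨k, hk⟩ := hu.exists_mem_open hopen ⟨⟨x, hx, hxc⟩, agr.refl m x⟩
  refine ⟨Nat.pair k N, Nat.right_le_pair k N, ?_⟩
  simpa using hk

theorem Cond.mono {K L : Set Ca} {x : Ca} (h : Cond K x) (hKL : K ⊆ L) : Cond L x :=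
  fun m hc => h m (hc.mono (inter_subset_inter_left _ hKL))

theorem dom_step {K : Set Ca} {F : Ca → Set ℕ} (hN : Nm K F) {d : ℕ → Ca}
    (hd1 : ∀ n, d n ∈ K ∧ Cond K (d n))
    (hd2 : ∀ x ∈ K, Cond K x → ∀ m N, ∃ n ≥ N, agr m x (d n)) (h : ℕ → ℕ)
    (p : {p : Ca × ℕ // ¬ (K ∩ {y | agr p.2 p.1 y}).Countable}) (s : List Bool) :
    ∃ (n k : ℕ) (M : Bool → {p : Ca × ℕ // ¬ (K ∩ {y | agr p.2 p.1 y}).Countable}),
      d n ∈ K ∩ {y | agr p.1.2 p.1.1 y} ∧ Encodable.encode s ≤ n ∧ k ∈ F (d n) ∧ h n ≤ k ∧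
      s.length ≤ k ∧ (∀ b, K ∩ {y | agr (M b).1.2 (M b).1.1 y} ⊆ K ∩ {y | agr p.1.2 p.1.1 y}) ∧
      (∀ b, ∀ y ∈ K ∩ {y | agr (M b).1.2 (M b).1.1 y}, k ∈ F y) ∧
      Disjoint (K ∩ {y | agr (M true).1.2 (M true).1.1 y})
        (K ∩ {y | agr (M false).1.2 (M false).1.1 y}) := by
  obtain ⟨⟨x, m⟩, hp⟩ := p
  simp only at hp ⊢
  obtain ⟨z, hz, -, hzc⟩ := exists_cond hp countable_empty
  obtain ⟨n, hn, hzn⟩ := hd2 z hz.1 (hzc.mono inter_subset_left) m (Encodable.encode s)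
  have hxn : agr m x (d n) := agr.trans hz.2 hzn
  obtain ⟨k, hk, hk'⟩ := (hN.inf (d n) (hd1 n).1).exists_gt (max (h n) s.length)
  obtain ⟨N, hNN⟩ := hN.uc k
  have hL1 : ¬ (K ∩ {y | agr (max m N) (d n) y}).Countable := (hd1 n).2 _
  obtain ⟨u, hu, -, huc⟩ := exists_cond hL1 countable_empty
  obtain ⟨v, hv, huv, hvc⟩ := exists_cond hL1 (countable_singleton u)
  obtain ⟨j, -, hj⟩ := exists_diff (fun e => huv e.symm : u ≠ v)
  have hsub : ∀ w ∈ K ∩ {y | agr (max m N) (d n) y}, K ∩ {y | agr (max (max m N) (j + 1)) w y} ⊆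
      K ∩ {y | agr (max m N) (d n) y} := by
    rintro w ⟨hw, hw'⟩ y ⟨hy, hy'⟩
    exact ⟨hy, hw'.trans (agr.mono hy' (le_max_left _ _))⟩
  refine ⟨n, k, fun b => if b then ⟨(u, max (max m N) (j + 1)), ?_⟩ else
    ⟨(v, max (max m N) (j + 1)), ?_⟩, ⟨(hd1 n).1, hxn⟩, hn, hk,
    le_trans (le_max_left _ _) hk'.le, le_trans (le_max_right _ _) hk'.le, ?_, ?_, ?_⟩
  · exact (huc.mono inter_subset_left) _
  · exact (hvc.mono inter_subset_left) _
  · have key : ∀ w ∈ K ∩ {y | agr (max m N) (d n) y}, K ∩ {y | agr (max (max m N) (j + 1)) w y} ⊆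
        K ∩ {y | agr m x y} := by
      intro w hw y hy
      have := hsub w hw hy
      exact ⟨this.1, hxn.trans (agr.mono this.2 (le_max_left _ _))⟩
    intro b
    cases b
    · exact key v hv
    · exact key u hu
  · have key : ∀ w ∈ K ∩ {y | agr (max m N) (d n) y}, ∀ y ∈ K ∩
        {y | agr (max (max m N) (j + 1)) w y}, k ∈ F y := by
      intro w hw y hy
      have := hsub w hw hy
      have h3 := hNN (d n) (hd1 n).1 y this.1 (agr.mono this.2 (le_max_right _ _))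
      simp only [eq_iff_iff] at h3
      exact h3.1 hk
    intro b
    cases b
    · exact key v hv
    · exact key u hu
  · simp only [if_true, Bool.false_eq_true, if_false]
    rw [Set.disjoint_left]
    rintro y ⟨-, hy1⟩ ⟨-, hy2⟩
    have e1 := hy1 j (lt_of_lt_of_le (Nat.lt_succ_self j) (le_max_right _ _))
    have e2 := hy2 j (lt_of_lt_of_le (Nat.lt_succ_self j) (le_max_right _ _))
    exact hj (e1.trans e2.symm)

/-- the domination lemma -/
theorem DOM {ι : Type} (hι : Dmn ι) {K : Set Ca} {F : Ca → Set ℕ} (hN : Nm K F)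
    (R : ι → Ca → Set ℕ) (hR : ∀ c, UC (R c) K) (hFR : ∀ c, ∀ x ∈ K, (F x \ R c x).Finite) :
    ∃ (a : Set ℕ) (K' : Set Ca), K' ⊆ K ∧ CU K' ∧ (∀ x ∈ K', (a ∩ F x).Infinite) ∧
      ∀ U : Ultrafilter ℕ, a ∈ U → (U : Filter ℕ) ≤ Filter.cofinite →
        ∃ x ∈ K', ∀ c, R c x ∈ U := by
  obtain ⟨d, hd1, hd2⟩ := exists_dense_cond hN.cu
  have hg : ∀ c n, ∃ g, ∀ k ∈ F (d n), g ≤ k → k ∈ R c (d n) := by
    intro c n
    obtain ⟨g, hg⟩ := (hFR c (d n) (hd1 n).1).bddAbove
    refine ⟨g + 1, fun k hk hgk => ?_⟩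
    by_contra hc
    have := hg ⟨hk, hc⟩
    omega
  choose g hg using hg
  obtain ⟨h, hh⟩ := hι g
  choose n k M h1 h2 h3 h4 h5 h6 h7 h8 using dom_step hN hd1 hd2 h
  obtain ⟨x0, hx0, -, hx0'⟩ := exists_cond hN.cu.2 countable_empty
  let S : List Bool → {p : Ca × ℕ // ¬ (K ∩ {y | agr p.2 p.1 y}).Countable} :=
    iter ⟨(x0, 0), hx0' 0⟩ M
  let P : List Bool → Set Ca := fun s => K ∩ {y | agr (S s).1.2 (S s).1.1 y}
  have hS : Scheme P := by
    refine ⟨fun s => hN.cu.1.inter (isClosed_agr _ _), fun s => ?_, fun s b => h6 _ _ b,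
      fun s => h8 _ _⟩
    exact ⟨_, h1 (S s) s⟩
  have hPK : ∀ s, P s ⊆ K := fun s => inter_subset_left
  have hfK : fuse P ⊆ K := hS.fuse_sub_nil.trans (hPK _)
  let kk : List Bool → ℕ := fun s => k (S s) s
  let nn : List Bool → ℕ := fun s => n (S s) s
  refine ⟨range kk, fuse P, hfK, hS.CU_fuse, ?_, ?_⟩
  · intro x hx
    obtain ⟨z, hz⟩ := hS.branch hx
    refine Set.infinite_of_forall_exists_gt fun m => ?_
    refine ⟨kk (br z (m + 1)), ⟨⟨_, rfl⟩, ?_⟩, ?_⟩
    · exact h7 (S (br z (m + 1))) (br z (m + 1)) (z (m + 1)) x (hz (m + 2))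
    · have := h5 (S (br z (m + 1))) (br z (m + 1))
      rw [br_length] at this
      exact this
  · intro U haU hUf
    have hne : (Filter.comap kk (U : Filter ℕ)).NeBot :=
      Filter.NeBot.comap_of_range_mem (by infer_instance) haU
    let V : Ultrafilter (List Bool) := Ultrafilter.of (Filter.comap kk (U : Filter ℕ))
    have hVle : (V : Filter (List Bool)) ≤ Filter.comap kk (U : Filter ℕ) := Ultrafilter.of_le _
    have hVU : ∀ T : Set ℕ, T ∈ U ↔ kk ⁻¹' T ∈ V := by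
      intro T
      constructor
      · intro hT
        exact hVle (Filter.preimage_mem_comap hT)
      · intro hT
        by_contra hc
        have h9 : Tᶜ ∈ U := Ultrafilter.compl_mem_iff_notMem.2 hc
        have h10 : kk ⁻¹' Tᶜ ∈ V := hVle (Filter.preimage_mem_comap h9)
        have := Filter.inter_mem hT h10
        rw [← preimage_inter, inter_compl_self, preimage_empty] at this
        exact V.neBot.ne (Filter.empty_mem_iff_bot.1 this)
    have hVfin : ∀ T : Set (List Bool), T.Finite → Tᶜ ∈ V := by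
      intro T hT
      have h9 : (kk '' T)ᶜ ∈ U := hUf ((hT.image kk).compl_mem_cofinite)
      have h10 := (hVU _).1 h9
      refine Filter.mem_of_superset h10 ?_
      intro s hs hsT
      exact hs ⟨s, hsT, rfl⟩
    obtain ⟨x, -, hx⟩ := (isCompact_univ (X := Ca)).ultrafilter_le_nhds
      (V.map fun s => d (nn s)) (by simp)
    have hlim : ∀ C : Set Ca, IsClosed C → {s | d (nn s) ∈ C} ∈ V → x ∈ C := by
      intro C hC hCV
      by_contra hc
      have h9 : Cᶜ ∈ (V.map fun s => d (nn s)) := hx (hC.isOpen_compl.mem_nhds hc)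
      have h10 : {s | d (nn s) ∈ Cᶜ} ∈ V := h9
      have := Filter.inter_mem hCV h10
      have he : {s | d (nn s) ∈ C} ∩ {s | d (nn s) ∈ Cᶜ} = ∅ := by
        ext s
        simp
      rw [he] at this
      exact V.neBot.ne (Filter.empty_mem_iff_bot.1 this)
    have hdP : ∀ s, d (nn s) ∈ P s := fun s => h1 (S s) s
    have hxf : x ∈ fuse P := by
      unfold fuse
      rw [mem_iInter]
      intro m
      refine hlim _ (isClosed_iUnion_of_finite fun s => hS.closed s) ?_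
      have hfin : {s : List Bool | s.length < m}.Finite := List.finite_length_lt Bool m
      refine Filter.mem_of_superset (hVfin _ hfin) ?_
      intro s hs
      have hs' : m ≤ s.length := by
        simp only [mem_compl_iff, mem_ofPred_eq, not_lt] at hs
        exact hs
      obtain ⟨t, ht1, ht2⟩ := hS.sub_of_length hs'
      exact mem_iUnion.2 ⟨⟨t, ht1⟩, ht2 (hdP s)⟩
    refine ⟨x, hxf, fun c => ?_⟩
    rw [hVU]
    obtain ⟨N, hNN⟩ := hR c
    have e1 : {s | d (nn s) ∈ {y | agr N x y}} ∈ V := hx ((isOpen_agr N x).mem_nhds (agr.refl N x))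
    obtain ⟨m, hm⟩ := hh c
    have hfin : {s : List Bool | nn s < m}.Finite := by
      refine Set.Finite.subset (s := {s : List Bool | Encodable.encode s < m}) ?_ ?_
      · exact (Set.finite_lt_nat m).preimage (Encodable.encode_injective.injOn)
      · intro s hs
        exact lt_of_le_of_lt (h2 (S s) s) hs
    refine Filter.mem_of_superset (Filter.inter_mem e1 (hVfin _ hfin)) ?_
    rintro s ⟨hs1, hs2⟩
    have hs2' : m ≤ nn s := by
      simp only [mem_compl_iff, mem_ofPred_eq, not_lt] at hs2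
      exact hs2
    have e2 : R c x = R c (d (nn s)) := hNN x (hfK hxf) _ (hd1 _).1 hs1
    have e3 : kk s ∈ R c (d (nn s)) :=
      hg c (nn s) (kk s) (h3 (S s) s) (le_trans (hm _ hs2') (h4 (S s) s))
    change kk s ∈ R c x
    rw [e2]
    exact e3

theorem exists_free_ultrafilter {X : Set ℕ} (hX : X.Infinite) :
    ∃ U : Ultrafilter ℕ, X ∈ U ∧ (U : Filter ℕ) ≤ Filter.cofinite := by
  haveI : (Filter.cofinite ⊓ Filter.principal X).NeBot :=
    Filter.cofinite_inf_principal_neBot_iff.2 hX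
  refine ⟨Ultrafilter.of (Filter.cofinite ⊓ Filter.principal X), ?_, ?_⟩
  · exact (Ultrafilter.of_le _).trans inf_le_right (Filter.mem_principal_self X)
  · exact (Ultrafilter.of_le _).trans inf_le_left

end Run7.h474
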