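import Pool.Agent.Run7.h474.Small

set_option autoImplicit false

namespace Run7.h474

open Set Cardinal

/-- a continuous function is constant or injective on a closed uncountable set -/
theorem const_or_inj {K : Set Ca} (hK : CU K) (f : Ca → Ca) (hf : ∀ n, UC (fun x => f x n) K) :
    ∃ K' ⊆ K, CU K' ∧ ((∃ z, ∀ x ∈ K', f x = z) ∨ InjOn f K') := by
  by_cases hconst : ∃ z, ¬ {x | x ∈ K ∧ f x = z}.Countable
  · obtain ⟨z, hz⟩ := hconst
    have hcl : IsClosed {x | x ∈ K ∧ f x = z} := by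
      have : {x | x ∈ K ∧ f x = z} = ⋂ n : ℕ, {x | x ∈ K ∧ f x n = z n} := by
        ext x
        simp only [mem_ofPred_eq, mem_iInter]
        constructor
        · rintro ⟨h1, h2⟩ n
          exact ⟨h1, by rw [h2]⟩
        · intro h
          exact ⟨(h 0).1, funext fun n => (h n).2⟩
      rw [this]
      exact isClosed_iInter fun n => ((hf n).comp (fun b => b = z n)).isClosed hK.1
    exact ⟨_, fun x hx => hx.1, ⟨hcl, hz⟩, Or.inl ⟨z, fun x hx => hx.2⟩⟩
  · push Not at hconst
    have step : ∀ (L : {L : Set Ca // L ⊆ K ∧ CU L}) (m : ℕ),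
        ∃ M : Bool → {L : Set Ca // L ⊆ K ∧ CU L}, (∀ b, (M b).1 ⊆ L.1) ∧
          Disjoint (M true).1 (M false).1 ∧ (∀ b, ∀ x ∈ (M b).1, ∀ y ∈ (M b).1, agr m x y) ∧
          ∀ x ∈ (M true).1, ∀ y ∈ (M false).1, f x ≠ f y := by
      intro L m
      obtain ⟨x, hx, -, hxc⟩ := exists_cond L.2.2.2 countable_empty
      obtain ⟨y, hy, hyx, hyc⟩ := exists_cond L.2.2.2 (hconst (f x))
      have hne : f x ≠ f y := fun h => hyx ⟨L.2.1 hy, h.symm⟩
      obtain ⟨n, hn⟩ := Function.ne_iff.1 hne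
      obtain ⟨N, hN⟩ := hf n
      have key : ∀ u ∈ L.1 ∩ {w | agr (max m N) x w}, ∀ v ∈ L.1 ∩ {w | agr (max m N) y w},
          f u ≠ f v := by
        rintro u ⟨hu, hu'⟩ v ⟨hv, hv'⟩ huv
        apply hn
        have e1 := hN x (L.2.1 hx) u (L.2.1 hu) (agr.mono hu' (le_max_right _ _))
        have e2 := hN y (L.2.1 hy) v (L.2.1 hv) (agr.mono hv' (le_max_right _ _))
        simp only at e1 e2
        rw [e1, e2, huv]
      refine ⟨fun b => if b then ⟨_, inter_subset_left.trans L.2.1, L.2.2.inter_agr hxc (max m N)⟩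
        else ⟨_, inter_subset_left.trans L.2.1, L.2.2.inter_agr hyc (max m N)⟩, ?_, ?_, ?_, ?_⟩
      · intro b
        cases b
        · exact inter_subset_left
        · exact inter_subset_left
      · rw [Set.disjoint_left]
        intro u hu hv
        exact key u hu u hv rfl
      · intro b
        cases b
        · rintro u ⟨-, hu⟩ v ⟨-, hv⟩
          exact (agr.mono hu (le_max_left _ _)).symm.trans (agr.mono hv (le_max_left _ _))
        · rintro u ⟨-, hu⟩ v ⟨-, hv⟩
          exact (agr.mono hu (le_max_left _ _)).symm.trans (agr.mono hv (le_max_left _ _))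
      · exact key
    choose M hM1 hM2 hM3 hM4 using step
    let S : List Bool → {L : Set Ca // L ⊆ K ∧ CU L} :=
      iter ⟨K, Subset.rfl, hK⟩ (fun L s b => M L s.length b)
    have hS : Scheme (fun s => (S s).1) :=
      ⟨fun s => (S s).2.2.1, fun s => (S s).2.2.nonempty, fun s b => hM1 _ _ b, fun s => hM2 _ _⟩
    refine ⟨fuse fun s => (S s).1, hS.fuse_sub_nil, hS.CU_fuse, Or.inr ?_⟩
    intro x hx y hy hxy
    by_contra hne
    obtain ⟨z, hz⟩ := hS.branch hx
    obtain ⟨w, hw⟩ := hS.branch hy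
    have hzw : z ≠ w := by
      intro h
      subst h
      apply hne
      refine eq_of_agr fun m => ?_
      have := hM3 (S (br z m)) (br z m).length (z m) x (hz (m + 1)) y (hw (m + 1))
      rwa [br_length] at this
    obtain ⟨k, hk, hk'⟩ := exists_diff hzw
    have hb : br z k = br w k := br_eq_of_agr hk
    have h1 : x ∈ (S (z k :: br z k)).1 := hz (k + 1)
    have h2 : y ∈ (S (w k :: br z k)).1 := by
      have : y ∈ (S (w k :: br w k)).1 := hw (k + 1)
      rwa [← hb] at this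
    cases hzk : z k
    · cases hwk : w k
      · exact hk' (by rw [hzk, hwk])
      · rw [hzk] at h1
        rw [hwk] at h2
        exact hM4 (S (br z k)) _ y h2 x h1 hxy.symm
    · cases hwk : w k
      · rw [hzk] at h1
        rw [hwk] at h2
        exact hM4 (S (br z k)) _ x h1 y h2 hxy
      · exact hk' (by rw [hzk, hwk])

section

variable {I : Type} [LinearOrder I] [WellFoundedLT I] [Nonempty I] (e : I → Set ℕ)

open Classical in
/-- the least coordinate splitting a set -/
noncomputable def spI (X : Set ℕ) : I :=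
  if h : {ξ | (X ∩ e ξ).Infinite ∧ (X \ e ξ).Infinite}.Nonempty then wellFounded_lt.min _ h
  else Classical.arbitrary I

/-- the tree of splittings of a set -/
noncomputable def Ft (X : Set ℕ) : List Bool → Set ℕ
  | [] => X
  | b :: s => Ft X s ∩ E e (spI e (Ft X s)) b

open Classical in
/-- the side on which the set lies -/
noncomputable def dc (X : Set ℕ) (s : List Bool) (ξ : I) : Bool :=
  if (Ft e X s ∩ e ξ).Infinite then true else false

variable {e}

theorem spI_spec (hspl : Spl e) {X : Set ℕ} (hX : X.Infinite) :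
    (X ∩ e (spI e X)).Infinite ∧ (X \ e (spI e X)).Infinite := by
  have h : {ξ | (X ∩ e ξ).Infinite ∧ (X \ e ξ).Infinite}.Nonempty := hspl X hX
  unfold spI
  rw [dif_pos h]
  exact wellFounded_lt.min_mem _ h

theorem spI_le {X : Set ℕ} {ξ : I} (h : (X ∩ e ξ).Infinite ∧ (X \ e ξ).Infinite) :
    spI e X ≤ ξ := by
  have hne : {ξ | (X ∩ e ξ).Infinite ∧ (X \ e ξ).Infinite}.Nonempty := ⟨ξ, h⟩
  unfold spI
  rw [dif_pos hne]
  exact not_lt.1 (wellFounded_lt.not_lt_min
    {ξ | (X ∩ e ξ).Infinite ∧ (X \ e ξ).Infinite} (x := ξ) h)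

theorem E_inf (hspl : Spl e) {X : Set ℕ} (hX : X.Infinite) (b : Bool) :
    (X ∩ E e (spI e X) b).Infinite := by
  cases b
  · rw [E_false]; exact (spI_spec hspl hX).2
  · rw [E_true]; exact (spI_spec hspl hX).1

theorem Ft_inf (hspl : Spl e) {X : Set ℕ} (hX : X.Infinite) (s : List Bool) :
    (Ft e X s).Infinite := by
  induction s with
  | nil => exact hX
  | cons b s ih => exact E_inf hspl ih b

theorem Ft_sub (X : Set ℕ) (s : List Bool) (b : Bool) : Ft e X (b :: s) ⊆ Ft e X s :=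
  inter_subset_left

theorem finite_diff_of_lt {X : Set ℕ} {ξ : I} (hξ : ξ < spI e X) {b : Bool}
    (hb : (X ∩ E e ξ b).Infinite) : (X \ E e ξ b).Finite := by
  by_contra hc
  refine absurd (spI_le (e := e) (X := X) (ξ := ξ) ?_) (not_le.2 hξ)
  cases b
  · rw [E_false] at hb hc
    rw [Set.sdiff_compl] at hc
    exact ⟨hc, hb⟩
  · rw [E_true] at hb hc
    exact ⟨hb, hc⟩

theorem dc_spec (hspl : Spl e) {X : Set ℕ} (hX : X.Infinite) {s : List Bool} {ξ : I}
    (hξ : ξ < spI e (Ft e X s)) : (Ft e X s \ E e ξ (dc e X s ξ)).Finite := by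
  unfold dc
  split_ifs with h
  · refine finite_diff_of_lt hξ ?_
    rw [E_true]; exact h
  · rw [E_false, Set.sdiff_compl]
    exact not_infinite.1 h

theorem spI_lt (hspl : Spl e) {X : Set ℕ} (hX : X.Infinite) (s : List Bool) (b : Bool) :
    spI e (Ft e X s) < spI e (Ft e X (b :: s)) := by
  have h1 := spI_spec hspl (Ft_inf hspl hX (b :: s))
  have h2 : spI e (Ft e X s) ≤ spI e (Ft e X (b :: s)) :=
    spI_le ⟨h1.1.mono (inter_subset_inter_left _ (Ft_sub X s b)),
      h1.2.mono (sdiff_subset_sdiff_left (Ft_sub X s b))⟩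
  refine lt_of_le_of_ne h2 fun heq => ?_
  rw [← heq] at h1
  have hsub : Ft e X (b :: s) ⊆ E e (spI e (Ft e X s)) b := inter_subset_right
  cases b
  · apply h1.1
    convert Set.finite_empty
    rw [E_false] at hsub
    ext n
    simp only [mem_inter_iff, mem_empty_iff_false, iff_false, not_and]
    exact fun hn => hsub hn
  · apply h1.2
    convert Set.finite_empty
    rw [E_true] at hsub
    ext n
    simp only [mem_sdiff, mem_empty_iff_false, iff_false, not_and, not_not]
    exact fun hn => hsub hn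

theorem dc_cons (hspl : Spl e) {X : Set ℕ} (hX : X.Infinite) {s : List Bool} {b : Bool} {ξ : I}
    (hξ : ξ < spI e (Ft e X s)) : dc e X (b :: s) ξ = dc e X s ξ :=
  not_both (Ft_inf hspl hX (b :: s)) (Ft_sub X s b)
    (dc_spec hspl hX (hξ.trans (spI_lt hspl hX s b))) (dc_spec hspl hX hξ)

theorem dc_self (hspl : Spl e) {X : Set ℕ} (hX : X.Infinite) {s : List Bool} {b : Bool} :
    dc e X (b :: s) (spI e (Ft e X s)) = b := by
  refine not_both (Ft_inf hspl hX (b :: s)) Subset.rfl (dc_spec hspl hX (spI_lt hspl hX s b)) ?_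
  convert Set.finite_empty
  rw [sdiff_eq_empty]
  exact inter_subset_right

theorem spI_mono (hspl : Spl e) {X : Set ℕ} (hX : X.Infinite) (w : Ca) :
    StrictMono fun n => spI e (Ft e X (br w n)) :=
  strictMono_nat_of_lt_succ fun n => spI_lt hspl hX _ _

theorem dc_br (hspl : Spl e) {X : Set ℕ} (hX : X.Infinite) (w : Ca) {n m : ℕ} (hnm : n ≤ m)
    {ξ : I} (hξ : ξ < spI e (Ft e X (br w n))) :
    dc e X (br w m) ξ = dc e X (br w n) ξ := by
  induction hnm with
  | refl => rfl
  | @step m hm ih =>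
    rw [← ih]
    exact dc_cons hspl hX (lt_of_lt_of_le hξ ((spI_mono hspl hX w).monotone hm))

/-- the node `s` of the splitting tree of `X` lies on the branch `r` below `ζ` -/
def OnB (e : I → Set ℕ) (X : Set ℕ) (ζ : I) (r : I → Bool) (s : List Bool) : Prop :=
  spI e (Ft e X s) ≤ ζ ∧ ∀ ξ < spI e (Ft e X s), dc e X s ξ = r ξ

theorem OnB.tail (hspl : Spl e) {X : Set ℕ} (hX : X.Infinite) {ζ : I} {r : I → Bool}
    {s : List Bool} {b : Bool} (h : OnB e X ζ r (b :: s)) : OnB e X ζ r s ∧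
      b = r (spI e (Ft e X s)) := by
  have h1 := spI_lt hspl hX s b
  refine ⟨⟨(h1.le.trans h.1), fun ξ hξ => ?_⟩, ?_⟩
  · rw [← dc_cons hspl hX (b := b) hξ]
    exact h.2 ξ (hξ.trans h1)
  · rw [← h.2 _ h1, dc_self hspl hX]

theorem OnB.unique (hspl : Spl e) {X : Set ℕ} (hX : X.Infinite) {ζ : I} {r : I → Bool} :
    ∀ {s t : List Bool}, s.length = t.length → OnB e X ζ r s → OnB e X ζ r t → s = t
  | [], [], _, _, _ => rfl
  | [], _ :: _, hl, _, _ => by simp at hl
  | _ :: _, [], hl, _, _ => by simp at hl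
  | b :: s, c :: t, hl, hs, ht => by
    have hl' : s.length = t.length := by simpa using hl
    obtain ⟨h1, h2⟩ := hs.tail hspl hX
    obtain ⟨h3, h4⟩ := ht.tail hspl hX
    have := OnB.unique hspl hX hl' h1 h3
    subst this
    rw [h2, h4]

/-- paths -/
theorem exists_path {S : List Bool → Prop} (hS1 : ∀ b s, S (b :: s) → S s)
    (hS2 : ∀ s t, s.length = t.length → S s → S t → s = t)
    (hS3 : ∀ n, ∃ s : List Bool, s.length = n ∧ S s) : ∃ z : Ca, ∀ n, S (br z n) := by
  choose s hs1 hs2 using hS3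
  have key : ∀ n, ∃ b, s (n + 1) = b :: s n := by
    intro n
    rcases hsn : s (n + 1) with _ | ⟨b, t⟩
    · have := hs1 (n + 1)
      rw [hsn] at this
      simp at this
    · have h2 := hs2 (n + 1)
      have h1 := hs1 (n + 1)
      rw [hsn] at h2 h1
      have : t = s n := hS2 _ _ (by simpa [hs1] using h1) (hS1 _ _ h2) (hs2 n)
      exact ⟨b, by rw [this]⟩
  choose z hz using key
  refine ⟨z, fun n => ?_⟩
  have : br z n = s n := by
    induction n with
    | zero =>
      have := hs1 0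
      rw [List.length_eq_zero_iff] at this
      rw [this]; rfl
    | succ n ih => rw [br, ih, hz]
  rw [this]
  exact hs2 n

theorem meas_split {K : Set Ca} {G : Ca → Set ℕ} (hN : Nm K G) (ξ : I) :
    MeasurableSet {x | x ∈ K ∧ (G x ∩ e ξ).Infinite ∧ (G x \ e ξ).Infinite} := by
  have h2 := (meas_inf hN.cu.1 hN.uc (e ξ)).inter (meas_inf hN.cu.1 hN.uc (e ξ)ᶜ)
  convert h2 using 1
  ext x
  simp only [mem_ofPred_eq, mem_inter_iff]
  constructor
  · rintro ⟨a, b, c⟩
    exact ⟨⟨a, b⟩, a, c⟩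
  · rintro ⟨⟨a, b⟩, -, c⟩
    exact ⟨a, b, c⟩

open Classical in
/-- on a smaller set the least splitting coordinate is constant -/
theorem sp_const (hI : #I < 𝔠) (hspl : Spl e) {K : Set Ca} {G : Ca → Set ℕ} (hN : Nm K G) :
    ∃ K' ⊆ K, CU K' ∧ ∃ ξ, ∀ x ∈ K', spI e (G x) = ξ := by
  let S : Set I := {ξ | ¬ {x | x ∈ K ∧ (G x ∩ e ξ).Infinite ∧ (G x \ e ξ).Infinite}.Countable}
  have hSne : S.Nonempty := by
    obtain ⟨ξ, hξ⟩ := hN.cu.exists_uncountable hI
      (fun ξ => {x | (G x ∩ e ξ).Infinite ∧ (G x \ e ξ).Infinite})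
      (fun x hx => hspl (G x) (hN.inf x hx))
    exact ⟨ξ, hξ⟩
  let ξ : I := wellFounded_lt.min S hSne
  have hξ : ξ ∈ S := wellFounded_lt.min_mem S hSne
  have hmin : ∀ ξ' < ξ, ξ' ∉ S := fun ξ' h hc => wellFounded_lt.not_lt_min S hc h
  obtain ⟨K1, h1, c1⟩ := exists_CU_of_measurable (meas_split hN ξ) hξ
  obtain ⟨K2, h2, c2, h3⟩ := c1.avoid hI
    (fun ξ' => if ξ' < ξ then {x | x ∈ K ∧ (G x ∩ e ξ').Infinite ∧ (G x \ e ξ').Infinite} else ∅)
    (by
      intro ξ'
      split_ifs with h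
      · exact not_not.1 (hmin ξ' h)
      · exact countable_empty)
  refine ⟨K2, fun x hx => (h1 (h2 hx)).1, c2, ξ, fun x hx => ?_⟩
  have h4 : spI e (G x) ≤ ξ := spI_le (h1 (h2 hx)).2
  refine le_antisymm h4 (not_lt.1 fun hc => ?_)
  have h5 := h3 (spI e (G x))
  rw [if_pos hc] at h5
  exact Set.disjoint_left.1 h5 hx ⟨(h1 (h2 hx)).1, spI_spec hspl (hN.inf x (h1 (h2 hx)).1)⟩

end

end Run7.h474
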