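import Pool.Agent.Run7.h474.Ext

set_option autoImplicit false

namespace Run7.h474

open Set Cardinal

theorem DCon_of_meas {P : Ca → Prop} {K : Set Ca}
    (h : ∀ K' ⊆ K, CU K' → MeasurableSet {x | x ∈ K' ∧ P x}) : DCon P K := by
  intro K' hK' cK'
  by_cases hc : {x | x ∈ K' ∧ P x}.Countable
  · have h1 : MeasurableSet (K' \ {x | x ∈ K' ∧ P x}) :=
      cK'.1.measurableSet.diff (h K' hK' cK')
    have h2 : ¬ (K' \ {x | x ∈ K' ∧ P x}).Countable := by
      intro h3
      exact cK'.2 ((h3.union hc).mono (by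
        intro x hx
        by_cases hx' : x ∈ {x | x ∈ K' ∧ P x}
        · exact Or.inr hx'
        · exact Or.inl ⟨hx, hx'⟩))
    obtain ⟨Q, hQ, cQ⟩ := exists_CU_of_measurable h1 h2
    refine ⟨Q, fun x hx => (hQ hx).1, cQ, False, fun x hx => ?_⟩
    simp only [eq_iff_iff, iff_false]
    exact fun hP => (hQ hx).2 ⟨(hQ hx).1, hP⟩
  · obtain ⟨Q, hQ, cQ⟩ := exists_CU_of_measurable (h K' hK' cK') hc
    refine ⟨Q, fun x hx => (hQ hx).1, cQ, True, fun x hx => ?_⟩
    simp only [eq_iff_iff, iff_true]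
    exact (hQ hx).2

theorem DCon.comp {X Y : Type*} {f : Ca → X} {K : Set Ca} (h : DCon f K) (g : X → Y) :
    DCon (fun x => g (f x)) K := by
  intro K' hK' cK'
  obtain ⟨Q, hQ, cQ, v, hv⟩ := h K' hK' cK'
  exact ⟨Q, hQ, cQ, g v, fun x hx => congrArg g (hv x hx)⟩

/-- a nonempty decreasing sequence of closed subsets has a common point -/
theorem exists_common {A : ℕ → Set Ca} (hcl : ∀ n, IsClosed (A n)) (hsub : ∀ n, A (n + 1) ⊆ A n)
    (hne : ∀ n, (A n).Nonempty) : ∃ x, ∀ n, x ∈ A n := by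
  obtain ⟨x, hx⟩ := IsCompact.nonempty_iInter_of_sequence_nonempty_isCompact_isClosed A hsub hne
    (hcl 0).isCompact hcl
  exact ⟨x, fun n => mem_iInter.1 hx n⟩

section

variable {I : Type} [LinearOrder I] [WellFoundedLT I] [Nonempty I] {e : I → Set ℕ}

theorem ext_tree (hadd : ∀ c < bb, SAdd c) (hI : #I < 𝔠) (hseg : ∀ ξ : I, #(Iio ξ) < bb)
    (hspl : Spl e) {K : Set Ca} {F : Ca → Set ℕ} (hN : Nm K F) :
    ∃ Q ⊆ K, CU Q ∧ (∀ s n, UC (fun x => n ∈ Ft e (F x) s) Q) ∧
      (∀ s, UC (fun x => spI e (Ft e (F x) s)) Q) ∧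
      ∀ s ξ, (∃ x ∈ Q, ξ < spI e (Ft e (F x) s)) → UC (fun x => dc e (F x) s ξ) Q := by
  classical
  have h1 : ∀ s : List Bool, ∀ K' ⊆ K, CU K' → ∃ K'' ⊆ K', CU K'' ∧
      (∀ n, UC (fun x => n ∈ Ft e (F x) s) K'') ∧ ∃ ξ, ∀ x ∈ K'', spI e (Ft e (F x) s) = ξ := by
    intro s
    induction s with
    | nil =>
      intro K' hK' cK'
      obtain ⟨K'', a1, a2, a3⟩ := sp_const hI hspl (hN.mono hK' cK')
      exact ⟨K'', a1, a2, fun n => (hN.uc n).mono (a1.trans hK'), a3⟩
    | cons b s ih =>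
      intro K' hK' cK'
      obtain ⟨K1, a1, a2, a3, ξ, a4⟩ := ih K' hK' cK'
      have hN1 : Nm K1 (fun x => Ft e (F x) (b :: s)) := by
        refine ⟨a2, fun x hx => Ft_inf hspl (hN.inf x (hK' (a1 hx))) _, fun n => ?_⟩
        refine ((a3 n).comp (fun p => p ∧ n ∈ E e ξ b)).congr fun x hx => ?_
        simp only [Ft, mem_inter_iff, a4 x hx]
      obtain ⟨K2, b1, b2, b3⟩ := sp_const hI hspl hN1
      exact ⟨K2, b1.trans a1, b2, fun n => (hN1.uc n).mono b1, b3⟩
  have h2 : ∀ s, DCon (fun x => spI e (Ft e (F x) s)) K := by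
    intro s K' hK' cK'
    obtain ⟨K'', a1, a2, -, a3⟩ := h1 s K' hK' cK'
    exact ⟨K'', a1, a2, a3⟩
  obtain ⟨Q1, q1, c1, u1⟩ := hadd ℵ₀ aleph0_lt_bb (List Bool) I
    (fun s x => spI e (Ft e (F x) s)) K (Cardinal.mk_eq_aleph0 _) hN.cu h2
  have u1' : ∀ s n, UC (fun x => n ∈ Ft e (F x) s) Q1 := by
    intro s
    induction s with
    | nil => exact fun n => (hN.uc n).mono q1
    | cons b s ih =>
      intro n
      refine (((ih n).prod (u1 s)).comp (fun p => p.1 ∧ n ∈ E e p.2 b)).congr fun x hx => ?_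
      simp only [Ft, mem_inter_iff]
  let O2 : Type := {p : List Bool × I // ∃ x ∈ Q1, p.2 < spI e (Ft e (F x) p.1)}
  have hO2 : #O2 < bb := by
    let R : Set (List Bool × I) := {p | ∃ x ∈ Q1, p.2 = spI e (Ft e (F x) p.1)}
    have hRc : R.Countable := by
      have : R ⊆ ⋃ s : List Bool, (fun v => (s, v)) '' ((fun x => spI e (Ft e (F x) s)) '' Q1) := by
        rintro ⟨s, v⟩ ⟨x, hx, hxv⟩
        exact mem_iUnion.2 ⟨s, v, ⟨x, hx, hxv.symm⟩, rfl⟩
      exact (countable_iUnion fun s => ((u1 s).finite_image.image _).countable).mono this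
    have hsub : {p : List Bool × I | ∃ x ∈ Q1, p.2 < spI e (Ft e (F x) p.1)} ⊆
        ⋃ r : R, (fun ξ => (r.1.1, ξ)) '' Iio r.1.2 := by
      rintro ⟨s, ξ⟩ ⟨x, hx, hξ⟩
      exact mem_iUnion.2 ⟨⟨(s, spI e (Ft e (F x) s)), x, hx, rfl⟩, ξ, hξ, rfl⟩
    refine lt_of_le_of_lt (Cardinal.mk_le_mk_of_subset hsub) ?_
    rw [Cardinal.card_iUnion_lt_iff_forall_of_isRegular bb_regular
      (lt_of_le_of_lt (Cardinal.le_aleph0_iff_set_countable.2 hRc) aleph0_lt_bb)]
    exact fun r => lt_of_le_of_lt Cardinal.mk_image_le (hseg _)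
  have hD : ∀ o : O2, DCon (fun x => dc e (F x) o.1.1 o.1.2) Q1 := by
    intro o
    have : DCon (fun x => (Ft e (F x) o.1.1 ∩ e o.1.2).Infinite) Q1 :=
      DCon_of_meas fun K' hK' cK' => meas_inf cK'.1 (fun n => (u1' o.1.1 n).mono hK') _
    exact this.comp (fun p => if p then true else false)
  obtain ⟨Q2, q2, c2, u2⟩ := hadd _ hO2 O2 Bool (fun o x => dc e (F x) o.1.1 o.1.2) Q1 rfl c1 hD
  refine ⟨Q2, q2.trans q1, c2, fun s n => (u1' s n).mono q2, fun s => (u1 s).mono q2, ?_⟩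
  rintro s ξ ⟨x, hx, hξ⟩
  exact u2 ⟨(s, ξ), x, q2 hx, hξ⟩

theorem ext_avoid (hadd : ∀ c < bb, SAdd c) (hbc : bb < 𝔠) (hspl : Spl e) {Q : Set Ca}
    {F : Ca → Set ℕ} (cQ : CU Q) (hinf : ∀ x ∈ Q, (F x).Infinite)
    (h2 : ∀ s, UC (fun x => spI e (Ft e (F x) s)) Q)
    (h3 : ∀ s ξ, (∃ x ∈ Q, ξ < spI e (Ft e (F x) s)) → UC (fun x => dc e (F x) s ξ) Q)
    {O : Type} (hO : #O < bb) (QO : O → Set Ca) (hQO : ∀ o, IsClosed (QO o)) (ζO : O → I)
    (σO : O → Ca → I → Bool) (hσO : ∀ o, ∀ ξ < ζO o, UC (fun x => σO o x ξ) (QO o)) :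
    ∃ Q' ⊆ Q, CU Q' ∧ ∃ z : Ca, ∀ o, ∀ x ∈ Q', x ∈ QO o →
      ¬ ∀ n, OnB e (F x) (ζO o) (σO o x) (br z n) := by
  classical
  let Sub : O → List Bool → Ca → Prop := fun o s x =>
    x ∈ Q ∧ x ∈ QO o ∧ OnB e (F x) (ζO o) (σO o x) s
  have hcl : ∀ o s, IsClosed {x | Sub o s x} := by
    intro o s
    have heq : {x | Sub o s x} = ⋂ ξ : I, {x | x ∈ Q ∩ QO o ∧ (spI e (Ft e (F x) s) ≤ ζO o ∧
        (ξ < spI e (Ft e (F x) s) → dc e (F x) s ξ = σO o x ξ))} := by
      ext x
      simp only [Sub, OnB, mem_ofPred_eq, mem_iInter, mem_inter_iff]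
      constructor
      · rintro ⟨a, b, c, d⟩ ξ
        exact ⟨⟨a, b⟩, c, fun h => d ξ h⟩
      · intro h
        obtain ⟨ξ0⟩ := (inferInstance : Nonempty I)
        exact ⟨(h ξ0).1.1, (h ξ0).1.2, (h ξ0).2.1, fun ξ hξ => (h ξ).2.2 hξ⟩
    rw [heq]
    refine isClosed_iInter fun ξ => ?_
    refine UC.isClosed ?_ (cQ.1.inter (hQO o))
    have hsp : UC (fun x => spI e (Ft e (F x) s)) (Q ∩ QO o) := (h2 s).mono inter_subset_left
    by_cases hex : ∃ x ∈ Q, ξ < spI e (Ft e (F x) s)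
    · by_cases hζ : ξ < ζO o
      · have hdc := (h3 s ξ hex).mono (inter_subset_left (t := QO o))
        have hσ := (hσO o ξ hζ).mono (inter_subset_right (s := Q))
        exact (hsp.prod (hdc.prod hσ)).comp (fun p => p.1 ≤ ζO o ∧ (ξ < p.1 → p.2.1 = p.2.2))
      · refine (hsp.comp (fun v => v ≤ ζO o)).congr fun x hx => ?_
        simp only [eq_iff_iff]
        constructor
        · intro h
          exact ⟨h, fun h' => absurd (lt_of_lt_of_le h' h) hζ⟩
        · exact fun h => h.1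
    · refine (hsp.comp (fun v => v ≤ ζO o)).congr fun x hx => ?_
      simp only [eq_iff_iff]
      constructor
      · intro h
        exact ⟨h, fun h' => absurd ⟨x, hx.1, h'⟩ hex⟩
      · exact fun h => h.1
  have hSub1 : ∀ o x b s, Sub o (b :: s) x → Sub o s x := fun o x b s h =>
    ⟨h.1, h.2.1, (h.2.2.tail hspl (hinf x h.1)).1⟩
  have hSub2 : ∀ o x s t, s.length = t.length → Sub o s x → Sub o t x → s = t :=
    fun o x s t hl h h' => OnB.unique hspl (hinf x h.1) hl h.2.2 h'.2.2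
  let Pth : O → Ca → Ca → Prop := fun o x z => ∀ n, Sub o (br z n) x
  have hPuniq : ∀ o x z z', Pth o x z → Pth o x z' → z = z' := fun o x z z' h h' =>
    eq_of_agr fun m => agr_of_br_eq (hSub2 o x _ _ (by simp) (h m) (h' m))
  let Eo : O → Set Ca := fun o => {x | ∃ z, Pth o x z}
  have hEo : ∀ o, IsClosed (Eo o) := by
    intro o
    have : Eo o = ⋂ n : ℕ, ⋃ s : {s : List Bool // s.length = n}, {x | Sub o s x} := by
      ext x
      simp only [mem_iInter, mem_iUnion]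
      constructor
      · rintro ⟨z, hz⟩ n
        exact ⟨⟨br z n, br_length z n⟩, hz n⟩
      · intro h
        obtain ⟨z, hz⟩ := exists_path (S := fun s => Sub o s x) (fun b s => hSub1 o x b s)
          (fun s t => hSub2 o x s t) (fun n => by
            obtain ⟨s, hs⟩ := h n
            exact ⟨s.1, s.2, hs⟩)
        exact ⟨z, hz⟩
    rw [this]
    exact isClosed_iInter fun n => isClosed_iUnion_of_finite fun s => hcl o s
  have hzz : ∀ o x, ∃ z, x ∈ Eo o → Pth o x z := by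
    intro o x
    by_cases h : x ∈ Eo o
    · obtain ⟨z, hz⟩ := h
      exact ⟨z, fun _ => hz⟩
    · exact ⟨x, fun h' => absurd h' h⟩
  choose zz hzz using hzz
  let DD : O → Set (Set Ca) := fun o => {K | (∃ z0, ∀ x ∈ K, ∀ z, Pth o x z → z = z0) ∨
    ∀ x ∈ K, ∀ x' ∈ K, ∀ z, Pth o x z → Pth o x' z → x = x'}
  have hDD : ∀ o, ∀ K, CU K → ∃ K' ⊆ K, CU K' ∧ K' ∈ DD o := by
    intro o K hK
    by_cases hc : (K ∩ Eo o).Countable
    · have hm : MeasurableSet (K \ (K ∩ Eo o)) :=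
        hK.1.measurableSet.diff (hK.1.inter (hEo o)).measurableSet
      have hu : ¬ (K \ (K ∩ Eo o)).Countable := by
        intro h
        exact hK.2 ((h.union hc).mono (by
          intro x hx
          by_cases hx' : x ∈ K ∩ Eo o
          · exact Or.inr hx'
          · exact Or.inl ⟨hx, hx'⟩))
      obtain ⟨K', a1, a2⟩ := exists_CU_of_measurable hm hu
      refine ⟨K', fun x hx => (a1 hx).1, a2, Or.inr ?_⟩
      intro x hx x' _ z hz
      exact absurd ⟨(a1 hx).1, z, hz⟩ (a1 hx).2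
    · have cK : CU (K ∩ Eo o) := ⟨hK.1.inter (hEo o), hc⟩
      have huc : ∀ n, UC (fun x => zz o x n) (K ∩ Eo o) := by
        intro n
        have hh : ∀ s : List Bool, UC (fun x => br (zz o x) s.length = s) (K ∩ Eo o) := by
          intro s
          have hiff : ∀ x ∈ K ∩ Eo o, (br (zz o x) s.length = s ↔ Sub o s x) := by
            intro x hx
            constructor
            · intro h
              have := hzz o x hx.2 s.length
              rwa [h] at this
            · intro h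
              exact hSub2 o x _ _ (by simp) (hzz o x hx.2 s.length) h
          refine UC_of_closed ?_ ?_
          · have : {x | x ∈ K ∩ Eo o ∧ br (zz o x) s.length = s} = (K ∩ Eo o) ∩ {x | Sub o s x} := by
              ext x
              constructor
              · rintro ⟨a, b⟩
                exact ⟨a, (hiff x a).1 b⟩
              · rintro ⟨a, b⟩
                exact ⟨a, (hiff x a).2 b⟩
            rw [this]
            exact cK.1.inter (hcl o s)
          · have : {x | x ∈ K ∩ Eo o ∧ ¬ br (zz o x) s.length = s} = (K ∩ Eo o) ∩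
                ⋃ t : {t : List Bool // t.length = s.length ∧ t ≠ s}, {x | Sub o t x} := by
              ext x
              constructor
              · rintro ⟨a, b⟩
                exact ⟨a, mem_iUnion.2 ⟨⟨br (zz o x) s.length, br_length _ _, b⟩,
                  hzz o x a.2 s.length⟩⟩
              · rintro ⟨a, b⟩
                obtain ⟨⟨t, ht1, ht2⟩, hb⟩ := mem_iUnion.1 b
                refine ⟨a, fun h => ht2 ?_⟩
                exact hSub2 o x _ _ ht1 hb ((hiff x a).1 h)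
            rw [this]
            have : Finite {t : List Bool // t.length = s.length ∧ t ≠ s} :=
              (List.finite_length_eq Bool s.length).subset (fun t ht => ht.1)
            exact cK.1.inter (isClosed_iUnion_of_finite fun t => hcl o t)
        obtain ⟨N, hN⟩ := UC_finite (ι := {s : List Bool // s.length = n + 1})
          (fun s x => br (zz o x) s.1.length = s.1) (fun _ => K ∩ Eo o) (fun s => hh s.1)
        refine ⟨N, fun x hx x' hx' hxx => ?_⟩
        have := hN ⟨br (zz o x) (n + 1), br_length _ _⟩ x hx x' hx' hxx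
        simp only [br_length, eq_iff_iff, true_iff] at this
        exact (agr_of_br_eq this n (Nat.lt_succ_self n)).symm
      obtain ⟨K', a1, a2, a3⟩ := const_or_inj cK (zz o) huc
      refine ⟨K', a1.trans inter_subset_left, a2, ?_⟩
      rcases a3 with ⟨z0, hz0⟩ | hinj
      · refine Or.inl ⟨z0, fun x hx z hz => ?_⟩
        rw [← hz0 x hx]
        exact hPuniq o x _ _ hz (hzz o x (a1 hx).2)
      · refine Or.inr fun x hx x' hx' z hz hz' => hinj hx hx' ?_
        rw [← hPuniq o x _ _ hz (hzz o x (a1 hx).2), ← hPuniq o x' _ _ hz' (hzz o x' (a1 hx').2)]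
  choose W hW1 hW2 using fun o => exists_Mxl (hDD o)
  obtain ⟨Q3, q3, c3, u3⟩ := hadd _ hO O (Set Ca) (fun o => loc (W o)) Q rfl cQ
    (fun o => (hW2 o).DCon Q)
  have hO' : #O < 𝔠 := hO.trans hbc
  obtain ⟨Q4, q4, c4, d4⟩ := c3.avoid' hO' (fun o => {x | ∀ w ∈ W o, x ∉ w}) (by
    intro o
    by_contra hc
    have heq : Q3 ∩ {x | ∀ w ∈ W o, x ∉ w} = {x | x ∈ Q3 ∧ loc (W o) x = ∅} := by
      ext x
      constructor
      · rintro ⟨a, b⟩
        refine ⟨a, ?_⟩
        unfold loc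
        rw [dif_neg]
        rintro ⟨w, hw, hxw⟩
        exact b w hw hxw
      · rintro ⟨a, b⟩
        refine ⟨a, fun w hw hxw => ?_⟩
        rw [(hW2 o).loc_eq hw hxw] at b
        rw [b] at hxw
        exact hxw
    have hcc : CU (Q3 ∩ {x | ∀ w ∈ W o, x ∉ w}) := by
      refine ⟨?_, hc⟩
      rw [heq]
      exact ((u3 o).comp (fun w => w = ∅)).isClosed c3.1
    obtain ⟨w, hw, hw'⟩ := (hW2 o).max _ hcc
    apply hw'
    convert countable_empty
    ext x
    simp only [mem_inter_iff, mem_ofPred_eq, mem_empty_iff_false, iff_false]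
    rintro ⟨⟨-, h⟩, hxw⟩
    exact h w hw hxw)
  have hloc : ∀ o, ∀ x ∈ Q4, loc (W o) x ∈ W o ∧ x ∈ loc (W o) x := by
    intro o x hx
    have h1 : ∃ w ∈ W o, x ∈ w := by
      by_contra hc
      push Not at hc
      exact Set.disjoint_left.1 (d4 o) hx hc
    obtain ⟨w, hw, hxw⟩ := h1
    rw [(hW2 o).loc_eq hw hxw]
    exact ⟨hw, hxw⟩
  have hz0 : ∀ (o : O) (w : Set Ca), ∃ z0 : Ca, (∃ z0, ∀ x ∈ w, ∀ z, Pth o x z → z = z0) →
      ∀ x ∈ w, ∀ z, Pth o x z → z = z0 := by
    intro o w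
    by_cases h : ∃ z0, ∀ x ∈ w, ∀ z, Pth o x z → z = z0
    · obtain ⟨z0, hz0⟩ := h
      exact ⟨z0, fun _ => hz0⟩
    · exact ⟨fun _ => true, fun h' => absurd h' h⟩
  choose z0 hz0 using hz0
  have hfin : ∀ o, (loc (W o) '' Q4).Finite := fun o => ((u3 o).mono q4).finite_image
  have hZ : #(⋃ o, z0 o '' (loc (W o) '' Q4) : Set Ca) < 𝔠 :=
    mk_iUnion_countable_lt hO' _ fun o => ((hfin o).image _).countable
  obtain ⟨z, hz⟩ : ∃ z, z ∉ ⋃ o, z0 o '' (loc (W o) '' Q4) := by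
    by_contra hc
    push Not at hc
    have : (⋃ o, z0 o '' (loc (W o) '' Q4)) = Set.univ := eq_univ_of_forall hc
    rw [this, Cardinal.mk_univ, mk_Ca] at hZ
    exact lt_irrefl _ hZ
  obtain ⟨Q5, q5, c5, d5⟩ := c4.avoid' hO' (fun o => {x | Pth o x z}) (by
    intro o
    have hinj : InjOn (loc (W o)) (Q4 ∩ {x | Pth o x z}) := by
      rintro x ⟨hx, hxz⟩ x' ⟨hx', hxz'⟩ hxx
      rcases hW1 o (hloc o x hx).1 with h | h
      · exfalso
        apply hz
        refine mem_iUnion.2 ⟨o, loc (W o) x, ⟨x, hx, rfl⟩, ?_⟩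
        exact (hz0 o _ h x (hloc o x hx).2 z hxz).symm
      · refine h x (hloc o x hx).2 x' ?_ z hxz hxz'
        rw [hxx]
        exact (hloc o x' hx').2
    refine countable_of_injective_of_countable_image hinj ((hfin o).countable.mono ?_)
    exact image_mono inter_subset_left)
  refine ⟨Q5, q5.trans (q4.trans q3), c5, z, fun o x hx hxo h => ?_⟩
  exact Set.disjoint_left.1 (d5 o) hx fun n => ⟨q3 (q4 (q5 hx)), hxo, h n⟩

end

end Run7.h474
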