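import Pool.Agent.Run7.h474.Ext2

set_option autoImplicit false

namespace Run7.h474

open Set Cardinal

theorem UC_mem_psi {H : Ca → ℕ → Set ℕ} {Q : Set Ca} (h : ∀ i m, UC (fun x => m ∈ H x i) Q)
    (k : ℕ) : UC (fun x => k ∈ psi (H x)) Q := by
  obtain ⟨N, hN⟩ := UC_finite (ι := Fin (k + 1) × Fin (k + 1))
    (fun p x => (p.2 : ℕ) ∈ H x p.1) (fun _ => Q) (fun p => h _ _)
  refine ⟨N, fun x hx x' hx' hxx => ?_⟩
  refine propext (psi_congr fun i hi m hm => ?_)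
  have h4 := hN (⟨i, Nat.lt_succ_of_le hi⟩, ⟨m, Nat.lt_succ_of_le hm⟩) x hx x' hx' hxx
  simpa only [eq_iff_iff] using h4

section

variable {I : Type} [LinearOrder I] [WellFoundedLT I] [Nonempty I] {e : I → Set ℕ}

open Classical in
/-- the extension lemma -/
theorem ext_lemma (hadd : ∀ c < bb, SAdd c) (hbc : bb < 𝔠) (hI : #I < 𝔠)
    (hseg : ∀ ξ : I, #(Iio ξ) < bb) (hspl : Spl e) {K : Set Ca} {F : Ca → Set ℕ} (hN : Nm K F)
    {ε : I} {y : Ca → I → Bool} (hdec : ∀ x ∈ K, ∀ ξ < ε, (F x \ E e ξ (y x ξ)).Finite)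
    {O : Type} (hO : #O < bb) (QO : O → Set Ca) (hQO : ∀ o, IsClosed (QO o)) (ζO : O → I)
    (σO : O → Ca → I → Bool) (hσO : ∀ o, ∀ ξ < ζO o, UC (fun x => σO o x ξ) (QO o)) :
    ∃ (K' : Set Ca) (G : Ca → Set ℕ) (ζ : I) (σ : Ca → I → Bool), K' ⊆ K ∧ Nm K' G ∧
      (∀ x ∈ K', G x ⊆ F x) ∧ ε ≤ ζ ∧ (∀ ξ < ζ, UC (fun x => σ x ξ) K') ∧
      (∀ ξ < ζ, ∀ x ∈ K', (G x \ E e ξ (σ x ξ)).Finite) ∧
      (∀ x ∈ K', ∀ ξ < ε, σ x ξ = y x ξ) ∧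
      ∀ o, ∀ x ∈ K', x ∈ QO o → ¬ (ζ ≤ ζO o ∧ ∀ ξ < ζ, σ x ξ = σO o x ξ) := by
  obtain ⟨Q, hQ, cQ, T1, T2, T3⟩ := ext_tree hadd hI hseg hspl hN
  have hinfQ : ∀ x ∈ Q, (F x).Infinite := fun x hx => hN.inf x (hQ hx)
  obtain ⟨Q5, hQ5, cQ5, z, hz⟩ := ext_avoid hadd hbc hspl cQ hinfQ T2 T3 hO QO hQO ζO σO hσO
  have hinf5 : ∀ x ∈ Q5, (F x).Infinite := fun x hx => hinfQ x (hQ5 hx)
  let H : Ca → ℕ → Set ℕ := fun x n => Ft e (F x) (br z n)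
  let G : Ca → Set ℕ := fun x => psi (H x)
  have hanti : ∀ x n, H x (n + 1) ⊆ H x n := fun x n => Ft_sub (F x) (br z n) (z n)
  have hGF : ∀ x, G x ⊆ F x := fun x => psi_sub (hanti x)
  have hGinf : ∀ x ∈ Q5, (G x).Infinite := fun x hx =>
    psi_infinite fun i => Ft_inf hspl (hinf5 x hx) _
  have hGd : ∀ x n, (G x \ H x n).Finite := fun x n => psi_diff (hanti x) n
  have hGuc : ∀ k, UC (fun x => k ∈ G x) Q5 := UC_mem_psi fun i m => (T1 (br z i) m).mono hQ5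
  let A : I → Set Ca := fun ξ => {x | x ∈ Q5 ∧ ∀ n, spI e (Ft e (F x) (br z n)) < ξ}
  have hAcl : ∀ ξ, IsClosed (A ξ) := by
    intro ξ
    have : A ξ = ⋂ n : ℕ, {x | x ∈ Q5 ∧ spI e (Ft e (F x) (br z n)) < ξ} := by
      ext x
      simp only [A, mem_ofPred_eq, mem_iInter]
      exact ⟨fun h n => ⟨h.1, h.2 n⟩, fun h => ⟨(h 0).1, fun n => (h n).2⟩⟩
    rw [this]
    exact isClosed_iInter fun n =>
      ((((T2 (br z n)).mono hQ5).comp (fun v => v < ξ))).isClosed cQ5.1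
  have hAall : ∀ x ∈ Q5, ∃ ξ, x ∈ A ξ := by
    intro x hx
    obtain ⟨ξ, h1, h2⟩ := hspl (G x) (hGinf x hx)
    have h3 : ∀ n, spI e (Ft e (F x) (br z n)) ≤ ξ := by
      intro n
      refine spI_le ⟨?_, ?_⟩
      · have h4 : ((G x ∩ e ξ) \ (G x \ H x n)).Infinite := h1.diff (hGd x n)
        refine h4.mono ?_
        rintro k ⟨⟨hk1, hk2⟩, hk3⟩
        refine ⟨?_, hk2⟩
        by_contra hc
        exact hk3 ⟨hk1, hc⟩
      · have h4 : ((G x \ e ξ) \ (G x \ H x n)).Infinite := h2.diff (hGd x n)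
        refine h4.mono ?_
        rintro k ⟨⟨hk1, hk2⟩, hk3⟩
        refine ⟨?_, hk2⟩
        by_contra hc
        exact hk3 ⟨hk1, hc⟩
    exact ⟨ξ, hx, fun n => lt_of_lt_of_le (spI_mono hspl (hinf5 x hx) z (Nat.lt_succ_self n))
      (h3 (n + 1))⟩
  have hne : {ξ | ¬ (A ξ).Countable}.Nonempty := by
    obtain ⟨ξ, hξ⟩ := cQ5.exists_uncountable hI A hAall
    exact ⟨ξ, fun hc => hξ (hc.mono inter_subset_right)⟩
  let ζ : I := wellFounded_lt.min _ hne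
  have hζ1 : ¬ (A ζ).Countable := wellFounded_lt.min_mem _ hne
  have hζ2 : ∀ ξ < ζ, (A ξ).Countable := by
    intro ξ hξ
    by_contra hc
    exact wellFounded_lt.not_lt_min _ hc hξ
  obtain ⟨Q6, hQ6, cQ6, hd6⟩ := CU.avoid ⟨hAcl ζ, hζ1⟩ hI (fun ξ => if ξ < ζ then A ξ else ∅) (by
    intro ξ
    split_ifs with h
    · exact hζ2 ξ h
    · exact countable_empty)
  have h65 : Q6 ⊆ Q5 := fun x hx => (hQ6 hx).1
  have hlt : ∀ x ∈ Q6, ∀ n, spI e (Ft e (F x) (br z n)) < ζ := fun x hx => (hQ6 hx).2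
  have hge : ∀ x ∈ Q6, ∀ ξ < ζ, ∃ n, ξ < spI e (Ft e (F x) (br z n)) := by
    intro x hx ξ hξ
    by_contra hc
    push Not at hc
    have h1 := hd6 ξ
    rw [if_pos hξ] at h1
    refine Set.disjoint_left.1 h1 hx ⟨h65 hx, fun n => ?_⟩
    exact lt_of_lt_of_le (spI_mono hspl (hinf5 x (h65 hx)) z (Nat.lt_succ_self n)) (hc (n + 1))
  let σ : Ca → I → Bool := fun x ξ =>
    if h : ∃ n, ξ < spI e (Ft e (F x) (br z n)) then dc e (F x) (br z (Nat.find h)) ξ else true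
  have hσ : ∀ x ∈ Q6, ∀ n ξ, ξ < spI e (Ft e (F x) (br z n)) → σ x ξ = dc e (F x) (br z n) ξ := by
    intro x hx n ξ hξ
    have h : ∃ n, ξ < spI e (Ft e (F x) (br z n)) := ⟨n, hξ⟩
    simp only [σ, dif_pos h]
    exact (dc_br hspl (hinf5 x (h65 hx)) z (Nat.find_min' h hξ) (Nat.find_spec h)).symm
  have hunif : ∀ ξ < ζ, ∃ n, ∀ x ∈ Q6, ξ < spI e (Ft e (F x) (br z n)) := by
    intro ξ hξ
    by_contra hc
    push Not at hc
    obtain ⟨x, hx⟩ := exists_common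
      (A := fun n => {x | x ∈ Q6 ∧ spI e (Ft e (F x) (br z n)) ≤ ξ})
      (fun n => ((((T2 (br z n)).mono (h65.trans hQ5)).comp (fun v => v ≤ ξ))).isClosed cQ6.1)
      (by
        rintro n x ⟨hx, hx'⟩
        exact ⟨hx, ((spI_mono hspl (hinf5 x (h65 hx)) z).monotone (Nat.le_succ n)).trans hx'⟩)
      (by
        intro n
        obtain ⟨x, hx, hx'⟩ := hc n
        exact ⟨x, hx, hx'⟩)
    obtain ⟨n, hn⟩ := hge x (hx 0).1 ξ hξ
    exact absurd hn (not_lt.2 (hx n).2)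
  have hfin : ∀ ξ < ζ, ∀ x ∈ Q6, (G x \ E e ξ (σ x ξ)).Finite := by
    intro ξ hξ x hx
    obtain ⟨n, hn⟩ := hge x hx ξ hξ
    rw [hσ x hx n ξ hn]
    refine ((hGd x n).union (dc_spec hspl (hinf5 x (h65 hx)) hn)).subset ?_
    rintro k ⟨hk, hk'⟩
    by_cases hk2 : k ∈ H x n
    · exact Or.inr ⟨hk2, hk'⟩
    · exact Or.inl ⟨hk, hk2⟩
  have hεζ : ε ≤ ζ := by
    obtain ⟨x, hx⟩ := cQ6.nonempty
    by_contra hc
    rw [not_le] at hc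
    have h1 : spI e (Ft e (F x) (br z 0)) < ζ := hlt x hx 0
    have h2 : spI e (F x) < ε := h1.trans hc
    have h3 := spI_spec hspl (hinf5 x (h65 hx))
    have h4 := hdec x (hQ (hQ5 (h65 hx))) _ h2
    cases h5 : y x (spI e (F x))
    · rw [h5, E_false, Set.sdiff_compl] at h4
      exact h3.1 h4
    · rw [h5, E_true] at h4
      exact h3.2 h4
  refine ⟨Q6, G, ζ, σ, h65.trans (hQ5.trans hQ), ⟨cQ6, fun x hx => hGinf x (h65 hx),
    fun n => (hGuc n).mono h65⟩, fun x _ => hGF x, hεζ, ?_, hfin, ?_, ?_⟩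
  · intro ξ hξ
    obtain ⟨n, hn⟩ := hunif ξ hξ
    obtain ⟨x, hx⟩ := cQ6.nonempty
    refine ((T3 (br z n) ξ ⟨x, hQ5 (h65 hx), hn x hx⟩).mono (h65.trans hQ5)).congr ?_
    intro x hx
    exact (hσ x hx n ξ (hn x hx)).symm
  · intro x hx ξ hξ
    exact not_both (hGinf x (h65 hx)) (hGF x) (hfin ξ (lt_of_lt_of_le hξ hεζ) x hx)
      (hdec x (hQ (hQ5 (h65 hx))) ξ hξ)
  · rintro o x hx hxo ⟨h1, h2⟩
    refine hz o x (h65 hx) hxo fun n => ⟨((hlt x hx n).le.trans h1), fun ξ hξ => ?_⟩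
    rw [← hσ x hx n ξ hξ]
    exact h2 ξ (hξ.trans (hlt x hx n))

end

end Run7.h474
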