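import Pool.Agent.Run7.h474.Basic

set_option autoImplicit false

namespace Run7.h474

open Set Cardinal

/-- the initial segments of a branch -/
def br (z : Ca) : ℕ → List Bool
  | 0 => []
  | n + 1 => z n :: br z n

@[simp] theorem br_length (z : Ca) (n : ℕ) : (br z n).length = n := by
  induction n with
  | zero => rfl
  | succ n ih => simp [br, ih]

theorem br_eq_of_agr {z z' : Ca} {n : ℕ} (h : agr n z z') : br z n = br z' n := by
  induction n with
  | zero => rfl
  | succ n ih =>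
    simp only [br]
    rw [h n (Nat.lt_succ_self n), ih (h.mono (Nat.le_succ n))]

theorem agr_of_br_eq {z z' : Ca} {n : ℕ} (h : br z n = br z' n) : agr n z z' := by
  induction n with
  | zero => intro i hi; omega
  | succ n ih =>
    simp only [br, List.cons.injEq] at h
    intro i hi
    rcases Nat.lt_succ_iff_lt_or_eq.1 hi with h1 | h1
    · exact ih h.2 i h1
    · rw [h1]; exact h.1

/-- the fusion of a scheme -/
def fuse (K : List Bool → Set Ca) : Set Ca :=
  ⋂ n : ℕ, ⋃ s : {s : List Bool // s.length = n}, K s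

structure Scheme (K : List Bool → Set Ca) : Prop where
  closed : ∀ s, IsClosed (K s)
  ne : ∀ s, (K s).Nonempty
  sub : ∀ s b, K (b :: s) ⊆ K s
  disj : ∀ s, Disjoint (K (true :: s)) (K (false :: s))

instance finLists (n : ℕ) : Finite {s : List Bool // s.length = n} :=
  (List.finite_length_eq Bool n)

namespace Scheme

variable {K : List Bool → Set Ca} (h : Scheme K)
include h

theorem unique {x : Ca} : ∀ {s t : List Bool}, s.length = t.length → x ∈ K s → x ∈ K t → s = t
  | [], [], _, _, _ => rfl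
  | [], _ :: _, hl, _, _ => by simp at hl
  | _ :: _, [], hl, _, _ => by simp at hl
  | b :: s, c :: t, hl, hs, ht => by
    have hl' : s.length = t.length := by simpa using hl
    have := unique hl' (h.sub s b hs) (h.sub t c ht)
    subst this
    have hbc : b = c := by
      cases b <;> cases c
      · rfl
      · exact absurd hs (Set.disjoint_left.1 (h.disj s) ht)
      · exact absurd ht (Set.disjoint_left.1 (h.disj s) hs)
      · rfl
    rw [hbc]

theorem mem_fuse {x z : Ca} (hx : ∀ n, x ∈ K (br z n)) : x ∈ fuse K := by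
  unfold fuse
  rw [mem_iInter]
  intro n
  rw [mem_iUnion]
  exact ⟨⟨br z n, br_length z n⟩, hx n⟩

theorem exists_of_mem_fuse {x : Ca} (hx : x ∈ fuse K) (n : ℕ) :
    ∃ s : List Bool, s.length = n ∧ x ∈ K s := by
  unfold fuse at hx
  rw [mem_iInter] at hx
  obtain ⟨s, hs⟩ := mem_iUnion.1 (hx n)
  exact ⟨s.1, s.2, hs⟩

theorem branch {x : Ca} (hx : x ∈ fuse K) : ∃ z : Ca, ∀ n, x ∈ K (br z n) := by
  choose s hs1 hs2 using h.exists_of_mem_fuse hx
  have key : ∀ n, ∃ b, s (n + 1) = b :: s n := by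
    intro n
    have h1 := hs1 (n + 1)
    match hsn : s (n + 1), h1 with
    | b :: t, h1 =>
      have h2 := hs2 (n + 1)
      rw [hsn] at h2
      have : t = s n := h.unique (by simpa [hs1] using h1) (h.sub t b h2) (hs2 n)
      exact ⟨b, by rw [this]⟩
  choose z hz using key
  refine ⟨z, fun n => ?_⟩
  have : br z n = s n := by
    induction n with
    | zero =>
      have := hs1 0
      rw [List.length_eq_zero_iff] at this
      rw [this]; rfl
    | succ n ih => rw [br, ih, hz]
  rw [this]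
  exact hs2 n

theorem branch_eq {x : Ca} {z z' : Ca} (hz : ∀ n, x ∈ K (br z n)) (hz' : ∀ n, x ∈ K (br z' n)) :
    z = z' :=
  eq_of_agr fun m => agr_of_br_eq (h.unique (by simp) (hz m) (hz' m))

theorem exists_point (z : Ca) : ∃ x, ∀ n, x ∈ K (br z n) := by
  have := IsCompact.nonempty_iInter_of_sequence_nonempty_isCompact_isClosed
    (fun n => K (br z n)) (fun n => h.sub _ _) (fun n => h.ne _) ((h.closed _).isCompact)
    (fun n => h.closed _)
  obtain ⟨x, hx⟩ := this
  exact ⟨x, fun n => mem_iInter.1 hx n⟩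

theorem isClosed_fuse : IsClosed (fuse K) := by
  unfold fuse
  refine isClosed_iInter fun n => ?_
  exact isClosed_iUnion_of_finite fun s => h.closed s

theorem CU_fuse : CU (fuse K) := by
  refine ⟨h.isClosed_fuse, fun hc => ?_⟩
  choose g hg using h.exists_point
  have hinj : Function.Injective g := by
    intro z z' hzz
    have h1 := hg z
    rw [hzz] at h1
    exact h.branch_eq h1 (hg z')
  refine not_countable_range hinj (hc.mono ?_)
  rintro _ ⟨z, rfl⟩
  exact h.mem_fuse (hg z)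

theorem fuse_sub_nil : fuse K ⊆ K [] := by
  intro x hx
  obtain ⟨s, hs, hx'⟩ := h.exists_of_mem_fuse hx 0
  rw [List.length_eq_zero_iff] at hs
  rwa [hs] at hx'

theorem sep (n : ℕ) : ∃ N, ∀ s t : List Bool, s.length = n → t.length = n →
    ∀ x ∈ K s, ∀ y ∈ K t, agr N x y → s = t := by
  induction n with
  | zero =>
    refine ⟨0, fun s t hs ht _ _ _ _ _ => ?_⟩
    rw [List.length_eq_zero_iff] at hs ht
    rw [hs, ht]
  | succ n ih =>
    obtain ⟨N, hN⟩ := ih
    have h1 : ∀ s : {s : List Bool // s.length = n}, ∃ m, ∀ x ∈ K (true :: s.1),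
        ∀ y ∈ K (false :: s.1), ¬ agr m x y := fun s =>
      exists_sep (h.closed _) (h.closed _) (h.disj s.1)
    choose m hm using h1
    haveI := Fintype.ofFinite {s : List Bool // s.length = n}
    refine ⟨max N (Finset.univ.sup m), ?_⟩
    intro s t hs ht x hx y hy hxy
    match s, t, hs, ht with
    | b :: s, c :: t, hs, ht =>
      have hs' : s.length = n := by simpa using hs
      have ht' : t.length = n := by simpa using ht
      have := hN s t hs' ht' x (h.sub _ _ hx) y (h.sub _ _ hy) (hxy.mono (le_max_left _ _))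
      subst this
      have hle : m ⟨s, hs'⟩ ≤ Finset.univ.sup m := Finset.le_sup (f := m) (Finset.mem_univ _)
      have hxy' : agr (m ⟨s, hs'⟩) x y := hxy.mono (le_trans hle (le_max_right _ _))
      cases b <;> cases c
      · rfl
      · exact absurd hxy'.symm (hm ⟨s, hs'⟩ y hy x hx)
      · exact absurd hxy' (hm ⟨s, hs'⟩ x hx y hy)
      · rfl

theorem sub_of_length {s : List Bool} {n : ℕ} (hn : n ≤ s.length) :
    ∃ t : List Bool, t.length = n ∧ K s ⊆ K t := by
  induction s with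
  | nil =>
    simp only [List.length_nil, Nat.le_zero_eq] at hn
    exact ⟨[], by simp [hn], Subset.rfl⟩
  | cons b s ih =>
    rcases Nat.lt_or_ge s.length n with h1 | h1
    · have : n = (b :: s).length := by simp only [List.length_cons] at hn ⊢; omega
      exact ⟨b :: s, this.symm, Subset.rfl⟩
    · obtain ⟨t, ht1, ht2⟩ := ih h1
      exact ⟨t, ht1, (h.sub s b).trans ht2⟩

end Scheme

/-- iterate a step function along finite sequences -/
def iter {σ : Type*} (s0 : σ) (nx : σ → List Bool → Bool → σ) : List Bool → σ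
  | [] => s0
  | b :: s => nx (iter s0 nx s) s b

/-- `f` is locally constant on `Q` (uniformly) -/
def UC {X : Type*} (f : Ca → X) (Q : Set Ca) : Prop :=
  ∃ N, ∀ x ∈ Q, ∀ y ∈ Q, agr N x y → f x = f y

theorem UC.mono {X : Type*} {f : Ca → X} {Q Q' : Set Ca} (h : UC f Q) (hQ : Q' ⊆ Q) : UC f Q' := by
  obtain ⟨N, hN⟩ := h
  exact ⟨N, fun x hx y hy => hN x (hQ hx) y (hQ hy)⟩

theorem UC.comp {X Y : Type*} {f : Ca → X} {Q : Set Ca} (h : UC f Q) (g : X → Y) :
    UC (fun x => g (f x)) Q := by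
  obtain ⟨N, hN⟩ := h
  exact ⟨N, fun x hx y hy hxy => congrArg g (hN x hx y hy hxy)⟩

theorem UC.prod {X Y : Type*} {f : Ca → X} {g : Ca → Y} {Q : Set Ca} (h : UC f Q) (h' : UC g Q) :
    UC (fun x => (f x, g x)) Q := by
  obtain ⟨N, hN⟩ := h
  obtain ⟨M, hM⟩ := h'
  exact ⟨max N M, fun x hx y hy hxy => Prod.ext (hN x hx y hy (hxy.mono (le_max_left _ _)))
    (hM x hx y hy (hxy.mono (le_max_right _ _)))⟩

theorem UC.congr {X : Type*} {f g : Ca → X} {Q : Set Ca} (h : UC f Q) (hfg : ∀ x ∈ Q, f x = g x) :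
    UC g Q := by
  obtain ⟨N, hN⟩ := h
  exact ⟨N, fun x hx y hy hxy => by rw [← hfg x hx, ← hfg y hy]; exact hN x hx y hy hxy⟩

theorem UC_const {X : Type*} (c : X) (Q : Set Ca) : UC (fun _ => c) Q := ⟨0, fun _ _ _ _ _ => rfl⟩

theorem UC_eval (n : ℕ) (Q : Set Ca) : UC (fun x => x n) Q :=
  ⟨n + 1, fun _ _ _ _ h => h n (Nat.lt_succ_self n)⟩

/-- densely constant below `K` -/
def DCon {X : Type*} (f : Ca → X) (K : Set Ca) : Prop :=
  ∀ K' ⊆ K, CU K' → ∃ K'' ⊆ K', CU K'' ∧ ∃ v, ∀ x ∈ K'', f x = v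

theorem DCon.mono {X : Type*} {f : Ca → X} {K L : Set Ca} (h : DCon f K) (hL : L ⊆ K) : DCon f L :=
  fun K' hK' => h K' (hK'.trans hL)

/-- the basic fusion lemma -/
theorem fusion {X : ℕ → Type*} (f : ∀ n, Ca → X n) {K : Set Ca} (hK : CU K)
    (hf : ∀ n, DCon (f n) K) : ∃ Q ⊆ K, CU Q ∧ ∀ n, UC (f n) Q := by
  have step : ∀ (L : {L : Set Ca // L ⊆ K ∧ CU L}) (n : ℕ),
      ∃ M : Bool → {L : Set Ca // L ⊆ K ∧ CU L}, (∀ b, (M b).1 ⊆ L.1) ∧
        Disjoint (M true).1 (M false).1 ∧ ∀ b, ∃ v, ∀ x ∈ (M b).1, f n x = v := by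
    intro L n
    obtain ⟨K0, K1, h0, h1, c0, c1, hd⟩ := L.2.2.split
    obtain ⟨L0, hL0, cL0, v0, hv0⟩ := hf n K0 (h0.trans L.2.1) c0
    obtain ⟨L1, hL1, cL1, v1, hv1⟩ := hf n K1 (h1.trans L.2.1) c1
    refine ⟨fun b => if b then ⟨L0, hL0.trans (h0.trans L.2.1), cL0⟩ else
      ⟨L1, hL1.trans (h1.trans L.2.1), cL1⟩, ?_, ?_, ?_⟩
    · intro b
      cases b
      · exact hL1.trans h1
      · exact hL0.trans h0
    · exact hd.mono hL0 hL1
    · intro b
      cases b
      · exact ⟨v1, hv1⟩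
      · exact ⟨v0, hv0⟩
  choose M hM1 hM2 hM3 using step
  let S : List Bool → {L : Set Ca // L ⊆ K ∧ CU L} := iter ⟨K, Subset.rfl, hK⟩ (fun L s b => M L s.length b)
  have hS : Scheme (fun s => (S s).1) := by
    refine ⟨fun s => (S s).2.2.1, fun s => (S s).2.2.nonempty, fun s b => hM1 _ _ b, fun s => ?_⟩
    exact hM2 _ _
  refine ⟨fuse fun s => (S s).1, hS.fuse_sub_nil, hS.CU_fuse, fun n => ?_⟩
  obtain ⟨N, hN⟩ := hS.sep (n + 1)
  refine ⟨N, fun x hx y hy hxy => ?_⟩
  obtain ⟨s, hs, hxs⟩ := hS.exists_of_mem_fuse hx (n + 1)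
  obtain ⟨t, ht, hyt⟩ := hS.exists_of_mem_fuse hy (n + 1)
  have hst := hN s t hs ht x hxs y hyt hxy
  subst hst
  match s, hs with
  | b :: s, hs =>
    have hs' : s.length = n := by simpa using hs
    subst hs'
    obtain ⟨v, hv⟩ := hM3 (S s) s.length b
    rw [hv x hxs, hv y hyt]

end Run7.h474
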