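import Mathlib

set_option autoImplicit false

/-!
# Sacks indestructible MAD families: definitions

The definitions used in the statement of the main theorem: the splitting and the bounding number,
MAD families, the forcing relation for names of subsets of `ℕ` (for an arbitrary preorder of
conditions), and Sacks forcing.
-/

namespace Run7.h474.SacksMAD

open Set Cardinal

/-! ## The cardinal invariants -/

/-- The splitting number `𝔰`: the least size of a family `S` of subsets of `ℕ` such that every
infinite `X` is split by some member `A` of `S` (both `X ∩ A` and `X \ A` are infinite). -/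
noncomputable def splittingNumber : Cardinal.{0} :=
  sInf {c | ∃ S : Set (Set ℕ), #S = c ∧
    ∀ X : Set ℕ, X.Infinite → ∃ A ∈ S, (X ∩ A).Infinite ∧ (X \ A).Infinite}

/-- The bounding number `𝔟`: the least size of a family `F` of functions from `ℕ` to `ℕ` such that
no `g` eventually dominates every member of `F`. -/
noncomputable def boundingNumber : Cardinal.{0} :=
  sInf {c | ∃ F : Set (ℕ → ℕ), #F = c ∧
    ∀ g : ℕ → ℕ, ∃ f ∈ F, ¬ ∀ᶠ n in Filter.atTop, f n ≤ g n}

/-! ## MAD families -/

/-- `A` is a MAD family: an infinite family of infinite subsets of `ℕ`, almost disjoint, and such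
that every infinite `X` has infinite intersection with some member of `A`. -/
structure IsMAD (A : Set (Set ℕ)) : Prop where
  infinite : A.Infinite
  mem_infinite : ∀ a ∈ A, a.Infinite
  almost_disjoint : ∀ a ∈ A, ∀ b ∈ A, a ≠ b → (a ∩ b).Finite
  maximal : ∀ X : Set ℕ, X.Infinite → ∃ a ∈ A, (X ∩ a).Infinite

/-! ## The forcing relation for an arbitrary preorder of conditions -/

section Forcing

variable {P : Type} [Preorder P]

/-- A (nice) `P`-name for a subset of `ℕ`: a set of pairs `(n, c)` with `c` a condition. Its value
in the extension by the generic filter `G` is the set of all `n` with `(n, c) ∈ τ` for some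
`c ∈ G`. Every subset of `ℕ` in the extension is the value of such a name. -/
abbrev SetName (P : Type) : Type := Set (ℕ × P)

/-- A statement of the forcing language, given by the conditions forcing it. -/
abbrev FStmt (P : Type) : Type := P → Prop

/-- `p ⊩ n ∈ τ`: the conditions lying below some `c` with `(n, c) ∈ τ` are dense below `p`. -/
def forcesMem (τ : SetName P) (n : ℕ) : FStmt P :=
  fun p => ∀ q ≤ p, ∃ r ≤ q, ∃ c, (n, c) ∈ τ ∧ r ≤ c

/-- `p ⊩ (φ → ψ)`: every condition below `p` which forces `φ` forces `ψ`. -/
def forcesImp (φ ψ : FStmt P) : FStmt P := fun p => ∀ q ≤ p, φ q → ψ q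

/-- `p ⊩ ∀ i, φ i`, where `i` ranges over a set of the ground model. -/
def forcesAll {ι : Type} (φ : ι → FStmt P) : FStmt P := fun p => ∀ i, φ i p

/-- `p ⊩ ∃ i ∈ S, φ i`, where `S` is a set of the ground model: below `p` it is dense to force
`φ i` for some `i ∈ S`. -/
def forcesEx {ι : Type} (S : Set ι) (φ : ι → FStmt P) : FStmt P :=
  fun p => ∀ q ≤ p, ∃ r ≤ q, ∃ i ∈ S, φ i r

/-- `p ⊩ τ ∩ a is infinite`, where `a` is a set of the ground model: for every `m` there is
`n ≥ m` with `n ∈ a` and `n ∈ τ`. -/
def forcesInfinite (τ : SetName P) (a : Set ℕ) : FStmt P :=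
  forcesAll fun m : ℕ => forcesEx {n | m ≤ n ∧ n ∈ a} fun n => forcesMem τ n

/-- The ground model family `A` is still maximal after forcing with `P`: every condition forces,
for every name `τ` of a subset of `ℕ`, that if `τ` is infinite then `τ ∩ a` is infinite for some
`a ∈ A`. (The other clauses in the definition of a MAD family are absolute.) -/
def StaysMaximal (P : Type) [Preorder P] (A : Set (Set ℕ)) : Prop :=
  ∀ (τ : SetName P) (p : P),
    forcesImp (forcesInfinite τ Set.univ) (forcesEx A fun a => forcesInfinite τ a) p

end Forcing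

/-! ## Sacks forcing -/

/-- `T` is a perfect subtree of `2^{<ω}`. Nodes are finite binary sequences, read from left to
right; `T` is nonempty, closed under initial segments, and every node `s` of `T` has an extension
`s ++ t` both of whose immediate successors are in `T`. -/
structure IsPerfectTree (T : Set (List Bool)) : Prop where
  nonempty : T.Nonempty
  closed : ∀ s t : List Bool, s ++ t ∈ T → s ∈ T
  splits : ∀ s ∈ T, ∃ t : List Bool, s ++ t ++ [false] ∈ T ∧ s ++ t ++ [true] ∈ T

/-- Sacks forcing: perfect subtrees of `2^{<ω}`. -/
def Sacks : Type := {T : Set (List Bool) // IsPerfectTree T}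

/-- Sacks forcing is ordered by inclusion. -/
instance : Preorder Sacks where
  le p q := p.1 ⊆ q.1
  le_refl _ := Subset.rfl
  le_trans _ _ _ := Subset.trans

/-- `A` is a Sacks indestructible MAD family: it is a MAD family, and it is still a MAD family
after forcing with Sacks forcing. -/
def SacksIndestructible (A : Set (Set ℕ)) : Prop := IsMAD A ∧ StaysMaximal Sacks A

/-! ## A sanity check: the forcing definition in terms of names -/

theorem staysMaximal_iff (P : Type) [Preorder P] (A : Set (Set ℕ)) :
    StaysMaximal P A ↔ ¬ ∃ (τ : SetName P) (p : P), forcesInfinite τ Set.univ p ∧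
      ∀ a ∈ A, ∀ q ≤ p, ¬ forcesInfinite τ a q := by
  constructor
  · rintro h ⟨τ, p, h1, h2⟩
    obtain ⟨r, hr, a, ha, h3⟩ := h τ p p le_rfl h1 p le_rfl
    exact h2 a ha r hr h3
  · intro h τ p q hq h1 q' hq'
    by_contra hc
    refine h ⟨τ, q', fun m r hr => h1 m r (hr.trans hq'), fun a ha r hr h2 => ?_⟩
    exact hc ⟨r, hr, a, ha, h2⟩

end Run7.h474.SacksMAD
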