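import Pool.Agent.Run7.h474.Main
import Pool.Agent.Run7.h474.SacksDefs

set_option autoImplicit false

namespace Run7.h474.SacksMAD

open Set Cardinal

/-! ## Branches and perfect trees -/

section Link

open Run7.h474

/-- the restriction of a branch -/
def res (x : Ca) (n : ℕ) : List Bool := (List.range n).map x

theorem res_length (x : Ca) (n : ℕ) : (res x n).length = n := by simp [res]

theorem res_zero (x : Ca) : res x 0 = [] := rfl

theorem res_succ (x : Ca) (n : ℕ) : res x (n + 1) = res x n ++ [x n] := by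
  simp [res, List.range_succ]

theorem res_eq_iff {x y : Ca} {n : ℕ} : res x n = res y n ↔ agr n x y := by
  unfold res agr
  rw [List.map_inj_left]
  simp only [List.mem_range]

theorem res_add (x : Ca) (m n : ℕ) : ∃ t, res x (m + n) = res x m ++ t := by
  induction n with
  | zero => exact ⟨[], by simp⟩
  | succ n ih =>
    obtain ⟨t, ht⟩ := ih
    exact ⟨t ++ [x (m + n)], by rw [← Nat.add_assoc, res_succ, ht, List.append_assoc]⟩

theorem res_of_append {x : Ca} {n : ℕ} {s t : List Bool} (h : s ++ t = res x n) :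
    res x s.length = s := by
  have hn : s.length + t.length = n := by
    have := congrArg List.length h
    rwa [List.length_append, res_length] at this
  obtain ⟨t', ht'⟩ := res_add x s.length t.length
  rw [← hn, ht'] at h
  exact (List.append_inj_left h (by rw [res_length])).symm

theorem res_getD (s : List Bool) : res (fun i => s.getD i false) s.length = s := by
  apply List.ext_getElem
  · rw [res_length]
  · intro i h1 h2
    simp only [res, List.getElem_map, List.getElem_range]
    exact List.getD_eq_getElem _ _ h2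

theorem UC_res (n : ℕ) (K : Set Ca) : UC (fun x => res x n) K :=
  ⟨n, fun _ _ _ _ h => res_eq_iff.2 h⟩

/-- the set of branches -/
def body (T : Set (List Bool)) : Set Ca := {x | ∀ n, res x n ∈ T}

theorem isClosed_body (T : Set (List Bool)) : IsClosed (body T) := by
  have : body T = ⋂ n : ℕ, {x | x ∈ Set.univ ∧ res x n ∈ T} := by
    ext x
    simp only [body, mem_ofPred_eq, mem_iInter, mem_univ, true_and]
  rw [this]
  exact isClosed_iInter fun n => ((UC_res n Set.univ).comp (fun s => s ∈ T)).isClosed isClosed_univ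

theorem succ_mem {T : Set (List Bool)} (hT : IsPerfectTree T) {s : List Bool} (hs : s ∈ T) :
    ∃ b, s ++ [b] ∈ T := by
  obtain ⟨t, ht, -⟩ := hT.splits s hs
  rcases t with _ | ⟨c, t⟩
  · exact ⟨false, by simpa using ht⟩
  · exact ⟨c, hT.closed (s ++ [c]) (t ++ [false]) (by simpa using ht)⟩

theorem exists_longer {T : Set (List Bool)} (hT : IsPerfectTree T) {s : List Bool} (hs : s ∈ T)
    (n : ℕ) : ∃ t : List Bool, t.length = n ∧ s ++ t ∈ T := by
  induction n with
  | zero => exact ⟨[], rfl, by simpa using hs⟩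
  | succ n ih =>
    obtain ⟨t, ht, ht'⟩ := ih
    obtain ⟨b, hb⟩ := succ_mem hT ht'
    exact ⟨t ++ [b], by simp [ht], by rwa [← List.append_assoc]⟩

theorem exists_branch {T : Set (List Bool)} (hT : IsPerfectTree T) {s : List Bool} (hs : s ∈ T) :
    ∃ x ∈ body T, res x s.length = s := by
  obtain ⟨x, hx⟩ := exists_common
    (A := fun n => {x | x ∈ Set.univ ∧ (res x (s.length + n) ∈ T ∧ res x s.length = s)})
    (fun n => (((UC_res (s.length + n) Set.univ).prod (UC_res s.length Set.univ)).comp
      (fun p => p.1 ∈ T ∧ p.2 = s)).isClosed isClosed_univ)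
    (by
      rintro n x ⟨-, h1, h2⟩
      refine ⟨mem_univ _, hT.closed _ [x (s.length + n)] ?_, h2⟩
      rw [← res_succ]
      exact h1)
    (by
      intro n
      obtain ⟨t, ht, ht'⟩ := exists_longer hT hs n
      refine ⟨fun i => (s ++ t).getD i false, mem_univ _, ?_, ?_⟩
      · have := res_getD (s ++ t)
        rw [List.length_append, ht] at this
        rw [this]
        exact ht'
      · exact res_of_append (res_getD (s ++ t)).symm)
  refine ⟨x, fun n => ?_, (hx 0).2.2⟩
  obtain ⟨t, ht⟩ := res_add x n s.length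
  have h1 := (hx n).2.1
  rw [Nat.add_comm, ht] at h1
  exact hT.closed _ _ h1

theorem nil_mem {T : Set (List Bool)} (hT : IsPerfectTree T) : [] ∈ T := by
  obtain ⟨s, hs⟩ := hT.nonempty
  exact hT.closed [] s hs

theorem CU_body {T : Set (List Bool)} (hT : IsPerfectTree T) : CU (body T) := by
  refine ⟨isClosed_body T, ?_⟩
  choose t ht using fun s : {s // s ∈ T} => hT.splits s.1 s.2
  let S : List Bool → {s // s ∈ T} := iter ⟨[], nil_mem hT⟩
    (fun s _ b => if b then ⟨s.1 ++ t s ++ [true], (ht s).2⟩ else ⟨s.1 ++ t s ++ [false], (ht s).1⟩)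
  have hSb : ∀ u b, (S (b :: u)).1 = (S u).1 ++ t (S u) ++ [b] := by
    intro u b
    cases b
    · rfl
    · rfl
  let K : List Bool → Set Ca := fun u => {x | x ∈ body T ∧ res x (S u).1.length = (S u).1}
  have hsub : ∀ u b, K (b :: u) ⊆ K u := by
    rintro u b x ⟨hx, hx'⟩
    refine ⟨hx, ?_⟩
    rw [hSb, List.append_assoc] at hx'
    exact res_of_append hx'.symm
  have hlast : ∀ u b, ∀ x ∈ K (b :: u), x ((S u).1 ++ t (S u)).length = b := by
    rintro u b x ⟨hx, hx'⟩
    rw [hSb, List.length_append, List.length_singleton, res_succ] at hx'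
    have := List.append_inj_right hx' (by rw [res_length])
    simpa using this
  have hS : Scheme K := by
    refine ⟨fun u => ((UC_res _ _).comp (fun s => s = (S u).1)).isClosed (isClosed_body T),
      fun u => ?_, hsub, fun u => ?_⟩
    · obtain ⟨x, hx, hx'⟩ := exists_branch hT (S u).2
      exact ⟨x, hx, hx'⟩
    · rw [Set.disjoint_left]
      intro x hx hx'
      have h1 := hlast u true x hx
      have h2 := hlast u false x hx'
      rw [h1] at h2
      exact absurd h2 (by decide)
  intro hc
  refine hS.CU_fuse.2 (hc.mono ?_)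
  exact hS.fuse_sub_nil.trans fun x hx => hx.1

theorem le_of_body {p q : Sacks} (h : body p.1 ⊆ body q.1) : p ≤ q := by
  intro s hs
  obtain ⟨x, hx, hx'⟩ := exists_branch p.2 hs
  rw [← hx']
  exact h hx _

theorem body_mono {p q : Sacks} (h : p ≤ q) : body p.1 ⊆ body q.1 := fun _ hx n => h (hx n)

/-- inside every closed uncountable set there is a perfect tree -/
theorem exists_tree {K : Set Ca} (hK : CU K) : ∃ q : Sacks, body q.1 ⊆ K := by
  have key : ∀ (x : Ca) (n : ℕ) (s : List Bool), res x n = s →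
      {y : Ca | res y s.length = s} = {y | agr n x y} := by
    rintro x n s rfl
    ext y
    simp only [mem_ofPred_eq, res_length]
    rw [res_eq_iff]
    exact ⟨fun h => h.symm, fun h => h.symm⟩
  let T : Set (List Bool) := {s | ¬ (K ∩ {x | res x s.length = s}).Countable}
  have hT : IsPerfectTree T := by
    refine ⟨⟨[], ?_⟩, ?_, ?_⟩
    · intro hc
      apply hK.2
      refine hc.mono ?_
      intro x hx
      exact ⟨hx, rfl⟩
    · intro s t hst hc
      refine hst (hc.mono ?_)
      rintro x ⟨hx, hx'⟩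
      exact ⟨hx, res_of_append (hx' : res x (s ++ t).length = s ++ t).symm⟩
    · intro s hs
      obtain ⟨u, hu, -, huc⟩ := exists_cond hs countable_empty
      obtain ⟨v, hv, huv, hvc⟩ := exists_cond hs (countable_singleton u)
      obtain ⟨n, hn, hn'⟩ := exists_diff (fun e => huv e.symm : u ≠ v)
      have hsn : s.length ≤ n := by
        by_contra hc
        rw [not_le] at hc
        have h1 : res u s.length = res v s.length := hu.2.trans hv.2.symm
        exact hn' ((res_eq_iff.1 h1) n hc)
      obtain ⟨k, rfl⟩ := Nat.exists_eq_add_of_le hsn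
      obtain ⟨t, ht⟩ := res_add u s.length k
      rw [hu.2] at ht
      have hmem : ∀ w : Ca, Cond K w → agr (s.length + k) u w →
          s ++ t ++ [w (s.length + k)] ∈ T := by
        intro w hw huw
        have h1 : res w (s.length + k + 1) = s ++ t ++ [w (s.length + k)] := by
          rw [res_succ, ← res_eq_iff.2 huw, ht]
        change ¬ (K ∩ {x | res x (s ++ t ++ [w (s.length + k)]).length =
          s ++ t ++ [w (s.length + k)]}).Countable
        rw [key w _ _ h1]
        exact hw _
      have h2 := hmem u (huc.mono inter_subset_left) (agr.refl _ _)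
      have h3 := hmem v (hvc.mono inter_subset_left) hn
      refine ⟨t, ?_⟩
      cases hb : u (s.length + k)
      · have hc : v (s.length + k) = true := by
          cases hc : v (s.length + k)
          · exact absurd (hb.trans hc.symm) hn'
          · rfl
        rw [hb] at h2
        rw [hc] at h3
        exact ⟨h2, h3⟩
      · have hc : v (s.length + k) = false := by
          cases hc : v (s.length + k)
          · rfl
          · exact absurd (hb.trans hc.symm) hn'
        rw [hb] at h2
        rw [hc] at h3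
        exact ⟨h3, h2⟩
  refine ⟨⟨T, hT⟩, fun x hx => ?_⟩
  by_contra hc
  obtain ⟨m, hm⟩ := exists_sep (isClosed_singleton (x := x)) hK.1
    (Set.disjoint_singleton_left.2 hc)
  apply (hx m : ¬ (K ∩ {y | res y (res x m).length = res x m}).Countable)
  rw [key x m _ rfl]
  convert countable_empty
  ext y
  simp only [mem_inter_iff, mem_ofPred_eq, mem_empty_iff_false, iff_false]
  rintro ⟨h1, h2⟩
  exact hm x rfl y h1 h2

theorem forcesMem_mono {τ : SetName Sacks} {n : ℕ} {p q : Sacks} (h : forcesMem τ n p)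
    (hq : q ≤ p) : forcesMem τ n q := fun r hr => h r (le_trans hr hq)

theorem forcesInfinite_mono {τ : SetName Sacks} {a : Set ℕ} {p q : Sacks}
    (h : forcesInfinite τ a p) (hq : q ≤ p) : forcesInfinite τ a q :=
  fun m r hr => h m r (le_trans hr hq)

/-- reading a name continuously -/
theorem exists_reading {τ : SetName Sacks} {p : Sacks} (hp : forcesInfinite τ Set.univ p) :
    ∃ (K : Set Ca) (F : Ca → Set ℕ), Nm K F ∧ K ⊆ body p.1 ∧
      ∀ n, ∃ N, ∀ x ∈ K, n ∈ F x → ∀ q : Sacks, body q.1 ⊆ K → (∀ y ∈ body q.1, agr N x y) →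
        forcesMem τ n q := by
  have step : ∀ (q : {q : Sacks // q ≤ p}) (n : ℕ), ∃ M : Bool → {q : Sacks // q ≤ p},
      (∀ b, (M b).1 ≤ q.1) ∧ Disjoint (body (M true).1.1) (body (M false).1.1) ∧
      ∀ b, ∃ k, n < k ∧ forcesMem τ k (M b).1 := by
    intro q n
    obtain ⟨K0, K1, h0, h1, c0, c1, hd⟩ := (CU_body q.1.2).split
    obtain ⟨q0, hq0⟩ := exists_tree c0
    obtain ⟨q1, hq1⟩ := exists_tree c1
    have l0 : q0 ≤ q.1 := le_of_body (hq0.trans h0)
    have l1 : q1 ≤ q.1 := le_of_body (hq1.trans h1)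
    obtain ⟨r0, hr0, k0, hk0, hk0'⟩ := hp (n + 1) q0 (le_trans l0 q.2)
    obtain ⟨r1, hr1, k1, hk1, hk1'⟩ := hp (n + 1) q1 (le_trans l1 q.2)
    refine ⟨fun b => if b then ⟨r0, le_trans hr0 (le_trans l0 q.2)⟩ else
      ⟨r1, le_trans hr1 (le_trans l1 q.2)⟩, ?_, ?_, ?_⟩
    · intro b
      cases b
      · exact le_trans hr1 l1
      · exact le_trans hr0 l0
    · exact hd.mono ((body_mono hr0).trans hq0) ((body_mono hr1).trans hq1)
    · intro b
      cases b
      · exact ⟨k1, hk1.1, hk1'⟩
      · exact ⟨k0, hk0.1, hk0'⟩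
  choose M hM1 hM2 hM3 using step
  have dec : ∀ (q : {q : Sacks // q ≤ p}) (n : ℕ), ∃ r : {q : Sacks // q ≤ p}, r.1 ≤ q.1 ∧
      (forcesMem τ n r.1 ∨ ∀ r' ≤ r.1, ¬ forcesMem τ n r') := by
    intro q n
    by_cases h : ∃ r ≤ q.1, forcesMem τ n r
    · obtain ⟨r, hr, hr'⟩ := h
      exact ⟨⟨r, le_trans hr q.2⟩, hr, Or.inl hr'⟩
    · exact ⟨q, le_refl _, Or.inr fun r' hr' hc => h ⟨r', hr', hc⟩⟩
  choose D hD1 hD2 using dec
  let S : List Bool → {q : Sacks // q ≤ p} := iter ⟨p, le_refl p⟩
    (fun q s b => D (M q s.length b) s.length)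
  have hSle : ∀ s b, (S (b :: s)).1 ≤ (S s).1 := fun s b =>
    le_trans (hD1 _ _) (hM1 (S s) s.length b)
  let R : List Bool → Set Ca := fun s => body (S s).1.1
  have hR : Scheme R := by
    refine ⟨fun s => isClosed_body _, fun s => (CU_body (S s).1.2).nonempty,
      fun s b => body_mono (hSle s b), fun s => ?_⟩
    exact (hM2 (S s) s.length).mono (body_mono (hD1 _ _)) (body_mono (hD1 _ _))
  have hzex : ∀ x, ∃ z : Ca, x ∈ fuse R → ∀ n, x ∈ R (br z n) := by
    intro x
    by_cases hx : x ∈ fuse R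
    · obtain ⟨z, hz⟩ := hR.branch hx
      exact ⟨z, fun _ => hz⟩
    · exact ⟨x, fun h => absurd h hx⟩
  choose z hz using hzex
  have hSmono : ∀ (w : Ca) (m n : ℕ), m ≤ n → (S (br w n)).1 ≤ (S (br w m)).1 := by
    intro w m n hmn
    induction hmn with
    | refl => exact le_refl _
    | @step k hk ih => exact le_trans (hSle (br w k) (w k)) ih
  let F : Ca → Set ℕ := fun x => {n | forcesMem τ n (S (br (z x) (n + 1))).1}
  have hinf : ∀ x, (F x).Infinite := by
    intro x
    refine Set.infinite_of_forall_exists_gt fun m => ?_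
    obtain ⟨k, hk, hk'⟩ := hM3 (S (br (z x) m)) (br (z x) m).length (z x m)
    rw [br_length] at hk
    refine ⟨k, ?_, hk⟩
    have h1 : forcesMem τ k (S (br (z x) (m + 1))).1 :=
      forcesMem_mono hk' (hD1 (M (S (br (z x) m)) (br (z x) m).length (z x m)) _)
    exact forcesMem_mono h1 (hSmono (z x) (m + 1) (k + 1) (by omega))
  have huc : ∀ n, ∃ N, ∀ x ∈ fuse R, ∀ y ∈ fuse R, agr N x y →
      br (z x) (n + 1) = br (z y) (n + 1) := by
    intro n
    obtain ⟨N, hN⟩ := hR.sep (n + 1)
    exact ⟨N, fun x hx y hy hxy => hN _ _ (br_length _ _) (br_length _ _) x (hz x hx _) y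
      (hz y hy _) hxy⟩
  refine ⟨fuse R, F, ⟨hR.CU_fuse, fun x _ => hinf x, fun n => ?_⟩, hR.fuse_sub_nil, fun n => ?_⟩
  · obtain ⟨N, hN⟩ := huc n
    refine ⟨N, fun x hx y hy hxy => ?_⟩
    change forcesMem τ n (S (br (z x) (n + 1))).1 = forcesMem τ n (S (br (z y) (n + 1))).1
    rw [hN x hx y hy hxy]
  · obtain ⟨N, hN⟩ := huc n
    refine ⟨N, fun x hx hn q hq hqx => ?_⟩
    have h1 : body q.1 ⊆ body (S (br (z x) (n + 1))).1.1 := by
      intro y hy
      have h2 := hz y (hq hy) (n + 1)
      rw [← hN x hx y (hq hy) (hqx y hy)] at h2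
      exact h2
    exact forcesMem_mono hn (le_of_body h1)

/-- from the combinatorial form to forcing -/
theorem sacksIndestructible_of_SInd {A : Set (Set ℕ)} (hA : SInd A) : SacksIndestructible A := by
  refine ⟨⟨hA.inf, hA.mem, hA.ad, ?_⟩, ?_⟩
  · intro X hX
    obtain ⟨a, ha, hh⟩ := hA.hit Set.univ (fun _ => X)
      ⟨CU_univ, fun _ _ => hX, fun n => UC_const _ _⟩
    refine ⟨a, ha, ?_⟩
    by_contra hc
    apply hh
    convert countable_empty
    ext x
    simp only [mem_ofPred_eq, mem_univ, true_and, mem_empty_iff_false, iff_false]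
    rw [inter_comm]
    exact hc
  · intro τ p q _ hq q' hq'
    obtain ⟨K, F, hN, hKq, hread⟩ := exists_reading (forcesInfinite_mono hq hq')
    obtain ⟨a, ha, hh⟩ := hA.hit K F hN
    have hh' : ¬ {x | x ∈ K ∧ (F x ∩ a).Infinite}.Countable := by
      intro hc
      refine hh (hc.mono ?_)
      rintro x ⟨hx, hx'⟩
      exact ⟨hx, by rwa [inter_comm]⟩
    obtain ⟨K', hK', cK'⟩ := exists_CU_of_measurable (meas_inf hN.cu.1 hN.uc a) hh'
    obtain ⟨r, hr⟩ := exists_tree cK'
    have hrK : body r.1 ⊆ K := hr.trans fun x hx => (hK' hx).1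
    refine ⟨r, le_of_body (hrK.trans hKq), a, ha, ?_⟩
    intro m q1 hq1
    obtain ⟨x, hx, -, hxc⟩ := exists_cond (CU_body q1.2).2 countable_empty
    have hxK := hK' (hr (body_mono hq1 hx))
    obtain ⟨n, hn, hmn⟩ := hxK.2.exists_gt m
    obtain ⟨N, hN'⟩ := hread n
    obtain ⟨r1, hr1⟩ := exists_tree ((CU_body q1.2).inter_agr hxc N)
    have h1 : body r1.1 ⊆ body q1.1 := hr1.trans inter_subset_left
    refine ⟨r1, le_of_body h1, n, ⟨hmn.le, hn.2⟩, ?_⟩
    exact hN' x hxK.1 hn.1 r1 (h1.trans ((body_mono hq1).trans hrK)) fun y hy => (hr1 hy).2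

end Link

end Run7.h474.SacksMAD
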