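import Pool.Agent.Run7.h474.Theta3

set_option autoImplicit false

namespace Run7.h474

open Set Cardinal

/-- the case when the bounding number is the continuum -/
theorem case_cont (hbc : bb = 𝔠) : ∃ A, SInd A := by
  classical
  obtain ⟨KK, FF, hKF, hall⟩ := names_enum
  have hK1 : ∀ α, ∃ K1 ⊆ KK α, CU K1 ∧ ((∀ n, ¬ Hit (KK α) (FF α) (Cn n)) →
      ∀ x ∈ K1, ∀ n, (FF α x ∩ Cn n).Finite) := by
    intro α
    by_cases h : ∀ n, ¬ Hit (KK α) (FF α) (Cn n)
    · obtain ⟨K1, h1, h2, h3⟩ := (hKF α).avoidC h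
      exact ⟨K1, h1, h2, fun _ => h3⟩
    · exact ⟨KK α, Subset.rfl, (hKF α).cu, fun h' => absurd h' h⟩
  choose K1 h1a h1b h1c using hK1
  let J : Type := {α : CI // ∀ n, ¬ Hit (KK α) (FF α) (Cn n)}
  let e : Unit → Set ℕ := fun _ => ∅
  let key : J → CI := fun j => j.1
  have hcount : ∀ j : J, #{j' // key j' < key j ∧
      Rl (fun j : J => K1 j.1) (fun (_ : J) (_ : Ca) (_ : Unit) => true)
        (fun _ : J => (∅ : Set Unit)) j' j} < 𝔠 := by
    intro j
    refine lt_of_le_of_lt ?_ (mk_Iio_lt_ord (c := 𝔠) j.1)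
    refine Cardinal.mk_le_of_injective (f := fun t => (⟨t.1.1, t.2.1⟩ : Iio j.1)) ?_
    intro t t' h
    have h' := congrArg Subtype.val h
    exact Subtype.ext (Subtype.ext h')
  obtain ⟨D, a, g1, g2, g3, g4⟩ := assembly e (fun j : J => K1 j.1) (fun j => FF j.1)
    (fun (_ : J) (_ : Ca) (_ : Unit) => true) (fun _ : J => (∅ : Set Unit)) Cn key
    (fun j => (hKF j.1).mono (h1a j.1) (h1b j.1))
    (fun j ξ hξ => absurd hξ (notMem_empty _))
    (fun j ξ hξ => absurd hξ (notMem_empty _))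
    (fun j n x hx => h1c j.1 j.2 x hx n)
    (fun j j' hne _ hk => hne (Subtype.ext hk))
    (fun j => Dmn_of_lt (mk_sum_lt (lt_of_lt_of_eq (hcount j) hbc.symm) (mk_sum_lt
      (by
        refine lt_of_le_of_lt ?_ aleph0_lt_bb
        exact Cardinal.mk_le_aleph0)
      (by rw [mk_nat]; exact aleph0_lt_bb))))
    hcount
  refine SInd_of_family g1 g2 g3 ?_
  intro K F hN
  obtain ⟨α, hα, hα'⟩ := hall K F hN
  subst hα
  by_cases h : ∀ n, ¬ Hit (KK α) (FF α) (Cn n)
  · obtain ⟨j', hj', hh⟩ := g4 ⟨α, h⟩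
    refine Or.inr ⟨j', hj', ?_⟩
    have h6 : Hit (KK α) (FF α) (a j') := Hit.mono (h1a α) (fun x _ => Subset.rfl) hh
    exact h6.congr hα'
  · push Not at h
    obtain ⟨n, hn⟩ := h
    exact Or.inl ⟨n, hn.congr hα'⟩

/-- the combinatorial form of the main theorem -/
theorem exists_SInd (h : ss ≤ bb) : ∃ A, SInd A := by
  classical
  rcases lt_or_eq_of_le bb_le with hbc | hbc
  · obtain ⟨e, he⟩ := exists_splitting
    have hI : #(ss.ord.ToType) < 𝔠 := by
      rw [Cardinal.mk_ord_toType]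
      exact lt_of_le_of_lt h hbc
    have hI' : #(ss.ord.ToType) ≤ bb := by
      rw [Cardinal.mk_ord_toType]
      exact h
    have hseg : ∀ ξ : ss.ord.ToType, #(Iio ξ) < bb := fun ξ =>
      lt_of_lt_of_le (mk_Iio_lt_ord ξ) h
    have hR : Rich BI := rich_BI hI hI' he
    by_cases hadd : ∀ c < bb, SAdd c
    · obtain ⟨W, hW⟩ := hR.goodSys hadd
      exact case_big hadd hbc hI hseg he hW
    · push Not at hadd
      obtain ⟨c0, hc0, hc0'⟩ := hadd
      have hne : {c : Cardinal.{0} | ¬ SAdd c}.Nonempty := ⟨c0, hc0'⟩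
      let θ : Cardinal.{0} := wellFounded_lt.min _ hne
      have hθ : ¬ SAdd θ := wellFounded_lt.min_mem _ hne
      have hmin : ∀ c < θ, SAdd c := by
        intro c hc
        by_contra hcc
        exact wellFounded_lt.not_lt_min {c : Cardinal.{0} | ¬ SAdd c} (x := c) hcc hc
      have hθb : θ < bb := by
        refine lt_of_le_of_lt (_root_.not_lt.1 fun hlt => ?_) hc0
        exact wellFounded_lt.not_lt_min {c : Cardinal.{0} | ¬ SAdd c} (x := c0) hc0' hlt
      obtain ⟨W, hW⟩ := (rich_theta hθ hmin hθb hR).goodSys hmin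
      refine case_small hI hseg he ?_ hW
      rw [Cardinal.mk_ord_toType]
      exact hθb
  · exact case_cont hbc

end Run7.h474
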