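import Pool.Agent.Run7.h474.Pseudo

set_option autoImplicit false

namespace Run7.h474

open Set Cardinal

/-- `e` is a splitting family -/
def Spl {I : Type} (e : I → Set ℕ) : Prop :=
  ∀ X : Set ℕ, X.Infinite → ∃ ξ, (X ∩ e ξ).Infinite ∧ (X \ e ξ).Infinite

section

variable {I : Type} [LinearOrder I] [WellFoundedLT I] {e : I → Set ℕ}

theorem finite_diff_of_inter {I : Type} {e : I → Set ℕ} {X : Set ℕ} {ξ : I} {b : Bool}
    (h : ¬ (X ∩ E e ξ (!b)).Infinite) : (X \ E e ξ b).Finite := by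
  rw [not_infinite] at h
  refine h.subset ?_
  rintro n ⟨hn, hn'⟩
  refine ⟨hn, ?_⟩
  rw [← compl_compl_E]
  exact hn'

theorem not_both {I : Type} {e : I → Set ℕ} {X Y : Set ℕ} {ξ : I} {b c : Bool} (hX : X.Infinite)
    (hXY : X ⊆ Y) (h1 : (X \ E e ξ b).Finite) (h2 : (Y \ E e ξ c).Finite) : b = c := by
  by_contra hne
  apply hX
  have : X ⊆ (X \ E e ξ b) ∪ (Y \ E e ξ c) := by
    intro n hn
    by_cases hb : n ∈ E e ξ b
    · refine Or.inr ⟨hXY hn, fun hc => ?_⟩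
      have : n ∈ E e ξ b ∩ E e ξ c := ⟨hb, hc⟩
      rw [E_disjoint e ξ hne] at this
      exact this
    · exact Or.inl ⟨hn, hb⟩
  exact (h1.union h2).subset this

/-- one step of the splitting tree of a name -/
theorem split_step (hI : #I < 𝔠) (hspl : Spl e) {K : Set Ca} {F : Ca → Set ℕ} (hN : Nm K F)
    (m : ℕ) : ∃ (ξ : I) (τ : I → Bool) (K' : Bool → Set Ca) (F' : Bool → Ca → Set ℕ),
      Disjoint (K' true) (K' false) ∧ ∀ b, K' b ⊆ K ∧ Nm (K' b) (F' b) ∧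
        (∀ x ∈ K' b, F' b x ⊆ F x) ∧ (∀ x ∈ K' b, (F' b x \ E e ξ b).Finite) ∧
        (∀ ξ' < ξ, ∀ x ∈ K' b, (F' b x \ E e ξ' (τ ξ')).Finite) ∧
        (∀ x ∈ K' b, ∀ y ∈ K' b, agr m x y) := by
  classical
  let S : Set I := {ξ | ∀ b, ∃ K1 F1, K1 ⊆ K ∧ Nm K1 F1 ∧ (∀ x ∈ K1, F1 x ⊆ F x) ∧
    ∀ x ∈ K1, (F1 x \ E e ξ b).Finite}
  have hSne : S.Nonempty := by
    obtain ⟨ξ, hξ⟩ := hN.cu.exists_uncountable hI
      (fun ξ => {x | (F x ∩ E e ξ true).Infinite ∧ (F x ∩ E e ξ false).Infinite}) (by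
        intro x hx
        obtain ⟨ξ, h1, h2⟩ := hspl (F x) (hN.inf x hx)
        refine ⟨ξ, ?_, ?_⟩
        · rw [E_true]; exact h1
        · rw [E_false]; exact h2)
    refine ⟨ξ, fun b => ?_⟩
    have hb : ¬ {x | x ∈ K ∧ (F x ∩ E e ξ b).Infinite}.Countable := by
      intro hc
      refine hξ (hc.mono ?_)
      rintro x ⟨hx, h1, h2⟩
      cases b
      · exact ⟨hx, h2⟩
      · exact ⟨hx, h1⟩
    obtain ⟨K1, h1, h2⟩ := hN.sub_inter hb
    refine ⟨K1, _, h1, h2, fun x _ => inter_subset_left, fun x _ => ?_⟩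
    convert Set.finite_empty
    ext n
    simp only [mem_diff, mem_inter_iff, mem_empty_iff_false, iff_false, not_and, not_not]
    exact fun h => h.2
  let ξ : I := wellFounded_lt.min S hSne
  have hξS : ξ ∈ S := wellFounded_lt.min_mem S hSne
  have hmin : ∀ ξ' < ξ, ξ' ∉ S := fun ξ' h hc => wellFounded_lt.not_lt_min S hc h
  have hτ : ∀ ξ' : I, ∃ b, ξ' < ξ → ¬ ∃ K1 F1, K1 ⊆ K ∧ Nm K1 F1 ∧ (∀ x ∈ K1, F1 x ⊆ F x) ∧
    ∀ x ∈ K1, (F1 x \ E e ξ' (!b)).Finite := by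
    intro ξ'
    by_cases h : ξ' < ξ
    · have := hmin ξ' h
      simp only [S, mem_ofPred_eq, not_forall] at this
      obtain ⟨b, hb⟩ := this
      exact ⟨!b, fun _ => by simpa using hb⟩
    · exact ⟨true, fun hc => absurd hc h⟩
  choose τ hτ using hτ
  have hcount : ∀ ξ' < ξ, {x | x ∈ K ∧ (F x ∩ E e ξ' (!(τ ξ'))).Infinite}.Countable := by
    intro ξ' h
    by_contra hc
    obtain ⟨K1, h1, h2⟩ := hN.sub_inter hc
    refine hτ ξ' h ⟨K1, _, h1, h2, fun x _ => inter_subset_left, fun x _ => ?_⟩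
    convert Set.finite_empty
    ext n
    simp only [mem_diff, mem_inter_iff, mem_empty_iff_false, iff_false, not_and, not_not]
    exact fun h => h.2
  -- good subnames on both sides
  have hside : ∀ b, ∃ K1 F1, K1 ⊆ K ∧ Nm K1 F1 ∧ (∀ x ∈ K1, F1 x ⊆ F x) ∧
      (∀ x ∈ K1, (F1 x \ E e ξ b).Finite) ∧
      ∀ ξ' < ξ, ∀ x ∈ K1, (F1 x \ E e ξ' (τ ξ')).Finite := by
    intro b
    obtain ⟨K1, F1, h1, h2, h3, h4⟩ := hξS b
    obtain ⟨K2, h5, h6, h7⟩ := h2.cu.avoid' hI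
      (fun ξ' : I => {x | ξ' < ξ ∧ (F x ∩ E e ξ' (!(τ ξ'))).Infinite}) (by
        intro ξ'
        by_cases h : ξ' < ξ
        · refine (hcount ξ' h).mono ?_
          rintro x ⟨hx, -, hx'⟩
          exact ⟨h1 hx, hx'⟩
        · convert countable_empty
          ext x
          simp only [mem_inter_iff, mem_ofPred_eq, mem_empty_iff_false, iff_false]
          rintro ⟨-, h8, -⟩
          exact h h8)
    refine ⟨K2, F1, h5.trans h1, h2.mono h5 h6, fun x hx => h3 x (h5 hx),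
      fun x hx => h4 x (h5 hx), fun ξ' h x hx => ?_⟩
    have h8 : ¬ (F x ∩ E e ξ' (!(τ ξ'))).Infinite := fun hc =>
      Set.disjoint_left.1 (h7 ξ') hx ⟨h, hc⟩
    refine (finite_diff_of_inter h8).subset ?_
    exact sdiff_subset_sdiff_left (h3 x (h5 hx))
  obtain ⟨KT, FT, t1, t2, t3, t4, t5⟩ := hside true
  obtain ⟨KF, FF, f1, f2, f3, f4, f5⟩ := hside false
  obtain ⟨A, hA, B, hB, cA, cB, hAB, dA, dB⟩ := disj_shrink t2.cu f2.cu m
  refine ⟨ξ, τ, fun b => if b then A else B, fun b => if b then FT else FF, ?_, ?_⟩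
  · simpa using hAB
  · intro b
    cases b
    · exact ⟨hB.trans f1, f2.mono hB cB, fun x hx => f3 x (hB hx), fun x hx => f4 x (hB hx),
        fun ξ' h x hx => f5 ξ' h x (hB hx), dB⟩
    · exact ⟨hA.trans t1, t2.mono hA cA, fun x hx => t3 x (hA hx), fun x hx => t4 x (hA hx),
        fun ξ' h x hx => t5 ξ' h x (hA hx), dA⟩

/-- base positions: `y` restricted to coordinates below `ε` is injective on `K`, while all proper
restrictions are locally constant -/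
structure Base (K : Set Ca) (ε : I) (y : Ca → I → Bool) : Prop where
  cu : CU K
  inj : ∀ x ∈ K, ∀ x' ∈ K, x ≠ x' → ∃ ξ < ε, y x ξ ≠ y x' ξ
  uc : ∀ ε' < ε, ∃ N, ∀ x ∈ K, ∀ x' ∈ K, agr N x x' → ∀ ξ ≤ ε', y x ξ = y x' ξ

theorem UC_finite {ι : Type*} [Finite ι] {X : Type*} (f : ι → Ca → X) (Q : ι → Set Ca)
    (h : ∀ i, UC (f i) (Q i)) : ∃ N, ∀ i, ∀ x ∈ Q i, ∀ y ∈ Q i, agr N x y → f i x = f i y := by
  choose N hN using h
  haveI := Fintype.ofFinite ι
  refine ⟨Finset.univ.sup N, fun i x hx y hy hxy => hN i x hx y hy (hxy.mono ?_)⟩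
  exact Finset.le_sup (f := N) (Finset.mem_univ i)

/-- the normal form of a name -/
theorem normal_form (hI : #I < 𝔠) (hspl : Spl e) {K : Set Ca} {F : Ca → Set ℕ} (hN : Nm K F) :
    ∃ (K' : Set Ca) (F' : Ca → Set ℕ) (ε : I) (y : Ca → I → Bool), K' ⊆ K ∧ Nm K' F' ∧
      (∀ x ∈ K', F' x ⊆ F x) ∧ Base K' ε y ∧
      ∀ x ∈ K', ∀ ξ < ε, (F' x \ E e ξ (y x ξ)).Finite := by
  classical
  have step : ∀ (p : {p : Set Ca × (Ca → Set ℕ) // Nm p.1 p.2}) (m : ℕ),
      ∃ (ξ : I) (τ : I → Bool) (M : Bool → {p : Set Ca × (Ca → Set ℕ) // Nm p.1 p.2}),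
        Disjoint (M true).1.1 (M false).1.1 ∧ ∀ b, (M b).1.1 ⊆ p.1.1 ∧
          (∀ x ∈ (M b).1.1, (M b).1.2 x ⊆ p.1.2 x) ∧
          (∀ x ∈ (M b).1.1, ((M b).1.2 x \ E e ξ b).Finite) ∧
          (∀ ξ' < ξ, ∀ x ∈ (M b).1.1, ((M b).1.2 x \ E e ξ' (τ ξ')).Finite) ∧
          (∀ x ∈ (M b).1.1, ∀ y ∈ (M b).1.1, agr m x y) := by
    intro p m
    obtain ⟨ξ, τ, K', F', h1, h2⟩ := split_step hI hspl p.2 m
    exact ⟨ξ, τ, fun b => ⟨(K' b, F' b), (h2 b).2.1⟩, h1, fun b =>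
      ⟨(h2 b).1, (h2 b).2.2⟩⟩
  choose X τ M hM1 hM2 using step
  let S : List Bool → {p : Set Ca × (Ca → Set ℕ) // Nm p.1 p.2} :=
    iter ⟨(K, F), hN⟩ (fun p s b => M p s.length b)
  let P : List Bool → Set Ca := fun s => (S s).1.1
  let G : List Bool → Ca → Set ℕ := fun s => (S s).1.2
  let Xs : List Bool → I := fun s => X (S s) s.length
  let Ts : List Bool → I → Bool := fun s => τ (S s) s.length
  have hPN : ∀ s, Nm (P s) (G s) := fun s => (S s).2
  have hG : ∀ s b, ∀ x ∈ P (b :: s), G (b :: s) x ⊆ G s x := fun s b => (hM2 (S s) s.length b).2.1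
  have hGb : ∀ s b, ∀ x ∈ P (b :: s), (G (b :: s) x \ E e (Xs s) b).Finite :=
    fun s b => (hM2 (S s) s.length b).2.2.1
  have hGt : ∀ s b, ∀ ξ' < Xs s, ∀ x ∈ P (b :: s), (G (b :: s) x \ E e ξ' (Ts s ξ')).Finite :=
    fun s b => (hM2 (S s) s.length b).2.2.2.1
  have hdiam : ∀ s b, ∀ x ∈ P (b :: s), ∀ y ∈ P (b :: s), agr s.length x y :=
    fun s b => (hM2 (S s) s.length b).2.2.2.2
  have hS : Scheme P := ⟨fun s => (hPN s).cu.1, fun s => (hPN s).cu.nonempty,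
    fun s b => (hM2 (S s) s.length b).1, fun s => hM1 _ _⟩
  have hX : ∀ s b, Xs s < Xs (b :: s) := by
    intro s b
    by_contra hc
    rw [not_lt] at hc
    rcases lt_or_eq_of_le hc with h | h
    · obtain ⟨x, hx⟩ := (hPN ((!(Ts s (Xs (b :: s)))) :: b :: s)).cu.nonempty
      have := not_both ((hPN _).inf x hx) (hG (b :: s) _ x hx) (hGb (b :: s) _ x hx)
        (hGt s b _ h x (hS.sub _ _ hx))
      simp at this
    · obtain ⟨x, hx⟩ := (hPN ((!b) :: b :: s)).cu.nonempty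
      have h2 := hGb (b :: s) _ x hx
      rw [h] at h2
      have := not_both ((hPN _).inf x hx) (hG (b :: s) _ x hx) h2 (hGb s b x (hS.sub _ _ hx))
      simp at this
  have hTc : ∀ s b, ∀ ξ' < Xs s, Ts (b :: s) ξ' = Ts s ξ' := by
    intro s b ξ' h
    obtain ⟨x, hx⟩ := (hPN (true :: b :: s)).cu.nonempty
    exact not_both ((hPN _).inf x hx) (hG (b :: s) _ x hx)
      (hGt (b :: s) _ ξ' (h.trans (hX s b)) x hx) (hGt s b ξ' h x (hS.sub _ _ hx))
  have hTb : ∀ s b, Ts (b :: s) (Xs s) = b := by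
    intro s b
    obtain ⟨x, hx⟩ := (hPN (true :: b :: s)).cu.nonempty
    exact not_both ((hPN _).inf x hx) (hG (b :: s) _ x hx)
      (hGt (b :: s) _ (Xs s) (hX s b) x hx) (hGb s b x (hS.sub _ _ hx))
  have hzex : ∀ x, ∃ z : Ca, x ∈ fuse P → ∀ n, x ∈ P (br z n) := by
    intro x
    by_cases hx : x ∈ fuse P
    · obtain ⟨z, hz⟩ := hS.branch hx
      exact ⟨z, fun _ => hz⟩
    · exact ⟨x, fun h => absurd h hx⟩
  choose z hz using hzex
  have hXmono : ∀ w : Ca, StrictMono fun n => Xs (br w n) :=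
    fun w => strictMono_nat_of_lt_succ fun n => hX _ _
  have hTm : ∀ (w : Ca) (n m : ℕ), n ≤ m → ∀ ξ < Xs (br w n), Ts (br w m) ξ = Ts (br w n) ξ := by
    intro w n m hnm ξ hξ
    induction hnm with
    | refl => rfl
    | @step m hm ih =>
      rw [← ih]
      exact hTc (br w m) (w m) ξ (lt_of_lt_of_le hξ ((hXmono w).monotone hm))
  let y : Ca → I → Bool := fun x ξ =>
    if h : ∃ n, ξ < Xs (br (z x) n) then Ts (br (z x) (Nat.find h)) ξ else true
  have hy : ∀ x n ξ, ξ < Xs (br (z x) n) → y x ξ = Ts (br (z x) n) ξ := by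
    intro x n ξ hξ
    have h : ∃ n, ξ < Xs (br (z x) n) := ⟨n, hξ⟩
    simp only [y, dif_pos h]
    exact (hTm (z x) (Nat.find h) n (Nat.find_min' h hξ) ξ (Nat.find_spec h)).symm
  let F' : Ca → Set ℕ := fun x => psi (fun n => G (br (z x) n) x)
  have hanti : ∀ x ∈ fuse P, ∀ n, G (br (z x) (n + 1)) x ⊆ G (br (z x) n) x :=
    fun x hx n => hG _ _ x (hz x hx (n + 1))
  have hF0 : ∀ x ∈ fuse P, F' x ⊆ F x := fun x hx => psi_sub (hanti x hx)
  have hFinf : ∀ x ∈ fuse P, (F' x).Infinite := fun x hx =>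
    psi_infinite fun i => (hPN _).inf x (hz x hx i)
  have hFdec : ∀ x ∈ fuse P, ∀ n, ∀ ξ < Xs (br (z x) n), (F' x \ E e ξ (y x ξ)).Finite := by
    intro x hx n ξ hξ
    rw [hy x n ξ hξ]
    have h1 := psi_diff (G := fun n => G (br (z x) n) x) (hanti x hx) (n + 1)
    have h2 := hGt (br (z x) n) (z x n) ξ hξ x (hz x hx (n + 1))
    refine (h1.union h2).subset ?_
    rintro k ⟨hk, hk'⟩
    by_cases hk2 : k ∈ G (br (z x) (n + 1)) x
    · exact Or.inr ⟨hk2, hk'⟩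
    · exact Or.inl ⟨hk, hk2⟩
  have hFuc : ∀ k, UC (fun x => k ∈ F' x) (fuse P) := by
    intro k
    have : Finite {s : List Bool // s.length ≤ k} := List.finite_length_le Bool k
    obtain ⟨N1, hN1⟩ := UC_finite (ι := {s : List Bool // s.length ≤ k} × Fin (k + 1))
      (fun p x => (p.2 : ℕ) ∈ G p.1.1 x) (fun p => P p.1.1) (fun p => (hPN p.1.1).uc _)
    obtain ⟨N2, hN2⟩ := hS.sep k
    refine ⟨max N1 N2, fun x hx x' hx' hxx => ?_⟩
    have h1 := hN2 _ _ (br_length _ _) (br_length _ _) x (hz x hx k) x' (hz x' hx' k)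
      (hxx.mono (le_max_right _ _))
    have h2 := agr_of_br_eq h1
    refine propext (psi_congr fun i hi m hm => ?_)
    have h3 : br (z x) i = br (z x') i := br_eq_of_agr (h2.mono hi)
    have h4 := hN1 (⟨br (z x) i, by simpa using hi⟩, ⟨m, Nat.lt_succ_of_le hm⟩) x (hz x hx i) x'
      (by simp only [h3]; exact hz x' hx' i) (hxx.mono (le_max_left _ _))
    simp only [eq_iff_iff] at h4
    rw [← h3]
    exact h4
  -- choose the level
  let A : I → Set Ca := fun ξ => ⋂ n : ℕ, ⋃ s : {s : List Bool // s.length = n ∧ Xs s < ξ}, P s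
  have hAcl : ∀ ξ, IsClosed (A ξ) := by
    intro ξ
    refine isClosed_iInter fun n => ?_
    have : Finite {s : List Bool // s.length = n ∧ Xs s < ξ} :=
      (List.finite_length_eq Bool n).subset (fun s hs => hs.1)
    exact isClosed_iUnion_of_finite fun s => hS.closed s
  have hA : ∀ ξ x, x ∈ A ξ ↔ x ∈ fuse P ∧ ∀ n, Xs (br (z x) n) < ξ := by
    intro ξ x
    constructor
    · intro h
      have hmem : x ∈ fuse P := by
        refine mem_iInter.2 fun n => ?_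
        obtain ⟨s, hs⟩ := mem_iUnion.1 (mem_iInter.1 h n)
        exact mem_iUnion.2 ⟨⟨s.1, s.2.1⟩, hs⟩
      refine ⟨hmem, fun n => ?_⟩
      obtain ⟨s, hs⟩ := mem_iUnion.1 (mem_iInter.1 h n)
      have : s.1 = br (z x) n := hS.unique (by rw [s.2.1, br_length]) hs (hz x hmem n)
      rw [← this]
      exact s.2.2
    · rintro ⟨h1, h2⟩
      refine mem_iInter.2 fun n => mem_iUnion.2 ⟨⟨br (z x) n, br_length _ _, h2 n⟩, hz x h1 n⟩
  obtain ⟨ξ0, hξ0⟩ := hS.CU_fuse.exists_uncountable hI A (by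
    intro x hx
    obtain ⟨ξ, h1, h2⟩ := hspl (F' x) (hFinf x hx)
    have h3 : ∀ n, Xs (br (z x) n) ≤ ξ := by
      intro n
      by_contra hc
      rw [not_le] at hc
      have h4 := hFdec x hx n ξ hc
      rcases Bool.eq_false_or_eq_true (y x ξ) with h5 | h5
      · rw [h5, E_true] at h4
        exact h2 h4
      · rw [h5, E_false, Set.sdiff_compl] at h4
        exact h1 h4
    exact ⟨ξ, (hA ξ x).2 ⟨hx, fun n => lt_of_lt_of_le (hXmono (z x) (Nat.lt_succ_self n))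
      (h3 (n + 1))⟩⟩)
  have hne : {ξ | ¬ (A ξ).Countable}.Nonempty :=
    ⟨ξ0, fun hc => hξ0 (hc.mono inter_subset_right)⟩
  let ε : I := wellFounded_lt.min _ hne
  have hε1 : ¬ (A ε).Countable := wellFounded_lt.min_mem _ hne
  have hε2 : ∀ ξ < ε, (A ξ).Countable := by
    intro ξ hξ
    by_contra hc
    exact wellFounded_lt.not_lt_min _ hc hξ
  have cA : CU (A ε) := ⟨hAcl ε, hε1⟩
  obtain ⟨Q, hQA, cQ, hQ⟩ := cA.avoid hI
    (fun ξ => if ξ < ε then A ξ else ∅) (by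
      intro ξ
      split_ifs with h
      · exact hε2 ξ h
      · exact countable_empty)
  have hQf : Q ⊆ fuse P := fun x hx => ((hA ε x).1 (hQA hx)).1
  have hQlt : ∀ x ∈ Q, ∀ n, Xs (br (z x) n) < ε := fun x hx => ((hA ε x).1 (hQA hx)).2
  have hQge : ∀ x ∈ Q, ∀ ξ < ε, ∃ n, ξ < Xs (br (z x) n) := by
    intro x hx ξ hξ
    by_contra hc
    push Not at hc
    have h1 := hQ ξ
    rw [if_pos hξ] at h1
    refine Set.disjoint_left.1 h1 hx ((hA ξ x).2 ⟨hQf hx, fun n => ?_⟩)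
    exact lt_of_lt_of_le (hXmono (z x) (Nat.lt_succ_self n)) (hc (n + 1))
  refine ⟨Q, F', ε, y, ?_, ⟨cQ, fun x hx => hFinf x (hQf hx), fun n => (hFuc n).mono hQf⟩,
    fun x hx => hF0 x (hQf hx), ⟨cQ, ?_, ?_⟩, ?_⟩
  · exact hQf.trans hS.fuse_sub_nil
  · intro x hx x' hx' hne
    have hzz : z x ≠ z x' := by
      intro hzz
      apply hne
      refine eq_of_agr fun m => ?_
      have h1 := hz x (hQf hx) (m + 1)
      have h2 := hz x' (hQf hx') (m + 1)
      rw [← hzz] at h2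
      have := hdiam (br (z x) m) (z x m) x h1 x' h2
      rwa [br_length] at this
    obtain ⟨m, hm1, hm2⟩ := exists_diff hzz
    refine ⟨Xs (br (z x) m), hQlt x hx m, ?_⟩
    have hb : br (z x) m = br (z x') m := br_eq_of_agr hm1
    rw [hy x (m + 1) _ (hX _ _), hy x' (m + 1) (Xs (br (z x) m)) (by rw [hb]; exact hX _ _)]
    change Ts (z x m :: br (z x) m) (Xs (br (z x) m)) ≠
      Ts (z x' m :: br (z x') m) (Xs (br (z x) m))
    rw [hTb, hb, hTb]
    exact hm2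
  · intro ε' hε'
    have hex : ∃ n, ∀ x ∈ Q, ε' < Xs (br (z x) n) := by
      by_contra hc
      push Not at hc
      have hcl : ∀ n, IsClosed (Q ∩ ⋃ s : {s : List Bool // s.length = n ∧ Xs s ≤ ε'}, P s) := by
        intro n
        have : Finite {s : List Bool // s.length = n ∧ Xs s ≤ ε'} :=
          (List.finite_length_eq Bool n).subset (fun s hs => hs.1)
        exact cQ.1.inter (isClosed_iUnion_of_finite fun s => hS.closed s)
      obtain ⟨x, hx⟩ := IsCompact.nonempty_iInter_of_sequence_nonempty_isCompact_isClosed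
        (fun n => Q ∩ ⋃ s : {s : List Bool // s.length = n ∧ Xs s ≤ ε'}, P s)
        (by
          rintro n x ⟨hx, hx'⟩
          refine ⟨hx, ?_⟩
          obtain ⟨⟨s, hs1, hs2⟩, hs3⟩ := mem_iUnion.1 hx'
          rcases s with _ | ⟨b, s⟩
          · simp at hs1
          · exact mem_iUnion.2 ⟨⟨s, by simpa using hs1, ((hX s b).trans_le hs2).le⟩,
              hS.sub _ _ hs3⟩)
        (by
          intro n
          obtain ⟨x, hx, hx'⟩ := hc n
          exact ⟨x, hx, mem_iUnion.2 ⟨⟨br (z x) n, br_length _ _, hx'⟩, hz x (hQf hx) n⟩⟩)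
        ((hcl 0).isCompact) hcl
      rw [mem_iInter] at hx
      obtain ⟨n, hn⟩ := hQge x (hx 0).1 ε' hε'
      obtain ⟨⟨s, hs1, hs2⟩, hs3⟩ := mem_iUnion.1 (hx n).2
      have : s = br (z x) n := hS.unique (by rw [hs1, br_length]) hs3 (hz x (hQf (hx 0).1) n)
      rw [this] at hs2
      exact absurd hn (not_lt.2 hs2)
    obtain ⟨n, hn⟩ := hex
    obtain ⟨N, hNN⟩ := hS.sep n
    refine ⟨N, fun x hx x' hx' hxx ξ hξ => ?_⟩
    have h1 := hNN _ _ (br_length _ _) (br_length _ _) x (hz x (hQf hx) n) x' (hz x' (hQf hx') n)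
      hxx
    rw [hy x n ξ (lt_of_le_of_lt hξ (hn x hx)), hy x' n ξ (lt_of_le_of_lt hξ (hn x' hx')), h1]
  · intro x hx ξ hξ
    obtain ⟨n, hn⟩ := hQge x hx ξ hξ
    exact hFdec x (hQf hx) n ξ hn

end

end Run7.h474
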