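import Pool.Agent.Run7.h474.Assembly

set_option autoImplicit false

namespace Run7.h474

open Set Cardinal

section Pi

open Classical in
/-- the number of elements chosen below `m` -/
noncomputable def cnt (G : ℕ → Set ℕ) : ℕ → ℕ
  | 0 => 0
  | m + 1 => if m ∈ G (cnt G m) then cnt G m + 1 else cnt G m

/-- greedy pseudointersection -/
def psi (G : ℕ → Set ℕ) : Set ℕ := {m | m ∈ G (cnt G m)}

theorem cnt_le (G : ℕ → Set ℕ) (m : ℕ) : cnt G m ≤ m := by
  induction m with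
  | zero => simp [cnt]
  | succ m ih =>
    simp only [cnt]
    split_ifs <;> omega

theorem cnt_mono_succ (G : ℕ → Set ℕ) (m : ℕ) : cnt G m ≤ cnt G (m + 1) := by
  simp only [cnt]
  split_ifs <;> omega

theorem cnt_mono (G : ℕ → Set ℕ) : Monotone (cnt G) := monotone_nat_of_le_succ (cnt_mono_succ G)

theorem cnt_lt_of_mem {G : ℕ → Set ℕ} {m : ℕ} (h : m ∈ psi G) : cnt G (m + 1) = cnt G m + 1 := by
  have h' : m ∈ G (cnt G m) := h
  simp only [cnt]
  rw [if_pos h']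

theorem cnt_injOn (G : ℕ → Set ℕ) : InjOn (cnt G) (psi G) := by
  intro m hm n hn hmn
  rcases lt_trichotomy m n with h | h | h
  · have : cnt G (m + 1) ≤ cnt G n := cnt_mono G h
    have h2 := cnt_lt_of_mem hm
    omega
  · exact h
  · have : cnt G (n + 1) ≤ cnt G m := cnt_mono G h
    have h2 := cnt_lt_of_mem hn
    omega

theorem cnt_congr {G G' : ℕ → Set ℕ} {k : ℕ} (h : ∀ i ≤ k, ∀ m ≤ k, (m ∈ G i ↔ m ∈ G' i)) :
    ∀ m ≤ k, cnt G m = cnt G' m := by
  intro m hm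
  induction m with
  | zero => simp [cnt]
  | succ m ih =>
    have h1 := ih (by omega)
    simp only [cnt]
    rw [← h1]
    have h2 := h (cnt G m) (le_trans (cnt_le G m) (by omega)) m (by omega)
    by_cases h3 : m ∈ G (cnt G m)
    · rw [if_pos h3, if_pos (h2.1 h3)]
    · rw [if_neg h3, if_neg (fun hc => h3 (h2.2 hc))]

theorem psi_congr {G G' : ℕ → Set ℕ} {k : ℕ} (h : ∀ i ≤ k, ∀ m ≤ k, (m ∈ G i ↔ m ∈ G' i)) :
    k ∈ psi G ↔ k ∈ psi G' := by
  change k ∈ G (cnt G k) ↔ k ∈ G' (cnt G' k)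
  rw [← cnt_congr h k le_rfl]
  exact h _ (cnt_le G k) k le_rfl

theorem psi_infinite {G : ℕ → Set ℕ} (h : ∀ i, (G i).Infinite) : (psi G).Infinite := by
  intro hfin
  obtain ⟨M, hM⟩ := hfin.bddAbove
  have hconst : ∀ m, M + 1 ≤ m → cnt G m = cnt G (M + 1) := by
    intro m hm
    induction m with
    | zero => omega
    | succ m ih =>
      rcases Nat.lt_or_ge M m with h1 | h1
      · have h2 : m ∉ psi G := fun hc => by have := hM hc; omega
        have h3 : m ∉ G (cnt G m) := h2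
        simp only [cnt]
        rw [if_neg h3]
        exact ih (by omega)
      · have : m = M := by omega
        rw [this]
  obtain ⟨m, hm, hm'⟩ := (h (cnt G (M + 1))).exists_gt (M + 1)
  have h2 : m ∈ psi G := by
    change m ∈ G (cnt G m)
    rw [hconst m (by omega)]
    exact hm
  have := hM h2
  omega

theorem psi_diff {G : ℕ → Set ℕ} (h : ∀ i, G (i + 1) ⊆ G i) (i : ℕ) : (psi G \ G i).Finite := by
  have hanti : Antitone G := antitone_nat_of_succ_le h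
  refine Set.Finite.of_injOn (f := cnt G) (t := Set.Iio i) ?_ ?_ (Set.finite_Iio i)
  · rintro m ⟨hm, hm'⟩
    by_contra hc
    have hc' : i ≤ cnt G m := not_lt.1 hc
    exact hm' (hanti hc' hm)
  · exact (cnt_injOn G).mono sdiff_subset

theorem psi_sub {G : ℕ → Set ℕ} (h : ∀ i, G (i + 1) ⊆ G i) : psi G ⊆ G 0 := by
  have hanti : Antitone G := antitone_nat_of_succ_le h
  intro m hm
  exact hanti (Nat.zero_le _) hm

end Pi

theorem UC.isClosed {P : Ca → Prop} {K : Set Ca} (h : UC P K) (hK : IsClosed K) :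
    IsClosed {x | x ∈ K ∧ P x} := by
  obtain ⟨N, hN⟩ := h
  rw [← isOpen_compl_iff, isOpen_iff_forall_mem_open]
  intro x hx
  by_cases hxK : x ∈ K
  · refine ⟨{y | agr N x y}, ?_, isOpen_agr N x, agr.refl N x⟩
    rintro y hy ⟨hyK, hyP⟩
    apply hx
    refine ⟨hxK, ?_⟩
    rw [hN x hxK y hyK hy]
    exact hyP
  · refine ⟨Kᶜ, ?_, hK.isOpen_compl, hxK⟩
    rintro y hy ⟨hyK, -⟩
    exact hy hyK

theorem meas_inf {K : Set Ca} {F : Ca → Set ℕ} (hK : IsClosed K)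
    (hF : ∀ n, UC (fun x => n ∈ F x) K) (A : Set ℕ) :
    MeasurableSet {x | x ∈ K ∧ (F x ∩ A).Infinite} := by
  have : {x | x ∈ K ∧ (F x ∩ A).Infinite} =
      ⋂ m : ℕ, ⋃ n : ℕ, {x | (x ∈ K ∧ n ∈ F x) ∧ (n ∈ A ∧ m < n)} := by
    ext x
    simp only [mem_ofPred_eq, mem_iInter, mem_iUnion]
    constructor
    · rintro ⟨h1, h2⟩ m
      obtain ⟨n, hn, hmn⟩ := h2.exists_gt m
      exact ⟨n, ⟨h1, hn.1⟩, hn.2, hmn⟩
    · intro h
      refine ⟨?_, Set.infinite_of_forall_exists_gt fun m => ?_⟩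
      · obtain ⟨n, hn⟩ := h 0
        exact hn.1.1
      · obtain ⟨n, hn⟩ := h m
        exact ⟨n, ⟨hn.1.2, hn.2.1⟩, hn.2.2⟩
  rw [this]
  refine MeasurableSet.iInter fun m => MeasurableSet.iUnion fun n => ?_
  exact ((hF n).isClosed hK).measurableSet.inter (MeasurableSet.const _)

theorem UC.inter_E {K : Set Ca} {F : Ca → Set ℕ} (hF : ∀ n, UC (fun x => n ∈ F x) K)
    (A : Set ℕ) (n : ℕ) : UC (fun x => n ∈ F x ∩ A) K := (hF n).comp (fun p => p ∧ n ∈ A)

theorem Nm.sub_inter {K : Set Ca} {F : Ca → Set ℕ} (h : Nm K F) {A : Set ℕ}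
    (hA : ¬ {x | x ∈ K ∧ (F x ∩ A).Infinite}.Countable) :
    ∃ K' ⊆ K, Nm K' (fun x => F x ∩ A) := by
  obtain ⟨K', h1, h2⟩ := exists_CU_of_measurable (meas_inf h.cu.1 h.uc A) hA
  exact ⟨K', fun x hx => (h1 hx).1, h2, fun x hx => (h1 hx).2,
    fun n => (UC.inter_E h.uc A n).mono fun x hx => (h1 hx).1⟩

theorem disj_shrink {A B : Set Ca} (hA : CU A) (hB : CU B) (m : ℕ) :
    ∃ A' ⊆ A, ∃ B' ⊆ B, CU A' ∧ CU B' ∧ Disjoint A' B' ∧ (∀ x ∈ A', ∀ y ∈ A', agr m x y) ∧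
      ∀ x ∈ B', ∀ y ∈ B', agr m x y := by
  obtain ⟨x, hx, -, hcx⟩ := exists_cond hA.2 countable_empty
  obtain ⟨y, hy, hxy, hcy⟩ := exists_cond hB.2 (countable_singleton x)
  obtain ⟨j, -, h2⟩ := exists_diff (fun e => hxy e.symm)
  refine ⟨_, inter_subset_left, _, inter_subset_left, hA.inter_agr hcx (max m (j + 1)),
    hB.inter_agr hcy (max m (j + 1)), ?_, ?_, ?_⟩
  · rw [Set.disjoint_left]
    rintro z ⟨-, hz⟩ ⟨-, hz'⟩
    have e1 := hz j (lt_of_lt_of_le (Nat.lt_succ_self j) (le_max_right _ _))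
    have e2 := hz' j (lt_of_lt_of_le (Nat.lt_succ_self j) (le_max_right _ _))
    exact h2 (e1.trans e2.symm)
  · rintro u ⟨-, hu⟩ v ⟨-, hv⟩
    exact (agr.mono hu (le_max_left _ _)).symm.trans (agr.mono hv (le_max_left _ _))
  · rintro u ⟨-, hu⟩ v ⟨-, hv⟩
    exact (agr.mono hu (le_max_left _ _)).symm.trans (agr.mono hv (le_max_left _ _))

end Run7.h474
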