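import Pool.Agent.Run7.h474.System

set_option autoImplicit false

namespace Run7.h474

open Set Cardinal

/-- splitting levels -/
def Lv (Q : Set Ca) : Set ℕ := {l | ∃ x ∈ Q, ∃ y ∈ Q, agr l x y ∧ x l ≠ y l}

theorem Lv_mono {Q Q' : Set Ca} (h : Q' ⊆ Q) : Lv Q' ⊆ Lv Q := by
  rintro l ⟨x, hx, y, hy, h1⟩
  exact ⟨x, h hx, y, h hy, h1⟩

theorem CU.exists_Lv {Q : Set Ca} (h : CU Q) (m : ℕ) : ∃ l ∈ Lv Q, m ≤ l := by
  obtain ⟨K', h1, h2, h3⟩ := h.small m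
  obtain ⟨A, B, hA, hB, cA, cB, hd⟩ := h2.split
  obtain ⟨x, hx⟩ := cA.nonempty
  obtain ⟨y, hy⟩ := cB.nonempty
  have hne : x ≠ y := fun e => Set.disjoint_left.1 hd hx (e ▸ hy)
  obtain ⟨l, hl, hl'⟩ := exists_diff hne
  refine ⟨l, ⟨x, h1 (hA hx), y, h1 (hB hy), hl, hl'⟩, ?_⟩
  by_contra hc
  exact hl' (h3 x (hA hx) y (hB hy) l (not_le.1 hc))

/-- interval partitions -/
def prt (g : ℕ → ℕ) : ℕ → ℕ
  | 0 => 0
  | n + 1 => max (g (prt g n)) (prt g n + 1)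

theorem prt_strictMono (g : ℕ → ℕ) : StrictMono (prt g) :=
  strictMono_nat_of_lt_succ fun n => lt_of_lt_of_le (Nat.lt_succ_self _) (le_max_right _ _)

theorem le_prt (g : ℕ → ℕ) (n : ℕ) : n ≤ prt g n := (prt_strictMono g).le_apply

theorem exists_block (g : ℕ → ℕ) (k : ℕ) : ∃ n, prt g n ≤ k ∧ k < prt g (n + 1) := by
  classical
  have h : ∃ n, k < prt g (n + 1) := ⟨k, lt_of_lt_of_le (Nat.lt_succ_self k) (le_prt g (k + 1))⟩
  refine ⟨Nat.find h, ?_, Nat.find_spec h⟩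
  by_cases h0 : Nat.find h = 0
  · rw [h0]; simp [prt]
  · obtain ⟨n, hn⟩ := Nat.exists_eq_succ_of_ne_zero h0
    have h2 := Nat.find_min h (m := n) (by omega)
    rw [hn]
    exact not_lt.1 h2

/-- the set of blocks met by the splitting levels of `Q` -/
def Blk (g : ℕ → ℕ) (Q : Set Ca) : Set ℕ := {n | ∃ l ∈ Lv Q, prt g n ≤ l ∧ l < prt g (n + 1)}

theorem CU.Blk_infinite {Q : Set Ca} (h : CU Q) (g : ℕ → ℕ) : (Blk g Q).Infinite := by
  refine Set.infinite_of_forall_exists_gt fun m => ?_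
  obtain ⟨l, hl, hml⟩ := h.exists_Lv (prt g (m + 1))
  obtain ⟨n, hn1, hn2⟩ := exists_block g l
  refine ⟨n, ⟨l, hl, hn1, hn2⟩, ?_⟩
  have := (prt_strictMono g).lt_iff_lt.1 (lt_of_le_of_lt hml hn2)
  omega

theorem Blk_mono (g : ℕ → ℕ) {Q Q' : Set Ca} (h : Q' ⊆ Q) : Blk g Q' ⊆ Blk g Q := by
  rintro n ⟨l, hl, h1⟩
  exact ⟨l, Lv_mono h hl, h1⟩

theorem exists_G {K : Set Ca} (hK : CU K) (m : ℕ) : ∃ m' : ℕ, ∀ x, Cond K x →
    ∃ u v, u ∈ K ∧ v ∈ K ∧ Cond K u ∧ Cond K v ∧ agr m x u ∧ ∃ l, m ≤ l ∧ l < m' ∧ agr l u v ∧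
      u l ≠ v l := by
  have h1 : ∀ x, Cond K x →
    ∃ u v, u ∈ K ∧ v ∈ K ∧ Cond K u ∧ Cond K v ∧ agr m x u ∧ ∃ l, m ≤ l ∧ agr l u v ∧
      u l ≠ v l := by
    intro x hx
    obtain ⟨u, hu, -, huc⟩ := exists_cond (hx m) countable_empty
    obtain ⟨v, hv, huv, hvc⟩ := exists_cond (hx m) (countable_singleton u)
    obtain ⟨l, hl, hl'⟩ := exists_diff (fun e => huv e.symm : u ≠ v)
    refine ⟨u, v, hu.1, hv.1, huc.mono inter_subset_left, hvc.mono inter_subset_left, hu.2, l,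
      ?_, hl, hl'⟩
    by_contra hc
    exact hl' ((agr.trans (agr.symm hu.2) hv.2) l (not_le.1 hc))
  have h2 : ∀ s : {s : List Bool // s.length = m}, ∃ m' : ℕ, ∀ x, br x m = s.1 → Cond K x →
    ∃ u v, u ∈ K ∧ v ∈ K ∧ Cond K u ∧ Cond K v ∧ agr m x u ∧ ∃ l, m ≤ l ∧ l < m' ∧ agr l u v ∧
      u l ≠ v l := by
    intro s
    by_cases hs : ∃ x, br x m = s.1 ∧ Cond K x
    · obtain ⟨x, hx, hxc⟩ := hs
      obtain ⟨u, v, a1, a2, a3, a4, a5, l, a6, a7, a8⟩ := h1 x hxc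
      refine ⟨l + 1, fun x' hx' _ => ⟨u, v, a1, a2, a3, a4, ?_, l, a6, Nat.lt_succ_self l, a7,
        a8⟩⟩
      exact (agr_of_br_eq (hx'.trans hx.symm)).trans a5
    · exact ⟨0, fun x hx hxc => absurd ⟨x, hx, hxc⟩ hs⟩
  choose M hM using h2
  have := Fintype.ofFinite {s : List Bool // s.length = m}
  refine ⟨Finset.univ.sup M, fun x hx => ?_⟩
  obtain ⟨u, v, a1, a2, a3, a4, a5, l, a6, a7, a8⟩ := hM ⟨br x m, br_length x m⟩ x rfl hx
  exact ⟨u, v, a1, a2, a3, a4, a5, l, a6, lt_of_lt_of_le a7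
    (Finset.le_sup (f := M) (Finset.mem_univ _)), a8⟩

theorem exists_sparse {K : Set Ca} (hK : CU K) (g G : ℕ → ℕ)
    (hG : ∀ m x, Cond K x →
      ∃ u v, u ∈ K ∧ v ∈ K ∧ Cond K u ∧ Cond K v ∧ agr m x u ∧ ∃ l, m ≤ l ∧ l < G m ∧ agr l u v ∧
      u l ≠ v l) {A : Set ℕ} (hA : A.Infinite) (hAG : ∀ n ∈ A, G (prt g n) ≤ prt g (n + 1)) :
    ∃ Q ⊆ K, CU Q ∧ Blk g Q ⊆ A := by
  have step : ∀ p : {p : Ca × ℕ // Cond K p.1}, ∃ (M : Bool → {p : Ca × ℕ // Cond K p.1}) (l : ℕ),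
      p.1.2 ≤ l ∧ (∃ n ∈ A, prt g n ≤ l ∧ l < prt g (n + 1)) ∧
      (∀ b, (M b).1.2 = l + 1 ∧ (M b).1.1 ∈ K ∧ agr p.1.2 p.1.1 (M b).1.1) ∧
      agr l (M true).1.1 (M false).1.1 ∧ (M true).1.1 l ≠ (M false).1.1 l := by
    rintro ⟨⟨x, m⟩, hx⟩
    simp only at hx ⊢
    obtain ⟨n, hn, hmn⟩ := hA.exists_gt m
    obtain ⟨u, v, a1, a2, a3, a4, a5, l, a6, a7, a8, a9⟩ := hG (prt g n) x hx
    have hm : m ≤ prt g n := le_trans hmn.le (le_prt g n)
    refine ⟨fun b => if b then ⟨(u, l + 1), a3⟩ else ⟨(v, l + 1), a4⟩, l, hm.trans a6,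
      ⟨n, hn, a6, lt_of_lt_of_le a7 (hAG n hn)⟩, ?_, ?_, ?_⟩
    · intro b
      cases b
      · exact ⟨rfl, a2, (a5.mono hm).trans (a8.mono (hm.trans a6))⟩
      · exact ⟨rfl, a1, a5.mono hm⟩
    · exact a8
    · exact a9
  choose M l h1 h2 h3 h4 h5 using step
  obtain ⟨x0, hx0, -, hx0'⟩ := exists_cond hK.2 countable_empty
  let S : List Bool → {p : Ca × ℕ // Cond K p.1} := iter ⟨(x0, 0), hx0'⟩ (fun p _ b => M p b)
  let P : List Bool → Set Ca := fun s => K ∩ {y | agr (S s).1.2 (S s).1.1 y}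
  have hS : Scheme P := by
    refine ⟨fun s => hK.1.inter (isClosed_agr _ _), fun s => ?_, fun s b => ?_, fun s => ?_⟩
    · by_contra hc
      rw [not_nonempty_iff_eq_empty] at hc
      refine (S s).2 (S s).1.2 ?_
      change (P s).Countable
      rw [hc]
      exact countable_empty
    · rintro y ⟨hy, hy'⟩
      refine ⟨hy, ?_⟩
      have e1 := h3 (S s) b
      have e2 : agr (M (S s) b).1.2 (M (S s) b).1.1 y := hy'
      rw [e1.1] at e2
      exact e1.2.2.trans (e2.mono ((h1 (S s)).trans (Nat.le_succ _)))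
    · rw [Set.disjoint_left]
      rintro y ⟨-, hy1⟩ ⟨-, hy2⟩
      have e1 : agr (M (S s) true).1.2 (M (S s) true).1.1 y := hy1
      have e2 : agr (M (S s) false).1.2 (M (S s) false).1.1 y := hy2
      rw [(h3 (S s) true).1] at e1
      rw [(h3 (S s) false).1] at e2
      exact h5 (S s) ((e1 _ (Nat.lt_succ_self _)).trans (e2 _ (Nat.lt_succ_self _)).symm)
  have hlen : ∀ s, s.length ≤ (S s).1.2 := by
    intro s
    induction s with
    | nil => simp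
    | cons b s ih =>
      have e1 : (S (b :: s)).1.2 = l (S s) + 1 := (h3 (S s) b).1
      rw [e1]
      simp only [List.length_cons]
      exact Nat.succ_le_succ (ih.trans (h1 (S s)))
  refine ⟨fuse P, hS.fuse_sub_nil.trans inter_subset_left, hS.CU_fuse, ?_⟩
  rintro n ⟨j, ⟨x, hx, y, hy, hxy, hxy'⟩, hj1, hj2⟩
  obtain ⟨z, hz⟩ := hS.branch hx
  obtain ⟨w, hw⟩ := hS.branch hy
  have hne : z ≠ w := by
    intro e
    subst e
    apply hxy'
    have hh : agr (j + 1) x y := by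
      have e1 := (hz (j + 1)).2
      have e2 := (hw (j + 1)).2
      have e3 := hlen (br z (j + 1))
      rw [br_length] at e3
      exact (agr.symm e1 |>.trans e2).mono e3
    exact hh j (Nat.lt_succ_self j)
  obtain ⟨k, hk, hk'⟩ := exists_diff hne
  have hb : br z k = br w k := br_eq_of_agr hk
  have key : ∀ (b c : Bool), b ≠ c → ∀ s, x ∈ P (b :: s) → y ∈ P (c :: s) → j = l (S s) := by
    intro b c hbc s hxs hys
    have f1 : agr (l (S s) + 1) (M (S s) b).1.1 x := by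
      have e1 : agr (M (S s) b).1.2 (M (S s) b).1.1 x := hxs.2
      rwa [(h3 (S s) b).1] at e1
    have f2 : agr (l (S s) + 1) (M (S s) c).1.1 y := by
      have e1 : agr (M (S s) c).1.2 (M (S s) c).1.1 y := hys.2
      rwa [(h3 (S s) c).1] at e1
    have f3 : agr (l (S s)) (M (S s) b).1.1 (M (S s) c).1.1 := by
      cases b <;> cases c
      · exact absurd rfl hbc
      · exact (h4 (S s)).symm
      · exact h4 (S s)
      · exact absurd rfl hbc
    have f4 : (M (S s) b).1.1 (l (S s)) ≠ (M (S s) c).1.1 (l (S s)) := by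
      cases b <;> cases c
      · exact absurd rfl hbc
      · exact (h5 (S s)).symm
      · exact h5 (S s)
      · exact absurd rfl hbc
    have f5 : agr (l (S s)) x y :=
      ((f1.mono (Nat.le_succ _)).symm.trans f3).trans (f2.mono (Nat.le_succ _))
    have f6 : x (l (S s)) ≠ y (l (S s)) := by
      rw [← f1 _ (Nat.lt_succ_self _), ← f2 _ (Nat.lt_succ_self _)]
      exact f4
    rcases lt_trichotomy j (l (S s)) with h | h | h
    · exact absurd (f5 j h) hxy'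
    · exact h
    · exact absurd (hxy _ h) f6
  have hj := key (z k) (w k) hk' (br z k) (hz (k + 1)) (by rw [hb]; exact hw (k + 1))
  obtain ⟨n', hn', e1, e2⟩ := h2 (S (br z k))
  rw [← hj] at e1 e2
  have : n' = n := by
    have a1 := (prt_strictMono g).lt_iff_lt.1 (lt_of_le_of_lt e1 hj2)
    have a2 := (prt_strictMono g).lt_iff_lt.1 (lt_of_le_of_lt hj1 e2)
    omega
  rw [← this]
  exact hn'

/-- Simon's collapsing system -/
theorem simon {I : Type} [LinearOrder I] [WellFoundedLT I] {e : I → Set ℕ} (hI : #I < 𝔠)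
    (hspl : Spl e) : Rich (BI × I) := by
  classical
  obtain ⟨g, hg1, hg2, hg3⟩ := exists_scale
  refine ⟨I → Bool, fun p τ Q => CU Q ∧ (∀ ξ, p.2 ≤ ξ → τ ξ = false) ∧
    ∀ ξ < p.2, (Blk (g p.1) Q \ E e ξ (τ ξ)).Finite, ?_, ?_, ?_⟩
  · rintro i v Q Q' ⟨h1, h2, h3⟩ hQ cQ
    exact ⟨cQ, h2, fun ξ hξ => (h3 ξ hξ).subset (sdiff_subset_sdiff_left (Blk_mono _ hQ))⟩
  · rintro i v v' Q cQ ⟨-, h2, h3⟩ ⟨-, h2', h3'⟩
    funext ξ
    rcases lt_or_ge ξ i.2 with h | h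
    · exact not_both (cQ.Blk_infinite (g i.1)) Subset.rfl (h3 ξ h) (h3' ξ h)
    · rw [h2 ξ h, h2' ξ h]
  · intro K hK
    choose G0 hG0 using exists_G hK
    obtain ⟨G, hGm, hG⟩ := exists_mono_ge G0
    obtain ⟨ν, hν⟩ := hg3 (fun n => G (G n))
    have hNinf : {n | G (prt (g ν) n) ≤ prt (g ν) (n + 1)}.Infinite := by
      intro hfin
      obtain ⟨B, hB⟩ := hfin.bddAbove
      have h1 : ∀ n, B < n → prt (g ν) (n + 1) < G (prt (g ν) n) := by
        intro n hn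
        by_contra hc
        have := hB (not_lt.1 hc : n ∈ {n | G (prt (g ν) n) ≤ prt (g ν) (n + 1)})
        omega
      obtain ⟨k, hk, hk'⟩ := hν (prt (g ν) (B + 1))
      obtain ⟨n, hn1, hn2⟩ := exists_block (g ν) k
      have hBn : B < n := by
        have := (prt_strictMono (g ν)).lt_iff_lt.1 (lt_of_le_of_lt hk hn2)
        omega
      have e1 : g ν k ≤ prt (g ν) (n + 1 + 1) :=
        (hg1 ν hn2.le).trans (le_max_left _ _)
      have e2 := h1 (n + 1) (by omega)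
      have e3 : G (prt (g ν) (n + 1)) ≤ G (G k) := hGm ((h1 n hBn).le.trans (hGm hn1))
      omega
    have hNm : Nm univ (fun _ => {n | G (prt (g ν) n) ≤ prt (g ν) (n + 1)}) :=
      ⟨CU_univ, fun _ _ => hNinf, fun n => UC_const _ _⟩
    obtain ⟨K', F', ε, y, -, hN', hF', hbase, hdec⟩ := normal_form hI hspl hNm
    have key : ∀ x : K', ∃ Q ⊆ K, CU Q ∧ Blk (g ν) Q ⊆ F' x := fun x =>
      exists_sparse hK (g ν) G (fun m x hx => by
        obtain ⟨u, v, a1, a2, a3, a4, a5, l, a6, a7, a8⟩ := hG0 m x hx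
        exact ⟨u, v, a1, a2, a3, a4, a5, l, a6, lt_of_lt_of_le a7 (hG m), a8⟩)
        (hN'.inf x x.2) (fun n hn => hF' x x.2 hn)
    choose Q hQ1 hQ2 hQ3 using key
    rw [← hN'.cu.mk]
    refine Cardinal.mk_le_of_injective (f := fun x : K' =>
      ⟨((ν, ε), fun ξ => if ξ < ε then y x ξ else false), Q x, hQ1 x, hQ2 x, hQ2 x, ?_, ?_⟩) ?_
    · intro ξ hξ
      simp only at hξ ⊢
      rw [if_neg (not_lt.2 hξ)]
    · intro ξ hξ
      simp only at hξ ⊢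
      rw [if_pos hξ]
      exact (hdec x x.2 ξ hξ).subset (sdiff_subset_sdiff_left (hQ3 x))
    · intro x x' hxx
      simp only [Subtype.mk.injEq, Prod.mk.injEq, true_and] at hxx
      by_contra hne
      obtain ⟨ξ, hξ, hξ'⟩ := hbase.inj x x.2 x' x'.2 (fun h => hne (Subtype.ext h))
      have := congrFun hxx ξ
      simp only [if_pos hξ] at this
      exact hξ' this

theorem Rich.congr {ι κ : Type} (h : Rich ι) (φ : κ ≃ ι) : Rich κ := by
  obtain ⟨X, D, h1, h2, h3⟩ := h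
  refine ⟨X, fun k v Q => D (φ k) v Q, fun k => h1 (φ k), fun k => h2 (φ k), fun K hK => ?_⟩
  refine (h3 K hK).trans ?_
  refine Cardinal.mk_le_of_injective (f := fun p => ⟨(φ.symm p.1.1, p.1.2), ?_⟩) ?_
  · obtain ⟨Q, a1, a2, a3⟩ := p.2
    refine ⟨Q, a1, a2, ?_⟩
    simpa using a3
  · intro p q hpq
    simp only [Subtype.mk.injEq, Prod.mk.injEq, EmbeddingLike.apply_eq_iff_eq] at hpq
    exact Subtype.ext (Prod.ext hpq.1 hpq.2)

theorem rich_BI {I : Type} [LinearOrder I] [WellFoundedLT I] {e : I → Set ℕ} (hI : #I < 𝔠)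
    (hI' : #I ≤ bb) (hspl : Spl e) : Rich BI := by
  have hne : Nonempty I := by
    obtain ⟨ξ, -⟩ := hspl univ infinite_univ
    exact ⟨ξ⟩
  have : #BI = #(BI × I) := by
    rw [Cardinal.mk_prod, Cardinal.lift_id, Cardinal.lift_id, mk_BI]
    refine (Cardinal.mul_eq_left aleph0_lt_bb.le hI' ?_).symm
    exact Cardinal.mk_ne_zero I
  obtain ⟨φ⟩ := Cardinal.eq.1 this
  exact (simon hI hspl).congr φ

end Run7.h474
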