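import Pool.Agent.Run7.h474.Bases

set_option autoImplicit false

namespace Run7.h474

open Set Cardinal

/-- Sacks indestructible families, in combinatorial form -/
structure SInd (A : Set (Set ℕ)) : Prop where
  inf : A.Infinite
  mem : ∀ a ∈ A, a.Infinite
  ad : ∀ a ∈ A, ∀ b ∈ A, a ≠ b → (a ∩ b).Finite
  hit : ∀ K F, Nm K F → ∃ a ∈ A, Hit K F a

/-- the starting partition -/
def Cn (n : ℕ) : Set ℕ := {m | m.unpair.1 = n}

theorem Cn_infinite (n : ℕ) : (Cn n).Infinite := by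
  refine Set.infinite_of_forall_exists_gt fun m => ⟨Nat.pair n (m + 1), by simp [Cn], ?_⟩
  exact lt_of_lt_of_le (Nat.lt_succ_self m) (Nat.right_le_pair n (m + 1))

theorem Cn_disj {m n : ℕ} (h : m ≠ n) : Cn m ∩ Cn n = ∅ := by
  ext k
  simp only [Cn, mem_inter_iff, mem_ofPred_eq, mem_empty_iff_false, iff_false, not_and]
  intro h1 h2
  exact h (h1.symm.trans h2)

/-- from the assembled family to the final family -/
theorem SInd_of_family {J : Type} {D : Set J} {a : J → Set ℕ} (h1 : ∀ j ∈ D, (a j).Infinite)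
    (h2 : ∀ j ∈ D, ∀ j' ∈ D, j ≠ j' → (a j ∩ a j').Finite)
    (h3 : ∀ j ∈ D, ∀ n, (a j ∩ Cn n).Finite)
    (h4 : ∀ K F, Nm K F → (∃ n, Hit K F (Cn n)) ∨ ∃ j ∈ D, Hit K F (a j)) :
    ∃ A, SInd A := by
  refine ⟨a '' D ∪ range Cn, ?_, ?_, ?_, ?_⟩
  · refine Set.Infinite.mono subset_union_right (Set.infinite_range_of_injective ?_)
    intro m n hmn
    by_contra hne
    have h5 := Cn_disj hne
    rw [hmn, inter_self] at h5
    exact (Cn_infinite n).nonempty.ne_empty h5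
  · rintro _ (⟨j, hj, rfl⟩ | ⟨n, rfl⟩)
    · exact h1 j hj
    · exact Cn_infinite n
  · rintro _ (⟨j, hj, rfl⟩ | ⟨n, rfl⟩) _ (⟨j', hj', rfl⟩ | ⟨n', rfl⟩) hne
    · exact h2 j hj j' hj' fun h => hne (by rw [h])
    · exact h3 j hj n'
    · rw [inter_comm]; exact h3 j' hj' n
    · rw [Cn_disj fun h => hne (by rw [h])]; exact finite_empty
  · intro K F hN
    rcases h4 K F hN with ⟨n, hn⟩ | ⟨j, hj, hjh⟩
    · exact ⟨Cn n, Or.inr ⟨n, rfl⟩, hn⟩
    · exact ⟨a j, Or.inl ⟨j, hj, rfl⟩, hjh⟩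

theorem Hit.congr {K : Set Ca} {F F' : Ca → Set ℕ} {a : Set ℕ} (h : Hit K F a)
    (hF : ∀ x ∈ K, F x = F' x) : Hit K F' a := by
  intro hc
  refine h (hc.mono ?_)
  rintro x ⟨hx, hx'⟩
  exact ⟨hx, by rwa [← hF x hx]⟩

/-- avoid the starting partition -/
theorem Nm.avoidC {K : Set Ca} {F : Ca → Set ℕ} (h : Nm K F) (hn : ∀ n, ¬ Hit K F (Cn n)) :
    ∃ K' ⊆ K, CU K' ∧ ∀ x ∈ K', ∀ n, (F x ∩ Cn n).Finite := by
  obtain ⟨K', h1, h2, h3⟩ := h.cu.avoid' (ι := ℕ) (by rw [mk_nat]; exact aleph0_lt_continuum)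
    (fun n => {x | (Cn n ∩ F x).Infinite}) (by
      intro n
      exact not_not.1 (hn n))
  refine ⟨K', h1, h2, fun x hx n => ?_⟩
  by_contra hc
  rw [inter_comm] at hc
  exact Set.disjoint_left.1 (h3 n) hx hc

section

variable {I : Type} [LinearOrder I] [WellFoundedLT I] {e : I → Set ℕ}

open Classical in
/-- truncation of a node -/
noncomputable def trn (ε : I) (r : I → Bool) : I → Bool := fun ξ => if ξ < ε then r ξ else false

theorem trn_eq_iff {ε : I} {r r' : I → Bool} : trn ε r = trn ε r' ↔ ∀ ξ < ε, r ξ = r' ξ := by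
  constructor
  · intro h ξ hξ
    have := congrFun h ξ
    unfold trn at this
    rwa [if_pos hξ, if_pos hξ] at this
  · intro h
    funext ξ
    unfold trn
    split_ifs with hξ
    · exact h ξ hξ
    · rfl

/-- the nodes below a base -/
def VV (K : Set Ca) (ε : I) (y : Ca → I → Bool) : Set (I × (I → Bool)) :=
  {p | p.1 < ε ∧ ∃ x ∈ K, p.2 = trn p.1 (y x)}

theorem mk_VV_lt {K : Set Ca} {ε : I} {y : Ca → I → Bool} (h : Base K ε y)
    (hε : #(Iio ε) < bb) : #(VV K ε y) < bb := by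
  have hsub : VV K ε y ⊆ ⋃ ε' : Iio ε, (fun r => ((ε' : I), r)) ''
      ((fun x => trn (ε' : I) (y x)) '' K) := by
    rintro ⟨ε', r⟩ ⟨h1, x, hx, hxr⟩
    exact mem_iUnion.2 ⟨⟨ε', h1⟩, r, ⟨x, hx, hxr.symm⟩, rfl⟩
  refine lt_of_le_of_lt (Cardinal.mk_le_mk_of_subset hsub) ?_
  refine lt_of_le_of_lt Cardinal.mk_iUnion_le_sum_mk ?_
  refine lt_of_le_of_lt (Cardinal.sum_le_sum _ (fun _ => ℵ₀) fun ε' => ?_) ?_
  · have hUC : UC (fun x => trn (ε' : I) (y x)) K := by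
      obtain ⟨N, hN⟩ := h.uc ε' ε'.2
      exact ⟨N, fun x hx x' hx' hxx => trn_eq_iff.2 fun ξ hξ => hN x hx x' hx' hxx ξ hξ.le⟩
    exact ((hUC.finite_image).image _).lt_aleph0.le
  · rw [Cardinal.sum_const]
    simp only [Cardinal.lift_id]
    exact Cardinal.mul_lt_of_lt aleph0_lt_bb.le hε aleph0_lt_bb

theorem mk_sum_lt {α β : Type} (h1 : #α < bb) (h2 : #β < bb) : #(α ⊕ β) < bb := by
  rw [Cardinal.mk_sum, Cardinal.lift_id, Cardinal.lift_id]
  exact Cardinal.add_lt_of_lt aleph0_lt_bb.le h1 h2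

theorem mk_prod_lt {α β : Type} (h1 : #α < bb) (h2 : #β < bb) : #(α × β) < bb := by
  rw [Cardinal.mk_prod, Cardinal.lift_id, Cardinal.lift_id]
  exact Cardinal.mul_lt_of_lt aleph0_lt_bb.le h1 h2

/-- the number of lower-level sets met by an element of a good system -/
theorem GoodSys.mk_met_lt {L : Type} [LinearOrder L] {W : L → Set (Set Ca)} (hW : GoodSys W)
    {i : L} {w : Set Ca} (hw : w ∈ W i) (hi : #(Iio i) < bb) :
    #{p : L × Set Ca | p.1 < i ∧ p.2 ∈ W p.1 ∧ (w ∩ p.2).Nonempty} < bb := by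
  have hsub : {p : L × Set Ca | p.1 < i ∧ p.2 ∈ W p.1 ∧ (w ∩ p.2).Nonempty} ⊆
      ⋃ i' : Iio i, (fun w' => ((i' : L), w')) '' {w' | w' ∈ W i' ∧ (w ∩ w').Nonempty} := by
    rintro ⟨i', w'⟩ ⟨h1, h2, h3⟩
    exact mem_iUnion.2 ⟨⟨i', h1⟩, w', ⟨h2, h3⟩, rfl⟩
  refine lt_of_le_of_lt (Cardinal.mk_le_mk_of_subset hsub) ?_
  refine lt_of_le_of_lt Cardinal.mk_iUnion_le_sum_mk ?_
  refine lt_of_le_of_lt (Cardinal.sum_le_sum _ (fun _ => ℵ₀) fun i' => ?_) ?_
  · exact ((hW.fin i w hw i' i'.2).image _).lt_aleph0.le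
  · rw [Cardinal.sum_const]
    simp only [Cardinal.lift_id]
    exact Cardinal.mul_lt_of_lt aleph0_lt_bb.le hi aleph0_lt_bb

open Classical in
/-- the theorem when the height of the good system is less than the bounding number -/
theorem case_small (hI : #I < 𝔠) (hseg : ∀ ξ : I, #(Iio ξ) < bb) (hspl : Spl e) {L : Type}
    [LinearOrder L] [WellFoundedLT L] (hL : #L < bb) {W : L → Set (Set Ca)} (hW : GoodSys W) :
    ∃ A, SInd A := by
  obtain ⟨KK, FF, KB, εB, yB, b, KT, FT, hall, hbase, hdis, hKT, hNT, hdec, hhit⟩ :=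
    exists_bases (e := e) hI hspl
  have hK1 : ∀ α, ∃ K1 ⊆ KT α, CU K1 ∧ ((∀ n, ¬ Hit (KT α) (FT α) (Cn n)) →
      ∀ x ∈ K1, ∀ n, (FT α x ∩ Cn n).Finite) := by
    intro α
    by_cases h : ∀ n, ¬ Hit (KT α) (FT α) (Cn n)
    · obtain ⟨K1, h1, h2, h3⟩ := (hNT α).avoidC h
      exact ⟨K1, h1, h2, fun _ => h3⟩
    · exact ⟨KT α, Subset.rfl, (hNT α).cu, fun h' => absurd h' h⟩
  choose K1 h1a h1b h1c using hK1
  obtain ⟨f, hfinj, hf⟩ := inj_choice
    (fun α => {p : L × Set Ca | p.2 ∈ W p.1 ∧ ¬ (K1 α ∩ p.2).Countable})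
    (fun α => hW.rich (K1 α) (h1b α))
  let J : Type := {α : CI // ∀ n, ¬ Hit (KT α) (FT α) (Cn n)}
  let Q : J → Set Ca := fun j => K1 j.1 ∩ (f j.1).2
  have cQ : ∀ j : J, CU (Q j) := fun j =>
    ⟨(h1b j.1).1.inter (hW.cu _ _ (hf j.1).1).1, (hf j.1).2⟩
  have hQT : ∀ j : J, Q j ⊆ KT j.1 := fun j => inter_subset_left.trans (h1a j.1)
  have hQB : ∀ j : J, Q j ⊆ KB (b j.1) := fun j => (hQT j).trans (hKT j.1)
  let Z : J → Set I := fun j => Iio (εB (b j.1))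
  let σ : J → Ca → I → Bool := fun j => yB (b j.1)
  let key : J → I ×ₗ L := fun j => toLex (εB (b j.1), (f j.1).1)
  -- two elements with comparable positions at the same base level
  have hsame : ∀ j j' : J, εB (b j.1) = εB (b j'.1) → ∀ x ∈ Q j, ∀ x' ∈ Q j',
      (∀ ξ < εB (b j.1), yB (b j.1) x ξ = yB (b j'.1) x' ξ) → b j.1 = b j'.1 ∧ x = x' := by
    intro j j' hε x hx x' hx' h
    have hb : b j.1 = b j'.1 := by
      by_contra hne
      obtain ⟨ξ, hξ, hξ'⟩ := hdis j.1 j'.1 hne hε x (hQB j hx) x' (hQB j' hx')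
      exact hξ' (h ξ hξ)
    refine ⟨hb, ?_⟩
    by_contra hne
    obtain ⟨ξ, hξ, hξ'⟩ := (hbase j.1).inj x (hQB j hx) x' (hb ▸ hQB j' hx') hne
    have h2 := h ξ hξ
    rw [← hb] at h2
    exact hξ' h2
  have hlev : ∀ j j' : J, ∀ x, x ∈ Q j → x ∈ Q j' → (f j.1).1 = (f j'.1).1 → j = j' := by
    intro j j' x hx hx' hl
    have h1 : (f j.1).2 = (f j'.1).2 := by
      by_contra hne
      refine Set.disjoint_left.1 (hW.disj _ _ (hf j.1).1 _ ?_ hne) hx.2 hx'.2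
      rw [hl]; exact (hf j'.1).1
    exact Subtype.ext (hfinj (Prod.ext hl h1))
  have hcount : ∀ j, #{j' // key j' < key j ∧ Rl Q σ Z j' j} < bb := by
    intro j
    have hsplit : ∀ t : {j' // key j' < key j ∧ Rl Q σ Z j' j},
        ∃ p : {p : L × Set Ca | p.1 < (f j.1).1 ∧ p.2 ∈ W p.1 ∧ ((f j.1).2 ∩ p.2).Nonempty} ⊕
          (VV (KB (b j.1)) (εB (b j.1)) (yB (b j.1)) × L),
        (∀ q, p = Sum.inl q → q.1 = f t.1.1) ∧
        (∀ q, p = Sum.inr q → q.2 = (f t.1.1).1 ∧ q.1.1.1 = εB (b t.1.1) ∧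
          ∃ x' ∈ Q t.1, q.1.1.2 = trn (εB (b t.1.1)) (yB (b t.1.1) x')) := by
      rintro ⟨j', hlt, x', hx', x, hx, hxx⟩
      rcases (Prod.Lex.toLex_lt_toLex.1 hlt) with h | ⟨h, h'⟩
      · simp only at h
        have heq : ∀ ξ < εB (b j'.1), yB (b j'.1) x' ξ = yB (b j.1) x ξ := fun ξ hξ =>
          hxx ξ hξ (hξ.trans h)
        refine ⟨Sum.inr (⟨(εB (b j'.1), trn (εB (b j'.1)) (yB (b j.1) x)), h, x, hQB j hx, rfl⟩,
          (f j'.1).1), by simp, ?_⟩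
        intro q hq
        rw [Sum.inr.injEq] at hq
        subst hq
        exact ⟨rfl, rfl, x', hx', (trn_eq_iff.2 heq).symm⟩
      · simp only at h h'
        have heq : ∀ ξ < εB (b j'.1), yB (b j'.1) x' ξ = yB (b j.1) x ξ := fun ξ hξ =>
          hxx ξ hξ (show ξ < _ by rw [← h]; exact hξ)
        obtain ⟨hb, hxe⟩ := hsame j' j h x' hx' x hx heq
        refine ⟨Sum.inl ⟨f j'.1, h', (hf j'.1).1, x, hx.2, hxe ▸ hx'.2⟩, ?_, by simp⟩
        intro q hq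
        rw [Sum.inl.injEq] at hq
        subst hq
        rfl
    choose p hp1 hp2 using hsplit
    refine lt_of_le_of_lt (Cardinal.mk_le_of_injective (f := p) ?_) (mk_sum_lt
      (hW.mk_met_lt (hf j.1).1 (lt_of_le_of_lt (Cardinal.mk_set_le _) hL))
      (mk_prod_lt (mk_VV_lt (hbase j.1) (hseg _)) hL))
    intro t t' htt
    rcases hpt : p t with q | q
    · have e1 := hp1 t q hpt
      have e2 := hp1 t' q (htt ▸ hpt)
      exact Subtype.ext (Subtype.ext (hfinj (e1.symm.trans e2)))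
    · obtain ⟨e1, e2, x, hx, e3⟩ := hp2 t q hpt
      obtain ⟨e1', e2', x', hx', e3'⟩ := hp2 t' q (htt ▸ hpt)
      have hε : εB (b t.1.1) = εB (b t'.1.1) := e2.symm.trans e2'
      have h5 : ∀ ξ < εB (b t.1.1), yB (b t.1.1) x ξ = yB (b t'.1.1) x' ξ := by
        have := e3.symm.trans e3'
        rw [← hε] at this
        exact trn_eq_iff.1 this
      obtain ⟨-, hxe⟩ := hsame t.1 t'.1 hε x hx x' hx' h5
      subst hxe
      exact Subtype.ext (hlev t.1 t'.1 x hx hx' (e1.symm.trans e1'))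
  obtain ⟨D, a, g1, g2, g3, g4⟩ := assembly e Q (fun j => FT j.1) σ Z Cn key
    (fun j => (hNT j.1).mono (hQT j) (cQ j))
    (fun j ξ hξ => ((hbase j.1).uc1 hξ).mono (hQB j))
    (fun j ξ hξ x hx => hdec j.1 x (hQT j hx) ξ hξ)
    (fun j n x hx => h1c j.1 j.2 x hx.1 n)
    (by
      rintro j j' hne ⟨x, hx, x', hx', hxx⟩ hk
      have hk' := congrArg ofLex hk
      simp only [key, ofLex_toLex, Prod.mk.injEq] at hk'
      obtain ⟨hε, hl⟩ := hk'
      have heq : ∀ ξ < εB (b j.1), yB (b j.1) x ξ = yB (b j'.1) x' ξ := fun ξ hξ =>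
        hxx ξ hξ (show ξ < _ by rw [← hε]; exact hξ)
      obtain ⟨-, hxe⟩ := hsame j j' hε x hx x' hx' heq
      subst hxe
      exact hne (hlev j j' x hx hx' hl))
    (fun j => Dmn_of_lt (mk_sum_lt (hcount j) (mk_sum_lt (hseg _)
      (by rw [mk_nat]; exact aleph0_lt_bb))))
    (fun j => lt_of_lt_of_le (hcount j) bb_le)
  refine SInd_of_family g1 g2 g3 ?_
  intro K F hN
  obtain ⟨α, hα, hα'⟩ := hall K F hN
  subst hα
  by_cases h : ∀ n, ¬ Hit (KT α) (FT α) (Cn n)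
  · obtain ⟨j', hj', hh⟩ := g4 ⟨α, h⟩
    refine Or.inr ⟨j', hj', ?_⟩
    have h6 : Hit (KT α) (FT α) (a j') := Hit.mono (hQT ⟨α, h⟩) (fun x _ => Subset.rfl) hh
    exact (hhit α _ h6).congr hα'
  · push Not at h
    obtain ⟨n, hn⟩ := h
    exact Or.inl ⟨n, (hhit α _ hn).congr hα'⟩

end

end Run7.h474
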