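import Pool.Agent.Run7.h474.Card

set_option autoImplicit false

namespace Run7.h474

open Set Cardinal

/-- an index type of length the continuum -/
abbrev CI : Type := (𝔠 : Cardinal.{0}).ord.ToType

theorem mk_CI : #CI = 𝔠 := Cardinal.mk_ord_toType 𝔠

theorem exists_surj_CI {J : Type} [Nonempty J] (h : #J ≤ 𝔠) :
    ∃ f : CI → J, Function.Surjective f := by
  rw [← mk_CI] at h
  obtain ⟨φ⟩ := (Cardinal.le_def _ _).1 h
  exact ⟨Function.invFun φ, Function.invFun_surjective φ.injective⟩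

open Classical in
/-- greedy disjoint refinement -/
theorem disj_family {X : Type} (P : CI → Set X) (KK : CI → Set (Set X))
    (hsub : ∀ j, ∀ B ∈ KK j, B ⊆ P j ∧ ¬ B.Countable)
    (H : ∀ j (ι : Type) (S : ι → Set X), #ι < 𝔠 → (∀ i, (P j ∩ S i).Countable) →
      ∃ B ∈ KK j, ∀ i, Disjoint B (S i)) :
    ∃ (D : Set CI) (B : CI → Set X), (∀ j ∈ D, B j ∈ KK j) ∧
      (∀ j ∈ D, ∀ j' ∈ D, j ≠ j' → Disjoint (B j) (B j')) ∧
      ∀ j, ∃ j' ∈ D, ¬ (P j ∩ B j').Countable := by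
  let wf : WellFounded (fun a b : CI => a < b) := wellFounded_lt
  let step : ∀ j : CI, (∀ j', j' < j → Option (Set X)) → Option (Set X) := fun j prev =>
    if h : (¬ ∃ j', ∃ hj : j' < j, ∃ B', prev j' hj = some B' ∧ ¬ (P j ∩ B').Countable) ∧
      ∃ B ∈ KK j, ∀ j' (hj : j' < j) B', prev j' hj = some B' → Disjoint B B'
    then some h.2.choose else none
  let A : CI → Option (Set X) := wf.fix step
  have hA : ∀ j, A j = step j (fun j' _ => A j') := fun j => wf.fix_eq step j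
  have hspec : ∀ j B, A j = some B → B ∈ KK j ∧
      ∀ j' < j, ∀ B', A j' = some B' → Disjoint B B' := by
    intro j B hj
    rw [hA] at hj
    simp only [step] at hj
    split_ifs at hj with h
    rw [Option.some_inj] at hj
    rw [← hj]
    exact ⟨h.2.choose_spec.1, fun j' hj' B' hB' => h.2.choose_spec.2 j' hj' B' hB'⟩
  have hex : ∀ j, (¬ ∃ j' < j, ∃ B', A j' = some B' ∧ ¬ (P j ∩ B').Countable) →
      ∃ B, A j = some B := by
    intro j hj
    have h1 : ∃ B ∈ KK j, ∀ j' (hj : j' < j) B', A j' = some B' → Disjoint B B' := by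
      obtain ⟨B, hB, hB'⟩ := H j (Iio j) (fun i => (A i.1).getD ∅) (mk_Iio_lt_ord j) (by
        intro i
        by_contra hc
        apply hj
        rcases hAi : A i.1 with _ | B'
        · rw [hAi] at hc; simp at hc
        · rw [hAi] at hc
          exact ⟨i.1, i.2, B', hAi, hc⟩)
      refine ⟨B, hB, fun j' hj' B' hA' => ?_⟩
      have := hB' ⟨j', hj'⟩
      simpa [hA'] using this
    rw [hA]
    simp only [step]
    have h2 : ¬ ∃ j', ∃ hj : j' < j, ∃ B', A j' = some B' ∧ ¬ (P j ∩ B').Countable := by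
      rintro ⟨j', hj', B', h3, h4⟩
      exact hj ⟨j', hj', B', h3, h4⟩
    rw [dif_pos ⟨h2, h1⟩]
    exact ⟨_, rfl⟩
  refine ⟨{j | (A j).isSome}, fun j => (A j).getD ∅, ?_, ?_, ?_⟩
  · intro j hj
    obtain ⟨B, hB⟩ := Option.isSome_iff_exists.1 hj
    simp only [hB, Option.getD_some]
    exact (hspec j B hB).1
  · intro j hj j' hj' hne
    obtain ⟨B, hB⟩ := Option.isSome_iff_exists.1 hj
    obtain ⟨B', hB'⟩ := Option.isSome_iff_exists.1 hj'
    simp only [hB, hB', Option.getD_some]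
    rcases lt_or_gt_of_ne hne with h | h
    · exact ((hspec j' B' hB').2 j h B hB).symm
    · exact (hspec j B hB).2 j' h B' hB'
  · intro j
    by_cases h : ∃ j' < j, ∃ B', A j' = some B' ∧ ¬ (P j ∩ B').Countable
    · obtain ⟨j', -, B', h1, h2⟩ := h
      refine ⟨j', ?_, ?_⟩
      · simp only [mem_ofPred_eq, h1]; rfl
      · simpa only [h1, Option.getD_some] using h2
    · obtain ⟨B, hB⟩ := hex j h
      refine ⟨j, ?_, ?_⟩
      · simp only [mem_ofPred_eq, hB]; rfl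
      · simp only [hB, Option.getD_some]
        obtain ⟨h1, h2⟩ := hsub j B (hspec j B hB).1
        rw [inter_eq_self_of_subset_right h1]
        exact h2

/-- injective choice from large sets -/
theorem inj_choice {Y : Type} (S : CI → Set Y) (hS : ∀ j, 𝔠 ≤ #(S j)) :
    ∃ f : CI → Y, Function.Injective f ∧ ∀ j, f j ∈ S j := by
  let wf : WellFounded (fun a b : CI => a < b) := wellFounded_lt
  have key : ∀ (j : CI) (prev : ∀ j', j' < j → Y), ∃ y ∈ S j, ∀ j' (hj : j' < j),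
      prev j' hj ≠ y := by
    intro j prev
    by_contra hc
    push Not at hc
    have hsub : S j ⊆ range (fun i : Iio j => prev i.1 i.2) := by
      intro y hy
      obtain ⟨j', hj', h⟩ := hc y hy
      exact ⟨⟨j', hj'⟩, h⟩
    have h1 : #(S j) ≤ #(Iio j) := (Cardinal.mk_le_mk_of_subset hsub).trans Cardinal.mk_range_le
    exact absurd ((hS j).trans h1) (not_le.2 (mk_Iio_lt_ord j))
  choose st st1 st2 using key
  let f : CI → Y := wf.fix st
  have hf : ∀ j, f j = st j (fun j' _ => f j') := fun j => wf.fix_eq st j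
  refine ⟨f, ?_, fun j => by rw [hf]; exact st1 _ _⟩
  intro a b hab
  by_contra hne
  rcases lt_or_gt_of_ne hne with h | h
  · have := st2 b (fun j' _ => f j') a h
    rw [← hf] at this
    exact this hab
  · have := st2 a (fun j' _ => f j') b h
    rw [← hf] at this
    exact this hab.symm

/-- the prefixes of the elements of a set -/
def pref (K : Set Ca) : Set (List Bool) := {s | ∃ x ∈ K, br x s.length = s}

theorem pref_injOn : InjOn pref {K : Set Ca | IsClosed K} := by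
  have key : ∀ K L : Set Ca, IsClosed L → pref K = pref L → K ⊆ L := by
    intro K L hL h x hx
    by_contra hxL
    obtain ⟨m, hm⟩ : ∃ m, {y | agr m x y} ⊆ Lᶜ := by
      by_contra hc
      push Not at hc
      obtain ⟨y, hy⟩ := IsCompact.nonempty_iInter_of_sequence_nonempty_isCompact_isClosed
        (fun m => L ∩ {y | agr m x y})
        (fun m => inter_subset_inter_right _ fun y hy => agr.mono hy (Nat.le_succ m))
        (fun m => by
          obtain ⟨y, hy1, hy2⟩ := Set.not_subset.1 (hc m)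
          exact ⟨y, not_not.1 hy2, hy1⟩)
        ((hL.inter (isClosed_agr 0 x)).isCompact) (fun m => hL.inter (isClosed_agr m x))
      rw [mem_iInter] at hy
      have : x = y := eq_of_agr fun m => (hy m).2
      exact hxL (this ▸ (hy 0).1)
    have h1 : br x m ∈ pref K := ⟨x, hx, by simp⟩
    rw [h] at h1
    obtain ⟨y, hy, hxy⟩ := h1
    rw [br_length] at hxy
    exact hm (agr_of_br_eq hxy).symm hy
  intro K hK L hL h
  exact Subset.antisymm (key K L hL h) (key L K hK h.symm)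

theorem mk_closed_le : #{K : Set Ca // IsClosed K} ≤ 𝔠 := by
  have : Function.Injective (fun K : {K : Set Ca // IsClosed K} => pref K.1) :=
    fun K L h => Subtype.ext (pref_injOn K.2 L.2 h)
  refine (Cardinal.mk_le_of_injective this).trans ?_
  simp

theorem mk_CU_le : #{K : Set Ca // CU K} ≤ 𝔠 := by
  refine le_trans ?_ mk_closed_le
  exact Cardinal.mk_le_of_injective
    (f := fun K : {K : Set Ca // CU K} => (⟨K.1, K.2.1⟩ : {K : Set Ca // IsClosed K}))
    (fun K L h => Subtype.ext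
      (congrArg (fun x : {K : Set Ca // IsClosed K} => x.1) h))

/-- maximal families of disjoint sets -/
structure Mxl (W : Set (Set Ca)) : Prop where
  cu : ∀ w ∈ W, CU w
  disj : ∀ w ∈ W, ∀ w' ∈ W, w ≠ w' → Disjoint w w'
  max : ∀ K, CU K → ∃ w ∈ W, ¬ (K ∩ w).Countable

theorem exists_Mxl {D : Set (Set Ca)} (hD : ∀ K, CU K → ∃ Q ⊆ K, CU Q ∧ Q ∈ D) :
    ∃ W ⊆ D, Mxl W := by
  have : Nonempty {K : Set Ca // CU K} := ⟨⟨univ, CU_univ⟩⟩
  obtain ⟨P, hP⟩ := exists_surj_CI mk_CU_le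
  obtain ⟨I, B, h1, h2, h3⟩ := disj_family (fun j => (P j).1)
    (fun j => {Q | Q ⊆ (P j).1 ∧ CU Q ∧ Q ∈ D}) (fun j B hB => ⟨hB.1, hB.2.1.2⟩) (by
      intro j ι S hι hS
      obtain ⟨K', hK', cK', hd⟩ := (P j).2.avoid' hι S hS
      obtain ⟨Q, hQ, cQ, hQD⟩ := hD K' cK'
      exact ⟨Q, ⟨hQ.trans hK', cQ, hQD⟩, fun i => (hd i).mono_left hQ⟩)
  refine ⟨B '' I, ?_, ?_, ?_, ?_⟩
  · rintro _ ⟨j, hj, rfl⟩
    exact (h1 j hj).2.2
  · rintro _ ⟨j, hj, rfl⟩
    exact (h1 j hj).2.1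
  · rintro _ ⟨j, hj, rfl⟩ _ ⟨j', hj', rfl⟩ hne
    exact h2 j hj j' hj' fun h => hne (by rw [h])
  · intro K hK
    obtain ⟨j, hj⟩ := hP ⟨K, hK⟩
    obtain ⟨j', hj', h⟩ := h3 j
    rw [hj] at h
    exact ⟨B j', ⟨j', hj', rfl⟩, h⟩

open Classical in
/-- the element of `W` containing a point -/
noncomputable def loc (W : Set (Set Ca)) (x : Ca) : Set Ca :=
  if h : ∃ w ∈ W, x ∈ w then h.choose else ∅

theorem Mxl.loc_eq {W : Set (Set Ca)} (hW : Mxl W) {w : Set Ca} (hw : w ∈ W) {x : Ca}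
    (hx : x ∈ w) : loc W x = w := by
  have h : ∃ w ∈ W, x ∈ w := ⟨w, hw, hx⟩
  unfold loc
  rw [dif_pos h]
  by_contra hne
  exact Set.disjoint_left.1 (hW.disj _ h.choose_spec.1 _ hw hne) h.choose_spec.2 hx

theorem Mxl.DCon {W : Set (Set Ca)} (hW : Mxl W) (K : Set Ca) : DCon (loc W) K := by
  intro K' _ cK'
  obtain ⟨w, hw, hc⟩ := hW.max K' cK'
  exact ⟨K' ∩ w, inter_subset_left, ⟨cK'.1.inter (hW.cu w hw).1, hc⟩, w,
    fun x hx => hW.loc_eq hw hx.2⟩

theorem UC.finite_image {X : Type*} {f : Ca → X} {Q : Set Ca} (h : UC f Q) : (f '' Q).Finite := by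
  obtain ⟨N, hN⟩ := h
  have h1 : ((fun x => br x N) '' Q).Finite :=
    (List.finite_length_eq Bool N).subset (by rintro _ ⟨x, -, rfl⟩; exact br_length x N)
  classical
  by_cases hne : Q.Nonempty
  · obtain ⟨x0, -⟩ := hne
    let g : List Bool → X := fun s => if h : ∃ x ∈ Q, br x N = s then f h.choose else f x0
    refine (h1.image g).subset ?_
    rintro _ ⟨x, hx, rfl⟩
    refine ⟨br x N, ⟨x, hx, rfl⟩, ?_⟩
    have h2 : ∃ y ∈ Q, br y N = br x N := ⟨x, hx, rfl⟩
    simp only [g, dif_pos h2]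
    exact hN _ h2.choose_spec.1 _ hx (agr_of_br_eq h2.choose_spec.2)
  · rw [not_nonempty_iff_eq_empty] at hne
    rw [hne, image_empty]
    exact finite_empty

/-- additivity -/
def SAdd (c : Cardinal.{0}) : Prop := ∀ (ι X : Type) (f : ι → Ca → X) (K : Set Ca), #ι = c →
  CU K → (∀ i, DCon (f i) K) → ∃ Q ⊆ K, CU Q ∧ ∀ i, UC (f i) Q

/-- collapsing systems -/
def Rich (ι : Type) : Prop := ∃ (X : Type) (D : ι → X → Set Ca → Prop),
  (∀ i v Q Q', D i v Q → Q' ⊆ Q → CU Q' → D i v Q') ∧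
  (∀ i v v' Q, CU Q → D i v Q → D i v' Q → v = v') ∧
  ∀ K, CU K → 𝔠 ≤ #{p : ι × X // ∃ Q ⊆ K, CU Q ∧ D p.1 p.2 Q}

/-- good systems -/
structure GoodSys {L : Type} [LinearOrder L] (W : L → Set (Set Ca)) : Prop where
  cu : ∀ i, ∀ w ∈ W i, CU w
  disj : ∀ i, ∀ w ∈ W i, ∀ w' ∈ W i, w ≠ w' → Disjoint w w'
  fin : ∀ i, ∀ w ∈ W i, ∀ i' < i, {w' | w' ∈ W i' ∧ (w ∩ w').Nonempty}.Finite
  rich : ∀ K, CU K → 𝔠 ≤ #{p : L × Set Ca // p.2 ∈ W p.1 ∧ ¬ (K ∩ p.2).Countable}

open Classical in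
theorem Rich.goodSys {c : Cardinal.{0}} (hadd : ∀ c' < c, SAdd c') (h : Rich c.ord.ToType) :
    ∃ W : c.ord.ToType → Set (Set Ca), GoodSys W := by
  obtain ⟨X, D, hD1, hD2, hD3⟩ := h
  let wf : WellFounded (fun a b : c.ord.ToType => a < b) := wellFounded_lt
  let DD : ∀ i : c.ord.ToType, (∀ i', i' < i → Set (Set Ca)) → Set (Set Ca) := fun i prev =>
    {Q | CU Q ∧ ((∃ v, D i v Q) ∨ ∀ v Q', Q' ⊆ Q → CU Q' → ¬ D i v Q') ∧
      ∀ i' (hi : i' < i), UC (loc (prev i' hi)) Q}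
  let step : ∀ i : c.ord.ToType, (∀ i', i' < i → Set (Set Ca)) → Set (Set Ca) := fun i prev =>
    if h : ∀ K, CU K → ∃ Q ⊆ K, CU Q ∧ Q ∈ DD i prev then (exists_Mxl h).choose else ∅
  let W : c.ord.ToType → Set (Set Ca) := wf.fix step
  have hW : ∀ i, W i = step i (fun i' _ => W i') := fun i => wf.fix_eq step i
  have hmax : ∀ i, W i ⊆ DD i (fun i' _ => W i') ∧ Mxl (W i) := by
    intro i
    induction i using wf.induction with
    | _ i ih =>
      have hdense : ∀ K, CU K → ∃ Q ⊆ K, CU Q ∧ Q ∈ DD i (fun i' _ => W i') := by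
        intro K hK
        obtain ⟨K1, hK1, cK1, h1⟩ := hadd _ (mk_Iio_lt_ord i) (Iio i) (Set Ca)
          (fun i' => loc (W i'.1)) K rfl hK (fun i' => (ih i'.1 i'.2).2.DCon K)
        by_cases hv : ∃ v Q', Q' ⊆ K1 ∧ CU Q' ∧ D i v Q'
        · obtain ⟨v, Q', h2, h3, h4⟩ := hv
          exact ⟨Q', h2.trans hK1, h3, h3, Or.inl ⟨v, h4⟩, fun i' hi => (h1 ⟨i', hi⟩).mono h2⟩
        · refine ⟨K1, hK1, cK1, cK1, Or.inr fun v Q' h2 h3 h4 => hv ⟨v, Q', h2, h3, h4⟩,
            fun i' hi => h1 ⟨i', hi⟩⟩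
      rw [hW]
      simp only [step]
      rw [dif_pos hdense]
      exact (exists_Mxl hdense).choose_spec
  refine ⟨W, fun i => (hmax i).2.cu, fun i => (hmax i).2.disj, ?_, ?_⟩
  · intro i w hw i' hi
    have h1 : UC (loc (W i')) w := ((hmax i).1 hw).2.2 i' hi
    refine h1.finite_image.subset ?_
    rintro w' ⟨hw', x, hx, hx'⟩
    exact ⟨x, hx, (hmax i').2.loc_eq hw' hx'⟩
  · intro K hK
    refine (hD3 K hK).trans ?_
    have key : ∀ p : {p : c.ord.ToType × X // ∃ Q ⊆ K, CU Q ∧ D p.1 p.2 Q},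
        ∃ w ∈ W p.1.1, ¬ (K ∩ w).Countable ∧ D p.1.1 p.1.2 w := by
      rintro ⟨⟨i, v⟩, Q, hQ, cQ, hQD⟩
      simp only at hQD ⊢
      obtain ⟨w, hw, hc⟩ := (hmax i).2.max Q cQ
      have cQw : CU (Q ∩ w) := ⟨cQ.1.inter ((hmax i).2.cu w hw).1, hc⟩
      have h1 : D i v (Q ∩ w) := hD1 i v Q _ hQD inter_subset_left cQw
      refine ⟨w, hw, fun hcc => hc (hcc.mono (inter_subset_inter_left _ hQ)), ?_⟩
      rcases ((hmax i).1 hw).2.1 with ⟨v', hv'⟩ | hno
      · have h2 : D i v' (Q ∩ w) := hD1 i v' w _ hv' inter_subset_right cQw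
        rw [hD2 i v v' _ cQw h1 h2]
        exact hv'
      · exact absurd h1 (hno v _ inter_subset_right cQw)
    choose w hw1 hw2 hw3 using key
    refine Cardinal.mk_le_of_injective (f := fun p => ⟨(p.1.1, w p), hw1 p, hw2 p⟩) ?_
    intro p q hpq
    simp only [Subtype.mk.injEq, Prod.mk.injEq] at hpq
    obtain ⟨h1, h2⟩ := hpq
    have hp := hw3 p
    have hq := hw3 q
    rw [← h1, ← h2] at hq
    have h3 := hD2 _ _ _ _ ((hmax _).2.cu _ (hw1 p)) hp hq
    exact Subtype.ext (Prod.ext h1 h3)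

end Run7.h474
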