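import Pool.Agent.Run7.h474.Big

set_option autoImplicit false

namespace Run7.h474

open Set Cardinal

/-- gluing along a finite disjoint family of closed sets -/
theorem UC_glue {X : Type*} {f : Ca → X} {F : Set (Set Ca)} (hF : F.Finite)
    (hcl : ∀ w ∈ F, IsClosed w) (hd : ∀ w ∈ F, ∀ w' ∈ F, w ≠ w' → Disjoint w w')
    (hf : ∀ w ∈ F, UC f w) : UC f (⋃₀ F) := by
  classical
  have : Finite F := hF
  obtain ⟨N1, hN1⟩ := UC_finite (ι := F) (fun _ => f) (fun w => w.1) (fun w => hf w.1 w.2)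
  have hsep : ∀ p : F × F, ∃ m, p.1 ≠ p.2 → ∀ x ∈ p.1.1, ∀ y ∈ p.2.1, ¬ agr m x y := by
    rintro ⟨w, w'⟩
    by_cases h : w = w'
    · exact ⟨0, fun h' => absurd h h'⟩
    · obtain ⟨m, hm⟩ := exists_sep (hcl w.1 w.2) (hcl w'.1 w'.2)
        (hd w.1 w.2 w'.1 w'.2 (fun h' => h (Subtype.ext h')))
      exact ⟨m, fun _ => hm⟩
  choose m hm using hsep
  have := Fintype.ofFinite (F × F)
  refine ⟨max N1 (Finset.univ.sup m), ?_⟩
  rintro x ⟨w, hw, hx⟩ y ⟨w', hw', hy⟩ hxy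
  have hww : (⟨w, hw⟩ : F) = ⟨w', hw'⟩ := by
    by_contra hne
    refine hm (⟨w, hw⟩, ⟨w', hw'⟩) hne x hx y hy (hxy.mono ?_)
    exact (Finset.le_sup (f := m) (Finset.mem_univ _)).trans (le_max_right _ _)
  have hww' : w = w' := congrArg Subtype.val hww
  subst hww'
  exact hN1 ⟨w, hw⟩ x hx y hy (hxy.mono (le_max_left _ _))

/-- a failure of additivity can be moved to the whole space -/
theorem exists_bad {c : Cardinal.{0}} (h : ¬ SAdd c) : ∃ (ι X : Type) (f : ι → Ca → X),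
    #ι = c ∧ (∀ i, DCon (f i) univ) ∧ ∀ Q, CU Q → ∃ i, ¬ UC (f i) Q := by
  unfold SAdd at h
  push Not at h
  obtain ⟨ι, X, f, K, hι, hK, hf, hQ⟩ := h
  obtain ⟨φ, h1, h2, h3⟩ := hK.exists_inj
  refine ⟨ι, X, fun i x => f i (φ x), hι, ?_, ?_⟩
  · intro i K' _ cK'
    obtain ⟨Q, a1, a2, v, a3⟩ := hf i (φ '' K') (by
      rintro _ ⟨x, -, rfl⟩
      exact h1 ⟨x, rfl⟩) (CU_image cK' h2 h3.injOn)
    refine ⟨K' ∩ φ ⁻¹' Q, inter_subset_left, ⟨cK'.1.inter (a2.1.preimage h2), fun hc => ?_⟩, v,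
      fun x hx => a3 _ hx.2⟩
    refine a2.2 ((hc.image φ).mono ?_)
    intro y hy
    obtain ⟨x, hx, rfl⟩ := a1 hy
    exact ⟨x, ⟨hx, hy⟩, rfl⟩
  · intro Q cQ
    by_contra hcon
    push Not at hcon
    obtain ⟨i, hi⟩ := hQ (φ '' Q) (by
      rintro _ ⟨x, -, rfl⟩
      exact h1 ⟨x, rfl⟩) (CU_image cQ h2 h3.injOn)
    apply hi
    obtain ⟨N, hN⟩ := hcon i
    let F : Set (Set Ca) := (fun s : List Bool => φ '' (Q ∩ {y | br y N = s})) ''
      {s | s.length = N}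
    have hbr : ∀ s : List Bool, IsClosed {y : Ca | br y N = s} := by
      intro s
      by_cases hs : ∃ x : Ca, br x N = s
      · obtain ⟨x, hx⟩ := hs
        have : {y : Ca | br y N = s} = {y | agr N x y} := by
          ext y
          constructor
          · intro hy
            exact agr_of_br_eq (hx.trans hy.symm)
          · intro hy
            exact (br_eq_of_agr hy).symm.trans hx
        rw [this]
        exact isClosed_agr N x
      · have : {y : Ca | br y N = s} = ∅ := by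
          ext y
          simp only [mem_ofPred_eq, mem_empty_iff_false, iff_false]
          exact fun hy => hs ⟨y, hy⟩
        rw [this]
        exact isClosed_empty
    have hF : F.Finite := (List.finite_length_eq Bool N).image _
    have hU : φ '' Q = ⋃₀ F := by
      ext y
      constructor
      · rintro ⟨x, hx, rfl⟩
        exact ⟨_, ⟨br x N, br_length x N, rfl⟩, ⟨x, ⟨hx, rfl⟩, rfl⟩⟩
      · rintro ⟨_, ⟨s, -, rfl⟩, ⟨x, ⟨hx, -⟩, rfl⟩⟩
        exact ⟨x, hx, rfl⟩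
    rw [hU]
    refine UC_glue hF ?_ ?_ ?_
    · rintro _ ⟨s, -, rfl⟩
      exact ((cQ.1.inter (hbr s)).isCompact.image h2).isClosed
    · rintro _ ⟨s, hs, rfl⟩ _ ⟨t, ht, rfl⟩ hne
      rw [Set.disjoint_left]
      rintro _ ⟨x, ⟨-, hx⟩, rfl⟩ ⟨y, ⟨-, hy⟩, hxy⟩
      have : y = x := h3 hxy
      subst this
      apply hne
      have : s = t := hx.symm.trans hy
      rw [this]
    · rintro _ ⟨s, hs, rfl⟩
      refine ⟨0, ?_⟩
      rintro _ ⟨x, ⟨hx, hx'⟩, rfl⟩ _ ⟨y, ⟨hy, hy'⟩, rfl⟩ -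
      exact hN x hx y hy (agr_of_br_eq (hx'.trans hy'.symm))

theorem SAdd_of_le_aleph0 {c : Cardinal.{0}} (h : c ≤ ℵ₀) : SAdd c := by
  intro ι X f K hι hK hf
  have hc : Countable ι := by
    rw [← Cardinal.mk_le_aleph0_iff, hι]
    exact h
  rcases isEmpty_or_nonempty ι with he | hne
  · exact ⟨K, Subset.rfl, hK, fun i => (he.false i).elim⟩
  · obtain ⟨s, hs⟩ := exists_surjective_nat ι
    obtain ⟨Q, h1, h2, h3⟩ := fusion (fun n => f (s n)) hK (fun n => hf (s n))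
    refine ⟨Q, h1, h2, fun i => ?_⟩
    obtain ⟨n, rfl⟩ := hs i
    exact h3 n

/-- `Q` is almost covered by finitely many elements of `V` -/
def FC (V : Set (Set Ca)) (Q : Set Ca) : Prop := ∃ F ⊆ V, F.Finite ∧ (Q \ ⋃₀ F).Countable

theorem FC.mono {V : Set (Set Ca)} {Q Q' : Set Ca} (h : FC V Q) (hQ : Q' ⊆ Q) : FC V Q' := by
  obtain ⟨F, h1, h2, h3⟩ := h
  exact ⟨F, h1, h2, h3.mono (sdiff_subset_sdiff_left hQ)⟩

theorem FC.union {V : Set (Set Ca)} {Q Q' : Set Ca} (h : FC V Q) (h' : FC V Q') :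
    FC V (Q ∪ Q') := by
  obtain ⟨F, h1, h2, h3⟩ := h
  obtain ⟨F', h1', h2', h3'⟩ := h'
  refine ⟨F ∪ F', union_subset h1 h1', h2.union h2', (h3.union h3').mono ?_⟩
  rintro x ⟨hx | hx, hx'⟩
  · exact Or.inl ⟨hx, fun ⟨w, hw, hxw⟩ => hx' ⟨w, Or.inl hw, hxw⟩⟩
  · exact Or.inr ⟨hx, fun ⟨w, hw, hxw⟩ => hx' ⟨w, Or.inr hw, hxw⟩⟩

theorem FC_of_countable {V : Set (Set Ca)} {Q : Set Ca} (h : Q.Countable) : FC V Q :=
  ⟨∅, empty_subset _, finite_empty, h.mono sdiff_subset⟩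

theorem FC_of_sub {V : Set (Set Ca)} {Q w : Set Ca} (hw : w ∈ V) (h : Q ⊆ w) : FC V Q := by
  refine ⟨{w}, by simpa using hw, finite_singleton w, ?_⟩
  convert countable_empty
  ext x
  simp only [sUnion_singleton, mem_sdiff, mem_empty_iff_false, iff_false, not_and, not_not]
  exact fun hx => h hx

theorem FC_of_pieces {V : Set (Set Ca)} {Q : Set Ca} {F : Set (Set Ca)} (hF : F.Finite)
    (hc : (Q \ ⋃₀ F).Countable) (h : ∀ w ∈ F, FC V (Q ∩ w)) : FC V Q := by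
  induction F, hF using Set.Finite.induction_on generalizing Q with
  | empty =>
    refine FC_of_countable (hc.mono ?_)
    intro x hx
    exact ⟨hx, by simp⟩
  | @insert w F hw hF ih =>
    have h1 : FC V (Q ∩ w) := h w (mem_insert _ _)
    have h2 : FC V (Q \ w) := by
      refine ih (hc.mono ?_) (fun w' hw' => (h w' (mem_insert_of_mem _ hw')).mono
        (inter_subset_inter_left _ sdiff_subset))
      rintro x ⟨⟨hx, hxw⟩, hx'⟩
      refine ⟨hx, ?_⟩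
      rintro ⟨w', hw', hxw'⟩
      rcases hw' with rfl | hw'
      · exact hxw hxw'
      · exact hx' ⟨w', hw', hxw'⟩
    have := h1.union h2
    rwa [inter_union_sdiff] at this

theorem exists_piece {V V' : Set (Set Ca)} {Q : Set Ca} (h : FC V' Q) (h' : ¬ FC V Q) :
    ∃ w ∈ V', ¬ FC V (Q ∩ w) := by
  obtain ⟨F, h1, h2, h3⟩ := h
  by_contra hc
  push Not at hc
  exact h' (FC_of_pieces h2 h3 fun w hw => hc w (h1 hw))

theorem UC_of_cover {X : Type*} {f : Ca → X} {W : Set (Set Ca)} (hW : Mxl W)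
    (hf : ∀ w ∈ W, UC f w) {Q : Set Ca} {F : Set (Set Ca)} (hF : F.Finite) (hFW : F ⊆ W)
    (hQ : Q ⊆ ⋃₀ F) : UC f Q :=
  (UC_glue hF (fun w hw => (hW.cu w (hFW hw)).1)
    (fun w hw w' hw' => hW.disj w (hFW hw) w' (hFW hw')) (fun w hw => hf w (hFW hw))).mono hQ

/-- shrink into a maximal family on which additivity applies -/
theorem exists_cover {ι : Type} (hadd : SAdd #ι) (hι : #ι < 𝔠) {W : ι → Set (Set Ca)}
    (hW : ∀ i, Mxl (W i)) {K : Set Ca} (hK : CU K) :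
    ∃ Q ⊆ K, CU Q ∧ (∀ i, UC (loc (W i)) Q) ∧ ∀ i, ∃ F ⊆ W i, F.Finite ∧ Q ⊆ ⋃₀ F := by
  obtain ⟨Q, h1, h2, h3⟩ := hadd ι (Set Ca) (fun i => loc (W i)) K rfl hK
    (fun i => (hW i).DCon K)
  obtain ⟨Q', a1, a2, a3⟩ := h2.avoid' hι (fun i => {x | ∀ w ∈ W i, x ∉ w}) (by
    intro i
    by_contra hc
    have heq : Q ∩ {x | ∀ w ∈ W i, x ∉ w} = {x | x ∈ Q ∧ loc (W i) x = ∅} := by
      ext x
      constructor
      · rintro ⟨a, b⟩
        refine ⟨a, ?_⟩
        unfold loc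
        rw [dif_neg]
        rintro ⟨w, hw, hxw⟩
        exact b w hw hxw
      · rintro ⟨a, b⟩
        refine ⟨a, fun w hw hxw => ?_⟩
        rw [(hW i).loc_eq hw hxw] at b
        rw [b] at hxw
        exact hxw
    have hcc : CU (Q ∩ {x | ∀ w ∈ W i, x ∉ w}) := by
      refine ⟨?_, hc⟩
      rw [heq]
      exact ((h3 i).comp (fun w => w = ∅)).isClosed h2.1
    obtain ⟨w, hw, hw'⟩ := (hW i).max _ hcc
    apply hw'
    convert countable_empty
    ext x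
    simp only [mem_inter_iff, mem_ofPred_eq, mem_empty_iff_false, iff_false]
    rintro ⟨⟨-, h⟩, hxw⟩
    exact h w hw hxw)
  refine ⟨Q', a1.trans h1, a2, fun i => (h3 i).mono a1, fun i => ⟨loc (W i) '' Q', ?_,
    ((h3 i).mono a1).finite_image, ?_⟩⟩
  · rintro _ ⟨x, hx, rfl⟩
    have h4 : ∃ w ∈ W i, x ∈ w := by
      by_contra hc
      push Not at hc
      exact Set.disjoint_left.1 (a3 i) hx hc
    obtain ⟨w, hw, hxw⟩ := h4
    rw [(hW i).loc_eq hw hxw]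
    exact hw
  · intro x hx
    have h4 : ∃ w ∈ W i, x ∈ w := by
      by_contra hc
      push Not at hc
      exact Set.disjoint_left.1 (a3 i) hx hc
    obtain ⟨w, hw, hxw⟩ := h4
    refine ⟨loc (W i) x, ⟨x, hx, rfl⟩, ?_⟩
    rw [(hW i).loc_eq hw hxw]
    exact hxw

section

variable {θ : Cardinal.{0}}

theorem theta_gt (hθ : ¬ SAdd θ) : ℵ₀ < θ := by
  by_contra hc
  exact hθ (SAdd_of_le_aleph0 (not_lt.1 hc))

theorem theta_bdd (hθ : ¬ SAdd θ) (hmin : ∀ c < θ, SAdd c) (hθc : θ < 𝔠) {ι : Type}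
    (hι : #ι < θ) (ν : ι → θ.ord.ToType) : ∃ μ, ∀ i, ν i < μ := by
  by_contra hcon
  push Not at hcon
  obtain ⟨κ, X, f, hκ, h1, h2⟩ := exists_bad hθ
  have hφ : Nonempty (θ.ord.ToType ≃ κ) := by
    rw [← Cardinal.eq, Cardinal.mk_ord_toType, hκ]
  obtain ⟨φ⟩ := hφ
  have hIic : ∀ i, #(Iic (ν i)) < θ := by
    intro i
    have : Iic (ν i) = insert (ν i) (Iio (ν i)) := by
      ext a
      simp only [mem_Iic, mem_insert_iff, mem_Iio]
      exact le_iff_eq_or_lt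
    rw [this]
    exact lt_of_le_of_lt Cardinal.mk_insert_le
      (Cardinal.add_lt_of_lt (theta_gt hθ).le (mk_Iio_lt_ord _)
        (lt_trans Cardinal.one_lt_aleph0 (theta_gt hθ)))
  have hD : ∀ i, ∀ K, CU K → ∃ Q ⊆ K, CU Q ∧ Q ∈ {Q | ∀ a ≤ ν i, UC (f (φ a)) Q} := by
    intro i K hK
    obtain ⟨Q, a1, a2, a3⟩ := hmin _ (hIic i) (Iic (ν i)) X (fun a => f (φ a.1)) K rfl hK
      (fun a => (h1 _).mono (subset_univ _))
    exact ⟨Q, a1, a2, fun a ha => a3 ⟨a, ha⟩⟩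
  choose W hW1 hW2 using fun i => exists_Mxl (hD i)
  obtain ⟨Q, -, cQ, -, hQ⟩ := exists_cover (hmin _ hι) (hι.trans hθc) hW2 CU_univ
  obtain ⟨k, hk⟩ := h2 Q cQ
  apply hk
  obtain ⟨i, hi⟩ := hcon (φ.symm k)
  obtain ⟨F, b1, b2, b3⟩ := hQ i
  refine UC_of_cover (hW2 i) (fun w hw => ?_) b2 b1 b3
  have := hW1 i hw (φ.symm k) hi
  rwa [Equiv.apply_symm_apply] at this

open Classical in
/-- the matrix of maximal families witnessing the failure of additivity -/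
theorem exists_matrix (hθ : ¬ SAdd θ) (hmin : ∀ c < θ, SAdd c) (hθc : θ < 𝔠) :
    ∃ W : θ.ord.ToType → Set (Set Ca), (∀ i, Mxl (W i)) ∧
      (∀ i, ∀ w ∈ W i, ∀ i' < i, FC (W i') w) ∧
      ∀ Q, CU Q → ∃ i, ¬ FC (W i) Q := by
  obtain ⟨κ, X, f, hκ, h1, h2⟩ := exists_bad hθ
  have hφ : Nonempty (θ.ord.ToType ≃ κ) := by
    rw [← Cardinal.eq, Cardinal.mk_ord_toType, hκ]
  obtain ⟨φ⟩ := hφ
  let wf : WellFounded (fun a b : θ.ord.ToType => a < b) := wellFounded_lt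
  let DD : ∀ i : θ.ord.ToType, (∀ i', i' < i → Set (Set Ca)) → Set (Set Ca) := fun i prev =>
    {Q | CU Q ∧ (∃ v, ∀ x ∈ Q, f (φ i) x = v) ∧ ∀ i' (hi : i' < i), FC (prev i' hi) Q}
  let step : ∀ i : θ.ord.ToType, (∀ i', i' < i → Set (Set Ca)) → Set (Set Ca) := fun i prev =>
    if h : ∀ K, CU K → ∃ Q ⊆ K, CU Q ∧ Q ∈ DD i prev then (exists_Mxl h).choose else ∅
  let W : θ.ord.ToType → Set (Set Ca) := wf.fix step
  have hW : ∀ i, W i = step i (fun i' _ => W i') := fun i => wf.fix_eq step i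
  have hmax : ∀ i, W i ⊆ DD i (fun i' _ => W i') ∧ Mxl (W i) := by
    intro i
    induction i using wf.induction with
    | _ i ih =>
      have hdense : ∀ K, CU K → ∃ Q ⊆ K, CU Q ∧ Q ∈ DD i (fun i' _ => W i') := by
        intro K hK
        obtain ⟨K1, a1, a2, -, a3⟩ := exists_cover (hmin _ (mk_Iio_lt_ord i))
          ((mk_Iio_lt_ord i).trans hθc) (W := fun i' : Iio i => W i'.1)
          (fun i' => (ih i'.1 i'.2).2) hK
        obtain ⟨Q, b1, b2, b3⟩ := h1 (φ i) K1 (subset_univ _) a2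
        refine ⟨Q, b1.trans a1, b2, b2, b3, fun i' hi => ?_⟩
        obtain ⟨F, c1, c2, c3⟩ := a3 ⟨i', hi⟩
        refine FC.mono ⟨F, c1, c2, ?_⟩ b1
        convert countable_empty
        rw [sdiff_eq_empty]
        exact c3
      rw [hW]
      simp only [step]
      rw [dif_pos hdense]
      exact (exists_Mxl hdense).choose_spec
  refine ⟨W, fun i => (hmax i).2, fun i w hw i' hi => ((hmax i).1 hw).2.2 i' hi, ?_⟩
  intro Q cQ
  by_contra hcon
  push Not at hcon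
  choose F hF1 hF2 hF3 using hcon
  obtain ⟨Q', a1, a2, a3⟩ := cQ.avoid' (ι := θ.ord.ToType)
    (by rw [Cardinal.mk_ord_toType]; exact hθc) (fun i => (⋃₀ F i)ᶜ) (fun i => by
      rw [← sdiff_eq]
      exact hF3 i)
  obtain ⟨k, hk⟩ := h2 Q' a2
  apply hk
  have hcov : Q' ⊆ ⋃₀ F (φ.symm k) := by
    intro x hx
    by_contra hc
    exact Set.disjoint_left.1 (a3 (φ.symm k)) hx hc
  refine UC_of_cover (hmax (φ.symm k)).2 (fun w hw => ?_) (hF2 _) (hF1 _) hcov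
  obtain ⟨v, hv⟩ := ((hmax (φ.symm k)).1 hw).2.1
  rw [Equiv.apply_symm_apply] at hv
  exact ⟨0, fun x hx y hy _ => by rw [hv x hx, hv y hy]⟩

theorem FC.trans {W : θ.ord.ToType → Set (Set Ca)}
    (hW : ∀ i, ∀ w ∈ W i, ∀ i' < i, FC (W i') w) {i i' : θ.ord.ToType} (hi : i' ≤ i)
    {Q : Set Ca} (h : FC (W i) Q) : FC (W i') Q := by
  rcases lt_or_eq_of_le hi with hlt | rfl
  · obtain ⟨F, h1, h2, h3⟩ := h
    exact FC_of_pieces h2 h3 fun w hw => (hW i w (h1 hw) i' hlt).mono inter_subset_right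
  · exact h

end

end Run7.h474
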