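import Pool.Agent.Run7.h474.Theta1

set_option autoImplicit false

namespace Run7.h474

open Set Cardinal

/-- the sequence `s` converges to `i` -/
structure Lad {T : Type} [LinearOrder T] (s : ℕ → T) (i : T) : Prop where
  mono : StrictMono s
  lt : ∀ k, s k < i
  cof : ∀ i' < i, ∃ k, i' < s k

section

variable {c : Cardinal.{0}}

theorem exists_limit (hb : ∀ (ι : Type), #ι < c → ∀ ν : ι → c.ord.ToType, ∃ μ, ∀ i, ν i < μ)
    (hc : ℵ₀ < c) (t0 : c.ord.ToType) (R : c.ord.ToType → c.ord.ToType → Prop)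
    (hR : ∀ t, ∃ t', t < t' ∧ R t t') :
    ∃ (i : c.ord.ToType) (s : ℕ → c.ord.ToType), Lad s i ∧ s 0 = t0 ∧
      ∀ k, R (s k) (s (k + 1)) := by
  choose nx h1 h2 using hR
  let s : ℕ → c.ord.ToType := fun n => nx^[n] t0
  have hs : ∀ n, s (n + 1) = nx (s n) := fun n => Function.iterate_succ_apply' nx n t0
  have hmono : StrictMono s := strictMono_nat_of_lt_succ fun n => by rw [hs]; exact h1 _
  obtain ⟨μ, hμ⟩ := hb ℕ (by rw [mk_nat]; exact hc) s
  have hne : {μ | ∀ n, s n < μ}.Nonempty := ⟨μ, hμ⟩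
  refine ⟨wellFounded_lt.min _ hne, s, ⟨hmono, wellFounded_lt.min_mem _ hne, ?_⟩, rfl,
    fun k => by rw [hs]; exact h2 _⟩
  intro i' hi'
  by_contra hcon
  push Not at hcon
  refine wellFounded_lt.not_lt_min {μ | ∀ n, s n < μ} (x := i') ?_ hi'
  intro n
  exact lt_of_lt_of_le (hmono (Nat.lt_succ_self n)) (hcon (n + 1))

theorem Lad.exists_list {T : Type} [LinearOrder T] {s : ℕ → T} {i : T} (h : Lad s i)
    (L : List T) (hL : ∀ t ∈ L, t < i) : ∃ n, ∀ t ∈ L, t < s n := by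
  induction L with
  | nil => exact ⟨0, by simp⟩
  | cons a L ih =>
    obtain ⟨n, hn⟩ := ih fun t ht => hL t (List.mem_cons_of_mem _ ht)
    obtain ⟨k, hk⟩ := h.cof a (hL a List.mem_cons_self)
    refine ⟨max n k, fun t ht => ?_⟩
    rcases List.mem_cons.1 ht with rfl | ht
    · exact lt_of_lt_of_le hk (h.mono.monotone (le_max_right _ _))
    · exact lt_of_lt_of_le (hn t ht) (h.mono.monotone (le_max_left _ _))

theorem closure_point
    (hb : ∀ (ι : Type), #ι < c → ∀ ν : ι → c.ord.ToType, ∃ μ, ∀ i, ν i < μ)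
    (hc : ℵ₀ < c) {X : Type} (x0 : X) (op : X → List c.ord.ToType × ℕ × Bool → X)
    (act : X → c.ord.ToType → c.ord.ToType) :
    ∃ (i : c.ord.ToType) (s : ℕ → c.ord.ToType) (C : Set X), Lad s i ∧ x0 ∈ C ∧ #C < c ∧
      (∀ x ∈ C, ∀ π : List c.ord.ToType × ℕ × Bool, (∀ t ∈ π.1, t < i) → op x π ∈ C) ∧
      ∀ x ∈ C, ∀ a < i, act x a < i := by
  let run : List (List c.ord.ToType × ℕ × Bool) → X := fun l => l.foldr (fun π x => op x π) x0
  let ok : c.ord.ToType → Set (List (List c.ord.ToType × ℕ × Bool)) := fun i =>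
    {l | ∀ π ∈ l, ∀ t ∈ π.1, t < i}
  let C : c.ord.ToType → Set X := fun i => run '' ok i
  have hC : ∀ i, #(C i) < c := by
    intro i
    let emb : List (Iio i) × ℕ × Bool → List c.ord.ToType × ℕ × Bool :=
      fun π => (π.1.map Subtype.val, π.2)
    have hsub : C i ⊆ range (fun l : List (List (Iio i) × ℕ × Bool) => run (l.map emb)) := by
      rintro _ ⟨l, hl, rfl⟩
      have h1 : l ∈ range (List.map emb) := by
        rw [Set.range_list_map]
        intro π hπ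
        have h2 : π.1 ∈ range (List.map (Subtype.val : Iio i → c.ord.ToType)) := by
          rw [Set.range_list_map_coe]
          exact fun t ht => hl π hπ t ht
        obtain ⟨L, hL⟩ := h2
        exact ⟨(L, π.2), by simp only [emb, hL]⟩
      obtain ⟨l', rfl⟩ := h1
      exact ⟨l', rfl⟩
    refine lt_of_le_of_lt ((Cardinal.mk_le_mk_of_subset hsub).trans Cardinal.mk_range_le) ?_
    refine lt_of_le_of_lt (Cardinal.mk_list_le_max _) (max_lt hc ?_)
    rw [Cardinal.mk_prod, Cardinal.lift_id, Cardinal.lift_id]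
    refine Cardinal.mul_lt_of_lt hc.le
      (lt_of_le_of_lt (Cardinal.mk_list_le_max _) (max_lt hc (mk_Iio_lt_ord i))) ?_
    refine lt_of_le_of_lt ?_ hc
    exact Cardinal.mk_le_aleph0
  have hne : Nonempty c.ord.ToType := by
    rw [← Cardinal.mk_ne_zero_iff, Cardinal.mk_ord_toType]
    exact (lt_of_lt_of_le Cardinal.aleph0_pos hc.le).ne'
  obtain ⟨t0⟩ := hne
  have hR : ∀ t, ∃ t', t < t' ∧ ∀ x ∈ C t, ∀ a < t, act x a < t' := by
    intro t
    have h1 : #(Option (C t × Iio t)) < c := by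
      rw [Cardinal.mk_option]
      refine Cardinal.add_lt_of_lt hc.le ?_ (lt_trans Cardinal.one_lt_aleph0 hc)
      rw [Cardinal.mk_prod, Cardinal.lift_id, Cardinal.lift_id]
      exact Cardinal.mul_lt_of_lt hc.le (hC t) (mk_Iio_lt_ord t)
    obtain ⟨μ, hμ⟩ := hb _ h1 (fun o => match o with
      | none => t
      | some p => act p.1.1 p.2.1)
    exact ⟨μ, hμ none, fun x hx a ha => hμ (some (⟨x, hx⟩, ⟨a, ha⟩))⟩
  obtain ⟨i, s, hs, -, hs'⟩ := exists_limit hb hc t0 _ hR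
  refine ⟨i, s, C i, hs, ⟨[], by simp [ok], rfl⟩, hC i, ?_, ?_⟩
  · rintro _ ⟨l, hl, rfl⟩ π hπ
    refine ⟨π :: l, ?_, rfl⟩
    intro π' hπ'
    rcases List.mem_cons.1 hπ' with rfl | hπ'
    · exact hπ
    · exact hl π' hπ'
  · rintro _ ⟨l, hl, rfl⟩ a ha
    obtain ⟨n, hn⟩ := hs.exists_list (a :: l.flatMap (fun π => π.1)) (by
      intro t ht
      rcases List.mem_cons.1 ht with rfl | ht
      · exact ha
      · obtain ⟨π, hπ, htπ⟩ := List.mem_flatMap.1 ht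
        exact hl π hπ t htπ)
    refine (hs' n _ ⟨l, ?_, rfl⟩ a (hn a List.mem_cons_self)).trans (hs.lt (n + 1))
    intro π hπ t ht
    exact hn t (List.mem_cons_of_mem _ (List.mem_flatMap.2 ⟨π, hπ, ht⟩))

end

open Classical in
/-- a function with stationary fibres on the points of countable cofinality -/
theorem exists_stat : ∃ h : BI → BI, ∀ (ν : BI) (Φ : BI → BI), ∃ δ, (∃ d : ℕ → BI, Lad d δ) ∧
    (∀ ν' < δ, Φ ν' < δ) ∧ h δ = ν := by
  have hclub : ∀ (Φ : BI → BI) (μ : BI), ∃ δ, (∃ d : ℕ → BI, Lad d δ) ∧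
      (∀ ν' < δ, Φ ν' < δ) ∧ μ < δ := by
    intro Φ μ
    obtain ⟨i, s, h1, h2, h3⟩ := exists_limit (fun ι hι ν => BI_bdd hι ν) aleph0_lt_bb μ
      (fun t t' => ∀ ν < t, Φ ν < t') (by
        intro t
        have h1 : #(Option (Iio t)) < bb := by
          rw [Cardinal.mk_option]
          exact Cardinal.add_lt_of_lt aleph0_lt_bb.le (mk_Iio_BI t)
            (lt_trans Cardinal.one_lt_aleph0 aleph0_lt_bb)
        obtain ⟨t', ht'⟩ := BI_bdd h1 (fun o => match o with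
          | none => t
          | some ν => Φ ν.1)
        exact ⟨t', ht' none, fun ν hν => ht' (some ⟨ν, hν⟩)⟩)
    refine ⟨i, ⟨s, h1⟩, fun ν' hν' => ?_, h2 ▸ h1.lt 0⟩
    obtain ⟨k, hk⟩ := h1.cof ν' hν'
    exact (h3 k ν' hk).trans (h1.lt _)
  have hlad : ∀ δ : BI, ∃ d : ℕ → BI, (∃ d : ℕ → BI, Lad d δ) → Lad d δ := by
    intro δ
    by_cases h : ∃ d : ℕ → BI, Lad d δ
    · obtain ⟨d, hd⟩ := h
      exact ⟨d, fun _ => hd⟩
    · exact ⟨fun _ => δ, fun h' => absurd h' h⟩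
  choose lad hlad using hlad
  let N : ℕ → Set BI := fun n => {ν | ∀ Φ : BI → BI, ∃ δ, (∃ d : ℕ → BI, Lad d δ) ∧
    (∀ ν' < δ, Φ ν' < δ) ∧ lad δ n = ν}
  have hN : ∃ n, ∀ μ, ∃ ν ∈ N n, μ ≤ ν := by
    by_contra hcon
    push Not at hcon
    choose μ hμ using hcon
    have h1 : ∀ n ν, ∃ Φ : BI → BI, μ n ≤ ν → ∀ δ, (∃ d : ℕ → BI, Lad d δ) →
        (∀ ν' < δ, Φ ν' < δ) → lad δ n ≠ ν := by
      intro n ν
      by_cases h : μ n ≤ ν
      · have h2 : ν ∉ N n := fun h3 => absurd (hμ n ν h3) (not_lt.2 h)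
        simp only [N, mem_ofPred_eq] at h2
        push Not at h2
        obtain ⟨Φ, hΦ⟩ := h2
        exact ⟨Φ, fun _ δ a b => hΦ δ a b⟩
      · exact ⟨id, fun h' => absurd h' h⟩
    choose Φ hΦ using h1
    obtain ⟨M, hM⟩ := BI_bdd (by rw [mk_nat]; exact aleph0_lt_bb) μ
    have h2 : ∀ ξ : BI, ∃ ξ', ∀ n, ∀ a ≤ ξ, ∀ b ≤ ξ, Φ n a b < ξ' := by
      intro ξ
      have h3 : #(Iic ξ) < bb := by
        have : Iic ξ = insert ξ (Iio ξ) := by
          ext a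
          simp only [mem_Iic, mem_insert_iff, mem_Iio]
          exact le_iff_eq_or_lt
        rw [this]
        exact lt_of_le_of_lt Cardinal.mk_insert_le
          (Cardinal.add_lt_of_lt aleph0_lt_bb.le (mk_Iio_BI _)
            (lt_trans Cardinal.one_lt_aleph0 aleph0_lt_bb))
      obtain ⟨ξ', hξ'⟩ := BI_bdd (mk_prod_lt (α := ℕ) (by rw [mk_nat]; exact aleph0_lt_bb)
        (mk_prod_lt h3 h3)) (fun p => Φ p.1 p.2.1.1 p.2.2.1)
      exact ⟨ξ', fun n a ha b hb => hξ' (n, ⟨a, ha⟩, ⟨b, hb⟩)⟩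
    choose Ψ hΨ using h2
    obtain ⟨δ, hδ1, hδ2, hδ3⟩ := hclub Ψ M
    obtain ⟨n, hn⟩ := (hlad δ hδ1).cof M hδ3
    refine hΦ n (lad δ n) ((hM n).trans hn).le δ hδ1 (fun ν' hν' => ?_) rfl
    refine (hΨ (max (lad δ n) ν') n (lad δ n) (le_max_left _ _) ν' (le_max_right _ _)).trans ?_
    exact hδ2 _ (max_lt ((hlad δ hδ1).lt n) hν')
  obtain ⟨n, hn⟩ := hN
  have hcard : bb ≤ #(N n) := by
    by_contra hc
    rw [not_le] at hc
    obtain ⟨μ, hμ⟩ := BI_bdd hc (fun ν => ν.1)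
    obtain ⟨ν, hν, hν'⟩ := hn μ
    exact absurd (hμ ⟨ν, hν⟩) (not_lt.2 hν')
  rw [← mk_BI] at hcard
  obtain ⟨φ⟩ := (Cardinal.le_def _ _).1 hcard
  have hπ : ∃ π : BI → BI, ∀ ν, π (φ ν).1 = ν := by
    refine ⟨fun ν' => if h : ∃ ν, (φ ν).1 = ν' then h.choose else ν', fun ν => ?_⟩
    have h : ∃ ν1, (φ ν1).1 = (φ ν).1 := ⟨ν, rfl⟩
    simp only [dif_pos h]
    exact φ.injective (Subtype.ext h.choose_spec)
  obtain ⟨π, hπ⟩ := hπ
  refine ⟨fun δ => π (lad δ n), fun ν Φ => ?_⟩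
  obtain ⟨δ, h1, h2, h3⟩ := (φ ν).2 Φ
  refine ⟨δ, h1, h2, ?_⟩
  simp only [h3, hπ]

end Run7.h474
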