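import Pool.Agent.Run7.h474.Theta2

set_option autoImplicit false

namespace Run7.h474

open Set Cardinal

/-- the first difference of two points is `l` -/
def Dl (x x' : Ca) (l : ℕ) : Prop := agr l x x' ∧ x l ≠ x' l

theorem Dl.unique {x x' : Ca} {l l' : ℕ} (h : Dl x x' l) (h' : Dl x x' l') : l = l' := by
  rcases lt_trichotomy l l' with h1 | h1 | h1
  · exact absurd (h'.1 l h1) h.2
  · exact h1
  · exact absurd (h.1 l' h1) h'.2

theorem Dl.symm {x x' : Ca} {l : ℕ} (h : Dl x x' l) : Dl x' x l := ⟨h.1.symm, h.2.symm⟩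

/-- the first index with different colours is `k` -/
def Fd (c : ℕ → Ca → Set Ca) (x x' : Ca) (k : ℕ) : Prop :=
  (∀ j < k, c j x = c j x') ∧ c k x ≠ c k x'

theorem Fd.unique {c : ℕ → Ca → Set Ca} {x x' : Ca} {k k' : ℕ} (h : Fd c x x' k)
    (h' : Fd c x x' k') : k = k' := by
  rcases lt_trichotomy k k' with h1 | h1 | h1
  · exact absurd (h'.1 k h1) h.2
  · exact h1
  · exact absurd (h.1 k' h1) h'.2

theorem Fd.symm {c : ℕ → Ca → Set Ca} {x x' : Ca} {k : ℕ} (h : Fd c x x' k) : Fd c x' x k :=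
  ⟨fun j hj => (h.1 j hj).symm, h.2.symm⟩

/-- the window condition -/
structure Win (g : BI → ℕ → ℕ) (c : ℕ → Ca → Set Ca) (δ : BI) (Q : Set Ca) : Prop where
  uc : ∀ k, UC (c k) Q
  up : ∀ x ∈ Q, ∀ x' ∈ Q, x ≠ x' → ∃ k l, Fd c x x' k ∧ Dl x x' l ∧ l < g δ k
  lo : ∀ ν < δ, ∃ m, ∀ k ≥ m, ∀ x ∈ Q, ∀ x' ∈ Q, ∀ l, Fd c x x' k → Dl x x' l → g ν k ≤ l

theorem Win.sub {g : BI → ℕ → ℕ} {c : ℕ → Ca → Set Ca} {δ : BI} {Q Q' : Set Ca}
    (h : Win g c δ Q) (hQ : Q' ⊆ Q) : Win g c δ Q' := by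
  refine ⟨fun k => (h.uc k).mono hQ, fun x hx x' hx' => h.up x (hQ hx) x' (hQ hx'), ?_⟩
  intro ν hν
  obtain ⟨m, hm⟩ := h.lo ν hν
  exact ⟨m, fun k hk x hx x' hx' => hm k hk x (hQ hx) x' (hQ hx')⟩

theorem Win.nlt {g : BI → ℕ → ℕ} {c : ℕ → Ca → Set Ca} {δ δ' : BI} {Q : Set Ca} (cQ : CU Q)
    (h : Win g c δ Q) (h' : Win g c δ' Q) : ¬ δ < δ' := by
  intro hlt
  obtain ⟨m, hm⟩ := h'.lo δ hlt
  obtain ⟨N, hN⟩ := UC_finite (ι := Fin m) (fun k => c k) (fun _ => Q) (fun k => h.uc k)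
  obtain ⟨l, ⟨x, hx, y, hy, h1, h2⟩, hNl⟩ := cQ.exists_Lv N
  obtain ⟨k, l', h3, h4, h5⟩ := h.up x hx y hy (fun e => h2 (by rw [e]))
  have hk : m ≤ k := by
    by_contra hc
    rw [not_le] at hc
    exact h3.2 (hN ⟨k, hc⟩ x hx y hy (h1.mono hNl))
  have := hm k hk x hx y hy l' h3 h4
  omega

theorem Win.unique {g : BI → ℕ → ℕ} {c : ℕ → Ca → Set Ca} {δ δ' : BI} {Q : Set Ca} (cQ : CU Q)
    (h : Win g c δ Q) (h' : Win g c δ' Q) : δ = δ' :=
  le_antisymm (_root_.not_lt.1 (h'.nlt cQ h)) (_root_.not_lt.1 (h.nlt cQ h'))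

section

variable {T : Type} [LinearOrder T] (W : T → Set (Set Ca))

/-- two pieces of `Q` first separated at the head of the list -/
structure PP (Q : Set Ca) (L : List T) (m : ℕ) (p : Set Ca × Set Ca × ℕ) : Prop where
  sub0 : p.1 ⊆ Q
  sub1 : p.2.1 ⊆ Q
  cu0 : CU p.1
  cu1 : CU p.2.1
  le : m ≤ p.2.2
  dl : ∀ x ∈ p.1, ∀ y ∈ p.2.1, Dl x y p.2.2
  ag0 : ∀ x ∈ p.1, ∀ y ∈ p.1, agr (p.2.2 + 1) x y
  ag1 : ∀ x ∈ p.2.1, ∀ y ∈ p.2.1, agr (p.2.2 + 1) x y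
  sep : ∃ a L', L = a :: L' ∧ (∀ t ∈ L', ∃ w ∈ W t, p.1 ⊆ w ∧ p.2.1 ⊆ w) ∧
    ∃ w0 ∈ W a, ∃ w1 ∈ W a, w0 ≠ w1 ∧ p.1 ⊆ w0 ∧ p.2.1 ⊆ w1

variable {W}

theorem not_FC_local {V : Set (Set Ca)} {R : Set Ca} (hR : IsClosed R) (h : ¬ FC V R) (m : ℕ) :
    ∃ x, ¬ FC V (R ∩ {y | agr m x y}) := by
  by_contra hcon
  push Not at hcon
  apply h
  refine hR.isCompact.induction_on (p := FC V) (FC_of_countable countable_empty)
    (fun s t hst ht => ht.mono hst) (fun s t hs ht => hs.union ht) ?_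
  intro x _
  refine ⟨R ∩ {y | agr m x y}, ?_, hcon x⟩
  exact Filter.inter_mem self_mem_nhdsWithin
    (mem_nhdsWithin_of_mem_nhds ((isOpen_agr m x).mem_nhds (agr.refl m x)))

theorem two_pieces {V : Set (Set Ca)} (hV : Mxl V) {R : Set Ca} (hR : IsClosed R)
    (h : ¬ FC V R) (m : ℕ) : ∃ (R0 R1 : Set Ca) (l : ℕ), R0 ⊆ R ∧ R1 ⊆ R ∧ CU R0 ∧ CU R1 ∧
      m ≤ l ∧ (∀ x ∈ R0, ∀ y ∈ R1, Dl x y l) ∧ (∀ x ∈ R0, ∀ y ∈ R0, agr (l + 1) x y) ∧
      (∀ x ∈ R1, ∀ y ∈ R1, agr (l + 1) x y) ∧ ∃ w0 ∈ V, ∃ w1 ∈ V, w0 ≠ w1 ∧ R0 ⊆ w0 ∧ R1 ⊆ w1 := by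
  obtain ⟨x0, hx0⟩ := not_FC_local hR h m
  have c0 : CU (R ∩ {y | agr m x0 y}) :=
    ⟨hR.inter (isClosed_agr m x0), fun hc => hx0 (FC_of_countable hc)⟩
  obtain ⟨w0, hw0, hc0⟩ := hV.max _ c0
  have h1 : ¬ ((R ∩ {y | agr m x0 y}) \ w0).Countable := by
    intro hc
    exact hx0 ⟨{w0}, by simpa using hw0, finite_singleton w0, by simpa using hc⟩
  obtain ⟨Q', hQ', cQ'⟩ := exists_CU_of_measurable
    (c0.1.measurableSet.diff (hV.cu w0 hw0).1.measurableSet) h1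
  obtain ⟨w1, hw1, hc1⟩ := hV.max _ cQ'
  have hne : w0 ≠ w1 := by
    rintro rfl
    apply hc1
    convert countable_empty
    ext x
    simp only [mem_inter_iff, mem_empty_iff_false, iff_false]
    rintro ⟨a, b⟩
    exact (hQ' a).2 b
  obtain ⟨u, ⟨hu, huw⟩, -, huc⟩ := exists_cond hc0 countable_empty
  obtain ⟨v, ⟨hv, hvw⟩, -, hvc⟩ := exists_cond hc1 countable_empty
  have huv : u ≠ v := fun e => (hQ' hv).2 (e ▸ huw)
  obtain ⟨l, hl, hl'⟩ := exists_diff huv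
  have hml : m ≤ l := by
    by_contra hc
    exact hl' ((hu.2.symm.trans (hQ' hv).1.2) l (not_le.1 hc))
  have cu0 : CU (R ∩ {y | agr m x0 y} ∩ w0) := ⟨c0.1.inter (hV.cu w0 hw0).1, hc0⟩
  have cu1 : CU (Q' ∩ w1) := ⟨cQ'.1.inter (hV.cu w1 hw1).1, hc1⟩
  refine ⟨_, _, l, ?_, ?_, cu0.inter_agr huc (l + 1), cu1.inter_agr hvc (l + 1), hml, ?_, ?_, ?_,
    w0, hw0, w1, hw1, hne, ?_, ?_⟩
  · exact fun x hx => hx.1.1.1
  · exact fun x hx => (hQ' hx.1.1).1.1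
  · rintro x ⟨-, hx⟩ y ⟨-, hy⟩
    refine ⟨((hx.mono (Nat.le_succ l)).symm.trans hl).trans (hy.mono (Nat.le_succ l)), ?_⟩
    rw [← hx l (Nat.lt_succ_self l), ← hy l (Nat.lt_succ_self l)]
    exact hl'
  · rintro x ⟨-, hx⟩ y ⟨-, hy⟩
    exact hx.symm.trans hy
  · rintro x ⟨-, hx⟩ y ⟨-, hy⟩
    exact hx.symm.trans hy
  · exact fun x hx => hx.1.2
  · exact fun x hx => hx.1.2

theorem shrink_list (hW : ∀ i, Mxl (W i)) {a : T} :
    ∀ (L : List T) (R : Set Ca), IsClosed R → (∀ t ∈ L, FC (W t) R) → ¬ FC (W a) R →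
      ∃ R' ⊆ R, IsClosed R' ∧ ¬ FC (W a) R' ∧ ∀ t ∈ L, ∃ w ∈ W t, R' ⊆ w
  | [], R, hR, _, h => ⟨R, Subset.rfl, hR, h, by simp⟩
  | t :: L, R, hR, hL, h => by
    obtain ⟨w, hw, h1⟩ := exists_piece (hL t List.mem_cons_self) h
    obtain ⟨R', a1, a2, a3, a4⟩ := shrink_list hW L (R ∩ w) (hR.inter ((hW t).cu w hw).1)
      (fun t' ht' => (hL t' (List.mem_cons_of_mem _ ht')).mono inter_subset_left) h1
    refine ⟨R', a1.trans inter_subset_left, a2, a3, fun t' ht' => ?_⟩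
    rcases List.mem_cons.1 ht' with rfl | ht'
    · exact ⟨w, hw, a1.trans inter_subset_right⟩
    · exact a4 t' ht'

theorem exists_PP (hW : ∀ i, Mxl (W i)) {a : T} {L : List T} {R : Set Ca} (hR : IsClosed R)
    (hL : ∀ t ∈ L, FC (W t) R) (h : ¬ FC (W a) R) (m : ℕ) : ∃ p, PP W R (a :: L) m p := by
  obtain ⟨R', a1, a2, a3, a4⟩ := shrink_list hW L R hR hL h
  obtain ⟨R0, R1, l, b1, b2, b3, b4, b5, b6, b7, b8, w0, hw0, w1, hw1, b9, b10, b11⟩ :=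
    two_pieces (hW a) a2 a3 m
  refine ⟨(R0, R1, l), b1.trans a1, b2.trans a1, b3, b4, b5, b6, b7, b8, a, L, rfl, ?_, w0, hw0,
    w1, hw1, b9, b10, b11⟩
  intro t ht
  obtain ⟨w, hw, hw'⟩ := a4 t ht
  exact ⟨w, hw, b1.trans hw', b2.trans hw'⟩

theorem PP.mono {Q Q' : Set Ca} {L : List T} {m : ℕ} {p : Set Ca × Set Ca × ℕ}
    (h : PP W Q L m p) (hQ : Q ⊆ Q') : PP W Q' L m p :=
  ⟨h.sub0.trans hQ, h.sub1.trans hQ, h.cu0, h.cu1, h.le, h.dl, h.ag0, h.ag1, h.sep⟩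

end

section

variable {θ : Cardinal.{0}}

open Classical in
/-- below every closed uncountable set there are windows at stationary many points -/
theorem exists_window (hθ : ℵ₀ < θ) (hθb : θ < bb)
    (hb : ∀ (ι : Type), #ι < θ → ∀ ν : ι → θ.ord.ToType, ∃ μ, ∀ i, ν i < μ)
    {W : θ.ord.ToType → Set (Set Ca)} (hW : ∀ i, Mxl (W i))
    (hW2 : ∀ i, ∀ w ∈ W i, ∀ i' < i, FC (W i') w) (hW3 : ∀ Q, CU Q → ∃ i, ¬ FC (W i) Q)
    {g : BI → ℕ → ℕ} (hg1 : ∀ ν, Monotone (g ν))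
    (hg2 : ∀ ν ν', ν < ν' → ∃ m, ∀ n ≥ m, g ν n ≤ g ν' n)
    (hg3 : ∀ h : ℕ → ℕ, ∃ ν, ∀ m, ∃ n ≥ m, h n < g ν n)
    {lad : θ.ord.ToType → ℕ → θ.ord.ToType} (hlad : ∀ i, (∃ s, Lad s i) → Lad (lad i) i)
    {P : Set Ca} (hP : CU P) : ∃ (i : θ.ord.ToType) (Φ : BI → BI), ∀ δ, (∃ d, Lad d δ) →
      (∀ ν < δ, Φ ν < δ) → ∃ Q ⊆ P, CU Q ∧ Win g (fun k => loc (W (lad i k))) δ Q := by
  -- choices
  have hch : ∀ (x : {Q : Set Ca // CU Q}) (L : List θ.ord.ToType) (m : ℕ),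
      ∃ p, (∃ p', PP W x.1 L m p') → PP W x.1 L m p := by
    intro x L m
    by_cases h : ∃ p', PP W x.1 L m p'
    · obtain ⟨p', hp'⟩ := h
      exact ⟨p', fun _ => hp'⟩
    · exact ⟨(∅, ∅, 0), fun h' => absurd h' h⟩
  choose ch hch using hch
  let op : {Q : Set Ca // CU Q} → List θ.ord.ToType × ℕ × Bool → {Q : Set Ca // CU Q} :=
    fun x π => if h : PP W x.1 π.1 π.2.1 (ch x π.1 π.2.1) then
      (if π.2.2 then ⟨(ch x π.1 π.2.1).1, h.cu0⟩ else ⟨(ch x π.1 π.2.1).2.1, h.cu1⟩) else x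
  have hact : ∀ (x : {Q : Set Ca // CU Q}) (a : θ.ord.ToType), ∃ t, ∃ w ∈ W a,
      CU (x.1 ∩ w) ∧ ¬ FC (W t) (x.1 ∩ w) := by
    intro x a
    obtain ⟨w, hw, hc⟩ := (hW a).max x.1 x.2
    have hcu : CU (x.1 ∩ w) := ⟨x.2.1.inter ((hW a).cu w hw).1, hc⟩
    obtain ⟨t, ht⟩ := hW3 _ hcu
    exact ⟨t, w, hw, hcu, ht⟩
  choose act hact using hact
  obtain ⟨i, s, C, hs, hPC, hCc, hCop, hCact⟩ := closure_point hb hθ
    (⟨P, hP⟩ : {Q : Set Ca // CU Q}) op act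
  have hl : Lad (lad i) i := hlad i ⟨s, hs⟩
  let lm : ℕ → θ.ord.ToType := lad i
  let LL : ℕ → List θ.ord.ToType := fun k => lm k :: (List.range k).map lm
  have hLL : ∀ k, ∀ t ∈ LL k, t < i := by
    intro k t ht
    rcases List.mem_cons.1 ht with rfl | ht
    · exact hl.lt k
    · obtain ⟨j, -, rfl⟩ := List.mem_map.1 ht
      exact hl.lt j
  -- many possible splittings
  have hnx : ∀ x : {Q : Set Ca // CU Q}, x ∈ C → ∀ k0, ∃ k, k0 < k ∧ ∀ m, ∃ p,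
      PP W x.1 (LL k) m p := by
    intro x hx k0
    obtain ⟨w, hw, hcu, ht⟩ := hact x (lm k0)
    have h1 : act x (lm k0) < i := hCact x hx _ (hl.lt k0)
    obtain ⟨k', hk'⟩ := hl.cof _ h1
    have hex : ∃ k, ¬ FC (W (lm k)) (x.1 ∩ w) :=
      ⟨k', fun hc => ht (FC.trans hW2 hk'.le hc)⟩
    have h2 : ¬ FC (W (lm (Nat.find hex))) (x.1 ∩ w) := Nat.find_spec hex
    have h3 : ∀ j < Nat.find hex, FC (W (lm j)) (x.1 ∩ w) := fun j hj =>
      not_not.1 (Nat.find_min hex hj)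
    refine ⟨Nat.find hex, ?_, fun m => ?_⟩
    · by_contra hc
      rw [not_lt] at hc
      exact h2 (FC.trans hW2 (hl.mono.monotone hc) (FC_of_sub hw inter_subset_right))
    · obtain ⟨p, hp⟩ := exists_PP hW hcu.1 (L := (List.range (Nat.find hex)).map lm) (by
        intro t ht
        obtain ⟨j, hj, rfl⟩ := List.mem_map.1 ht
        exact h3 j (List.mem_range.1 hj)) h2 m
      exact ⟨p, hp.mono inter_subset_left⟩
  have hnx' : ∀ (x : {Q : Set Ca // CU Q}) (k0 : ℕ), ∃ k, x ∈ C → k0 < k ∧ ∀ m, ∃ p,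
      PP W x.1 (LL k) m p := by
    intro x k0
    by_cases hx : x ∈ C
    · obtain ⟨k, hk⟩ := hnx x hx k0
      exact ⟨k, fun _ => hk⟩
    · exact ⟨0, fun h => absurd h hx⟩
  choose nx hnx using hnx'
  let φ : BI → {Q : Set Ca // CU Q} → ℕ → ℕ := fun ν x k =>
    (ch x (LL (nx x k)) (max (g ν (nx x k)) (nx x k))).2.2
  have hΦ : ∀ ν : BI, ∃ δ' : BI, ∀ x ∈ C, ∀ M, ∃ k ≥ M, φ ν x k < g δ' k := by
    intro ν
    obtain ⟨H, hH⟩ := Dmn_of_lt (hCc.trans hθb) (fun x : C => φ ν x.1)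
    obtain ⟨δ', hδ'⟩ := hg3 H
    refine ⟨δ', fun x hx M => ?_⟩
    obtain ⟨m, hm⟩ := hH ⟨x, hx⟩
    obtain ⟨n, hn, hn'⟩ := hδ' (max m M)
    exact ⟨n, le_trans (le_max_right _ _) hn,
      lt_of_le_of_lt (hm n (le_trans (le_max_left _ _) hn)) hn'⟩
  choose Φ hΦ using hΦ
  refine ⟨i, Φ, ?_⟩
  rintro δ ⟨d, hd⟩ hδ
  -- one step
  have hstep : ∀ (x : C) (n : ℕ), ∃ k, n ≤ k ∧ (∀ n' ≤ n, g (d n') k ≤ g (d n) k) ∧
      PP W x.1.1 (LL k) (max (g (d n) k) k) (ch x.1 (LL k) (max (g (d n) k) k)) ∧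
      (ch x.1 (LL k) (max (g (d n) k) k)).2.2 < g δ k := by
    intro x n
    obtain ⟨m1, hm1⟩ := hg2 _ _ (hδ _ (hd.lt n))
    have hK : ∃ K, ∀ n' ≤ n, ∀ k ≥ K, g (d n') k ≤ g (d n) k := by
      have h1 : ∀ n' : Fin (n + 1), ∃ K, ∀ k ≥ K, g (d n') k ≤ g (d n) k := by
        intro n'
        rcases lt_or_eq_of_le (Nat.le_of_lt_succ n'.2) with h | h
        · exact hg2 _ _ (hd.mono h)
        · exact ⟨0, fun k _ => by rw [h]⟩
      choose K hK using h1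
      refine ⟨Finset.univ.sup K, fun n' hn' k hk => ?_⟩
      exact hK ⟨n', Nat.lt_succ_of_le hn'⟩ k
        (le_trans (Finset.le_sup (f := K) (Finset.mem_univ _)) hk)
    obtain ⟨K, hK⟩ := hK
    obtain ⟨k, hk, hk'⟩ := hΦ (d n) x.1 x.2 (max (max m1 K) n)
    obtain ⟨h1, h2⟩ := hnx x.1 k x.2
    refine ⟨nx x.1 k, ?_, ?_, hch _ _ _ (h2 _), ?_⟩
    · exact (le_trans (le_max_right _ _) hk).trans h1.le
    · intro n' hn'
      exact hK n' hn' _ (le_trans (le_trans (le_trans (le_max_right _ _) (le_max_left _ _)) hk)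
        h1.le)
    · refine lt_of_lt_of_le hk' ((hm1 k ?_).trans (hg1 δ h1.le))
      exact le_trans (le_trans (le_max_left _ _) (le_max_left _ _)) hk
  choose kk hk1 hk2 hk3 hk4 using hstep
  let pp : C → ℕ → Set Ca × Set Ca × ℕ := fun x n =>
    ch x.1 (LL (kk x n)) (max (g (d n) (kk x n)) (kk x n))
  have hM : ∀ (x : C) (n : ℕ) (b : Bool), ∃ y : C,
      y.1.1 = if b then (pp x n).1 else (pp x n).2.1 := by
    intro x n b
    refine ⟨⟨op x.1 (LL (kk x n), max (g (d n) (kk x n)) (kk x n), b),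
      hCop x.1 x.2 _ (hLL _)⟩, ?_⟩
    simp only [op]
    rw [dif_pos (hk3 x n)]
    cases b
    · rfl
    · rfl
  choose M hM using hM
  let S : List Bool → C := iter ⟨⟨P, hP⟩, hPC⟩ (fun x s b => M x s.length b)
  let R : List Bool → Set Ca := fun s => (S s).1.1
  let kS : List Bool → ℕ := fun s => kk (S s) s.length
  let pS : List Bool → Set Ca × Set Ca × ℕ := fun s => pp (S s) s.length
  have hpS : ∀ s, PP W (R s) (LL (kS s)) (max (g (d s.length) (kS s)) (kS s)) (pS s) :=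
    fun s => hk3 (S s) s.length
  have hRt : ∀ s, R (true :: s) = (pS s).1 := fun s => hM (S s) s.length true
  have hRf : ∀ s, R (false :: s) = (pS s).2.1 := fun s => hM (S s) s.length false
  have hlS : ∀ s, (pS s).2.2 < g δ (kS s) := fun s => hk4 (S s) s.length
  have hkS : ∀ s, s.length ≤ kS s := fun s => hk1 (S s) s.length
  have hS : Scheme R := by
    refine ⟨fun s => (S s).1.2.1, fun s => (S s).1.2.nonempty, fun s b => ?_, fun s => ?_⟩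
    · cases b
      · rw [hRf]; exact (hpS s).sub1
      · rw [hRt]; exact (hpS s).sub0
    · rw [hRt, hRf, Set.disjoint_left]
      intro x hx hx'
      exact ((hpS s).dl x hx x hx').2 rfl
  -- the key property of pairs
  have hpair : ∀ s b c x y, b ≠ c → x ∈ R (b :: s) → y ∈ R (c :: s) →
      Fd (fun k => loc (W (lad i k))) x y (kS s) ∧ Dl x y (pS s).2.2 := by
    intro s b c x y hbc hx hy
    have key : ∀ x ∈ R (true :: s), ∀ y ∈ R (false :: s),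
        Fd (fun k => loc (W (lad i k))) x y (kS s) ∧ Dl x y (pS s).2.2 := by
      intro x hx y hy
      rw [hRt] at hx
      rw [hRf] at hy
      refine ⟨?_, (hpS s).dl x hx y hy⟩
      obtain ⟨a, L', hL, h1, w0, hw0, w1, hw1, hne, h2, h3⟩ := (hpS s).sep
      have hL' : lm (kS s) = a ∧ (List.range (kS s)).map lm = L' := List.cons_eq_cons.1 hL
      obtain ⟨rfl, rfl⟩ := hL'
      refine ⟨fun j hj => ?_, ?_⟩
      · obtain ⟨w, hw, h4, h5⟩ := h1 (lm j) (List.mem_map.2 ⟨j, List.mem_range.2 hj, rfl⟩)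
        change loc (W (lm j)) x = loc (W (lm j)) y
        rw [(hW _).loc_eq hw (h4 hx), (hW _).loc_eq hw (h5 hy)]
      · change loc (W (lm (kS s))) x ≠ loc (W (lm (kS s))) y
        rw [(hW _).loc_eq hw0 (h2 hx), (hW _).loc_eq hw1 (h3 hy)]
        exact hne
    cases b <;> cases c
    · exact absurd rfl hbc
    · obtain ⟨h1, h2⟩ := key y hy x hx
      exact ⟨h1.symm, h2.symm⟩
    · exact key x hx y hy
    · exact absurd rfl hbc
  have hbranch : ∀ x ∈ fuse R, ∀ y ∈ fuse R, x ≠ y → ∀ z w : Ca, (∀ n, x ∈ R (br z n)) →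
      (∀ n, y ∈ R (br w n)) → ∃ n, agr n z w ∧ z n ≠ w n ∧
        Fd (fun k => loc (W (lad i k))) x y (kS (br z n)) ∧ Dl x y (pS (br z n)).2.2 := by
    intro x hx y hy hne z w hz hw
    have hzw : z ≠ w := by
      rintro rfl
      apply hne
      refine eq_of_agr fun m => ?_
      have h1 : agr ((pS (br z m)).2.2 + 1) x y := by
        have e1 := hz (m + 1)
        have e2 := hw (m + 1)
        change x ∈ R (z m :: br z m) at e1
        change y ∈ R (z m :: br z m) at e2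
        cases hzm : z m
        · rw [hzm, hRf] at e1 e2
          exact (hpS _).ag1 x e1 y e2
        · rw [hzm, hRt] at e1 e2
          exact (hpS _).ag0 x e1 y e2
      refine h1.mono ?_
      have h2 := (hpS (br z m)).le
      have h3 := hkS (br z m)
      rw [br_length] at h3
      exact (h3.trans ((le_max_right _ _).trans h2)).trans (Nat.le_succ _)
    obtain ⟨n, hn, hn'⟩ := exists_diff hzw
    have hb' : br z n = br w n := br_eq_of_agr hn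
    refine ⟨n, hn, hn', hpair (br z n) (z n) (w n) x y hn' (hz (n + 1)) ?_⟩
    rw [hb']
    exact hw (n + 1)
  refine ⟨fuse R, hS.fuse_sub_nil, hS.CU_fuse, ?_, ?_, ?_⟩
  · intro k
    obtain ⟨N, hN⟩ := hS.sep (k + 1)
    refine ⟨N, fun x hx y hy hxy => ?_⟩
    by_cases hne : x = y
    · rw [hne]
    obtain ⟨z, hz⟩ := hS.branch hx
    obtain ⟨w, hw⟩ := hS.branch hy
    obtain ⟨n, h1, h2, h3, -⟩ := hbranch x hx y hy hne z w hz hw
    have h4 := agr_of_br_eq (hN _ _ (br_length z _) (br_length w _) x (hz _) y (hw _) hxy)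
    have h5 : k < n := by
      by_contra hc
      exact h2 (h4 n (by omega))
    have h6 := hkS (br z n)
    rw [br_length] at h6
    exact h3.1 k (lt_of_lt_of_le h5 h6)
  · intro x hx y hy hne
    obtain ⟨z, hz⟩ := hS.branch hx
    obtain ⟨w, hw⟩ := hS.branch hy
    obtain ⟨n, -, -, h3, h4⟩ := hbranch x hx y hy hne z w hz hw
    exact ⟨_, _, h3, h4, hlS _⟩
  · intro ν hν
    obtain ⟨n, hn⟩ := hd.cof ν hν
    obtain ⟨m0, hm0⟩ := hg2 _ _ hn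
    have hfin : (kS '' {s : List Bool | s.length < n}).Finite :=
      (List.finite_length_lt Bool n).image _
    obtain ⟨B, hB⟩ := hfin.bddAbove
    refine ⟨max m0 (B + 1), fun k hk x hx y hy l hF hD => ?_⟩
    have hne : x ≠ y := fun e => hD.2 (by rw [e])
    obtain ⟨z, hz⟩ := hS.branch hx
    obtain ⟨w, hw⟩ := hS.branch hy
    obtain ⟨j, -, -, h3, h4⟩ := hbranch x hx y hy hne z w hz hw
    have e1 := hF.unique h3
    have e2 := hD.unique h4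
    have hj : n ≤ j := by
      by_contra hc
      have : kS (br z j) ≤ B := hB ⟨br z j, by simpa using hc, rfl⟩
      rw [← e1] at this
      have h5 := le_trans (le_max_right _ _) hk
      omega
    have h6 : g (d n) (kS (br z j)) ≤ g (d (br z j).length) (kS (br z j)) :=
      hk2 (S (br z j)) (br z j).length n (by simpa using hj)
    have h7 := (le_max_left _ _).trans (hpS (br z j)).le
    rw [e2]
    refine le_trans (hm0 k (le_trans (le_max_left _ _) hk)) ?_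
    rw [e1]
    exact h6.trans h7

open Classical in
/-- the collapsing system of height the additivity -/
theorem rich_theta (hθ : ¬ SAdd θ) (hmin : ∀ c < θ, SAdd c) (hθb : θ < bb) (hR : Rich BI) :
    Rich θ.ord.ToType := by
  have hθc : θ < 𝔠 := lt_of_lt_of_le hθb bb_le
  have hb := fun (ι : Type) (hι : #ι < θ) (ν : ι → θ.ord.ToType) =>
    theta_bdd hθ hmin hθc hι ν
  obtain ⟨W, hW1, hW2, hW3⟩ := exists_matrix hθ hmin hθc
  obtain ⟨g, hg1, hg2, hg3⟩ := exists_scale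
  obtain ⟨h, hh⟩ := exists_stat
  have hlad : ∀ i : θ.ord.ToType, ∃ d : ℕ → θ.ord.ToType, (∃ s, Lad s i) → Lad d i := by
    intro i
    by_cases h : ∃ s : ℕ → θ.ord.ToType, Lad s i
    · obtain ⟨d, hd⟩ := h
      exact ⟨d, fun _ => hd⟩
    · exact ⟨fun _ => i, fun h' => absurd h' h⟩
  choose lad hlad using hlad
  obtain ⟨X, D, hD1, hD2, hD3⟩ := hR
  refine ⟨BI × X, fun i v Q => ∃ δ, h δ = v.1 ∧ Win g (fun k => loc (W (lad i k))) δ Q ∧
    D v.1 v.2 Q, ?_, ?_, ?_⟩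
  · rintro i v Q Q' ⟨δ, h1, h2, h3⟩ hQ cQ
    exact ⟨δ, h1, h2.sub hQ, hD1 _ _ _ _ h3 hQ cQ⟩
  · rintro i ⟨ν, v⟩ ⟨ν', v'⟩ Q cQ ⟨δ, h1, h2, h3⟩ ⟨δ', h1', h2', h3'⟩
    have hδ : δ = δ' := h2.unique cQ h2'
    subst hδ
    simp only at h1 h1' h3 h3'
    subst h1
    subst h1'
    rw [hD2 _ v v' Q cQ h3 h3']
  · intro K hK
    refine (hD3 K hK).trans ?_
    have key : ∀ p : {p : BI × X // ∃ Q ⊆ K, CU Q ∧ D p.1 p.2 Q}, ∃ i : θ.ord.ToType,
        ∃ Q ⊆ K, CU Q ∧ ∃ δ, h δ = p.1.1 ∧ Win g (fun k => loc (W (lad i k))) δ Q ∧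
          D p.1.1 p.1.2 Q := by
      rintro ⟨⟨ν, v⟩, Q, hQ, cQ, hQD⟩
      obtain ⟨i, Φ, hΦ⟩ := exists_window (theta_gt hθ) hθb hb hW1 hW2 hW3 hg1 hg2 hg3 hlad cQ
      obtain ⟨δ, h1, h2, h3⟩ := hh ν Φ
      obtain ⟨Q', a1, a2, a3⟩ := hΦ δ h1 h2
      exact ⟨i, Q', a1.trans hQ, a2, δ, h3, a3, hD1 _ _ _ _ hQD a1 a2⟩
    choose i hi using key
    refine Cardinal.mk_le_of_injective (f := fun p => ⟨(i p, p.1), hi p⟩) ?_
    intro p q hpq
    simp only [Subtype.mk.injEq, Prod.mk.injEq] at hpq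
    exact Subtype.ext hpq.2

end

end Run7.h474
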